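import Mathlib

/-!
Value groups and ramification indices of subfields of the field of `p`-adic complex numbers.
-/

open IntermediateField

namespace Pool.Agent.H707R3

variable {p : ℕ} [Fact p.Prime]

/-- The value group of a subfield of `ℂ_[p]`: the nonzero real numbers that are absolute values of
elements of the subfield. -/
noncomputable def valGroup (K : IntermediateField ℚ_[p] ℂ_[p]) : Subgroup ℝˣ where
  carrier := {r | ∃ x ∈ K, ‖x‖ = (r : ℝ)}
  mul_mem' := by
    rintro a b ⟨x, hx, ha⟩ ⟨y, hy, hb⟩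
    exact ⟨x * y, K.mul_mem hx hy, by rw [norm_mul, ha, hb, Units.val_mul]⟩
  one_mem' := ⟨1, K.one_mem, by simp⟩
  inv_mem' := by
    rintro a ⟨x, hx, ha⟩
    exact ⟨x⁻¹, K.inv_mem hx, by rw [norm_inv, ha, Units.val_inv_eq_inv_val]⟩

/-- The ramification index of a subfield `K` of `ℂ_[p]` over `ℚ_[p]`: the index of the value group
of `ℚ_[p]` in the value group of `K`. -/
noncomputable def ramIdx (K : IntermediateField ℚ_[p] ℂ_[p]) : ℕ :=
  (valGroup (⊥ : IntermediateField ℚ_[p] ℂ_[p])).relIndex (valGroup K)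

lemma mem_valGroup {K : IntermediateField ℚ_[p] ℂ_[p]} {r : ℝˣ} :
    r ∈ valGroup K ↔ ∃ x ∈ K, ‖x‖ = (r : ℝ) := Iff.rfl

lemma valGroup_mono {K M : IntermediateField ℚ_[p] ℂ_[p]} (h : K ≤ M) :
    valGroup K ≤ valGroup M := by
  rintro r ⟨x, hx, hr⟩
  exact ⟨x, h hx, hr⟩

/-- In an ultrametric field a finite family of elements whose nonzero members have distinct absolute
values has nonzero sum unless all vanish. -/
lemma sum_ne_zero_of_norm_ne {ι : Type*} (s : Finset ι) (f : ι → ℂ_[p])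
    (hd : ∀ i ∈ s, ∀ j ∈ s, i ≠ j → f i ≠ 0 → f j ≠ 0 → ‖f i‖ ≠ ‖f j‖)
    (hne : ∃ i ∈ s, f i ≠ 0) : ∑ i ∈ s, f i ≠ 0 := by
  classical
  set t := s.filter (fun i => f i ≠ 0) with ht
  have htn : t.Nonempty := by
    obtain ⟨i, hi, hfi⟩ := hne
    exact ⟨i, by simp [ht, hi, hfi]⟩
  obtain ⟨i, hi, hmax⟩ := t.exists_max_image (fun i => ‖f i‖) htn
  have hi' : i ∈ s ∧ f i ≠ 0 := by simpa [ht] using hi
  have hsum : ∑ j ∈ s, f j = f i + ∑ j ∈ t.erase i, f j := by
    rw [Finset.add_sum_erase _ _ hi, ht, Finset.sum_filter_ne_zero]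
  rw [hsum]
  intro h0
  have h1 : f i = -∑ j ∈ t.erase i, f j := by linear_combination h0
  have h2 : ‖∑ j ∈ t.erase i, f j‖ = ‖f i‖ := by rw [h1, norm_neg]
  rcases (t.erase i).eq_empty_or_nonempty with he | hne'
  · rw [he, Finset.sum_empty, norm_zero] at h2
    exact hi'.2 (norm_eq_zero.1 h2.symm)
  · obtain ⟨j, hj, hle⟩ := IsUltrametricDist.exists_norm_finsetSum_le_of_nonempty hne' f
    rw [h2] at hle
    have hj' : j ≠ i ∧ j ∈ t := by simpa using hj
    have hj'' : j ∈ s ∧ f j ≠ 0 := by simpa [ht] using hj'.2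
    exact hd j hj''.1 i hi'.1 hj'.1 hj''.2 hi'.2 (le_antisymm (hmax j hj'.2) hle)

/-- Every `m + 1` elements of `M` are linearly dependent over `K`. -/
def DepBound (K M : IntermediateField ℚ_[p] ℂ_[p]) (m : ℕ) : Prop :=
  ∀ x : Fin (m + 1) → ℂ_[p], (∀ i, x i ∈ M) →
    ∃ a : Fin (m + 1) → ℂ_[p], (∀ i, a i ∈ K) ∧ (∃ i, a i ≠ 0) ∧ ∑ i, a i * x i = 0

/-- The fundamental inequality. -/
lemma relIndex_le {K M : IntermediateField ℚ_[p] ℂ_[p]} {m : ℕ} (h : DepBound K M m) :
    (valGroup K).relIndex (valGroup M) ≠ 0 ∧ (valGroup K).relIndex (valGroup M) ≤ m := by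
  -- no `m + 1` distinct cosets
  have key : ∀ r : Fin (m + 1) → valGroup M,
      ∃ i j, i ≠ j ∧ ((r i : valGroup M)⁻¹ * r j) ∈ (valGroup K).subgroupOf (valGroup M) := by
    intro r
    by_contra hcon
    push Not at hcon
    choose x hx hxr using fun i => (r i).2
    obtain ⟨a, ha, ⟨i₀, hi₀⟩, hsum⟩ := h x hx
    have hxne : ∀ i, x i ≠ 0 := by
      intro i h0
      have := hxr i
      rw [h0, norm_zero] at this
      exact (r i).1.ne_zero this.symm
    refine sum_ne_zero_of_norm_ne Finset.univ (fun i => a i * x i) ?_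
      ⟨i₀, Finset.mem_univ _, mul_ne_zero hi₀ (hxne i₀)⟩ hsum
    intro i _ j _ hij hi hj heq
    have hai : a i ≠ 0 := left_ne_zero_of_mul hi
    have haj : a j ≠ 0 := left_ne_zero_of_mul hj
    apply hcon i j hij
    rw [Subgroup.mem_subgroupOf]
    refine ⟨a i * (a j)⁻¹, K.mul_mem (ha i) (K.inv_mem (ha j)), ?_⟩
    have hnj : ‖a j‖ ≠ 0 := norm_ne_zero_iff.2 haj
    have hri : ((r i : ℝˣ) : ℝ) ≠ 0 := (r i).1.ne_zero
    simp only [norm_mul] at heq
    rw [hxr i, hxr j] at heq
    rw [norm_mul, norm_inv]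
    simp only [Subgroup.coe_mul, Subgroup.coe_inv, Units.val_mul, Units.val_inv_eq_inv_val]
    field_simp
    linear_combination heq
  have hfin : ∀ s : Finset (valGroup M ⧸ (valGroup K).subgroupOf (valGroup M)), s.card ≤ m := by
    intro s
    by_contra hlt
    push Not at hlt
    obtain ⟨t, hts, htc⟩ := Finset.exists_subset_card_eq (Nat.succ_le_of_lt hlt)
    let e : Fin (m + 1) ≃ t := (Fintype.equivFinOfCardEq (by simpa using htc)).symm
    obtain ⟨i, j, hij, hm⟩ := key fun i => (e i).1.out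
    apply hij
    apply e.injective
    apply Subtype.ext
    rw [← QuotientGroup.out_eq' (e i).1, ← QuotientGroup.out_eq' (e j).1]
    exact QuotientGroup.eq.2 hm
  have hF : Finite (valGroup M ⧸ (valGroup K).subgroupOf (valGroup M)) := by
    by_contra hinf
    rw [not_finite_iff_infinite] at hinf
    obtain ⟨s, hs⟩ := Infinite.exists_subset_card_eq
      (valGroup M ⧸ (valGroup K).subgroupOf (valGroup M)) (m + 1)
    have := hfin s
    omega
  have : Fintype (valGroup M ⧸ (valGroup K).subgroupOf (valGroup M)) := Fintype.ofFinite _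
  refine ⟨?_, ?_⟩
  · rw [Subgroup.relIndex, Subgroup.index]
    exact Nat.card_pos.ne'
  · rw [Subgroup.relIndex, Subgroup.index, Nat.card_eq_fintype_card]
    exact hfin Finset.univ

/-- A finite extension `K(z)/K` of degree `m` has dependence bound `m`. -/
lemma depBound_of_finrank {K : IntermediateField ℚ_[p] ℂ_[p]} (M : IntermediateField K ℂ_[p])
    [FiniteDimensional K M] :
    DepBound K (M.restrictScalars ℚ_[p]) (Module.finrank K M) := by
  intro x hx
  let y : Fin (Module.finrank K M + 1) → M := fun i => ⟨x i, hx i⟩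
  have hdep : ¬ LinearIndependent K y := by
    intro hli
    have := hli.fintype_card_le_finrank
    simp at this
  rw [Fintype.not_linearIndependent_iff] at hdep
  obtain ⟨g, hg, i, hi⟩ := hdep
  refine ⟨fun i => (g i : ℂ_[p]), fun i => (g i).2, ⟨i, by simpa using hi⟩, ?_⟩
  have := congrArg (fun z : M => (z : ℂ_[p])) hg
  simpa [y, Algebra.smul_def] using this

end Pool.Agent.H707R3
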