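import Mathlib
import Pool.Agent.H707R3.ValueGroup

/-!
Absolute value of `1 - ζ` for a root of unity of `p`-power order, and the resulting lower bound for
ramification indices.
-/

open IntermediateField

namespace Pool.Agent.H707R3

variable {p : ℕ} [Fact p.Prime]

lemma norm_rootOfUnity {z : ℂ_[p]} {m : ℕ} (hm : m ≠ 0) (h : z ^ m = 1) : ‖z‖ = 1 := by
  have : ‖z‖ ^ m = 1 := by rw [← norm_pow, h, norm_one]
  exact (pow_eq_one_iff_of_nonneg (norm_nonneg _) hm).1 this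

lemma norm_one_sub_pow_le {z : ℂ_[p]} (hz : ‖z‖ = 1) (k : ℕ) : ‖1 - z ^ k‖ ≤ ‖1 - z‖ := by
  have h : 1 - z ^ k = (∑ i ∈ Finset.range k, z ^ i) * (1 - z) := (geom_sum_mul_neg z k).symm
  rw [h, norm_mul]
  have h1 : ‖∑ i ∈ Finset.range k, z ^ i‖ ≤ 1 := by
    refine IsUltrametricDist.norm_sum_le_of_forall_le_of_nonneg zero_le_one ?_
    intro i _
    rw [norm_pow, hz, one_pow]
  calc ‖∑ i ∈ Finset.range k, z ^ i‖ * ‖1 - z‖ ≤ 1 * ‖1 - z‖ :=
        mul_le_mul_of_nonneg_right h1 (norm_nonneg _)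
    _ = ‖1 - z‖ := one_mul _

lemma norm_one_sub_eq {z w : ℂ_[p]} {m : ℕ} (hm : m ≠ 0) (hz : IsPrimitiveRoot z m)
    (hw : IsPrimitiveRoot w m) : ‖1 - z‖ = ‖1 - w‖ := by
  have : NeZero m := ⟨hm⟩
  obtain ⟨i, _, _, hi⟩ := (hz.isPrimitiveRoot_iff (k := m)).1 hw
  obtain ⟨j, _, _, hj⟩ := (hw.isPrimitiveRoot_iff (k := m)).1 hz
  apply le_antisymm
  · rw [← hj]
    exact norm_one_sub_pow_le (norm_rootOfUnity hm hw.pow_eq_one) j
  · rw [← hi]
    exact norm_one_sub_pow_le (norm_rootOfUnity hm hz.pow_eq_one) i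

/-- `‖1 - ζ‖ ^ φ(p ^ n) = 1 / p` for a primitive `p ^ n`-th root of unity, `n ≥ 1`. -/
lemma norm_one_sub_pow_totient {z : ℂ_[p]} {n : ℕ} (hz : IsPrimitiveRoot z (p ^ (n + 1))) :
    ‖1 - z‖ ^ (Nat.totient (p ^ (n + 1))) = (p : ℝ)⁻¹ := by
  have hp0 : p ^ (n + 1) ≠ 0 := pow_ne_zero _ (Fact.out : p.Prime).ne_zero
  have h1 : Polynomial.cyclotomic (p ^ (n + 1)) ℂ_[p] =
      ∏ μ ∈ primitiveRoots (p ^ (n + 1)) ℂ_[p], (Polynomial.X - Polynomial.C μ) :=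
    Polynomial.cyclotomic_eq_prod_X_sub_primitiveRoots hz
  have h2 : Polynomial.eval 1 (Polynomial.cyclotomic (p ^ (n + 1)) ℂ_[p]) = p :=
    Polynomial.eval_one_cyclotomic_prime_pow n
  rw [h1, Polynomial.eval_prod] at h2
  simp only [Polynomial.eval_sub, Polynomial.eval_X, Polynomial.eval_C] at h2
  have h3 := congrArg norm h2
  rw [norm_prod] at h3
  have h4 : ∏ μ ∈ primitiveRoots (p ^ (n + 1)) ℂ_[p], ‖1 - μ‖ =
      ∏ μ ∈ primitiveRoots (p ^ (n + 1)) ℂ_[p], ‖1 - z‖ := by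
    refine Finset.prod_congr rfl fun μ hμ => ?_
    exact norm_one_sub_eq hp0 ((mem_primitiveRoots (Nat.pos_of_ne_zero hp0)).1 hμ) hz
  rw [h4, Finset.prod_const, hz.card_primitiveRoots] at h3
  rw [h3]
  have : ‖((p : ℚ_[p]) : ℂ_[p])‖ = ‖(p : ℚ_[p])‖ := PadicComplex.norm_extends' p _
  rw [Padic.norm_p] at this
  rw [← this]
  simp

lemma mem_valGroup_bot {r : ℝˣ}
    (h : r ∈ valGroup (⊥ : IntermediateField ℚ_[p] ℂ_[p])) : ∃ z : ℤ, (r : ℝ) = (p : ℝ) ^ z := by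
  obtain ⟨x, hx, hr⟩ := h
  obtain ⟨y, rfl⟩ := IntermediateField.mem_bot.1 hx
  have h1 : ‖(algebraMap ℚ_[p] ℂ_[p] y)‖ = ‖y‖ := PadicComplex.norm_extends' p y
  rw [h1] at hr
  have hy : y ≠ 0 := by
    rintro rfl
    rw [norm_zero] at hr
    exact r.ne_zero hr.symm
  exact ⟨-y.valuation, by rw [← hr, Padic.norm_eq_zpow_neg_valuation hy]⟩

/-- A field containing a primitive `p ^ (n + 1)`-th root of unity has ramification index at least
`φ(p ^ (n + 1))` (if that index is finite). -/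
lemma totient_le_ramIdx {M : IntermediateField ℚ_[p] ℂ_[p]} {z : ℂ_[p]} {n : ℕ}
    (hz : IsPrimitiveRoot z (p ^ (n + 1))) (hM : z ∈ M) (h0 : ramIdx M ≠ 0) :
    Nat.totient (p ^ (n + 1)) ≤ ramIdx M := by
  set φ := Nat.totient (p ^ (n + 1)) with hφ
  have hp : p.Prime := Fact.out
  have hφ0 : φ ≠ 0 := by
    rw [hφ]
    exact (Nat.totient_pos.2 (pow_pos hp.pos _)).ne'
  have hpow := norm_one_sub_pow_totient hz
  rw [← hφ] at hpow
  have hne : (1 - z : ℂ_[p]) ≠ 0 := by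
    intro h
    rw [h, norm_zero, zero_pow hφ0] at hpow
    have : (p : ℝ) ≠ 0 := Nat.cast_ne_zero.2 hp.ne_zero
    exact inv_ne_zero this hpow.symm
  let u : ℝˣ := Units.mk0 ‖1 - z‖ (norm_ne_zero_iff.2 hne)
  have hu : u ∈ valGroup M := ⟨1 - z, M.sub_mem M.one_mem hM, rfl⟩
  let r : valGroup M := ⟨u, hu⟩
  let H := (valGroup (⊥ : IntermediateField ℚ_[p] ℂ_[p])).subgroupOf (valGroup M)
  have hfin : Finite (valGroup M ⧸ H) := by
    have : H.index ≠ 0 := h0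
    have : H.FiniteIndex := ⟨this⟩
    exact Subgroup.finite_quotient_of_finiteIndex
  have hinj : Function.Injective (fun i : Fin φ => ((r ^ (i : ℕ) : valGroup M) : valGroup M ⧸ H)) := by
    intro i j hij
    have hm : (r ^ (i : ℕ))⁻¹ * r ^ (j : ℕ) ∈ H := QuotientGroup.eq.1 hij
    rw [Subgroup.mem_subgroupOf] at hm
    obtain ⟨k, hk⟩ := mem_valGroup_bot hm
    have h1 : ((((r ^ (i : ℕ))⁻¹ * r ^ (j : ℕ) : valGroup M) : ℝˣ) : ℝ) =
        ‖1 - z‖ ^ ((j : ℤ) - (i : ℤ)) := by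
      have : ‖1 - z‖ ≠ 0 := norm_ne_zero_iff.2 hne
      simp only [Subgroup.coe_mul, Subgroup.coe_inv, Subgroup.coe_pow, Units.val_mul,
        Units.val_inv_eq_inv_val, Units.val_pow_eq_pow_val]
      rw [zpow_sub₀ this, zpow_natCast, zpow_natCast]
      show (‖1 - z‖ ^ (i : ℕ))⁻¹ * ‖1 - z‖ ^ (j : ℕ) = _
      field_simp
    rw [h1] at hk
    have h2 : (‖1 - z‖ ^ ((j : ℤ) - (i : ℤ))) ^ (φ : ℤ) = ((p : ℝ) ^ k) ^ (φ : ℤ) := by rw [hk]
    rw [← zpow_mul, mul_comm, zpow_mul, zpow_natCast, hpow, inv_zpow, ← zpow_neg, ← zpow_mul] at h2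
    have hp1 : (1 : ℝ) < p := by exact_mod_cast hp.one_lt
    have h3 := zpow_right_injective₀ (by linarith) hp1.ne' h2
    have hdvd : (φ : ℤ) ∣ ((j : ℤ) - (i : ℤ)) := ⟨-k, by linarith⟩
    have hi := i.2
    have hj := j.2
    have habs : |(j : ℤ) - (i : ℤ)| < φ := by
      rw [abs_lt]
      constructor <;> omega
    have := Int.eq_zero_of_abs_lt_dvd hdvd habs
    apply Fin.ext
    omega
  have hcard := Nat.card_le_card_of_injective _ hinj
  rw [Nat.card_eq_fintype_card, Fintype.card_fin] at hcard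
  exact hcard

end Pool.Agent.H707R3
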