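import Mathlib
import Pool.Agent.H707R3.GroupAlg

/-!
Ramification of the fields generated by the reciprocal roots of Euler products with `p`-adic
exponents.
-/

open PowerSeries

namespace Pool.Agent.H707R3

variable {p : ℕ} [Fact p.Prime]

/-- The product of the linear factors `1 - α T` over a multiset of `p`-adic complex numbers. -/
noncomputable def recipProd (A : Multiset ℂ_[p]) : PowerSeries ℂ_[p] :=
  (A.map fun α => 1 - C α * X).prod

/-- The subfield of `ℂ_[p]` generated over `ℚ_[p]` by the members of a multiset. -/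
noncomputable def genField (A : Multiset ℂ_[p]) : IntermediateField ℚ_[p] ℂ_[p] :=
  IntermediateField.adjoin ℚ_[p] {α | α ∈ A}

lemma recipProd_cons (α : ℂ_[p]) (A : Multiset ℂ_[p]) :
    recipProd (α ::ₘ A) = recipProd A - C α * (X * recipProd A) := by
  simp only [recipProd, Multiset.map_cons, Multiset.prod_cons]
  ring

lemma coeff_zero_recipProd (A : Multiset ℂ_[p]) : coeff 0 (recipProd A) = 1 := by
  induction A using Multiset.induction with
  | empty => simp [recipProd]
  | cons α A ih =>
    rw [recipProd_cons, map_sub, ih, coeff_C_mul]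
    simp

lemma coeff_recipProd_mem (K : IntermediateField ℚ_[p] ℂ_[p]) (A : Multiset ℂ_[p])
    (h : ∀ α ∈ A, α ∈ K) : ∀ k, coeff k (recipProd A) ∈ K := by
  induction A using Multiset.induction with
  | empty =>
    intro k
    have : recipProd (0 : Multiset ℂ_[p]) = 1 := by simp [recipProd]
    rw [this, coeff_one]
    split_ifs
    · exact K.one_mem
    · exact K.zero_mem
  | cons α A ih =>
    intro k
    have ih' := ih fun β hβ => h β (Multiset.mem_cons_of_mem hβ)
    rw [recipProd_cons, map_sub, coeff_C_mul]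
    refine K.sub_mem (ih' k) (K.mul_mem (h α (Multiset.mem_cons_self α A)) ?_)
    rcases k with _ | k
    · simp
    · rw [coeff_succ_X_mul]
      exact ih' k

lemma coeff_recipProd_eq_zero (A : Multiset ℂ_[p]) :
    ∀ k, Multiset.card A < k → coeff k (recipProd A) = 0 := by
  induction A using Multiset.induction with
  | empty =>
    intro k hk
    have : recipProd (0 : Multiset ℂ_[p]) = 1 := by simp [recipProd]
    rw [this, coeff_one, if_neg]
    rintro rfl
    simp at hk
  | cons α A ih =>
    intro k hk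
    rw [Multiset.card_cons] at hk
    rw [recipProd_cons, map_sub, coeff_C_mul, ih k (by omega)]
    rcases k with _ | k
    · simp
    · rw [coeff_succ_X_mul, ih k (by omega)]
      simp

/-- The polynomial with the same coefficients. -/
noncomputable def recipPoly (A : Multiset ℂ_[p]) : Polynomial ℂ_[p] :=
  (A.map fun α => 1 - Polynomial.C α * Polynomial.X).prod

lemma coe_recipPoly (A : Multiset ℂ_[p]) : (recipPoly A : PowerSeries ℂ_[p]) = recipProd A := by
  induction A using Multiset.induction with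
  | empty => simp [recipPoly, recipProd]
  | cons α A ih =>
    simp only [recipPoly, recipProd, Multiset.map_cons, Multiset.prod_cons] at ih ⊢
    rw [Polynomial.coe_mul, ih]
    simp

/-- If all coefficients of `∏ (1 - α T)` are algebraic over `ℚ_[p]` then so are the `α`. -/
lemma isIntegral_of_coeff (A : Multiset ℂ_[p])
    (h : ∀ k, IsAlgebraic ℚ_[p] (coeff k (recipProd A))) : ∀ α ∈ A, IsIntegral ℚ_[p] α := by
  intro α hα
  by_cases h0 : α = 0
  · rw [h0]; exact isIntegral_zero
  let F₀ : IntermediateField ℚ_[p] ℂ_[p] := algebraicClosure ℚ_[p] ℂ_[p]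
  have hc : ∀ k, (recipPoly A).coeff k ∈ F₀ := by
    intro k
    rw [← Polynomial.coeff_coe, coe_recipPoly]
    exact mem_algebraicClosure_iff.2 (h k)
  have hlift : recipPoly A ∈ Polynomial.lifts (algebraMap F₀ ℂ_[p]) := by
    rw [Polynomial.lifts_iff_coeff_lifts]
    intro k
    exact ⟨⟨_, hc k⟩, rfl⟩
  obtain ⟨Q, hQ⟩ := hlift
  have hne : recipPoly A ≠ 0 := by
    intro h0'
    have h1 := coeff_zero_recipProd A
    rw [← coe_recipPoly, h0'] at h1
    simp at h1
  have hQ0 : Q ≠ 0 := by
    rintro rfl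
    apply hne
    rw [← hQ]
    simp
  have hroot : Polynomial.eval α⁻¹ (recipPoly A) = 0 := by
    obtain ⟨B, rfl⟩ := Multiset.exists_cons_of_mem hα
    simp only [recipPoly, Multiset.map_cons, Multiset.prod_cons, Polynomial.eval_mul]
    simp [mul_inv_cancel₀ h0]
  have halg : IsAlgebraic F₀ α⁻¹ := by
    refine ⟨Q, hQ0, ?_⟩
    rw [Polynomial.aeval_def, Polynomial.eval₂_eq_eval_map]
    have : Polynomial.map (algebraMap F₀ ℂ_[p]) Q = recipPoly A := hQ
    rw [this]
    exact hroot
  have hF₀ : Algebra.IsAlgebraic ℚ_[p] F₀ := algebraicClosure.isAlgebraic ℚ_[p] ℂ_[p]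
  have h2 : IsAlgebraic ℚ_[p] α⁻¹ := halg.restrictScalars ℚ_[p]
  have h3 : IsAlgebraic ℚ_[p] α := by
    have := h2.inv
    rwa [inv_inv] at this
  exact h3.isIntegral

/-- The field generated by finitely many algebraic elements has finite ramification index. -/
lemma ramIdx_ne_zero (A : Multiset ℂ_[p]) (h : ∀ α ∈ A, IsIntegral ℚ_[p] α) :
    ramIdx (genField A) ≠ 0 := by
  have hfin : Finite {α | α ∈ A} := by
    classical
    exact (A.toFinset.finite_toSet.subset (fun x hx => by simpa using hx)).to_subtype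
  have hfd : FiniteDimensional ℚ_[p] (genField A) :=
    IntermediateField.finiteDimensional_adjoin (fun x hx => h x hx)
  have hdep : DepBound (⊥ : IntermediateField ℚ_[p] ℂ_[p]) (genField A)
      (Module.finrank ℚ_[p] (genField A)) := by
    intro x hx
    let y : Fin (Module.finrank ℚ_[p] (genField A) + 1) → genField A := fun i => ⟨x i, hx i⟩
    have hdep : ¬ LinearIndependent ℚ_[p] y := by
      intro hli
      have := hli.fintype_card_le_finrank
      simp at this
    rw [Fintype.not_linearIndependent_iff] at hdep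
    obtain ⟨g, hg, i, hi⟩ := hdep
    refine ⟨fun i => algebraMap ℚ_[p] ℂ_[p] (g i), fun i => IntermediateField.algebraMap_mem _ _,
      ⟨i, by simpa using hi⟩, ?_⟩
    have := congrArg (fun z : genField A => (z : ℂ_[p])) hg
    simpa [y, Algebra.smul_def] using this
  exact (relIndex_le hdep).1

/-- Finitely many `p`-adic integers are distinguished modulo `p ^ n` for large `n`. -/
lemma exists_distinct (S : Finset ℤ_[p]) :
    ∃ N, ∀ n, N ≤ n → ∀ b ∈ S, ∀ b' ∈ S, res n b = res n b' → b = b' := by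
  classical
  have h1 : ∀ q : ℤ_[p] × ℤ_[p], ∃ N, ∀ n, N ≤ n → res n q.1 = res n q.2 → q.1 = q.2 := by
    intro q
    by_cases hq : q.1 = q.2
    · exact ⟨0, fun _ _ _ => hq⟩
    · by_contra hcon
      push Not at hcon
      apply hq
      rw [← PadicInt.ext_of_toZModPow]
      intro m
      obtain ⟨n, hn, he, _⟩ := hcon m
      have hne : NeZero (p ^ m) := ⟨pow_ne_zero _ (Fact.out : p.Prime).ne_zero⟩
      apply ZMod.val_injective
      show res m q.1 = res m q.2
      rw [← res_mod hn q.1, ← res_mod hn q.2, he]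
  choose f hf using h1
  refine ⟨(S ×ˢ S).sup f, fun n hn b hb b' hb' h => ?_⟩
  exact hf (b, b') n ((Finset.le_sup (f := f) (Finset.mk_mem_product hb hb')).trans hn) h

open scoped PowerSeries.WithPiTopology

/-- The Euler product with local factors `(1 - z ^ ρ(v) T ^ d(v))⁻¹`, where `z` is a root of unity
of order dividing `p ^ N`. -/
noncomputable def eulerL {ι : Type*} (ρ : ι → ℤ_[p]) (d : ι → ℕ) (N : ℕ) (z : ℂ_[p]) :
    PowerSeries ℂ_[p] :=
  ∏' v, (1 - C (z ^ res N (ρ v)) * X ^ d v)⁻¹

lemma coeff_eulerL {ι : Type*} [DecidableEq ι] (ρ : ι → ℤ_[p]) (d : ι → ℕ) (hd : ∀ v, d v ≠ 0)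
    (hfin : ∀ k, {v | d v ≤ k}.Finite) {N : ℕ} {z : ℂ_[p]} (hz : z ^ p ^ N = 1) (k : ℕ) :
    coeff k (eulerL ρ d N z) = evSum N (theta ρ d (hfin k).toFinset k).coeff z := by
  have h : (fun v => (1 - C (z ^ res N (ρ v)) * X ^ d v : PowerSeries ℂ_[p])⁻¹) =
      fun v => geom (z ^ res N (ρ v)) (d v) := by
    funext v
    exact inv_eq_geom _ (hd v)
  rw [eulerL, h, coeff_tprod_geom _ _ hfin, evHom_theta ρ d _ k hz]

lemma isAlgebraic_evSum {N : ℕ} {z : ℂ_[p]} (hz : z ^ p ^ N = 1) (M : ℤ_[p] →₀ ℕ) :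
    IsAlgebraic ℚ_[p] (evSum N M z) := by
  have hp : p.Prime := Fact.out
  have hint : IsIntegral ℚ_[p] z := by
    refine ⟨Polynomial.X ^ p ^ N - Polynomial.C 1,
      Polynomial.monic_X_pow_sub_C 1 (pow_pos hp.pos _).ne', ?_⟩
    simp [hz]
  have : IsIntegral ℚ_[p] (evSum N M z) := by
    apply IsIntegral.sum
    intro b _
    refine IsIntegral.mul ?_ (hint.pow _)
    have : ((M b : ℕ) : ℂ_[p]) = algebraMap ℚ_[p] ℂ_[p] (M b) := by simp
    rw [this]
    exact isIntegral_algebraMap
  exact this.isAlgebraic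

/-- **Core theorem.** Let `v` range over a nonempty index set, with positive integers `d v`, finitely
many of each value, and `p`-adic integers `ρ v`. Then there is `c > 0` such that for all large `n`
and every primitive `p ^ n`-th root of unity `z`: if the Euler product with factors
`(1 - z ^ ρ(v) T ^ d(v))⁻¹` equals `∏ (1 - α T)`, then the ramification index over `ℚ_[p]` of the
field generated by the `α` is at least `c p ^ n`. -/
theorem core {ι : Type*} [Nonempty ι] (ρ : ι → ℤ_[p]) (d : ι → ℕ) (hd : ∀ v, d v ≠ 0)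
    (hfin : ∀ k, {v | d v ≤ k}.Finite) :
    ∃ c : ℝ, 0 < c ∧ ∃ N : ℕ, ∀ n, N ≤ n → ∀ z : ℂ_[p], IsPrimitiveRoot z (p ^ n) →
      ∀ A : Multiset ℂ_[p], eulerL ρ d n z = recipProd A →
        c * (p : ℝ) ^ n ≤ ramIdx (genField A) := by
  classical
  have hp : p.Prime := Fact.out
  by_cases hρ : ∃ v, ρ v ≠ 0
  · obtain ⟨v₀, hv₀⟩ := hρ
    set k := d v₀ with hk
    set M : ℤ_[p] →₀ ℕ := (theta ρ d (hfin k).toFinset k).coeff with hM
    have hb₀ : ρ v₀ ∈ M.support :=
      mem_support_theta ρ d _ (by simp [hk]) (hd v₀)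
    obtain ⟨N, hN⟩ := exists_distinct M.support
    set D : ℕ := M.support.card * p ^ (ρ v₀).valuation with hD
    have hDpos : 0 < D := by
      apply Nat.mul_pos
      · exact Finset.card_pos.2 ⟨_, hb₀⟩
      · exact pow_pos hp.pos _
    have hDr : (0 : ℝ) < D := by exact_mod_cast hDpos
    have hp1 : (1 : ℝ) < p := by exact_mod_cast hp.one_lt
    have hp0 : (0 : ℝ) < p := by linarith
    refine ⟨(1 - (p : ℝ)⁻¹) / D, ?_, N + 1, ?_⟩
    · apply div_pos _ hDr
      have : (p : ℝ)⁻¹ < 1 := inv_lt_one_of_one_lt₀ hp1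
      linarith
    · intro n hn z hz A hA
      obtain ⟨n, rfl⟩ : ∃ m, n = m + 1 := ⟨n - 1, by omega⟩
      have hz1 : z ^ p ^ (n + 1) = 1 := hz.pow_eq_one
      have hcoeff := coeff_eulerL ρ d hd hfin hz1
      have halg : ∀ α ∈ A, IsIntegral ℚ_[p] α := by
        apply isIntegral_of_coeff
        intro j
        rw [← hA, hcoeff]
        exact isAlgebraic_evSum hz1 _
      have hK0 := ramIdx_ne_zero A halg
      have hmem : evSum (n + 1) M z ∈ genField A := by
        rw [hM, ← hcoeff, hA]
        exact coeff_recipProd_mem _ A (fun α hα => IntermediateField.subset_adjoin _ _ hα) k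
      have hdist := hN n (by omega)
      have h := ramIdx_ge (genField A) hK0 hz M hdist hb₀ hv₀ hmem
      rw [← hD] at h
      have htot : ((Nat.totient (p ^ (n + 1)) : ℕ) : ℝ) = (p : ℝ) ^ (n + 1) * (1 - (p : ℝ)⁻¹) := by
        rw [Nat.totient_prime_pow_succ hp]
        push_cast [Nat.cast_sub hp.one_lt.le]
        field_simp
        ring
      have h' : ((Nat.totient (p ^ (n + 1)) : ℕ) : ℝ) ≤ (ramIdx (genField A) : ℝ) * D := by
        exact_mod_cast h
      rw [htot] at h'
      rw [div_mul_eq_mul_div, div_le_iff₀ hDr]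
      linarith
  · push Not at hρ
    -- all exponents vanish: the Euler product is not a polynomial
    refine ⟨1, one_pos, 0, ?_⟩
    intro n _ z hz A hA
    exfalso
    obtain ⟨v₀⟩ := (inferInstance : Nonempty ι)
    set k := (Multiset.card A + 1) * d v₀ with hk
    have hkA : Multiset.card A < k := by
      have : 1 ≤ d v₀ := Nat.pos_of_ne_zero (hd v₀)
      calc Multiset.card A < Multiset.card A + 1 := Nat.lt_succ_self _
        _ ≤ (Multiset.card A + 1) * d v₀ := Nat.le_mul_of_pos_right _ this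
    have h0 := coeff_recipProd_eq_zero A k hkA
    have hfun : (fun v => (1 - C (z ^ res n (ρ v)) * X ^ d v : PowerSeries ℂ_[p])⁻¹) =
        fun v => geom (1 : ℂ_[p]) (d v) := by
      funext v
      rw [inv_eq_geom _ (hd v), hρ v]
      simp [res]
    rw [← hA, eulerL, hfun, coeff_tprod_geom (fun _ => (1 : ℂ_[p])) d hfin k] at h0
    have hmap : (∏ v ∈ (hfin k).toFinset, geom (1 : ℂ_[p]) (d v)) =
        PowerSeries.map (Nat.castRingHom ℂ_[p]) (∏ v ∈ (hfin k).toFinset, geom (1 : ℕ) (d v)) := by
      rw [map_prod (PowerSeries.map (Nat.castRingHom ℂ_[p]))]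
      refine Finset.prod_congr rfl fun v _ => ?_
      rw [map_geom, map_one]
    rw [hmap, coeff_map] at h0
    have h1 : coeff k (∏ v ∈ (hfin k).toFinset, geom (1 : ℕ) (d v)) = 0 := by
      have : ((coeff k (∏ v ∈ (hfin k).toFinset, geom (1 : ℕ) (d v)) : ℕ) : ℂ_[p]) = 0 := h0
      exact_mod_cast this
    have hv₀ : v₀ ∈ (hfin k).toFinset := by
      simp only [Set.Finite.mem_toFinset, Set.mem_ofPred_eq, hk]
      exact Nat.le_mul_of_pos_left _ (Nat.succ_pos _)
    have h2 := le_coeff_prod (AddMonoidHom.id ℕ) (hfin k).toFinset (fun v => geom (1 : ℕ) (d v))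
      (fun i _ => coeff_zero_geom _ _) hv₀ k
    simp only [AddMonoidHom.id_apply] at h2
    rw [h1, coeff_geom, if_pos (Dvd.intro_left _ hk.symm), one_pow] at h2
    omega

end Pool.Agent.H707R3
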