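import Mathlib
import Pool.Agent.H707R3.CurveDefs

/-!
Finiteness of the set of places of bounded degree of a function field over a finite field.
-/

open IntermediateField IsDedekindDomain

namespace Pool.Agent.H707R3

section center

variable {k F : Type*} [Field k] [Field F] [Algebra k F]

/-- An auxiliary package: a Dedekind domain `B` with fraction field `F`, of finite type over `k`. -/
structure DedModel (k F : Type*) [Field k] [Field F] [Algebra k F] where
  B : Subalgebra k F
  ded : IsDedekindDomain B
  frac : IsFractionRing B F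
  ft : Algebra.FiniteType k B

variable (D : DedModel k F) (v : Place k F) (hv : ∀ b ∈ D.B, b ∈ v.ring)

/-- The map from the Dedekind model to the residue field. -/
noncomputable def DedModel.toRes : D.B →+* v.κ :=
  (IsLocalRing.residue v.ring).comp
    ((D.B.toSubring.subtype).codRestrict v.ring.toSubring fun b => hv b b.2)

lemma residue_eq_zero_iff (x : v.ring) :
    IsLocalRing.residue v.ring x = 0 ↔ v.ring.valuation (x : F) < 1 := by
  rw [IsLocalRing.residue_eq_zero_iff, ← ValuationSubring.valuation_lt_one_iff]

/-- The center of the place on the Dedekind model. -/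
noncomputable def DedModel.center : Ideal D.B := RingHom.ker (D.toRes v hv)

lemma DedModel.mem_center (b : D.B) :
    b ∈ D.center v hv ↔ v.ring.valuation (b : F) < 1 := by
  rw [center, RingHom.mem_ker, toRes, RingHom.comp_apply, residue_eq_zero_iff]
  rfl

lemma DedModel.center_isPrime : (D.center v hv).IsPrime := RingHom.ker_isPrime _

lemma DedModel.center_ne_bot : D.center v hv ≠ ⊥ := by
  have := D.frac
  intro h
  apply v.ne_top
  rw [eq_top_iff]
  intro x _
  obtain ⟨a, b, hb, rfl⟩ := IsFractionRing.div_surjective (A := D.B) x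
  have hb0 : b ≠ 0 := nonZeroDivisors.ne_zero hb
  have hb1 : ¬ v.ring.valuation (b : F) < 1 := by
    rw [← D.mem_center v hv, h]
    exact hb0
  have hb2 : v.ring.valuation (b : F) = 1 :=
    le_antisymm ((ValuationSubring.valuation_le_one_iff _ _).2 (hv b b.2)) (not_lt.1 hb1)
  rw [← ValuationSubring.valuation_le_one_iff, map_div₀]
  have ha : v.ring.valuation (algebraMap D.B F a) ≤ 1 :=
    (ValuationSubring.valuation_le_one_iff _ _).2 (hv a a.2)
  have hb3 : v.ring.valuation (algebraMap D.B F b) = 1 := hb2
  rw [hb3, div_one]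
  exact ha

/-- The center as a height one prime. -/
noncomputable def DedModel.hos : @HeightOneSpectrum D.B _ :=
  ⟨D.center v hv, D.center_isPrime v hv, D.center_ne_bot v hv⟩

lemma DedModel.valuation_unit (s : D.B) (hs : s ∉ D.center v hv) :
    v.ring.valuation (s : F) = 1 := by
  rw [D.mem_center v hv] at hs
  exact le_antisymm ((ValuationSubring.valuation_le_one_iff _ _).2 (hv s s.2)) (not_lt.1 hs)

lemma DedModel.mem_ring_iff (x : F) :
    letI := D.ded; letI := D.frac
    x ∈ v.ring ↔ (D.hos v hv).valuation F x ≤ 1 := by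
  let _ := D.ded
  let _ := D.frac
  constructor
  · intro hx
    by_contra hlt
    push Not at hlt
    have hx0 : x ≠ 0 := by
      rintro rfl
      simp at hlt
    have h1 : (D.hos v hv).valuation F x⁻¹ < 1 := by
      rw [map_inv₀]
      exact inv_lt_one_of_one_lt₀ hlt
    obtain ⟨a, s, has⟩ := (D.hos v hv).exists_primeCompl_mul_eq_of_integer x⁻¹ h1.le
    have hs : (s : D.B) ∉ D.center v hv := s.2
    have ha : a ∈ D.center v hv := by
      have h2 : (D.hos v hv).valuation F (algebraMap D.B F a) < 1 := by
        rw [← has, map_mul]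
        calc (D.hos v hv).valuation F x⁻¹ * (D.hos v hv).valuation F (algebraMap D.B F s)
            ≤ (D.hos v hv).valuation F x⁻¹ * 1 :=
              mul_le_mul_right (HeightOneSpectrum.valuation_le_one _ _) _
          _ < 1 := by rwa [mul_one]
      exact (HeightOneSpectrum.valuation_lt_one_iff_mem _ _).1 h2
    have h3 : v.ring.valuation x⁻¹ < 1 := by
      have h4 : v.ring.valuation (x⁻¹ * (s : D.B)) < 1 := by
        have : x⁻¹ * ((s : D.B) : F) = (a : F) := has
        rw [this]
        exact (D.mem_center v hv a).1 ha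
      rwa [map_mul, D.valuation_unit v hv s hs, mul_one] at h4
    rw [map_inv₀] at h3
    have h5 : v.ring.valuation x ≤ 1 := (ValuationSubring.valuation_le_one_iff _ _).2 hx
    have h6 : v.ring.valuation x ≠ 0 := (Valuation.ne_zero_iff _).2 hx0
    have h7 := one_lt_inv₀ (zero_lt_iff.2 h6) |>.not
    rw [inv_lt_one₀ (zero_lt_iff.2 h6)] at h3
    exact absurd h5 (not_le.2 h3)
  · intro hx
    obtain ⟨a, s, has⟩ := (D.hos v hv).exists_primeCompl_mul_eq_of_integer x hx
    have hs : (s : D.B) ∉ D.center v hv := s.2
    rw [← ValuationSubring.valuation_le_one_iff]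
    have h1 : v.ring.valuation (x * ((s : D.B) : F)) ≤ 1 := by
      have : x * ((s : D.B) : F) = (a : F) := has
      rw [this]
      exact (ValuationSubring.valuation_le_one_iff _ _).2 (hv a a.2)
    rwa [map_mul, D.valuation_unit v hv s hs, mul_one] at h1

end center

lemma Place.ext_ring {k F : Type*} [Field k] [Field F] [Algebra k F] {v w : Place k F}
    (h : v.ring = w.ring) : v = w := by
  cases v; cases w; simp only at h; subst h; rfl

/-- A place is determined by its center. -/
lemma DedModel.center_injective {k F : Type*} [Field k] [Field F] [Algebra k F]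
    (D : DedModel k F) (v w : Place k F) (hv : ∀ b ∈ D.B, b ∈ v.ring)
    (hw : ∀ b ∈ D.B, b ∈ w.ring) (h : D.center v hv = D.center w hw) : v = w := by
  apply Place.ext_ring
  have hh : D.hos v hv = D.hos w hw := by
    apply HeightOneSpectrum.ext
    exact h
  ext x
  rw [D.mem_ring_iff v hv, D.mem_ring_iff w hw, hh]

/-- The map to the residue field is surjective. -/
lemma DedModel.toRes_surjective {k F : Type*} [Field k] [Field F] [Algebra k F]
    (D : DedModel k F) (v : Place k F) (hv : ∀ b ∈ D.B, b ∈ v.ring) :
    Function.Surjective (D.toRes v hv) := by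
  let _ := D.ded
  let _ := D.frac
  intro y
  obtain ⟨⟨x, hx⟩, rfl⟩ := IsLocalRing.residue_surjective y
  obtain ⟨a, s, has⟩ :=
    (D.hos v hv).exists_primeCompl_mul_eq_of_integer x ((D.mem_ring_iff v hv x).1 hx)
  have hs : (s : D.B) ∉ D.center v hv := s.2
  have hmax : (D.center v hv).IsMaximal := (D.hos v hv).isMaximal
  obtain ⟨s', i, hi, hs'⟩ := hmax.exists_inv hs
  have h1 : D.toRes v hv s' * D.toRes v hv s = 1 := by
    have h2 := congrArg (D.toRes v hv) hs'
    have h3 : D.toRes v hv i = 0 := hi
    rw [map_add, map_mul, h3, add_zero, map_one] at h2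
    exact h2
  refine ⟨a * s', ?_⟩
  have h4 : IsLocalRing.residue v.ring ⟨x, hx⟩ * D.toRes v hv s = D.toRes v hv a := by
    show IsLocalRing.residue v.ring ⟨x, hx⟩ * IsLocalRing.residue v.ring _ =
      IsLocalRing.residue v.ring _
    rw [← map_mul]
    congr 1
    exact Subtype.ext has
  rw [map_mul, ← h4, mul_assoc, mul_comm (D.toRes v hv s), h1, mul_one]

section finiteness

variable {k F : Type*} [Field k] [Field F] [Algebra k F]

/-- The residue field of a place is finite over the constant field. -/
lemma DedModel.finite_residue (D : DedModel k F) (v : Place k F)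
    (hv : ∀ b ∈ D.B, b ∈ v.ring) :
    letI : Algebra k v.κ := v.resHom.toAlgebra
    Module.Finite k v.κ := by
  letI : Algebra k v.κ := v.resHom.toAlgebra
  have := D.ft
  let f : D.B →ₐ[k] v.κ :=
    { D.toRes v hv with
      commutes' := fun r => rfl }
  have hf : Function.Surjective f := D.toRes_surjective v hv
  have : Algebra.FiniteType k v.κ := Algebra.FiniteType.of_surjective f hf
  exact finite_of_finite_type_of_isJacobsonRing k v.κ

lemma card_residue [Finite k] (v : Place k F)
    (h : letI : Algebra k v.κ := v.resHom.toAlgebra; Module.Finite k v.κ) :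
    Finite v.κ ∧ Nat.card v.κ = Nat.card k ^ v.deg ∧ v.deg ≠ 0 := by
  letI : Algebra k v.κ := v.resHom.toAlgebra
  have : Module.Finite k v.κ := h
  have hfin : Finite v.κ := Module.finite_of_finite k
  refine ⟨hfin, ?_, ?_⟩
  · exact Module.natCard_eq_pow_finrank
  · exact (Module.finrank_pos (R := k) (M := v.κ)).ne'

/-- Finitely many places of bounded degree are centered on a given Dedekind model. -/
lemma DedModel.finite_deg_le [Finite k] (D : DedModel k F) (m : ℕ) :
    {v : Place k F | (∀ b ∈ D.B, b ∈ v.ring) ∧ v.deg ≤ m}.Finite := by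
  classical
  have := D.ft
  have hq : 1 < Nat.card k := Finite.one_lt_card
  set N := Nat.card k ^ (m.factorial) with hN
  have hN1 : 1 < N := Nat.one_lt_pow (Nat.factorial_ne_zero m) hq
  let J : Ideal D.B := Ideal.span (Set.range fun x : D.B => x ^ N - x)
  have hint : Algebra.IsIntegral k (D.B ⧸ J) := by
    refine ⟨fun y => ?_⟩
    obtain ⟨x, rfl⟩ := Ideal.Quotient.mk_surjective y
    refine ⟨Polynomial.X ^ N - Polynomial.X, Polynomial.monic_X_pow_sub ?_, ?_⟩
    · rw [Polynomial.degree_X]
      exact_mod_cast hN1
    · simp only [Polynomial.eval₂_sub, Polynomial.eval₂_X_pow, Polynomial.eval₂_X]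
      rw [← map_pow, ← map_sub, Ideal.Quotient.eq_zero_iff_mem]
      exact Ideal.subset_span ⟨x, rfl⟩
  have hft : Algebra.FiniteType k (D.B ⧸ J) := inferInstance
  have hfin : Module.Finite k (D.B ⧸ J) := Algebra.IsIntegral.finite
  have hfin2 : Finite (D.B ⧸ J) := Module.finite_of_finite k
  have hfin3 : Finite (Ideal (D.B ⧸ J)) :=
    Finite.of_injective (fun I : Ideal (D.B ⧸ J) => (I : Set (D.B ⧸ J))) SetLike.coe_injective
  have hJ : ∀ (v : Place k F) (hv : ∀ b ∈ D.B, b ∈ v.ring), v.deg ≤ m → J ≤ D.center v hv := by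
    intro v hv hdeg
    rw [Ideal.span_le]
    rintro _ ⟨x, rfl⟩
    obtain ⟨h1, h2, h3⟩ := card_residue v (D.finite_residue v hv)
    show D.toRes v hv (x ^ N - x) = 0
    rw [map_sub, map_pow, sub_eq_zero]
    obtain ⟨j, hj⟩ := Nat.dvd_factorial (Nat.pos_of_ne_zero h3) hdeg
    have : Fintype v.κ := Fintype.ofFinite _
    have h4 := FiniteField.pow_card_pow j (D.toRes v hv x)
    rw [← Nat.card_eq_fintype_card, h2, ← pow_mul, ← hj] at h4
    exact h4
  let g : {v : Place k F | (∀ b ∈ D.B, b ∈ v.ring) ∧ v.deg ≤ m} → Ideal (D.B ⧸ J) :=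
    fun v => (D.center v.1 v.2.1).map (Ideal.Quotient.mk J)
  have hg : Function.Injective g := by
    intro v w h
    apply Subtype.ext
    apply D.center_injective v.1 w.1 v.2.1 w.2.1
    have h' := congrArg (Ideal.comap (Ideal.Quotient.mk J)) h
    simp only [g] at h'
    rwa [Ideal.comap_map_mk (hJ v.1 v.2.1 v.2.2), Ideal.comap_map_mk (hJ w.1 w.2.1 w.2.2)] at h'
  have := Finite.of_injective g hg
  exact Set.toFinite _

end finiteness

end Pool.Agent.H707R3
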