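import Mathlib
import Pool.Agent.H707R3.Core
import Pool.Agent.H707R3.PlacesFin

/-!
`L`-functions of characters of `ℤ_p`-towers of curves over finite fields, and the translation to Euler
products with `p`-adic exponents.
-/

open PowerSeries
open scoped PowerSeries.WithPiTopology

namespace Pool.Agent.H707R3

variable {p : ℕ} [Fact p.Prime] (k : Type*) {F E : Type*} [Field k] [Field F] [Algebra k F]
  [Field E] [Algebra F E]

/-- The `L`-function of a `p`-adic character `χ` of `Gal(E/F)`: the Euler product, over the places `v`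
of `F/k` that are unramified in `E`, of the factors `(1 - χ(Frob_v) T ^ deg v)⁻¹`, as a formal power
series. -/
noncomputable def Lfun (χ : (E ≃ₐ[F] E) →* ℂ_[p]ˣ) : PowerSeries ℂ_[p] :=
  ∏' v : {v : Place k F // v.IsUnramified E},
    (1 - C ((χ (v.1.frob E) : ℂ_[p]ˣ) : ℂ_[p]) * X ^ v.1.deg)⁻¹

lemma exists_mul_pow (n : ℕ) (b : ℤ_[p]) : ∃ c : ℤ_[p], b = res n b + p ^ n * c := by
  have h : b - (res n b : ℤ_[p]) ∈ RingHom.ker (PadicInt.toZModPow (p := p) n) := by
    have hne : NeZero (p ^ n) := ⟨pow_ne_zero _ (Fact.out : p.Prime).ne_zero⟩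
    rw [RingHom.mem_ker, map_sub, map_natCast, res, ZMod.natCast_val, ZMod.cast_id, sub_self]
  rw [PadicInt.ker_toZModPow, Ideal.mem_span_singleton] at h
  obtain ⟨c, hc⟩ := h
  exact ⟨c, by rw [← hc]; ring⟩

/-- A character of order `p ^ n` of a group isomorphic to `ℤ_p` is given by a primitive `p ^ n`-th root
of unity. -/
lemma char_eq {G : Type*} [Group G] (Φ : G ≃* Multiplicative ℤ_[p]) (χ : G →* ℂ_[p]ˣ) {n : ℕ}
    (hχ : orderOf χ = p ^ n) :
    IsPrimitiveRoot ((χ (Φ.symm (Multiplicative.ofAdd 1)) : ℂ_[p]ˣ) : ℂ_[p]) (p ^ n) ∧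
      ∀ σ, ((χ σ : ℂ_[p]ˣ) : ℂ_[p]) =
        ((χ (Φ.symm (Multiplicative.ofAdd 1)) : ℂ_[p]ˣ) : ℂ_[p]) ^ res n (Φ σ).toAdd := by
  set g := Φ.symm (Multiplicative.ofAdd 1) with hg
  have hpow : ∀ σ, (χ σ) ^ p ^ n = 1 := by
    intro σ
    have h1 : χ ^ p ^ n = 1 := by rw [← hχ]; exact pow_orderOf_eq_one χ
    have h2 := congrArg (fun ψ : G →* ℂ_[p]ˣ => ψ σ) h1
    simpa using h2
  have hformula : ∀ σ, χ σ = (χ g) ^ res n (Φ σ).toAdd := by
    intro σ
    obtain ⟨c, hc⟩ := exists_mul_pow n (Φ σ).toAdd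
    have h1 : σ = g ^ res n (Φ σ).toAdd * (Φ.symm (Multiplicative.ofAdd c)) ^ p ^ n := by
      apply Φ.injective
      rw [map_mul, map_pow, map_pow, hg, MulEquiv.apply_symm_apply, MulEquiv.apply_symm_apply]
      apply Multiplicative.toAdd.injective
      rw [toAdd_mul, toAdd_pow, toAdd_pow]
      simp only [toAdd_ofAdd, nsmul_eq_mul, mul_one]
      conv_lhs => rw [hc]
      push_cast
      ring
    conv_lhs => rw [h1]
    rw [map_mul, map_pow, map_pow, hpow, mul_one]
  refine ⟨?_, ?_⟩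
  · rw [← hχ]
    refine ⟨?_, ?_⟩
    · rw [hχ, ← Units.val_pow_eq_pow_val, hpow, Units.val_one]
    · intro l hl
      apply orderOf_dvd_of_pow_eq_one
      ext σ : 1
      rw [MonoidHom.pow_apply, MonoidHom.one_apply, hformula σ, ← pow_mul, mul_comm, pow_mul]
      have : (χ g) ^ l = 1 := by
        ext
        rw [Units.val_pow_eq_pow_val, hl, Units.val_one]
      rw [this, one_pow]
  · intro σ
    rw [hformula σ, Units.val_pow_eq_pow_val]

/-- Lower bound for the ramification of the reciprocal roots of the `L`-functions in a `ℤ_p`-tower. -/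
theorem ramification_Lfun [Finite k] [Algebra k E] (h : IsZpTower k F E p) :
    ∃ c : ℝ, 0 < c ∧ ∃ N : ℕ, ∀ n, N ≤ n → ∀ χ : (E ≃ₐ[F] E) →* ℂ_[p]ˣ, orderOf χ = p ^ n →
      ∀ A : Multiset ℂ_[p], Lfun k χ = recipProd A →
        c * (p : ℝ) ^ n ≤ ramIdx (genField A) := by
  obtain ⟨Φ⟩ := h.group
  let ι := {v : Place k F // v.IsUnramified E}
  have hne : Nonempty ι := by
    have h1 : Infinite (Place k F) := infinite_place h.base
    have h2 : ({v : Place k F | ¬ v.IsUnramified E}ᶜ).Nonempty :=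
      (Set.Finite.infinite_compl h.finite_ramified).nonempty
    obtain ⟨v, hv⟩ := h2
    exact ⟨⟨v, not_not.1 hv⟩⟩
  let ρ : ι → ℤ_[p] := fun v => (Φ (v.1.frob E)).toAdd
  let d : ι → ℕ := fun v => v.1.deg
  have hd : ∀ v, d v ≠ 0 := fun v => deg_ne_zero h.base v.1
  have hfin : ∀ m, {v : ι | d v ≤ m}.Finite := by
    intro m
    exact (finite_deg_le h.base m).preimage Subtype.val_injective.injOn
  obtain ⟨c, hc, N, hN⟩ := core ρ d hd hfin
  refine ⟨c, hc, N, ?_⟩
  intro n hn χ hχ A hA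
  obtain ⟨hz, hval⟩ := char_eq Φ.toMulEquiv χ hχ
  refine hN n hn _ hz A ?_
  rw [← hA, Lfun, eulerL]
  congr 1
  funext v
  rw [hval (v.1.frob E)]
  rfl

end Pool.Agent.H707R3
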