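import Mathlib

/-!
Valuation rings of an algebraic extension above a given valuation ring: they are determined by their
centers on the integral closure; the Galois group acts transitively; decomposition groups surject onto
the automorphism groups of the residue fields.
-/

open Polynomial
open scoped Pointwise

namespace Pool.Agent.H707R3

section center

variable {F M : Type*} [Field F] [Field M] [Algebra F M] {R : ValuationSubring F}

lemma isIntegral_of_forall_val {x : M}
    (h : ∀ V : ValuationSubring M, (∀ a ∈ R, algebraMap F M a ∈ V) → x ∈ V) : IsIntegral R x := by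
  set s : Set M := (algebraMap F M) '' R with hs
  have h1 : x ∈ (integralClosure (Subring.closure s) M).toSubring := by
    rw [← iInf_valuationSubring_superset, Subring.mem_iInf]
    rintro ⟨V, hV⟩
    exact h V (fun a ha => hV ⟨a, ha, rfl⟩)
  have h2 : IsIntegral (Subring.closure s) x := h1
  obtain ⟨P, hP, hP0⟩ := h2
  have hcl : ∀ y ∈ Subring.closure s, y ∈ (algebraMap R M).range := by
    intro y hy
    have : Subring.closure s ≤ (algebraMap R M).range := by
      rw [Subring.closure_le]
      rintro _ ⟨a, ha, rfl⟩
      exact ⟨⟨a, ha⟩, rfl⟩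
    exact this hy
  have hlift : P.map (algebraMap (Subring.closure s) M) ∈ Polynomial.lifts (algebraMap R M) := by
    rw [Polynomial.lifts_iff_coeff_lifts]
    intro n
    rw [Polynomial.coeff_map]
    exact hcl _ (P.coeff n).2
  obtain ⟨Q, hQ, -, hQm⟩ := Polynomial.lifts_and_natDegree_eq_and_monic hlift (hP.map _)
  refine ⟨Q, hQm, ?_⟩
  rw [Polynomial.eval₂_eq_eval_map, hQ, Polynomial.eval_map]
  exact hP0

lemma mem_of_comap_eq {W : ValuationSubring M} (hW : W.comap (algebraMap F M) = R) (a : F) :
    algebraMap F M a ∈ W ↔ a ∈ R := by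
  rw [← hW]; rfl

lemma val_lt_one_iff_of_field {K : Type*} [Field K] (V : ValuationSubring K) (a : K) :
    V.valuation a < 1 ↔ ¬ (a ≠ 0 ∧ a⁻¹ ∈ V) := by
  by_cases ha : a = 0
  · simp [ha]
  · have h0 : V.valuation a ≠ 0 := (Valuation.ne_zero_iff _).2 ha
    rw [← ValuationSubring.valuation_le_one_iff, map_inv₀, inv_le_one₀ (zero_lt_iff.2 h0)]
    simp [ha]

lemma val_lt_one_iff {W : ValuationSubring M} (hW : W.comap (algebraMap F M) = R) (a : F) :
    W.valuation (algebraMap F M a) < 1 ↔ R.valuation a < 1 := by
  rw [val_lt_one_iff_of_field, val_lt_one_iff_of_field, ← map_inv₀, mem_of_comap_eq hW]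
  simp

lemma isIntegral_mem {W : ValuationSubring M} (hW : ∀ a ∈ R, algebraMap F M a ∈ W) {b : M}
    (hb : IsIntegral R b) : b ∈ W := by
  let φ : R →+* W := ((algebraMap F M).comp (algebraMap R F)).codRestrict W.toSubring fun a => hW a a.2
  obtain ⟨f, hf, hf0⟩ := hb
  have hint : IsIntegral W b := by
    refine ⟨f.map φ, hf.map φ, ?_⟩
    rw [Polynomial.eval₂_map]
    exact hf0
  obtain ⟨y, hy⟩ := (IsIntegrallyClosed.isIntegral_iff (R := W) (K := M)).1 hint
  rw [← hy]
  exact y.2

lemma comap_le {W : ValuationSubring M} (hW : W.comap (algebraMap F M) = R) :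
    ∀ a ∈ R, algebraMap F M a ∈ W := fun a ha => (mem_of_comap_eq hW a).2 ha

/-- Every element of a valuation ring above `R` is a fraction of elements integral over `R`, with
denominator a unit of the valuation ring. -/
lemma exists_frac [Algebra.IsAlgebraic F M] {W : ValuationSubring M}
    (hW : W.comap (algebraMap F M) = R) {x : M} (hx : x ∈ W) :
    ∃ y z : M, IsIntegral R y ∧ IsIntegral R z ∧ x * y = z ∧ W.valuation y = 1 := by
  classical
  by_cases hx0 : x = 0
  · refine ⟨1, 0, isIntegral_one, isIntegral_zero, by simp [hx0], by simp⟩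
  have halg : IsAlgebraic F x := Algebra.IsAlgebraic.isAlgebraic x
  obtain ⟨p, hp0, hpx⟩ := halg
  -- normalise
  obtain ⟨j, hj, hjmax⟩ := Finset.exists_max_image p.support (fun i => R.valuation (p.coeff i))
    (Polynomial.nonempty_support_iff.2 hp0)
  have hc0 : p.coeff j ≠ 0 := Polynomial.mem_support_iff.1 hj
  set a : ℕ → F := fun i => (p.coeff j)⁻¹ * p.coeff i with ha
  have haR : ∀ i, a i ∈ R := by
    intro i
    rw [← ValuationSubring.valuation_le_one_iff, ha]
    simp only
    rw [map_mul, map_inv₀]
    have h0 : R.valuation (p.coeff j) ≠ 0 := (Valuation.ne_zero_iff _).2 hc0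
    rw [inv_mul_le_iff₀ (zero_lt_iff.2 h0), mul_one]
    by_cases hi : i ∈ p.support
    · exact hjmax i hi
    · rw [Polynomial.notMem_support_iff.1 hi, map_zero]
      exact zero_le
  have haj : a j = 1 := inv_mul_cancel₀ hc0
  set n := p.natDegree + 1 with hn
  have hjn : j < n := Nat.lt_succ_of_le (Polynomial.le_natDegree_of_mem_supp j hj)
  have hsum : ∑ i ∈ Finset.range n, algebraMap F M (a i) * x ^ i = 0 := by
    have h1 : ∑ i ∈ Finset.range n, algebraMap F M (a i) * x ^ i =
        algebraMap F M (p.coeff j)⁻¹ * Polynomial.aeval x p := by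
      rw [Polynomial.aeval_eq_sum_range, Finset.mul_sum]
      refine Finset.sum_congr rfl fun i _ => ?_
      simp only [ha, map_mul, Algebra.smul_def]
      ring
    rw [h1, hpx, mul_zero]
  let I := (Finset.range n).filter fun i => R.valuation (a i) = 1
  have hI : I.Nonempty := ⟨j, Finset.mem_filter.2 ⟨Finset.mem_range.2 hjn, by rw [haj, map_one]⟩⟩
  set s := I.max' hI with hs
  have hsI : s ∈ I := I.max'_mem hI
  have hs1 : R.valuation (a s) = 1 := (Finset.mem_filter.1 hsI).2
  have hsn : s < n := Finset.mem_range.1 (Finset.mem_filter.1 hsI).1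
  have hgt : ∀ i, s < i → i < n → R.valuation (a i) < 1 := by
    intro i hi hin
    refine lt_of_le_of_ne ((ValuationSubring.valuation_le_one_iff _ _).2 (haR i)) ?_
    intro h1
    have := I.le_max' i (Finset.mem_filter.2 ⟨Finset.mem_range.2 hin, h1⟩)
    rw [← hs] at this
    omega
  set t : ℕ → M := fun i => algebraMap F M (a i) * x ^ ((i : ℤ) - s) with ht
  set y := ∑ i ∈ (Finset.range n).filter (fun i => s ≤ i), t i with hy
  set z' := ∑ i ∈ (Finset.range n).filter (fun i => ¬ s ≤ i), t i with hz'
  have hyz : y + z' = 0 := by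
    rw [hy, hz', Finset.sum_filter_add_sum_filter_not]
    have : ∑ i ∈ Finset.range n, t i = x ^ (-(s : ℤ)) * ∑ i ∈ Finset.range n, algebraMap F M (a i) * x ^ i := by
      rw [Finset.mul_sum]
      refine Finset.sum_congr rfl fun i _ => ?_
      simp only [ht]
      rw [sub_eq_add_neg, zpow_add₀ hx0, zpow_natCast]
      ring
    rw [this, hsum, mul_zero]
  have hyV : ∀ V : ValuationSubring M, (∀ a ∈ R, algebraMap F M a ∈ V) → y ∈ V ∧ x * z' ∈ V := by
    intro V hV
    rcases V.mem_or_inv_mem x with h | h
    · have h1 : y ∈ V := by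
        refine sum_mem fun i hi => ?_
        have hi' := (Finset.mem_filter.1 hi).2
        refine V.mul_mem _ _ (hV _ (haR i)) ?_
        have : ((i : ℤ) - s) = ((i - s : ℕ) : ℤ) := by omega
        rw [this, zpow_natCast]
        exact pow_mem h _
      refine ⟨h1, ?_⟩
      have : x * z' = - (x * y) := by
        have : z' = -y := by rw [eq_neg_iff_add_eq_zero, add_comm]; exact hyz
        rw [this]; ring
      rw [this]
      exact neg_mem (V.mul_mem _ _ h h1)
    · have h1 : x * z' ∈ V := by
        rw [hz', Finset.mul_sum]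
        refine sum_mem fun i hi => ?_
        have hi' := (Finset.mem_filter.1 hi).2
        have e : x * t i = algebraMap F M (a i) * (x⁻¹) ^ (s - 1 - i) := by
          simp only [ht]
          have e2 : x * (algebraMap F M (a i) * x ^ ((i : ℤ) - s)) =
              algebraMap F M (a i) * x ^ ((i : ℤ) - s + 1) := by
            rw [zpow_add₀ hx0, zpow_one]; ring
          rw [e2]
          congr 1
          rw [inv_pow, ← zpow_natCast, ← zpow_neg]
          congr 1
          omega
        rw [e]
        exact V.mul_mem _ _ (hV _ (haR i)) (pow_mem h _)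
      refine ⟨?_, h1⟩
      have : y = - (x⁻¹ * (x * z')) := by
        rw [← mul_assoc, inv_mul_cancel₀ hx0, one_mul]
        exact eq_neg_of_add_eq_zero_left hyz
      rw [this]
      exact neg_mem (V.mul_mem _ _ h h1)
  have hyint : IsIntegral R y := isIntegral_of_forall_val fun V hV => (hyV V hV).1
  have hzint : IsIntegral R (x * z') := isIntegral_of_forall_val fun V hV => (hyV V hV).2
  refine ⟨y, -(x * z'), hyint, hzint.neg, ?_, ?_⟩
  · have : z' = -y := by rw [eq_neg_iff_add_eq_zero, add_comm]; exact hyz
    rw [this]; ring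
  · have hys : y = t s + ∑ i ∈ ((Finset.range n).filter (fun i => s ≤ i)).erase s, t i := by
      rw [hy, Finset.add_sum_erase]
      exact Finset.mem_filter.2 ⟨Finset.mem_range.2 hsn, le_refl _⟩
    have hts : t s = algebraMap F M (a s) := by simp [ht]
    have h1 : W.valuation (t s) = 1 := by
      rw [hts]
      refine le_antisymm ((ValuationSubring.valuation_le_one_iff _ _).2 (comap_le hW _ (haR s))) ?_
      rw [← not_lt, val_lt_one_iff hW, not_lt, hs1]
    have h2 : W.valuation (∑ i ∈ ((Finset.range n).filter (fun i => s ≤ i)).erase s, t i) < 1 := by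
      refine Valuation.map_sum_lt _ one_ne_zero fun i hi => ?_
      rw [Finset.mem_erase, Finset.mem_filter, Finset.mem_range] at hi
      obtain ⟨h3, h4, h5⟩ := hi
      have h6 : W.valuation (algebraMap F M (a i)) < 1 := by
        rw [val_lt_one_iff hW]
        exact hgt i (by omega) h4
      have : t i = algebraMap F M (a i) * x ^ (i - s) := by
        simp only [ht]
        congr 1
        rw [← zpow_natCast]
        congr 1
        omega
      rw [this, map_mul, map_pow]
      have h7 : W.valuation x ^ (i - s) ≤ 1 := pow_le_one' ((ValuationSubring.valuation_le_one_iff _ _).2 hx) _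
      calc W.valuation (algebraMap F M (a i)) * W.valuation x ^ (i - s)
          ≤ W.valuation (algebraMap F M (a i)) * 1 := mul_le_mul_right h7 _
        _ < 1 := by rwa [mul_one]
    rw [hys, Valuation.map_add_eq_of_lt_left _ (by rwa [h1]), h1]

/-- A valuation ring above `R` is determined by its center on the integral closure of `R`. -/
lemma le_of_center [Algebra.IsAlgebraic F M] {W W' : ValuationSubring M}
    (hW : W.comap (algebraMap F M) = R) (hW' : W'.comap (algebraMap F M) = R)
    (h : ∀ b : M, IsIntegral R b → W'.valuation b < 1 → W.valuation b < 1) : W ≤ W' := by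
  intro x hx
  obtain ⟨y, z, hy, hz, hxy, hy1⟩ := exists_frac hW hx
  have hyW' : y ∈ W' := isIntegral_mem (comap_le hW') hy
  have hzW' : z ∈ W' := isIntegral_mem (comap_le hW') hz
  have h1 : W'.valuation y = 1 := by
    refine le_antisymm ((ValuationSubring.valuation_le_one_iff _ _).2 hyW') ?_
    rw [← not_lt]
    intro h2
    exact absurd (h y hy h2) (by rw [hy1]; exact lt_irrefl _)
  have h2 : W'.valuation x = W'.valuation z := by
    rw [← hxy, map_mul, h1, mul_one]
  rw [← ValuationSubring.valuation_le_one_iff, h2]
  exact (ValuationSubring.valuation_le_one_iff _ _).2 hzW'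

lemma eq_of_center [Algebra.IsAlgebraic F M] {W W' : ValuationSubring M}
    (hW : W.comap (algebraMap F M) = R) (hW' : W'.comap (algebraMap F M) = R)
    (h : ∀ b : M, IsIntegral R b → (W'.valuation b < 1 ↔ W.valuation b < 1)) : W = W' :=
  le_antisymm (le_of_center hW hW' fun b hb => (h b hb).1) (le_of_center hW' hW fun b hb => (h b hb).2)

end center

end Pool.Agent.H707R3
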