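import Mathlib
import Pool.Agent.H707R3.ValExt

set_option linter.all false

open Polynomial
open scoped Pointwise

namespace Pool.Agent.H707R3

section gal

variable {F M : Type*} [Field F] [Field M] [Algebra F M] (R : ValuationSubring F)

/-- The action of the Galois group on the integral closure. -/
@[reducible] noncomputable def actIC : MulSemiringAction (M ≃ₐ[F] M) (integralClosure R M) where
  smul σ b := ⟨σ b, b.2.map (σ.toAlgHom.restrictScalars R)⟩
  one_smul b := rfl
  mul_smul σ τ b := rfl
  smul_zero σ := Subtype.ext (map_zero σ)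
  smul_add σ a b := Subtype.ext (map_add σ _ _)
  smul_one σ := Subtype.ext (map_one σ)
  smul_mul σ a b := Subtype.ext (map_mul σ _ _)

lemma actIC_apply (σ : M ≃ₐ[F] M) (b : integralClosure R M) :
    letI := actIC (M := M) R
    ((σ • b : integralClosure R M) : M) = σ b := rfl

variable {R}

/-- The inclusion of the integral closure in a valuation ring. -/
noncomputable def icHom {W : ValuationSubring M} (hW : W.comap (algebraMap F M) = R) :
    integralClosure R M →+* W :=
  ((integralClosure R M).toSubring.subtype).codRestrict W.toSubring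
    fun b => isIntegral_mem (comap_le hW) b.2

/-- The center of a valuation ring on the integral closure. -/
noncomputable def centerIC {W : ValuationSubring M} (hW : W.comap (algebraMap F M) = R) :
    Ideal (integralClosure R M) := (IsLocalRing.maximalIdeal W).comap (icHom hW)

lemma mem_centerIC {W : ValuationSubring M} (hW : W.comap (algebraMap F M) = R)
    (b : integralClosure R M) : b ∈ centerIC hW ↔ W.valuation (b : M) < 1 := by
  rw [centerIC, Ideal.mem_comap, ValuationSubring.valuation_lt_one_iff]
  rfl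

instance {W : ValuationSubring M} (hW : W.comap (algebraMap F M) = R) : (centerIC hW).IsPrime :=
  Ideal.IsPrime.comap _

lemma centerIC_under {W : ValuationSubring M} (hW : W.comap (algebraMap F M) = R) :
    (centerIC hW).under R = IsLocalRing.maximalIdeal R := by
  ext r
  rw [Ideal.under_def, Ideal.mem_comap, mem_centerIC, ValuationSubring.valuation_lt_one_iff]
  exact val_lt_one_iff hW (r : F)

instance {W : ValuationSubring M} (hW : W.comap (algebraMap F M) = R) :
    (centerIC hW).LiesOver (IsLocalRing.maximalIdeal R) := ⟨(centerIC_under hW).symm⟩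

variable [IsGalois F M]

lemma isInvariantIC : letI := actIC (M := M) R
    Algebra.IsInvariant R (integralClosure R M) (M ≃ₐ[F] M) := by
  letI := actIC (M := M) R
  refine ⟨fun b hb => ?_⟩
  have h1 : (b : M) ∈ (⊥ : IntermediateField F M) := by
    rw [InfiniteGalois.mem_bot_iff_fixed]
    intro σ
    exact congrArg Subtype.val (hb σ)
  obtain ⟨a, ha⟩ := IntermediateField.mem_bot.1 h1
  have h2 : IsIntegral R a := by
    have := b.2
    rw [← ha] at this
    exact (isIntegral_algebraMap_iff (algebraMap F M).injective).1 this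
  obtain ⟨r, hr⟩ := (IsIntegrallyClosed.isIntegral_iff (R := R) (K := F)).1 h2
  refine ⟨r, Subtype.ext ?_⟩
  rw [← ha, ← hr]
  rfl

lemma smulCommIC : letI := actIC (M := M) R
    SMulCommClass (M ≃ₐ[F] M) R (integralClosure R M) := by
  letI := actIC (M := M) R
  refine ⟨fun σ r b => Subtype.ext ?_⟩
  show σ ((r • (b : M))) = r • σ b
  exact map_smul (σ.toAlgHom.restrictScalars R) r (b : M)

lemma contIC : letI := actIC (M := M) R
    letI : TopologicalSpace (integralClosure R M) := ⊥
    ContinuousSMul (M ≃ₐ[F] M) (integralClosure R M) := by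
  letI := actIC (M := M) R
  letI : TopologicalSpace (integralClosure R M) := ⊥
  have : DiscreteTopology (integralClosure R M) := ⟨rfl⟩
  rw [continuousSMul_iff_stabilizer_isOpen]
  intro b
  convert stabilizer_isOpen_of_isIntegral (K := F) (b : M) using 1
  ext σ
  simp only [SetLike.mem_coe, MulAction.mem_stabilizer_iff]
  constructor
  · intro h
    exact congrArg Subtype.val h
  · intro h
    exact Subtype.ext h

lemma comap_comap_algEquiv {W : ValuationSubring M} (hW : W.comap (algebraMap F M) = R)
    (σ : M ≃ₐ[F] M) :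
    (W.comap (σ : M →+* M)).comap (algebraMap F M) = R := by
  rw [← hW]
  ext a
  show σ (algebraMap F M a) ∈ W ↔ algebraMap F M a ∈ W
  rw [σ.commutes]

lemma val_comap_lt_one {W : ValuationSubring M} (σ : M ≃ₐ[F] M) (x : M) :
    (W.comap (σ : M →+* M)).valuation x < 1 ↔ W.valuation (σ x) < 1 := by
  rw [val_lt_one_iff_of_field, val_lt_one_iff_of_field]
  show ¬ (x ≠ 0 ∧ σ x⁻¹ ∈ W) ↔ _
  rw [map_inv₀]
  simp

/-- Transitivity of the Galois group on the valuation rings above `R`. -/
theorem exists_algEquiv_of_comap_eq {W W' : ValuationSubring M}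
    (hW : W.comap (algebraMap F M) = R) (hW' : W'.comap (algebraMap F M) = R) :
    ∃ σ : M ≃ₐ[F] M, ∀ x, x ∈ W ↔ σ x ∈ W' := by
  letI := actIC (M := M) R
  letI : TopologicalSpace (integralClosure R M) := ⊥
  have : DiscreteTopology (integralClosure R M) := ⟨rfl⟩
  have := contIC (M := M) (R := R)
  have := smulCommIC (M := M) (R := R)
  have := isInvariantIC (M := M) (R := R)
  obtain ⟨g, hg⟩ := Algebra.IsInvariant.exists_smul_of_under_eq_of_profinite (A := R)
    (G := M ≃ₐ[F] M) (centerIC hW) (centerIC hW') (by rw [centerIC_under, centerIC_under])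
  refine ⟨g, ?_⟩
  have key : W = W'.comap (g : M →+* M) := by
    refine eq_of_center hW (comap_comap_algEquiv hW' g) ?_
    intro b hb
    rw [val_comap_lt_one]
    have h1 := mem_centerIC hW' (g • (⟨b, hb⟩ : integralClosure R M))
    have h2 := mem_centerIC hW (⟨b, hb⟩ : integralClosure R M)
    rw [hg, Ideal.smul_mem_pointwise_smul_iff, h2] at h1
    exact h1.symm
  intro x
  conv_lhs => rw [key]
  rfl

omit [IsGalois F M] in
lemma centerIC_isMaximal [Algebra.IsAlgebraic F M] {W : ValuationSubring M}
    (hW : W.comap (algebraMap F M) = R) : (centerIC hW).IsMaximal := by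
  have h1 : ((centerIC hW).comap (algebraMap R (integralClosure R M))).IsMaximal := by
    have := centerIC_under hW
    rw [Ideal.under_def] at this
    rw [this]
    infer_instance
  exact Ideal.isMaximal_of_isIntegral_of_isMaximal_comap _ h1

omit [IsGalois F M] in
/-- The map from the quotient of the integral closure to the residue field is bijective. -/
noncomputable def quotEquiv [Algebra.IsAlgebraic F M] {W : ValuationSubring M}
    (hW : W.comap (algebraMap F M) = R) :
    (integralClosure R M ⧸ centerIC hW) ≃+* IsLocalRing.ResidueField W :=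
  RingEquiv.ofBijective
    (Ideal.Quotient.lift (centerIC hW) ((IsLocalRing.residue W).comp (icHom hW)) (by
      intro b hb
      rw [RingHom.comp_apply, IsLocalRing.residue_eq_zero_iff]
      exact hb)) (by
    constructor
    · rw [injective_iff_map_eq_zero]
      intro b hb
      obtain ⟨b, rfl⟩ := Ideal.Quotient.mk_surjective b
      rw [Ideal.Quotient.lift_mk, RingHom.comp_apply, IsLocalRing.residue_eq_zero_iff] at hb
      rw [Ideal.Quotient.eq_zero_iff_mem]
      exact hb
    · intro c
      obtain ⟨⟨x, hx⟩, rfl⟩ := IsLocalRing.residue_surjective c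
      obtain ⟨y, z, hy, hz, hxy, hy1⟩ := exists_frac hW hx
      have hmax := centerIC_isMaximal hW
      have hyn : (⟨y, hy⟩ : integralClosure R M) ∉ centerIC hW := by
        rw [mem_centerIC hW]
        show ¬ W.valuation y < 1
        rw [hy1]; exact lt_irrefl _
      obtain ⟨y', hy'⟩ := Ideal.Quotient.exists_inv (I := centerIC hW)
        (a := Ideal.Quotient.mk _ (⟨y, hy⟩ : integralClosure R M)) (by
          rw [Ne, Ideal.Quotient.eq_zero_iff_mem]; exact hyn)
      set f := Ideal.Quotient.lift (centerIC hW) ((IsLocalRing.residue W).comp (icHom hW)) (by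
        intro b hb
        rw [RingHom.comp_apply, IsLocalRing.residue_eq_zero_iff]
        exact hb) with hf
      refine ⟨Ideal.Quotient.mk _ (⟨z, hz⟩ : integralClosure R M) * y', ?_⟩
      have h1 : f (Ideal.Quotient.mk _ (⟨y, hy⟩ : integralClosure R M)) * f y' = 1 := by
        rw [← map_mul, hy', map_one]
      have h2 : f (Ideal.Quotient.mk _ (⟨z, hz⟩ : integralClosure R M)) =
          IsLocalRing.residue W ⟨x, hx⟩ * f (Ideal.Quotient.mk _ (⟨y, hy⟩ : integralClosure R M)) := by
        rw [hf, Ideal.Quotient.lift_mk, Ideal.Quotient.lift_mk, RingHom.comp_apply, RingHom.comp_apply,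
          ← map_mul]
        congr 1
        exact Subtype.ext hxy.symm
      rw [map_mul, h2, mul_assoc, h1, mul_one])

omit [IsGalois F M] in
lemma quotEquiv_mk [Algebra.IsAlgebraic F M] {W : ValuationSubring M}
    (hW : W.comap (algebraMap F M) = R) (b : integralClosure R M) :
    quotEquiv hW (Ideal.Quotient.mk _ b) = IsLocalRing.residue W (icHom hW b) := rfl

/-- Every automorphism of the residue field of `W` fixing the residue field of `R` is induced by an
element of the decomposition group. -/
theorem exists_algEquiv_residue {W : ValuationSubring M}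
    (hW : W.comap (algebraMap F M) = R)
    (ψ : IsLocalRing.ResidueField W ≃+* IsLocalRing.ResidueField W)
    (hψ : ∀ r : R, ψ (IsLocalRing.residue W (icHom hW (algebraMap R _ r))) =
      IsLocalRing.residue W (icHom hW (algebraMap R _ r))) :
    ∃ (σ : M ≃ₐ[F] M) (hσ : ∀ x, x ∈ W ↔ σ x ∈ W),
      ∀ x (hx : x ∈ W), IsLocalRing.residue W ⟨σ x, (hσ x).1 hx⟩ =
        ψ (IsLocalRing.residue W ⟨x, hx⟩) := by
  letI := actIC (M := M) R
  letI : TopologicalSpace (integralClosure R M) := ⊥
  have : DiscreteTopology (integralClosure R M) := ⟨rfl⟩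
  have := contIC (M := M) (R := R)
  have := smulCommIC (M := M) (R := R)
  have := isInvariantIC (M := M) (R := R)
  let P := IsLocalRing.maximalIdeal R
  let Q := centerIC hW
  let ψ' : (integralClosure R M ⧸ Q) ≃ₐ[R ⧸ P] (integralClosure R M ⧸ Q) :=
    AlgEquiv.ofRingEquiv (f := ((quotEquiv hW).trans ψ).trans (quotEquiv hW).symm) (by
      intro r
      obtain ⟨r, rfl⟩ := Ideal.Quotient.mk_surjective r
      have e : algebraMap (R ⧸ P) (integralClosure R M ⧸ Q) (Ideal.Quotient.mk P r) =
        Ideal.Quotient.mk Q (algebraMap R _ r) := rfl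
      rw [e]
      show (quotEquiv hW).symm (ψ (quotEquiv hW (Ideal.Quotient.mk _ _))) = _
      rw [RingEquiv.symm_apply_eq, quotEquiv_mk, hψ])
  obtain ⟨s, hs⟩ := Ideal.Quotient.stabilizerHom_surjective_of_profinite (G := M ≃ₐ[F] M) P Q ψ'
  have hs1 : ∀ b : integralClosure R M, IsLocalRing.residue W (icHom hW (s.1 • b)) =
      ψ (IsLocalRing.residue W (icHom hW b)) := by
    intro b
    have h1 : Ideal.Quotient.stabilizerHom Q P (M ≃ₐ[F] M) s (Ideal.Quotient.mk Q b) =
        ψ' (Ideal.Quotient.mk Q b) := by rw [hs]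
    have h2 : Ideal.Quotient.stabilizerHom Q P (M ≃ₐ[F] M) s (Ideal.Quotient.mk Q b) =
        Ideal.Quotient.mk Q (s.1 • b) := rfl
    rw [h2] at h1
    have h3 : ψ' (Ideal.Quotient.mk Q b) = (quotEquiv hW).symm (ψ (quotEquiv hW (Ideal.Quotient.mk _ b))) := rfl
    rw [h3, RingEquiv.eq_symm_apply, quotEquiv_mk, quotEquiv_mk] at h1
    exact h1
  set σ : M ≃ₐ[F] M := s.1 with hσdef
  have hstab : σ • Q = Q := s.2
  have key : W = W.comap (σ : M →+* M) := by
    refine eq_of_center hW (comap_comap_algEquiv hW σ) ?_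
    intro b hb
    rw [val_comap_lt_one]
    have h1 := mem_centerIC hW (σ • (⟨b, hb⟩ : integralClosure R M))
    have h2 := mem_centerIC hW (⟨b, hb⟩ : integralClosure R M)
    have h3 : σ • (⟨b, hb⟩ : integralClosure R M) ∈ centerIC hW ↔ (⟨b, hb⟩ : integralClosure R M) ∈ centerIC hW := by
      conv_lhs => rw [show centerIC hW = σ • Q from hstab.symm]
      rw [Ideal.smul_mem_pointwise_smul_iff]
    rw [h3, h2] at h1
    exact h1.symm
  have hσ : ∀ x, x ∈ W ↔ σ x ∈ W := by
    intro x
    conv_lhs => rw [key]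
    rfl
  refine ⟨σ, hσ, ?_⟩
  intro x hx
  obtain ⟨y, z, hy, hz, hxy, hy1⟩ := exists_frac hW hx
  have hyW : y ∈ W := isIntegral_mem (comap_le hW) hy
  have hzW : z ∈ W := isIntegral_mem (comap_le hW) hz
  have hy2 : IsLocalRing.residue W ⟨y, hyW⟩ ≠ 0 := by
    rw [Ne, IsLocalRing.residue_eq_zero_iff, ValuationSubring.valuation_lt_one_iff]
    show ¬ W.valuation y < 1
    rw [hy1]; exact lt_irrefl _
  have h1 : IsLocalRing.residue W ⟨σ y, (hσ y).1 hyW⟩ = ψ (IsLocalRing.residue W ⟨y, hyW⟩) :=
    hs1 ⟨y, hy⟩
  have h2 : IsLocalRing.residue W ⟨σ z, (hσ z).1 hzW⟩ = ψ (IsLocalRing.residue W ⟨z, hzW⟩) :=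
    hs1 ⟨z, hz⟩
  have h3 : IsLocalRing.residue W ⟨x, hx⟩ * IsLocalRing.residue W ⟨y, hyW⟩ =
      IsLocalRing.residue W ⟨z, hzW⟩ := by
    rw [← map_mul]
    congr 1
    exact Subtype.ext hxy
  have h4 : IsLocalRing.residue W ⟨σ x, (hσ x).1 hx⟩ * IsLocalRing.residue W ⟨σ y, (hσ y).1 hyW⟩ =
      IsLocalRing.residue W ⟨σ z, (hσ z).1 hzW⟩ := by
    rw [← map_mul]
    congr 1
    refine Subtype.ext ?_
    show σ x * σ y = σ z
    rw [← map_mul, hxy]
  have h5 : ψ (IsLocalRing.residue W ⟨y, hyW⟩) ≠ 0 := by
    rw [Ne, EmbeddingLike.map_eq_zero_iff]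
    exact hy2
  apply mul_right_cancel₀ h5
  rw [← map_mul, h3, ← h1, h4, h2]

end gal

end Pool.Agent.H707R3
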