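import Mathlib
import Pool.Agent.H707R3.ValGal

set_option linter.all false

open Polynomial
open scoped Pointwise

namespace Pool.Agent.H707R3

section

variable {F M : Type*} [Field F] [Field M] [Algebra F M] {R : ValuationSubring F}

/-- Every valuation ring extends to a field extension. -/
theorem exists_extension (R : ValuationSubring F) (M : Type*) [Field M] [Algebra F M] :
    ∃ W : ValuationSubring M, W.comap (algebraMap F M) = R := by
  obtain ⟨W, hW, hloc⟩ := IsLocalRing.exists_factor_valuationRing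
    ((algebraMap F M).comp (algebraMap R F))
  refine ⟨W, le_antisymm ?_ ?_⟩
  · intro a ha
    have ha' : algebraMap F M a ∈ W := ha
    by_contra hc
    have hinv : a⁻¹ ∈ R := (R.mem_or_inv_mem a).resolve_left hc
    have ha0 : a ≠ 0 := by
      rintro rfl
      exact hc (zero_mem _)
    have hu : IsUnit (((algebraMap F M).comp (algebraMap R F)).codRestrict W.toSubring hW ⟨a⁻¹, hinv⟩) := by
      refine IsUnit.of_mul_eq_one (⟨algebraMap F M a, ha'⟩ : W.toSubring) (Subtype.ext ?_)
      show algebraMap F M a⁻¹ * algebraMap F M a = 1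
      rw [← map_mul, inv_mul_cancel₀ ha0, map_one]
    obtain ⟨u, hu⟩ := hloc.map_nonunit _ hu
    apply hc
    have h1 : a = ((u⁻¹ : Rˣ) : R) := by
      have h2 : ((u : R) : F) * (((u⁻¹ : Rˣ) : R) : F) = 1 := by
        have := u.mul_inv
        exact congrArg Subtype.val this
      rw [hu] at h2
      have h3 : a⁻¹ * (((u⁻¹ : Rˣ) : R) : F) = 1 := h2
      rw [inv_mul_eq_one₀ ha0] at h3
      exact h3
    rw [h1]
    exact ((u⁻¹ : Rˣ) : R).2
  · intro a ha
    exact hW ⟨a, ha⟩

/-- Existence of Frobenius elements. -/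
theorem exists_frob [IsGalois F M] {W : ValuationSubring M}
    (hW : W.comap (algebraMap F M) = R) [Finite (IsLocalRing.ResidueField R)] :
    ∃ σ : M ≃ₐ[F] M, (∀ x, x ∈ W ↔ σ x ∈ W) ∧
      ∀ x ∈ W, W.valuation (σ x - x ^ Nat.card (IsLocalRing.ResidueField R)) < 1 := by
  classical
  set q := Nat.card (IsLocalRing.ResidueField R) with hq
  let P := IsLocalRing.maximalIdeal R
  let Q := centerIC hW
  have hQmax : Q.IsMaximal := centerIC_isMaximal hW
  letI : Field (R ⧸ P) := Ideal.Quotient.field P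
  letI : Field (integralClosure R M ⧸ Q) := Ideal.Quotient.field Q
  have hfin : Finite (R ⧸ P) := ‹Finite (IsLocalRing.ResidueField R)›
  letI : Fintype (R ⧸ P) := Fintype.ofFinite _
  have hint : Algebra.IsIntegral (R ⧸ P) (integralClosure R M ⧸ Q) := inferInstance
  have halg : Algebra.IsAlgebraic (R ⧸ P) (integralClosure R M ⧸ Q) := inferInstance
  let fr := FiniteField.frobeniusAlgEquivOfAlgebraic (R ⧸ P) (integralClosure R M ⧸ Q)
  have hcard : Fintype.card (R ⧸ P) = q := by
    rw [hq, ← Nat.card_eq_fintype_card]; rfl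
  have hfr : ∀ x, fr x = x ^ q := by
    intro x
    rw [← hcard]
    rfl
  let ψ : IsLocalRing.ResidueField W ≃+* IsLocalRing.ResidueField W :=
    ((quotEquiv hW).symm.trans fr.toRingEquiv).trans (quotEquiv hW)
  have hψ : ∀ x, ψ x = x ^ q := by
    intro x
    show quotEquiv hW (fr ((quotEquiv hW).symm x)) = x ^ q
    rw [hfr, map_pow, RingEquiv.apply_symm_apply]
  obtain ⟨σ, hσ, hσ2⟩ := exists_algEquiv_residue hW ψ (by
    intro r
    rw [hψ, ← map_pow, ← map_pow, ← map_pow]
    have h1 : Ideal.Quotient.mk P (r ^ q) = Ideal.Quotient.mk P r := by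
      rw [map_pow, ← hcard]
      exact FiniteField.pow_card _
    have h2 : IsLocalRing.residue R (r ^ q) = IsLocalRing.residue R r := h1
    have h3 : r ^ q - r ∈ IsLocalRing.maximalIdeal R := by
      rw [← IsLocalRing.residue_eq_zero_iff, map_sub, h2, sub_self]
    have h4 : algebraMap R (integralClosure R M) (r ^ q - r) ∈ centerIC hW := by
      have := centerIC_under hW
      rw [← this] at h3
      exact h3
    rw [← sub_eq_zero, ← map_sub, ← map_sub, ← map_sub, IsLocalRing.residue_eq_zero_iff]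
    exact h4)
  refine ⟨σ, hσ, fun x hx => ?_⟩
  have h1 := hσ2 x hx
  rw [hψ, ← map_pow, ← sub_eq_zero, ← map_sub, IsLocalRing.residue_eq_zero_iff,
    ValuationSubring.valuation_lt_one_iff] at h1
  exact h1

/-- A valuation ring contained in another one with the same trace on the base field is equal to it. -/
lemma eq_of_le_of_comap_eq [Algebra.IsAlgebraic F M] {W W' : ValuationSubring M}
    (hW : W.comap (algebraMap F M) = R) (hW' : W'.comap (algebraMap F M) = R) (h : W ≤ W') :
    W = W' := by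
  have h1 : centerIC hW' ≤ centerIC hW := by
    intro b hb
    rw [mem_centerIC] at hb ⊢
    rw [val_lt_one_iff_of_field] at hb ⊢
    intro hc
    exact hb ⟨hc.1, h hc.2⟩
  have h2 : centerIC hW' = centerIC hW :=
    (centerIC_isMaximal hW').eq_of_le (centerIC_isMaximal hW).ne_top h1
  refine eq_of_center hW hW' ?_
  intro b hb
  rw [← mem_centerIC hW' ⟨b, hb⟩, ← mem_centerIC hW ⟨b, hb⟩, h2]

/-- An automorphism acting as a power map modulo the maximal ideal preserves the valuation ring. -/
lemma mem_iff_of_frob {W : ValuationSubring M} {σ : M ≃ₐ[F] M} {q : ℕ} (hq : q ≠ 0)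
    (hσ : ∀ x ∈ W, W.valuation (σ x - x ^ q) < 1) (x : M) : x ∈ W ↔ σ x ∈ W := by
  have h1 : ∀ x ∈ W, σ x ∈ W := by
    intro x hx
    have h2 : σ x - x ^ q ∈ W := (ValuationSubring.valuation_le_one_iff _ _).1 (hσ x hx).le
    have h3 := W.add_mem _ _ h2 (pow_mem hx q)
    rwa [sub_add_cancel] at h3
  refine ⟨h1 x, fun hx => ?_⟩
  by_contra hc
  have hx0 : x ≠ 0 := by rintro rfl; exact hc (zero_mem _)
  have hinv : x⁻¹ ∈ W := (W.mem_or_inv_mem x).resolve_left hc
  have h4 : W.valuation x⁻¹ < 1 := by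
    rw [val_lt_one_iff_of_field, inv_inv]
    exact fun h => hc h.2
  have h5 : W.valuation (σ x⁻¹) < 1 := by
    have h6 := hσ _ hinv
    have h7 : W.valuation (x⁻¹ ^ q) < 1 := by
      rw [map_pow]
      exact pow_lt_one₀ zero_le h4 hq
    have e : σ x⁻¹ = (σ x⁻¹ - x⁻¹ ^ q) + x⁻¹ ^ q := by ring
    rw [e]
    exact (Valuation.map_add _ _ _).trans_lt (max_lt h6 h7)
  rw [map_inv₀, val_lt_one_iff_of_field, inv_inv] at h5
  exact h5 ⟨inv_ne_zero ((map_ne_zero σ).2 hx0), hx⟩

end

end Pool.Agent.H707R3
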