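import Mathlib
import Pool.Agent.H707R3.PlacesFin
import Pool.Agent.H707R3.FFRiemann
import Pool.Agent.H707R3.ValFrob

set_option linter.all false

open IntermediateField IsDedekindDomain

namespace Pool.Agent.H707R3

variable {k K : Type*} [Field k] [Field K] [Algebra k K]

/-- The closed point attached to a normalised valuation. -/
def ofFF (P : FF.Place k K) : Place k K where
  ring := P.O
  const_mem := fun a => P.reg_const a
  ne_top := by
    intro h
    obtain ⟨t, ht0, ht⟩ := P.surj
    have h1 : t⁻¹ ∈ P.O := by rw [h]; trivial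
    have h2 : P.Reg t⁻¹ := h1
    rw [P.reg_iff (inv_ne_zero ht0), P.ord_inv] at h2
    omega

theorem ofFF_ring (P : FF.Place k K) : (ofFF P).ring = P.O := rfl

theorem ofFF_injective : Function.Injective (ofFF (k := k) (K := K)) := by
  intro P Q h
  have h1 : P.O = Q.O := congrArg Place.ring h
  apply FF.Place.eq_of_le
  intro f hf h2
  have h3 : f ∈ P.O := Or.inr h2
  rw [h1] at h3
  exact (Q.reg_iff hf).1 h3

theorem deg_ofFF (P : FF.Place k K) : (ofFF P).deg = P.deg := by
  have h : (ofFF P).resHom = P.constHom := by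
    ext c
    show IsLocalRing.residue P.O _ = P.red (algebraMap k K c)
    rw [P.red_of_reg (P.reg_const c)]
    rfl
  unfold Place.deg FF.Place.deg
  show @Module.finrank k (ofFF P).κ _ _ (ofFF P).resHom.toAlgebra.toModule =
    @Module.finrank k P.RF _ _ P.constHom.toAlgebra.toModule
  rw [h]
  rfl

theorem exists_ofFF_eq [PerfectField k] [hK : FF.IsFF k K] (v : Place k K) :
    ∃ P : FF.Place k K, ofFF P = v := by
  obtain ⟨t, ht, hsep⟩ := FFP.exists_sep (k := k) (K := K)
  have hfd : FiniteDimensional k⟮t⟯ K := FF.IsFF.finite ht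
  have main : ∀ (D : DedModel k K), (∀ b ∈ D.B, b ∈ v.ring) → ∃ P : FF.Place k K, ofFF P = v := by
    intro D hv
    have h1 := D.ded
    have h2 := D.frac
    refine ⟨FF.placeOf (k := k) (L := K) (D.hos v hv), ?_⟩
    apply Place.ext_ring
    rw [ofFF_ring]
    ext x
    rw [D.mem_ring_iff v hv x, FF.Place.mem_O]
    by_cases hx : x = 0
    · subst hx
      rw [map_zero]
      exact ⟨fun _ => zero_le, fun _ => FF.Place.reg_zero _⟩
    · rw [FF.Place.reg_iff _ hx, FF.placeOf_nonneg _ hx]
  rcases v.ring.mem_or_inv_mem t with h1 | h1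
  · obtain ⟨D, hD⟩ := exists_dedModel t ht
    exact main D (hD v h1)
  · have ht' : Transcendental k t⁻¹ := by
      intro hcon
      apply ht
      have := hcon.inv
      rwa [inv_inv] at this
    have hfd' : FiniteDimensional k⟮t⁻¹⟯ K := by
      rw [adjoin_inv_eq]
      exact hfd
    have hsep' : Algebra.IsSeparable k⟮t⁻¹⟯ K := by
      rw [adjoin_inv_eq]
      exact hsep
    obtain ⟨D', hD'⟩ := exists_dedModel t⁻¹ ht'
    exact main D' (hD' v h1)

/-- Closed points and normalised valuations. -/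
noncomputable def ffEquiv [PerfectField k] [FF.IsFF k K] : FF.Place k K ≃ Place k K :=
  Equiv.ofBijective ofFF ⟨ofFF_injective, exists_ofFF_eq⟩

theorem IsCurveFunctionField.isFF (h : IsCurveFunctionField k K) : FF.IsFF k K :=
  ⟨h.essFiniteType, h.trdeg_eq_one⟩

/-- The normalised valuation attached to a closed point. -/
noncomputable def toFF [PerfectField k] [FF.IsFF k K] (v : Place k K) : FF.Place k K :=
  (ffEquiv (k := k) (K := K)).symm v

theorem ofFF_toFF [PerfectField k] [FF.IsFF k K] (v : Place k K) : ofFF (toFF v) = v :=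
  (ffEquiv (k := k) (K := K)).apply_symm_apply v

theorem toFF_ofFF [PerfectField k] [FF.IsFF k K] (P : FF.Place k K) : toFF (ofFF P) = P :=
  (ffEquiv (k := k) (K := K)).symm_apply_apply P

theorem toFF_O [PerfectField k] [FF.IsFF k K] (v : Place k K) : (toFF v).O = v.ring := by
  rw [← ofFF_ring, ofFF_toFF]

theorem toFF_deg [PerfectField k] [FF.IsFF k K] (v : Place k K) : (toFF v).deg = v.deg := by
  rw [← deg_ofFF, ofFF_toFF]

end Pool.Agent.H707R3

namespace FF.Place

variable {k K : Type*} [Field k] [Field K] [Algebra k K]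

theorem isDVR (P : Place k K) : IsDiscreteValuationRing P.O := by
  obtain ⟨t, ht0, ht⟩ := P.surj
  have htr : P.Reg t := Or.inr (by omega)
  apply IsDiscreteValuationRing.ofHasUnitMulPowIrreducibleFactorization
  have hunit : ∀ x : P.O, IsUnit x ↔ ((x : K) ≠ 0 ∧ P.ord x = 0) := by
    rintro ⟨x, hx⟩
    exact P.isUnit_O_iff hx
  refine ⟨⟨t, htr⟩, ?_, ?_⟩
  · constructor
    · rw [hunit]
      rintro ⟨-, h⟩
      change P.ord t = 0 at h
      omega
    · rintro ⟨a, ha⟩ ⟨b, hb⟩ hab
      have hab' : t = a * b := congrArg Subtype.val hab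
      have ha0 : a ≠ 0 := by rintro rfl; rw [zero_mul] at hab'; exact ht0 hab'
      have hb0 : b ≠ 0 := by rintro rfl; rw [mul_zero] at hab'; exact ht0 hab'
      have h1 := P.ord_mul ha0 hb0
      rw [← hab', ht] at h1
      have h2 := (P.reg_iff ha0).1 ha
      have h3 := (P.reg_iff hb0).1 hb
      rw [hunit, hunit]
      change (a ≠ 0 ∧ P.ord a = 0) ∨ (b ≠ 0 ∧ P.ord b = 0)
      rcases eq_or_lt_of_le h2 with h4 | h4
      · exact Or.inl ⟨ha0, h4.symm⟩
      · exact Or.inr ⟨hb0, by omega⟩
  · rintro ⟨x, hx⟩ hx0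
    have hx0' : x ≠ 0 := fun h => hx0 (Subtype.ext h)
    have h1 := (P.reg_iff hx0').1 hx
    refine ⟨(P.ord x).toNat, ?_⟩
    have hy : P.ord (x / t ^ (P.ord x).toNat) = 0 := by
      rw [P.ord_div hx0' (pow_ne_zero _ ht0), P.ord_pow, ht]
      omega
    have hy0 : x / t ^ (P.ord x).toNat ≠ 0 := div_ne_zero hx0' (pow_ne_zero _ ht0)
    have hyr : P.Reg (x / t ^ (P.ord x).toNat) := Or.inr hy.ge
    obtain ⟨u, hu⟩ := (P.isUnit_O_iff hyr).2 ⟨hy0, hy⟩
    refine ⟨u, Subtype.ext ?_⟩
    rw [hu]
    show t ^ (P.ord x).toNat * (x / t ^ (P.ord x).toNat) = x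
    field_simp

end FF.Place
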