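import Mathlib
import Pool.Agent.H707R3.ValFrob
import Pool.Agent.H707R3.PlacesFin

set_option linter.all false

open Polynomial
open scoped Pointwise

namespace Pool.Agent.H707R3

section basic

variable {p : ℕ} [Fact p.Prime] {F E : Type*} [Field F] [Field E] [Algebra F E]

/-- The `p`-adic coordinate of an automorphism. -/
noncomputable def coord (Φ : (E ≃ₐ[F] E) ≃* Multiplicative ℤ_[p]) (σ : E ≃ₐ[F] E) : ℤ_[p] := (Φ σ).toAdd

variable (Φ : (E ≃ₐ[F] E) ≃* Multiplicative ℤ_[p])

lemma coord_mul (σ τ : E ≃ₐ[F] E) : coord Φ (σ * τ) = coord Φ σ + coord Φ τ := by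
  simp [coord]

lemma coord_one : coord Φ (1 : E ≃ₐ[F] E) = 0 := by simp [coord]

lemma coord_inv (σ : E ≃ₐ[F] E) : coord Φ σ⁻¹ = - coord Φ σ := by simp [coord]

lemma coord_pow (σ : E ≃ₐ[F] E) (j : ℕ) : coord Φ (σ ^ j) = j * coord Φ σ := by
  simp [coord]

lemma coord_injective : Function.Injective (coord Φ) := fun σ τ h => Φ.injective h

lemma coord_surjective : Function.Surjective (coord Φ) := fun a =>
  ⟨Φ.symm (Multiplicative.ofAdd a), by simp [coord]⟩

include Φ in
lemma gal_comm (σ τ : E ≃ₐ[F] E) : σ * τ = τ * σ := by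
  apply coord_injective Φ
  rw [coord_mul, coord_mul, add_comm]

/-- The subgroup of elements whose coordinate is divisible by `p ^ n`. -/
noncomputable def levelSubgroup (n : ℕ) : Subgroup (E ≃ₐ[F] E) where
  carrier := {σ | (p : ℤ_[p]) ^ n ∣ coord Φ σ}
  mul_mem' := by
    intro a b ha hb
    show _ ∣ coord Φ (a * b)
    rw [coord_mul]; exact dvd_add ha hb
  one_mem' := by
    show _ ∣ coord Φ 1
    rw [coord_one]; exact dvd_zero _
  inv_mem' := by
    intro a ha
    show _ ∣ coord Φ a⁻¹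
    rw [coord_inv]; exact (dvd_neg).2 ha

lemma mem_levelSubgroup (n : ℕ) (σ : E ≃ₐ[F] E) :
    σ ∈ levelSubgroup Φ n ↔ (p : ℤ_[p]) ^ n ∣ coord Φ σ := Iff.rfl

lemma index_levelSubgroup (n : ℕ) : (levelSubgroup Φ n).index = p ^ n := by
  have hp : p.Prime := Fact.out
  have hne : NeZero (p ^ n) := ⟨pow_ne_zero _ hp.ne_zero⟩
  let θ : (E ≃ₐ[F] E) →* Multiplicative (ZMod (p ^ n)) :=
    { toFun := fun σ => Multiplicative.ofAdd (PadicInt.toZModPow n (coord Φ σ))
      map_one' := by rw [coord_one, map_zero]; rfl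
      map_mul' := fun a b => by rw [coord_mul, map_add]; rfl }
  have hker : θ.ker = levelSubgroup Φ n := by
    ext σ
    rw [MonoidHom.mem_ker, mem_levelSubgroup]
    show Multiplicative.ofAdd (PadicInt.toZModPow n (coord Φ σ)) = 1 ↔ _
    rw [ofAdd_eq_one, ← RingHom.mem_ker, PadicInt.ker_toZModPow, Ideal.mem_span_singleton]
  have hsurj : Function.Surjective θ := by
    intro x
    obtain ⟨y, hy⟩ := (ZMod.ringHom_surjective (PadicInt.toZModPow (p := p) n)) (Multiplicative.toAdd x)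
    obtain ⟨σ, hσ⟩ := coord_surjective Φ y
    refine ⟨σ, ?_⟩
    show Multiplicative.ofAdd (PadicInt.toZModPow n (coord Φ σ)) = x
    rw [hσ, hy]; rfl
  rw [← hker, Subgroup.index_ker, MonoidHom.range_eq_top.2 hsurj, Subgroup.card_top]
  show Nat.card (ZMod (p ^ n)) = p ^ n
  exact Nat.card_zmod _

/-- The fixing subgroup of a layer. -/
lemma fixing_eq_level [IsGalois F E] (L : IntermediateField F E) (n : ℕ)
    (hL : Module.finrank F L = p ^ n) : L.fixingSubgroup = levelSubgroup Φ n := by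
  have hp : p.Prime := Fact.out
  have hidx : L.fixingSubgroup.index = p ^ n := by
    rw [← IntermediateField.finrank_eq_fixingSubgroup_index, hL]
  have hnorm : L.fixingSubgroup.Normal := ⟨fun a ha g => by
    rw [gal_comm Φ g a, mul_assoc, mul_inv_cancel, mul_one]; exact ha⟩
  have hle : levelSubgroup Φ n ≤ L.fixingSubgroup := by
    intro σ hσ
    obtain ⟨c, hc⟩ := (mem_levelSubgroup Φ n σ).1 hσ
    obtain ⟨τ, hτ⟩ := coord_surjective Φ c
    have : σ = τ ^ (p ^ n) := by
      apply coord_injective Φ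
      rw [coord_pow, hτ, hc]; push_cast; rfl
    rw [this, ← hidx]
    exact Subgroup.pow_index_mem _ τ
  refine le_antisymm ?_ hle
  rw [← Subgroup.relIndex_eq_one]
  have h1 := Subgroup.relIndex_mul_index hle
  rw [hidx, index_levelSubgroup] at h1
  have hpos : 0 < p ^ n := pow_pos hp.pos n
  exact Nat.eq_of_mul_eq_mul_right hpos (by rw [h1, one_mul])

lemma mem_fixing_iff [IsGalois F E] (L : IntermediateField F E) (n : ℕ)
    (hL : Module.finrank F L = p ^ n) (σ : E ≃ₐ[F] E) :
    σ ∈ L.fixingSubgroup ↔ (p : ℤ_[p]) ^ n ∣ coord Φ σ := by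
  rw [fixing_eq_level Φ L n hL, mem_levelSubgroup]

/-- Arithmetic of `p`-adic integers: the common divisor of `b` and `p ^ n`. -/
lemma exists_level (b : ℤ_[p]) (n : ℕ) : ∃ c ≤ n, (∀ j : ℕ, (p : ℤ_[p]) ^ n ∣ j * b ↔ p ^ (n - c) ∣ j) ∧
    (p : ℤ_[p]) ^ c ∣ b ∧ (∀ x : ℤ_[p], (p : ℤ_[p]) ^ c ∣ x → ∃ j : ℕ, (p : ℤ_[p]) ^ n ∣ x - j * b) := by
  have hp : p.Prime := Fact.out
  have hp0 : (p : ℤ_[p]) ≠ 0 := by exact_mod_cast hp.ne_zero
  have hdvd : ∀ (m j : ℕ), (p : ℤ_[p]) ^ m ∣ (j : ℤ_[p]) ↔ p ^ m ∣ j := by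
    intro m j
    have := PadicInt.pow_p_dvd_int_iff (p := p) m (j : ℤ)
    rw [Int.cast_natCast] at this
    rw [this]
    norm_cast
  by_cases hb : (p : ℤ_[p]) ^ n ∣ b
  · refine ⟨n, le_refl _, ?_, hb, ?_⟩
    · intro j
      rw [Nat.sub_self, pow_zero]
      exact ⟨fun _ => one_dvd _, fun _ => dvd_mul_of_dvd_right hb _⟩
    · intro x hx
      exact ⟨0, by simpa using hx⟩
  · have hb0 : b ≠ 0 := by rintro rfl; exact hb (dvd_zero _)
    set c := b.valuation with hc
    set u := PadicInt.unitCoeff hb0 with hu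
    have hbu : b = (u : ℤ_[p]) * (p : ℤ_[p]) ^ c := PadicInt.unitCoeff_spec hb0
    have hcn : c < n := by
      by_contra hcon
      push Not at hcon
      exact hb (by rw [hbu]; exact dvd_mul_of_dvd_right (pow_dvd_pow _ hcon) _)
    have hcancel : ∀ y : ℤ_[p], (p : ℤ_[p]) ^ n ∣ y * b ↔ (p : ℤ_[p]) ^ (n - c) ∣ y := by
      intro y
      have e1 : (p : ℤ_[p]) ^ n = (p : ℤ_[p]) ^ (n - c) * (p : ℤ_[p]) ^ c := by
        rw [← pow_add]; congr 1; omega
      have e2 : y * b = (y * u) * (p : ℤ_[p]) ^ c := by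
        conv_lhs => rw [hbu]
        ring
      rw [e1, e2, mul_dvd_mul_iff_right (pow_ne_zero _ hp0)]
      exact (Units.dvd_mul_right (u := u))
    refine ⟨c, hcn.le, ?_, ?_, ?_⟩
    · intro j
      rw [hcancel, hdvd]
    · rw [hbu]; exact dvd_mul_left _ _
    · rintro x ⟨y, rfl⟩
      obtain ⟨u', hu'⟩ : ∃ u' : ℤ_[p], (u : ℤ_[p]) * u' = 1 := ⟨_, u.mul_inv⟩
      obtain ⟨j, hj⟩ : ∃ j : ℕ, (p : ℤ_[p]) ^ n ∣ u' * y - j := by
        have hne : NeZero (p ^ n) := ⟨pow_ne_zero _ hp.ne_zero⟩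
        refine ⟨(PadicInt.toZModPow n (u' * y)).val, ?_⟩
        rw [← Ideal.mem_span_singleton, ← PadicInt.ker_toZModPow, RingHom.mem_ker, map_sub, map_natCast,
          ZMod.natCast_val, ZMod.cast_id, sub_self]
      refine ⟨j, ?_⟩
      have e : (p : ℤ_[p]) ^ c * y - j * b = (u' * y - j) * b := by
        have h2 : (u' * y) * b = (p : ℤ_[p]) ^ c * y * ((u : ℤ_[p]) * u') := by
          conv_lhs => rw [hbu]
          ring
        rw [sub_mul, h2, hu', mul_one]
      rw [e]
      exact dvd_mul_of_dvd_left hj _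

end basic

section fin

/-- In a finite field with `q ^ D` elements, `x ^ (q ^ m) = x` for all `x` iff `D ∣ m`. -/
lemma forall_pow_eq_iff {κ : Type*} [Field κ] [Finite κ] {q D : ℕ} (hq : 2 ≤ q)
    (hcard : Nat.card κ = q ^ D) (m : ℕ) : (∀ x : κ, x ^ q ^ m = x) ↔ D ∣ m := by
  classical
  have : Fintype κ := Fintype.ofFinite κ
  have hcard' : Fintype.card κ = q ^ D := by rw [← Nat.card_eq_fintype_card, hcard]
  constructor
  · intro h
    obtain ⟨g, hg⟩ := IsCyclic.exists_generator (α := κˣ)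
    have hord : orderOf g = q ^ D - 1 := by
      rw [orderOf_eq_card_of_forall_mem_zpowers hg, Nat.card_eq_fintype_card, Fintype.card_units, hcard']
    have h1 : g ^ (q ^ m - 1) = 1 := by
      have h2 := h (g : κ)
      have h3 : g ^ q ^ m = g := by
        ext; push_cast; exact h2
      have h4 : g * g ^ (q ^ m - 1) = g * 1 := by
        rw [← pow_succ', Nat.sub_add_cancel (Nat.one_le_pow _ _ (by omega)), h3, mul_one]
      exact mul_left_cancel h4
    have h2 : q ^ D - 1 ∣ q ^ m - 1 := by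
      rw [← hord]; exact orderOf_dvd_of_pow_eq_one h1
    have h3 := Nat.pow_sub_one_gcd_pow_sub_one q D m
    rw [Nat.gcd_eq_left h2] at h3
    have h4 : q ^ D = q ^ (D.gcd m) := by
      have a1 : 1 ≤ q ^ D := Nat.one_le_pow _ _ (by omega)
      have a2 : 1 ≤ q ^ (D.gcd m) := Nat.one_le_pow _ _ (by omega)
      omega
    have h5 : D = D.gcd m := Nat.pow_right_injective hq h4
    rw [h5]
    exact Nat.gcd_dvd_right D m
  · rintro ⟨j, rfl⟩ x
    have h := FiniteField.pow_card_pow j x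
    rw [hcard', ← pow_mul] at h
    exact h

end fin

section unram

variable {F M : Type*} [Field F] [Field M] [Algebra F M]

lemma val_transport {W W' : ValuationSubring M} {σ : M ≃ₐ[F] M} (h : ∀ x, x ∈ W ↔ σ x ∈ W') (x : M) :
    W.valuation x < 1 ↔ W'.valuation (σ x) < 1 := by
  rw [val_lt_one_iff_of_field, val_lt_one_iff_of_field, ← map_inv₀, ← h]
  simp

/-- The automorphism of the residue field induced by an element of the decomposition group. -/
noncomputable def resEquiv {W : ValuationSubring M} (σ : M ≃ₐ[F] M) (h : ∀ x, x ∈ W ↔ σ x ∈ W) :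
    IsLocalRing.ResidueField W ≃+* IsLocalRing.ResidueField W :=
  IsLocalRing.ResidueField.mapEquiv
    { toFun := fun x => ⟨σ x, (h x).1 x.2⟩
      invFun := fun x => ⟨σ.symm x, (h _).2 (by rw [σ.apply_symm_apply]; exact x.2)⟩
      left_inv := fun x => Subtype.ext (σ.symm_apply_apply x)
      right_inv := fun x => Subtype.ext (σ.apply_symm_apply x)
      map_mul' := fun x y => Subtype.ext (map_mul σ _ _)
      map_add' := fun x y => Subtype.ext (map_add σ _ _) }

lemma resEquiv_residue {W : ValuationSubring M} (σ : M ≃ₐ[F] M) (h : ∀ x, x ∈ W ↔ σ x ∈ W)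
    (x : M) (hx : x ∈ W) : resEquiv σ h (IsLocalRing.residue W ⟨x, hx⟩) =
      IsLocalRing.residue W ⟨σ x, (h x).1 hx⟩ := rfl

lemma residue_eq_iff {W : ValuationSubring M} {x y : M} (hx : x ∈ W) (hy : y ∈ W) :
    IsLocalRing.residue W ⟨x, hx⟩ = IsLocalRing.residue W ⟨y, hy⟩ ↔ W.valuation (x - y) < 1 := by
  rw [← sub_eq_zero, ← map_sub, IsLocalRing.residue_eq_zero_iff, ValuationSubring.valuation_lt_one_iff]
  rfl

/-- The restriction of scalars of an automorphism over an intermediate field. -/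
def toBase (L : IntermediateField F M) (h : M ≃ₐ[L] M) : M ≃ₐ[F] M := h.restrictScalars F

lemma toBase_apply (L : IntermediateField F M) (h : M ≃ₐ[L] M) (x : M) : toBase L h x = h x := rfl

lemma toBase_mem (L : IntermediateField F M) (h : M ≃ₐ[L] M) : toBase L h ∈ L.fixingSubgroup := by
  rw [IntermediateField.mem_fixingSubgroup_iff]
  intro x hx
  exact h.commutes ⟨x, hx⟩

/-- If the inertia group is trivial, then an element of the decomposition group acting trivially on
the residue field of an intermediate field `L` fixes `L`. -/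
lemma mem_fixing_of_trivial [IsGalois F M] {W : ValuationSubring M}
    (hin : ∀ σ : M ≃ₐ[F] M, (∀ a ∈ W, W.valuation (σ a - a) < 1) → σ = 1)
    (L : IntermediateField F M) (δ : M ≃ₐ[F] M) (hδ : ∀ x, x ∈ W ↔ δ x ∈ W)
    (htriv : ∀ x ∈ L, x ∈ W → W.valuation (δ x - x) < 1) : δ ∈ L.fixingSubgroup := by
  have hW : W.comap (algebraMap L M) = W.comap (algebraMap L M) := rfl
  obtain ⟨h, hh, hh2⟩ := exists_algEquiv_residue (F := L) (M := M) hW (resEquiv δ hδ) (by
    intro r
    have hr : ((r : L) : M) ∈ W := r.2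
    exact (residue_eq_iff ((hδ _).1 hr) hr).2 (htriv _ (r : L).2 hr))
  have key : (toBase L h)⁻¹ * δ = 1 := by
    apply hin
    intro a ha
    have h1 := hh2 a ha
    rw [resEquiv_residue, residue_eq_iff] at h1
    have hinv : ∀ x, x ∈ W ↔ (toBase L h)⁻¹ x ∈ W := by
      intro x
      rw [hh ((toBase L h)⁻¹ x)]
      have : h ((toBase L h)⁻¹ x) = x := by
        show (toBase L h) ((toBase L h).symm x) = x
        exact (toBase L h).apply_symm_apply x
      rw [this]
    have h2 : W.valuation (δ a - h a) < 1 := by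
      rw [← Valuation.map_neg, neg_sub]; exact h1
    have h3 := (val_transport hinv (δ a - h a)).1 h2
    rw [map_sub] at h3
    have h4 : (toBase L h)⁻¹ (h a) = a := (toBase L h).symm_apply_apply a
    rw [h4] at h3
    exact h3
  have : δ = toBase L h := by
    have := congrArg (fun g => toBase L h * g) key
    simpa using this
  rw [this]
  exact toBase_mem L h

end unram

end Pool.Agent.H707R3
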