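import Mathlib
import Pool.Agent.H707R3.Layers
import Pool.Agent.H707R3.Bridge

set_option linter.all false

open Polynomial
open scoped Pointwise

namespace Pool.Agent.H707R3

/-- Function fields of one variable go up finite extensions. -/
lemma isFF_of_finite {k F M : Type*} [Field k] [Field F] [Field M] [Algebra k F] [Algebra F M]
    [Algebra k M] [IsScalarTower k F M] [hF : FF.IsFF k F] [FiniteDimensional F M] : FF.IsFF k M := by
  have h1 := hF.ess
  constructor
  · exact Algebra.EssFiniteType.comp k F M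
  · have h2 := lift_trdeg_add_eq k F M
    have h3 : Algebra.trdeg F M = 0 := trdeg_eq_zero_iff.2 inferInstance
    rw [hF.trdeg, h3] at h2
    simp at h2
    exact h2.symm

section inter

variable {k F E : Type*} [Field k] [Field F] [Algebra k F] [Field E] [Algebra F E] [Algebra k E]
  [IsScalarTower k F E]

instance towerInter (L : IntermediateField F E) : IsScalarTower k L E :=
  IsScalarTower.of_algebraMap_eq fun x => rfl

lemma curve_layer (hF : IsCurveFunctionField k F) (hE : ∀ a : E, IsAlgebraic k a → a ∈ (algebraMap k E).range)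
    (L : IntermediateField F E) [FiniteDimensional F L] : IsCurveFunctionField k L := by
  haveI := hF.isFF
  have h := isFF_of_finite (k := k) (F := F) (M := L)
  refine ⟨h.ess, h.trdeg, ?_⟩
  intro a ha
  obtain ⟨c, hc⟩ := hE (a : E) (by
    have := ha.algebraMap (A := E)
    exact this)
  refine ⟨c, Subtype.ext ?_⟩
  rw [← hc]
  exact (IsScalarTower.algebraMap_apply k L E c).symm

/-- The place of an intermediate field cut out by a valuation ring. -/
def restrictPlace {v : Place k F} (L : IntermediateField F E) (W : ValuationSubring E)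
    (hW : W.comap (algebraMap F E) = v.ring) : Place k L where
  ring := W.comap (algebraMap L E)
  const_mem := by
    intro a
    show algebraMap L E (algebraMap k L a) ∈ W
    rw [← IsScalarTower.algebraMap_apply k L E, IsScalarTower.algebraMap_apply k F E]
    have : algebraMap k F a ∈ W.comap (algebraMap F E) := by rw [hW]; exact v.const_mem a
    exact this
  ne_top := by
    intro h
    apply v.ne_top
    rw [← hW, eq_top_iff]
    intro x _
    have : algebraMap F L x ∈ W.comap (algebraMap L E) := by rw [h]; trivial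
    exact this

lemma restrictPlace_ring {v : Place k F} (L : IntermediateField F E) (W : ValuationSubring E)
    (hW : W.comap (algebraMap F E) = v.ring) :
    (restrictPlace L W hW).ring = W.comap (algebraMap L E) := rfl

/-- `w` is above `v`. -/
def Above {L : IntermediateField F E} (w : Place k L) (v : Place k F) : Prop :=
  w.ring.comap (algebraMap F L) = v.ring

lemma restrictPlace_above {v : Place k F} (L : IntermediateField F E) (W : ValuationSubring E)
    (hW : W.comap (algebraMap F E) = v.ring) : Above (restrictPlace L W hW) v := by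
  unfold Above
  rw [← hW]
  rfl

lemma exists_restrictPlace_eq {v : Place k F} {L : IntermediateField F E} (w : Place k L)
    (hw : Above w v) : ∃ (W : ValuationSubring E) (hW : W.comap (algebraMap F E) = v.ring),
      restrictPlace L W hW = w := by
  obtain ⟨W, hW⟩ := exists_extension w.ring E
  have h1 : W.comap (algebraMap F E) = v.ring := by
    rw [← hw, ← hW]; rfl
  exact ⟨W, h1, Place.ext_ring hW⟩

lemma comap_val_lt {L : IntermediateField F E} (W : ValuationSubring E) (x : L) :
    (W.comap (algebraMap L E)).valuation x < 1 ↔ W.valuation (x : E) < 1 :=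
  (val_lt_one_iff (R := W.comap (algebraMap L E)) (W := W) rfl x).symm

/-- Powers in the residue field of a place of an intermediate field. -/
lemma forall_residue_pow_iff {v : Place k F} (L : IntermediateField F E) (W : ValuationSubring E)
    (hW : W.comap (algebraMap F E) = v.ring) (m : ℕ) :
    (∀ y : (restrictPlace L W hW).κ, y ^ m = y) ↔
      ∀ x : L, (x : E) ∈ W → W.valuation ((x : E) ^ m - x) < 1 := by
  constructor
  · intro h x hx
    have h1 := h (IsLocalRing.residue _ (⟨x, hx⟩ : (restrictPlace L W hW).ring))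
    rw [← map_pow, ← sub_eq_zero, ← map_sub, residue_eq_zero_iff] at h1
    have h2 := (comap_val_lt W _).1 h1
    exact h2
  · intro h y
    obtain ⟨⟨x, hx⟩, rfl⟩ := IsLocalRing.residue_surjective y
    rw [← map_pow, ← sub_eq_zero, ← map_sub, residue_eq_zero_iff]
    have h2 := h x hx
    exact (comap_val_lt W _).2 h2

/-- Powers in the residue field of the base place. -/
lemma forall_residue_pow_base {v : Place k F} {m : ℕ} {L : IntermediateField F E}
    (W : ValuationSubring E) (hW : W.comap (algebraMap F E) = v.ring)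
    (h : ∀ y : (restrictPlace L W hW).κ, y ^ m = y) (y : v.κ) : y ^ m = y := by
  obtain ⟨⟨x, hx⟩, rfl⟩ := IsLocalRing.residue_surjective y
  rw [← map_pow, ← sub_eq_zero, ← map_sub, residue_eq_zero_iff]
  rw [forall_residue_pow_iff] at h
  have hxW : algebraMap F E x ∈ W := (mem_of_comap_eq hW x).2 hx
  have h1 := h (algebraMap F L x) hxW
  have e : ((algebraMap F L x : L) : E) ^ m - (algebraMap F L x : L) = algebraMap F E (x ^ m - x) := by
    rw [map_sub, map_pow]; rfl
  rw [e, val_lt_one_iff hW] at h1
  exact h1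

section frobenius

variable [IsGalois F E]

lemma frob_isFrob (v : Place k F) [Finite v.κ] : v.IsFrob (v.frob E) := by
  unfold Place.frob
  apply Classical.epsilon_spec (p := fun σ : E ≃ₐ[F] E => v.IsFrob σ)
  obtain ⟨W, hW⟩ := exists_extension v.ring E
  obtain ⟨σ, -, hσ⟩ := exists_frob hW
  exact ⟨σ, W, hW, hσ⟩

variable {p : ℕ} [Fact p.Prime] (Φ : (E ≃ₐ[F] E) ≃* Multiplicative ℤ_[p])

include Φ in
lemma frob_spec (v : Place k F) [Finite v.κ] (W : ValuationSubring E)
    (hW : W.comap (algebraMap F E) = v.ring) :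
    ∀ a ∈ W, W.valuation (v.frob E a - a ^ Nat.card v.κ) < 1 := by
  obtain ⟨W₀, hW₀, hτ⟩ := frob_isFrob (E := E) v
  obtain ⟨σ, hσ⟩ := exists_algEquiv_of_comap_eq hW₀ hW
  intro a ha
  set a₀ := σ.symm a with ha₀
  have h1 : σ a₀ = a := σ.apply_symm_apply a
  have h2 : a₀ ∈ W₀ := (hσ a₀).2 (by rwa [h1])
  have h3 := (val_transport hσ _).1 (hτ a₀ h2)
  rw [map_sub, map_pow, h1] at h3
  have h4 : σ (v.frob E a₀) = v.frob E a := by
    have h5 := gal_comm Φ σ (v.frob E)
    have h6 := congrArg (fun g : E ≃ₐ[F] E => g a₀) h5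
    have h7 : σ (v.frob E a₀) = v.frob E (σ a₀) := h6
    rw [h7, h1]
  rwa [h4] at h3

lemma pow_mem_iff {W : ValuationSubring E} {τ : E ≃ₐ[F] E} (h : ∀ x, x ∈ W ↔ τ x ∈ W) (j : ℕ) :
    ∀ x, x ∈ W ↔ (τ ^ j) x ∈ W := by
  induction j with
  | zero => intro x; rfl
  | succ j ih =>
    intro x
    rw [pow_succ']
    show _ ↔ τ ((τ ^ j) x) ∈ W
    rw [← h, ← ih]

lemma pow_frob_spec {W : ValuationSubring E} {τ : E ≃ₐ[F] E} {q : ℕ} (hq : q ≠ 0)
    (hτ : ∀ a ∈ W, W.valuation (τ a - a ^ q) < 1) (j : ℕ) :
    ∀ a ∈ W, W.valuation ((τ ^ j) a - a ^ q ^ j) < 1 := by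
  have hst := mem_iff_of_frob hq hτ
  induction j with
  | zero =>
    intro a _
    simp
  | succ j ih =>
    intro a ha
    have hja := (pow_mem_iff hst j a).1 ha
    have h1 := hτ _ hja
    have h2 := ih a ha
    rw [← residue_eq_iff ((hst _).1 hja) (pow_mem hja q)] at h1
    rw [← residue_eq_iff hja (pow_mem ha _)] at h2
    have h3 : IsLocalRing.residue W ⟨((τ ^ j) a) ^ q, pow_mem hja q⟩ =
        (IsLocalRing.residue W ⟨(τ ^ j) a, hja⟩) ^ q :=
      map_pow (IsLocalRing.residue W) (⟨(τ ^ j) a, hja⟩ : W) q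
    have h4 : IsLocalRing.residue W ⟨a ^ q ^ (j + 1), pow_mem ha _⟩ =
        (IsLocalRing.residue W ⟨a ^ q ^ j, pow_mem ha _⟩) ^ q := by
      refine Eq.trans ?_ (map_pow (IsLocalRing.residue W) (⟨a ^ q ^ j, pow_mem ha _⟩ : W) q)
      congr 1
      refine Subtype.ext ?_
      show a ^ q ^ (j + 1) = (a ^ q ^ j) ^ q
      rw [← pow_mul, pow_succ]
    have h5 : (τ ^ (j + 1)) a = τ ((τ ^ j) a) := by rw [pow_succ']; rfl
    have h6 : τ ((τ ^ j) a) ∈ W := (hst _).1 hja
    rw [h5, ← residue_eq_iff h6 (pow_mem ha _), h1, h3, h2, h4]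

/-- The order of Frobenius in a layer and the residue field of the layer. -/
lemma pow_frob_mem_fixing_iff (v : Place k F) [Finite v.κ] (hv : v.IsUnramified E)
    (W : ValuationSubring E) (hW : W.comap (algebraMap F E) = v.ring) (L : IntermediateField F E)
    {τ : E ≃ₐ[F] E} (hτ : ∀ a ∈ W, W.valuation (τ a - a ^ Nat.card v.κ) < 1) (j : ℕ) :
    (∀ x : L, (x : E) ∈ W → W.valuation ((x : E) ^ Nat.card v.κ ^ j - x) < 1) ↔
      τ ^ j ∈ L.fixingSubgroup := by
  have hq : Nat.card v.κ ≠ 0 := Nat.card_pos.ne'
  have hspec := pow_frob_spec hq hτ j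
  have hst := pow_mem_iff (mem_iff_of_frob hq hτ) j
  constructor
  · intro h
    apply mem_fixing_of_trivial (hv W hW) L _ hst
    intro x hxL hxW
    have h1 := h ⟨x, hxL⟩ hxW
    have h2 := hspec x hxW
    have e : (τ ^ j) x - x = ((τ ^ j) x - x ^ Nat.card v.κ ^ j) + (x ^ Nat.card v.κ ^ j - x) := by ring
    rw [e]
    exact (Valuation.map_add _ _ _).trans_lt (max_lt h2 h1)
  · intro h x hxW
    have h2 := hspec x hxW
    have h3 : (τ ^ j) (x : E) = x := (IntermediateField.mem_fixingSubgroup_iff _ _).1 h x x.2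
    rw [h3] at h2
    rw [← Valuation.map_neg, neg_sub]
    exact h2

/-- If Frobenius fixes `L` then every element of the decomposition group fixes `L`. -/
lemma decomposition_fixing (v : Place k F) [Finite v.κ] (hv : v.IsUnramified E)
    (W : ValuationSubring E) (hW : W.comap (algebraMap F E) = v.ring) (L : IntermediateField F E)
    {τ : E ≃ₐ[F] E} (hτ : ∀ a ∈ W, W.valuation (τ a - a ^ Nat.card v.κ) < 1)
    (hτL : τ ∈ L.fixingSubgroup) {δ : E ≃ₐ[F] E} (hδ : ∀ x, x ∈ W ↔ δ x ∈ W) :
    δ ∈ L.fixingSubgroup := by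
  classical
  apply mem_fixing_of_trivial (hv W hW) L _ hδ
  intro x hxL hxW
  have h1 := (pow_frob_mem_fixing_iff v hv W hW L hτ 1).2 (by rwa [pow_one]) ⟨x, hxL⟩ hxW
  rw [pow_one] at h1
  change W.valuation (x ^ Nat.card v.κ - x) < 1 at h1
  -- the residue of `x` is in the residue field of `v`
  let ι : v.κ →+* IsLocalRing.ResidueField W :=
    Ideal.Quotient.lift (IsLocalRing.maximalIdeal v.ring)
      ((IsLocalRing.residue W).comp
        (((algebraMap F E).comp (algebraMap v.ring F)).codRestrict W.toSubring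
          fun a => (mem_of_comap_eq hW _).2 a.2)) (by
      intro a ha
      rw [RingHom.comp_apply, IsLocalRing.residue_eq_zero_iff, ValuationSubring.valuation_lt_one_iff]
      rw [ValuationSubring.valuation_lt_one_iff] at ha
      exact (val_lt_one_iff hW _).2 ha)
  have : Fintype v.κ := Fintype.ofFinite _
  set q := Nat.card v.κ with hq
  have hq1 : 1 < q := Finite.one_lt_card
  let P : Polynomial (IsLocalRing.ResidueField W) := X ^ q - X
  have hP0 : P ≠ 0 := FiniteField.X_pow_card_sub_X_ne_zero _ hq1
  have hsub : (Finset.univ.image ι).val ⊆ P.roots := by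
    intro y hy
    rw [Finset.mem_val, Finset.mem_image] at hy
    obtain ⟨c, -, rfl⟩ := hy
    rw [Polynomial.mem_roots hP0]
    simp only [P, Polynomial.IsRoot.def, Polynomial.eval_sub, Polynomial.eval_pow, Polynomial.eval_X]
    rw [← map_pow, hq, Nat.card_eq_fintype_card, FiniteField.pow_card, sub_self]
  have hcard : (Finset.univ.image ι).card = q := by
    rw [Finset.card_image_of_injective _ ι.injective, Finset.card_univ, hq, Nat.card_eq_fintype_card]
  have hroots : P.roots.card ≤ q := by
    refine (Polynomial.card_roots' P).trans ?_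
    exact (FiniteField.X_pow_card_sub_X_natDegree_eq _ hq1).le
  have heq : (Finset.univ.image ι) = P.roots.toFinset := by
    apply Finset.eq_of_subset_of_card_le
    · intro y hy
      rw [Multiset.mem_toFinset]
      exact hsub hy
    · rw [hcard]
      exact (Multiset.toFinset_card_le _).trans hroots
  have hx : IsLocalRing.residue W ⟨x, hxW⟩ ∈ P.roots.toFinset := by
    rw [Multiset.mem_toFinset, Polynomial.mem_roots hP0]
    simp only [P, Polynomial.IsRoot.def, Polynomial.eval_sub, Polynomial.eval_pow, Polynomial.eval_X]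
    rw [← map_pow, ← map_sub, IsLocalRing.residue_eq_zero_iff, ValuationSubring.valuation_lt_one_iff]
    exact h1
  rw [← heq, Finset.mem_image] at hx
  obtain ⟨c, -, hc⟩ := hx
  obtain ⟨⟨y, hy⟩, rfl⟩ := IsLocalRing.residue_surjective c
  have hyW : algebraMap F E y ∈ W := (mem_of_comap_eq hW _).2 hy
  have hc' : IsLocalRing.residue W ⟨algebraMap F E y, hyW⟩ = IsLocalRing.residue W ⟨x, hxW⟩ := hc
  rw [residue_eq_iff] at hc'
  have h2 := (val_transport hδ _).1 hc'
  rw [map_sub, δ.commutes] at h2
  have e : δ x - x = (algebraMap F E y - x) - (algebraMap F E y - δ x) := by ring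
  rw [e]
  exact (Valuation.map_sub _ _ _).trans_lt (max_lt hc' h2)

end frobenius

end inter

end Pool.Agent.H707R3
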