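import Mathlib
import Pool.Agent.H707R3.Layers2

set_option linter.all false

open Polynomial
open scoped Pointwise

namespace Pool.Agent.H707R3

section tower

variable {p : ℕ} [Fact p.Prime] {k F E : Type*} [Field k] [Finite k] [Field F] [Algebra k F]
  [Field E] [Algebra F E] [Algebra k E] [IsScalarTower k F E]
  (Φ : (E ≃ₐ[F] E) ≃* Multiplicative ℤ_[p])
  (hF : IsCurveFunctionField k F) (hE : ∀ a : E, IsAlgebraic k a → a ∈ (algebraMap k E).range)
  (L : ℕ → IntermediateField F E) (hL : ∀ n, Module.finrank F (L n) = p ^ n)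

include hL in
lemma finiteDimensional_layer (n : ℕ) : FiniteDimensional F (L n) :=
  FiniteDimensional.of_finrank_pos (by rw [hL]; exact pow_pos (Fact.out : p.Prime).pos n)

include hF hE hL in
lemma curve_L (n : ℕ) : IsCurveFunctionField k (L n) := by
  haveI := finiteDimensional_layer L hL n
  exact curve_layer hF hE (L n)

variable [IsGalois F E]

include hF hE hL in
/-- Residue degrees at unramified places. -/
theorem deg_layer_unram (v : Place k F) (hv : v.IsUnramified E) (n c : ℕ)
    (hc : ∀ j : ℕ, (p : ℤ_[p]) ^ n ∣ j * coord Φ (v.frob E) ↔ p ^ (n - c) ∣ j)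
    (w : Place k (L n)) (hw : Above w v) : w.deg = v.deg * p ^ (n - c) := by
  obtain ⟨W, hW, rfl⟩ := exists_restrictPlace_eq w hw
  have hcurve := curve_L (k := k) hF hE L hL n
  obtain ⟨hfv, hcv, hdv⟩ := card_residue' hF v
  obtain ⟨hfw, hcw, hdw⟩ := card_residue' hcurve (restrictPlace (L n) W hW)
  set w := restrictPlace (L n) W hW with hwdef
  have hQ : 2 ≤ Nat.card k := Finite.one_lt_card
  have hspec := frob_spec Φ v W hW
  have key : ∀ j : ℕ, w.deg ∣ v.deg * j ↔ p ^ (n - c) ∣ j := by
    intro j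
    rw [← hc, ← coord_pow, ← mem_fixing_iff Φ (L n) n (hL n),
      ← pow_frob_mem_fixing_iff v hv W hW (L n) hspec j, ← forall_residue_pow_iff (L n) W hW,
      ← forall_pow_eq_iff hQ hcw, hcv, ← pow_mul]
  have hdvd : v.deg ∣ w.deg := by
    rw [← forall_pow_eq_iff hQ hcv]
    apply forall_residue_pow_base (L := L n) W hW
    exact (forall_pow_eq_iff hQ hcw w.deg).2 dvd_rfl
  obtain ⟨r, hr⟩ := hdvd
  have hpos : 0 < v.deg := Nat.pos_of_ne_zero hdv
  have key2 : ∀ j : ℕ, r ∣ j ↔ p ^ (n - c) ∣ j := by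
    intro j
    rw [← key, hr, Nat.mul_dvd_mul_iff_left hpos]
  have : r = p ^ (n - c) := Nat.dvd_antisymm ((key2 _).2 dvd_rfl) ((key2 _).1 dvd_rfl)
  rw [hr, this]

/-- The composition of a valuation ring with an automorphism. -/
lemma comap_sigma {v : Place k F} {W : ValuationSubring E} (hW : W.comap (algebraMap F E) = v.ring)
    (σ : E ≃ₐ[F] E) : (W.comap (σ : E →+* E)).comap (algebraMap F E) = v.ring :=
  comap_comap_algEquiv hW σ

include hF hL in
/-- The number of places above an unramified place. -/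
theorem card_layer_unram (v : Place k F) (hv : v.IsUnramified E) (n c : ℕ) (hcn : c ≤ n)
    (hc2 : (p : ℤ_[p]) ^ c ∣ coord Φ (v.frob E))
    (hc3 : ∀ x : ℤ_[p], (p : ℤ_[p]) ^ c ∣ x → ∃ j : ℕ, (p : ℤ_[p]) ^ n ∣ x - j * coord Φ (v.frob E)) :
    Nat.card {w : Place k (L n) // Above w v} = p ^ c := by
  obtain ⟨hfv, hcv, hdv⟩ := card_residue' hF v
  obtain ⟨W₀, hW₀⟩ := exists_extension v.ring E
  have hspec := frob_spec Φ v W₀ hW₀
  set τ := v.frob E with hτ
  have hq : Nat.card v.κ ≠ 0 := Nat.card_pos.ne'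
  have hst := mem_iff_of_frob hq hspec
  let f : (E ≃ₐ[F] E) → {w : Place k (L n) // Above w v} := fun σ =>
    ⟨restrictPlace (L n) (W₀.comap (σ : E →+* E)) (comap_sigma hW₀ σ), restrictPlace_above _ _ _⟩
  have hf : ∀ σ σ', f σ = f σ' ↔ σ⁻¹ * σ' ∈ levelSubgroup Φ c := by
    intro σ σ'
    rw [mem_levelSubgroup, coord_mul, coord_inv]
    constructor
    · intro h
      have h1 : (W₀.comap (σ : E →+* E)).comap (algebraMap (L n) E) =
          (W₀.comap (σ' : E →+* E)).comap (algebraMap (L n) E) :=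
        congrArg (fun z : {w : Place k (L n) // Above w v} => z.1.ring) h
      obtain ⟨g, hg⟩ := exists_algEquiv_of_comap_eq (F := L n) (R := (W₀.comap (σ : E →+* E)).comap (algebraMap (L n) E)) rfl h1.symm
      set δ : E ≃ₐ[F] E := σ' * toBase (L n) g * σ⁻¹ with hδ
      have hδ2 : ∀ x, x ∈ W₀ ↔ δ x ∈ W₀ := by
        intro x
        have h2 := hg (σ⁻¹ x)
        have h3 : σ⁻¹ x ∈ W₀.comap (σ : E →+* E) ↔ x ∈ W₀ := by
          show σ (σ⁻¹ x) ∈ W₀ ↔ _
          rw [show σ (σ⁻¹ x) = x from σ.apply_symm_apply x]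
        rw [h3] at h2
        exact h2
      have h4 := decomposition_fixing v hv W₀ hW₀ (L c) hspec
        ((mem_fixing_iff Φ (L c) c (hL c) τ).2 hc2) hδ2
      rw [mem_fixing_iff Φ (L c) c (hL c), hδ, coord_mul, coord_mul, coord_inv] at h4
      have h5 := (mem_fixing_iff Φ (L n) n (hL n) _).1 (toBase_mem (L n) g)
      have h6 : (p : ℤ_[p]) ^ c ∣ coord Φ (toBase (L n) g) := (pow_dvd_pow _ hcn).trans h5
      have e : -coord Φ σ + coord Φ σ' = (coord Φ σ' + coord Φ (toBase (L n) g) + -coord Φ σ) -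
        coord Φ (toBase (L n) g) := by ring
      rw [e]
      exact dvd_sub h4 h6
    · intro h
      obtain ⟨j, hj⟩ := hc3 _ h
      apply Subtype.ext
      apply Place.ext_ring
      set g : E ≃ₐ[F] E := (σ * τ ^ j)⁻¹ * σ' with hg
      have hgL : g ∈ (L n).fixingSubgroup := by
        rw [mem_fixing_iff Φ (L n) n (hL n), hg, coord_mul, coord_inv, coord_mul, coord_pow]
        have e : -(coord Φ σ + j * coord Φ τ) + coord Φ σ' = (-coord Φ σ + coord Φ σ') - j * coord Φ τ := by ring
        rw [e]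
        exact hj
      have hσ' : σ' = σ * τ ^ j * g := by rw [hg]; group
      show (W₀.comap (σ : E →+* E)).comap (algebraMap (L n) E) =
          (W₀.comap (σ' : E →+* E)).comap (algebraMap (L n) E)
      ext x
      show σ (x : E) ∈ W₀ ↔ σ' (x : E) ∈ W₀
      have h1 : g (x : E) = x := (IntermediateField.mem_fixingSubgroup_iff _ _).1 hgL x x.2
      have h2 : σ' (x : E) = (τ ^ j) (σ x) := by
        rw [hσ']
        show (σ * τ ^ j) (g (x : E)) = _
        rw [h1, gal_comm Φ σ (τ ^ j)]
        rfl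
      rw [h2]
      exact pow_mem_iff hst j _
  have hsurj : Function.Surjective f := by
    rintro ⟨w, hw⟩
    obtain ⟨W, hW, rfl⟩ := exists_restrictPlace_eq w hw
    obtain ⟨σ, hσ⟩ := exists_algEquiv_of_comap_eq hW hW₀
    refine ⟨σ, Subtype.ext (Place.ext_ring ?_)⟩
    show (W₀.comap (σ : E →+* E)).comap (algebraMap (L n) E) = W.comap (algebraMap (L n) E)
    ext x
    show σ (x : E) ∈ W₀ ↔ (x : E) ∈ W
    exact (hσ _).symm
  let g : (E ≃ₐ[F] E) ⧸ levelSubgroup Φ c → {w : Place k (L n) // Above w v} :=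
    Quotient.lift f (by
      intro a b hab
      rw [hf]
      exact QuotientGroup.leftRel_apply.1 hab)
  have hg : Function.Bijective g := by
    constructor
    · intro a b
      induction a using Quotient.inductionOn with | _ a => ?_
      induction b using Quotient.inductionOn with | _ b => ?_
      intro h
      apply Quotient.sound
      exact QuotientGroup.leftRel_apply.2 ((hf a b).1 h)
    · intro w
      obtain ⟨σ, rfl⟩ := hsurj w
      exact ⟨Quotient.mk _ σ, rfl⟩
  rw [← Nat.card_congr (Equiv.ofBijective g hg)]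
  exact index_levelSubgroup Φ c

/-- The map from valuation rings above `v` to places of a layer. -/
def toLayer (v : Place k F) (n : ℕ) (W : {W : ValuationSubring E // W.comap (algebraMap F E) = v.ring}) :
    {w : Place k (L n) // Above w v} :=
  ⟨restrictPlace (L n) W.1 W.2, restrictPlace_above _ _ _⟩

omit [Finite k] [IsGalois F E] in
lemma toLayer_surjective (v : Place k F) (n : ℕ) : Function.Surjective (toLayer (k := k) L v n) := by
  rintro ⟨w, hw⟩
  obtain ⟨W, hW, rfl⟩ := exists_restrictPlace_eq w hw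
  exact ⟨⟨W, hW⟩, rfl⟩

include Φ hL in
lemma layer_le (n : ℕ) : L n ≤ L (n + 1) := by
  rw [← InfiniteGalois.fixedField_fixingSubgroup (L (n + 1)), ← InfiniteGalois.fixedField_fixingSubgroup (L n)]
  apply IntermediateField.fixedField_antitone
  intro σ hσ
  rw [mem_fixing_iff Φ _ _ (hL _)] at hσ ⊢
  exact (pow_dvd_pow _ (Nat.le_succ n)).trans hσ

include Φ hF hE hL in
/-- Places above a ramified place do not change in high layers. -/
theorem ramified_layer (v : Place k F) (hv : ¬ v.IsUnramified E) :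
    ∃ m, ∀ n, m ≤ n → ∃ e : {w : Place k (L (n + 1)) // Above w v} ≃ {w : Place k (L n) // Above w v},
      ∀ w, (e w).1.deg = w.1.deg := by
  have hp : p.Prime := Fact.out
  unfold Place.IsUnramified at hv
  push Not at hv
  obtain ⟨W₁, hW₁, σ₀, hσ₀, hne⟩ := hv
  have hb0 : coord Φ σ₀ ≠ 0 := by
    intro h
    apply hne
    apply coord_injective Φ
    rw [h, coord_one]
  obtain ⟨m, hm⟩ : ∃ m, ¬ (p : ℤ_[p]) ^ m ∣ coord Φ σ₀ := by
    by_contra hcon
    push Not at hcon
    apply hb0
    rw [← norm_eq_zero]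
    refine le_antisymm ?_ (norm_nonneg _)
    refine le_of_forall_pos_lt_add fun ε hε => ?_
    obtain ⟨k, hk⟩ := PadicInt.exists_pow_neg_lt p hε
    have := (PadicInt.norm_le_pow_iff_mem_span_pow (coord Φ σ₀) k).2 (Ideal.mem_span_singleton.2 (hcon k))
    linarith
  -- the element is in every inertia group above `v`
  have hin : ∀ W : ValuationSubring E, W.comap (algebraMap F E) = v.ring →
      ∀ a ∈ W, W.valuation (σ₀ a - a) < 1 := by
    intro W hW a ha
    obtain ⟨σ, hσ⟩ := exists_algEquiv_of_comap_eq hW₁ hW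
    set a₀ := σ.symm a with ha₀
    have h1 : σ a₀ = a := σ.apply_symm_apply a
    have h2 : a₀ ∈ W₁ := (hσ a₀).2 (by rwa [h1])
    have h3 := (val_transport hσ _).1 (hσ₀ a₀ h2)
    rw [map_sub, h1] at h3
    have h4 : σ (σ₀ a₀) = σ₀ a := by
      have h6 := congrArg (fun g : E ≃ₐ[F] E => g a₀) (gal_comm Φ σ σ₀)
      have h7 : σ (σ₀ a₀) = σ₀ (σ a₀) := h6
      rw [h7, h1]
    rwa [h4] at h3
  have hinmem : ∀ W : ValuationSubring E, W.comap (algebraMap F E) = v.ring →
      ∀ x, x ∈ W ↔ σ₀ x ∈ W := by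
    intro W hW
    apply mem_iff_of_frob (q := 1) one_ne_zero
    intro x hx
    rw [pow_one]
    exact hin W hW x hx
  have hinpow : ∀ W : ValuationSubring E, W.comap (algebraMap F E) = v.ring → ∀ j : ℕ,
      ∀ a ∈ W, W.valuation ((σ₀ ^ j) a - a) < 1 := by
    intro W hW j a ha
    have := pow_frob_spec (q := 1) one_ne_zero (τ := σ₀) (W := W) (by
      intro x hx; rw [pow_one]; exact hin W hW x hx) j a ha
    rwa [one_pow, pow_one] at this
  refine ⟨m, fun n hn => ?_⟩
  obtain ⟨c, hcn, hc1, hc2, hc3⟩ := exists_level (coord Φ σ₀) (n + 1)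
  have hcm : c < m := by
    by_contra hcon
    push Not at hcon
    exact hm ((pow_dvd_pow _ hcon).trans hc2)
  -- elements of level n are products
  have hdec : ∀ h ∈ levelSubgroup Φ n, ∃ j : ℕ, ∃ g ∈ (L (n + 1)).fixingSubgroup, h = σ₀ ^ j * g := by
    intro h hh
    rw [mem_levelSubgroup] at hh
    obtain ⟨j, hj⟩ := hc3 _ ((pow_dvd_pow _ (by omega)).trans hh)
    refine ⟨j, (σ₀ ^ j)⁻¹ * h, ?_, by group⟩
    rw [mem_fixing_iff Φ _ _ (hL _), coord_mul, coord_inv, coord_pow]
    have e : -(j * coord Φ σ₀) + coord Φ h = coord Φ h - j * coord Φ σ₀ := by ring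
    rw [e]; exact hj
  have hle := layer_le Φ L hL n
  have hrel : ∀ W W' : {W : ValuationSubring E // W.comap (algebraMap F E) = v.ring},
      toLayer (k := k) L v n W = toLayer L v n W' ↔ toLayer L v (n + 1) W = toLayer L v (n + 1) W' := by
    rintro ⟨W, hW⟩ ⟨W', hW'⟩
    constructor
    · intro h
      have h1 : W.comap (algebraMap (L n) E) = W'.comap (algebraMap (L n) E) :=
        congrArg (fun z : {w : Place k (L n) // Above w v} => z.1.ring) h
      obtain ⟨g, hg⟩ := exists_algEquiv_of_comap_eq (F := L n) (R := W.comap (algebraMap (L n) E)) rfl h1.symm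
      obtain ⟨j, g', hg', hdecomp⟩ := hdec (toBase (L n) g) (by
        rw [mem_levelSubgroup, ← mem_fixing_iff Φ _ _ (hL n)]; exact toBase_mem _ _)
      refine Subtype.ext (Place.ext_ring ?_)
      show W.comap (algebraMap (L (n + 1)) E) = W'.comap (algebraMap (L (n + 1)) E)
      ext x
      show (x : E) ∈ W ↔ (x : E) ∈ W'
      rw [hg (x : E)]
      have h2 : g (x : E) = (σ₀ ^ j) (x : E) := by
        have h3 : g (x : E) = toBase (L n) g (x : E) := rfl
        rw [h3, hdecomp]
        show (σ₀ ^ j) (g' (x : E)) = _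
        rw [(IntermediateField.mem_fixingSubgroup_iff _ _).1 hg' x x.2]
      rw [h2]
      exact (pow_mem_iff (hinmem W' hW') j _).symm
    · intro h
      have h1 : W.comap (algebraMap (L (n + 1)) E) = W'.comap (algebraMap (L (n + 1)) E) :=
        congrArg (fun z : {w : Place k (L (n + 1)) // Above w v} => z.1.ring) h
      refine Subtype.ext (Place.ext_ring ?_)
      show W.comap (algebraMap (L n) E) = W'.comap (algebraMap (L n) E)
      ext x
      have h2 : (⟨x, hle x.2⟩ : L (n + 1)) ∈ W.comap (algebraMap (L (n + 1)) E) ↔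
        (⟨x, hle x.2⟩ : L (n + 1)) ∈ W'.comap (algebraMap (L (n + 1)) E) := by rw [h1]
      exact h2
  have hdeg : ∀ W : {W : ValuationSubring E // W.comap (algebraMap F E) = v.ring},
      (toLayer (k := k) L v n W).1.deg = (toLayer (k := k) L v (n + 1) W).1.deg := by
    rintro ⟨W, hW⟩
    have hQ : 2 ≤ Nat.card k := Finite.one_lt_card
    have hcurve0 := curve_L (k := k) hF hE L hL n
    have hcurve1 := curve_L (k := k) hF hE L hL (n + 1)
    obtain ⟨hf0, hc0, hd0⟩ := card_residue' hcurve0 (restrictPlace (L n) W hW)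
    obtain ⟨hf1, hcc1, hd1⟩ := card_residue' hcurve1 (restrictPlace (L (n + 1)) W hW)
    show (restrictPlace (L n) W hW).deg = (restrictPlace (L (n + 1)) W hW).deg
    apply Nat.dvd_antisymm
    · rw [← forall_pow_eq_iff hQ hc0, forall_residue_pow_iff]
      intro x hx
      have h1 := (forall_pow_eq_iff hQ hcc1 _).2 dvd_rfl
      rw [forall_residue_pow_iff] at h1
      exact h1 ⟨x, hle x.2⟩ hx
    · rw [← forall_pow_eq_iff hQ hcc1, forall_residue_pow_iff]
      intro x hx
      have : Finite (IsLocalRing.ResidueField (W.comap (algebraMap (L n) E))) := hf0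
      obtain ⟨g, hg1, hg2⟩ := exists_frob (F := L n) (M := E) (R := W.comap (algebraMap (L n) E)) (W := W) rfl
      obtain ⟨j, g', hg', hdecomp⟩ := hdec (toBase (L n) g) (by
        rw [mem_levelSubgroup, ← mem_fixing_iff Φ _ _ (hL n)]; exact toBase_mem _ _)
      have h2 : g (x : E) = (σ₀ ^ j) (x : E) := by
        have h3 : g (x : E) = toBase (L n) g (x : E) := rfl
        rw [h3, hdecomp]
        show (σ₀ ^ j) (g' (x : E)) = _
        rw [(IntermediateField.mem_fixingSubgroup_iff _ _).1 hg' x x.2]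
      have h4 := hg2 x hx
      have h5 : Nat.card (IsLocalRing.ResidueField (W.comap (algebraMap (L n) E))) =
          Nat.card k ^ (restrictPlace (L n) W hW).deg := hc0
      rw [h2, h5] at h4
      have h6 := hinpow W hW j x hx
      have e : (x : E) ^ Nat.card k ^ (restrictPlace (L n) W hW).deg - x =
        ((σ₀ ^ j) (x : E) - x) - ((σ₀ ^ j) (x : E) - (x : E) ^ Nat.card k ^ (restrictPlace (L n) W hW).deg) := by ring
      rw [e]
      exact (Valuation.map_sub _ _ _).trans_lt (max_lt h6 h4)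
  -- the bijection
  let s := Function.surjInv (toLayer_surjective (k := k) L v (n + 1))
  have hs : ∀ w, toLayer (k := k) L v (n + 1) (s w) = w := Function.surjInv_eq _
  let e0 : {w : Place k (L (n + 1)) // Above w v} → {w : Place k (L n) // Above w v} :=
    fun w => toLayer L v n (s w)
  have he0 : Function.Bijective e0 := by
    constructor
    · intro w w' hww
      have := (hrel (s w) (s w')).1 hww
      rwa [hs, hs] at this
    · intro w
      obtain ⟨W, rfl⟩ := toLayer_surjective (k := k) L v n w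
      refine ⟨toLayer L v (n + 1) W, ?_⟩
      exact (hrel _ _).2 (hs _)
  refine ⟨Equiv.ofBijective e0 he0, fun w => ?_⟩
  show (toLayer (k := k) L v n (s w)).1.deg = w.1.deg
  rw [hdeg, hs]

end tower

end Pool.Agent.H707R3
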