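import Mathlib
import Pool.Agent.H707R3.Layers3
import Pool.Agent.H707R3.TowerL

set_option linter.all false

open PowerSeries
open scoped PowerSeries.WithPiTopology

namespace Pool.Agent.H707R3

variable {p : ℕ} [Fact p.Prime]

/-- The zeta function of the curve with function field `K`, as a power series with coefficients in
`ℂ_[p]`: the Euler product over the closed points. -/
noncomputable def zetaFun (p : ℕ) [Fact p.Prime] (k K : Type*) [Field k] [Field K] [Algebra k K] :
    PowerSeries ℂ_[p] :=
  ∏' w : Place k K, (1 - X ^ w.deg : PowerSeries ℂ_[p])⁻¹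

lemma hasProd_geom {ι : Type*} (a : ι → ℂ_[p]) (d : ι → ℕ)
    (hfin : ∀ k, {v | d v ≤ k}.Finite) :
    HasProd (fun v => geom (a v) (d v)) (∏' v, geom (a v) (d v)) := by
  classical
  let L : PowerSeries ℂ_[p] := PowerSeries.mk fun k =>
    coeff k (∏ v ∈ (hfin k).toFinset, geom (a v) (d v))
  have hL : HasProd (fun v => geom (a v) (d v)) L := by
    rw [HasProd, WithPiTopology.tendsto_iff_coeff_tendsto]
    intro k
    refine tendsto_const_nhds.congr' ?_
    rw [SummationFilter.unconditional_filter]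
    filter_upwards [Filter.eventually_ge_atTop (hfin k).toFinset] with s hs
    rw [coeff_mk]
    symm
    apply coeff_prod_eq _ _ hs
    intro i hi
    apply X_pow_dvd_geom_sub_one
    have := (Finset.mem_sdiff.1 hi).2
    simp only [Set.Finite.mem_toFinset, Set.mem_ofPred_eq] at this
    omega
  exact hL.multipliable.hasProd

lemma zetaFun_eq (k K : Type*) [Field k] [Field K] [Algebra k K] (hd : ∀ w : Place k K, w.deg ≠ 0) :
    zetaFun p k K = ∏' w : Place k K, geom (1 : ℂ_[p]) w.deg := by
  unfold zetaFun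
  congr 1
  funext w
  rw [← inv_eq_geom _ (hd w), map_one, one_mul]

section local_identity

lemma prod_range_periodic {M : Type*} [CommMonoid M] (f : ℕ → M) (r : ℕ) (hf : ∀ i, f (i + r) = f i)
    (s : ℕ) : ∏ i ∈ Finset.range (r * s), f i = (∏ i ∈ Finset.range r, f i) ^ s := by
  have hf' : ∀ m i, f (r * m + i) = f i := by
    intro m
    induction m with
    | zero => intro i; simp
    | succ m ih =>
      intro i
      have : r * (m + 1) + i = (r * m + i) + r := by ring
      rw [this, hf, ih]
  induction s with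
  | zero => simp
  | succ s ih =>
    rw [Nat.mul_succ, Finset.prod_range_add, ih, pow_succ]
    congr 1
    exact Finset.prod_congr rfl fun i _ => hf' s i

lemma prod_roots {R : Type*} [CommRing R] [IsDomain R] {η : R} {r : ℕ} (hr : 0 < r)
    (hη : IsPrimitiveRoot η r) (Y : R) : ∏ i ∈ Finset.range r, (1 - η ^ i * Y) = 1 - Y ^ r := by
  classical
  have h1 := hη.pow_sub_pow_eq_prod_sub_mul 1 Y hr
  rw [one_pow] at h1
  rw [h1, Polynomial.nthRootsFinset_def]
  have h2 : (Polynomial.nthRoots r (1 : R)) = (Multiset.range r).map (η ^ ·) := by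
    have := hη.nthRoots_eq (α := 1) (a := 1) (one_pow r)
    simpa using this
  have h3 : (Polynomial.nthRoots r (1 : R)).Nodup := hη.nthRoots_one_nodup
  rw [h2] at h3 ⊢
  rw [Finset.prod_eq_multiset_prod _ (fun ζ => 1 - ζ * Y), Multiset.toFinset_val, Multiset.dedup_eq_self.2 h3,
    Multiset.map_map]
  rfl

lemma isPrimitiveRoot_pow_of_iff {R : Type*} [CommMonoid R] {ζ : R} {N m r : ℕ} (hζ : IsPrimitiveRoot ζ N)
    (h : ∀ j : ℕ, N ∣ m * j ↔ r ∣ j) : IsPrimitiveRoot (ζ ^ m) r := by
  constructor
  · rw [← pow_mul, hζ.pow_eq_one_iff_dvd]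
    exact (h r).2 dvd_rfl
  · intro l hl
    rw [← pow_mul, hζ.pow_eq_one_iff_dvd] at hl
    exact (h l).1 hl

lemma geom_pow_mul {x : ℂ_[p]} {d : ℕ} (hd : d ≠ 0) : geom x d * (1 - C x * X ^ d) = 1 := by
  rw [mul_comm]; exact one_sub_mul_geom x hd

/-- The product of the Euler factors over all characters of the `n`-th layer. -/
lemma prod_all_chars {n c m d : ℕ} (hcn : c ≤ n) {ζ : ℂ_[p]} (hζ : IsPrimitiveRoot ζ (p ^ n))
    (h : ∀ j : ℕ, p ^ n ∣ m * j ↔ p ^ (n - c) ∣ j) :
    ∏ i ∈ Finset.range (p ^ n), (1 - C (ζ ^ (i * m)) * X ^ d : PowerSeries ℂ_[p]) =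
      (1 - X ^ (d * p ^ (n - c))) ^ p ^ c := by
  have hp : p.Prime := Fact.out
  set r := p ^ (n - c) with hr
  have hr0 : 0 < r := pow_pos hp.pos _
  have hη := isPrimitiveRoot_pow_of_iff hζ h
  have hη' : IsPrimitiveRoot (C (ζ ^ m) : PowerSeries ℂ_[p]) r :=
    hη.map_of_injective (f := (C : ℂ_[p] →+* PowerSeries ℂ_[p])) PowerSeries.C_injective
  have e1 : p ^ n = r * p ^ c := by rw [hr, ← pow_add]; congr 1; omega
  have e2 : ∀ i, (1 - C (ζ ^ (i * m)) * X ^ d : PowerSeries ℂ_[p]) = 1 - (C (ζ ^ m)) ^ i * X ^ d := by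
    intro i
    rw [← map_pow, ← pow_mul, mul_comm m i]
  rw [e1]
  simp only [e2]
  rw [prod_range_periodic _ r, prod_roots hr0 hη', ← pow_mul]
  intro i
  rw [pow_add, hη'.pow_eq_one, mul_one]

lemma dvd_res_iff (n : ℕ) (b : ℤ_[p]) (j : ℕ) : p ^ n ∣ res n b * j ↔ (p : ℤ_[p]) ^ n ∣ j * b := by
  have hp : p.Prime := Fact.out
  have hne : NeZero (p ^ n) := ⟨pow_ne_zero _ hp.ne_zero⟩
  have h1 : p ^ n ∣ res n b * j ↔ ((res n b * j : ℕ) : ZMod (p ^ n)) = 0 := (ZMod.natCast_eq_zero_iff _ _).symm
  rw [h1]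
  have h2 : ((res n b : ℕ) : ZMod (p ^ n)) = PadicInt.toZModPow n b := by
    unfold res
    rw [ZMod.natCast_val, ZMod.cast_id]
  push_cast
  rw [h2, ← Ideal.mem_span_singleton, ← PadicInt.ker_toZModPow, RingHom.mem_ker, map_mul, map_natCast,
    mul_comm]

end local_identity

section artin

variable {k F E : Type*} [Field k] [Finite k] [Field F] [Algebra k F]
  [Field E] [Algebra F E] [Algebra k E] [IsScalarTower k F E]

/-- The place of the base field below a place of a layer. -/
def down (L : IntermediateField F E) [Algebra.IsAlgebraic F L] (w : Place k L) : Place k F where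
  ring := w.ring.comap (algebraMap F L)
  const_mem := by
    intro a
    show algebraMap F L (algebraMap k F a) ∈ w.ring
    rw [← IsScalarTower.algebraMap_apply k F L]
    exact w.const_mem a
  ne_top := by
    intro h
    apply w.ne_top
    rw [eq_top_iff]
    intro x _
    have hx : IsIntegral F x := (Algebra.IsAlgebraic.isAlgebraic x).isIntegral
    obtain ⟨f, hf, hf0⟩ := hx
    let φ : F →+* w.ring := (algebraMap F L).codRestrict w.ring.toSubring (by
      intro a
      have : a ∈ w.ring.comap (algebraMap F L) := by rw [h]; trivial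
      exact this)
    have hint : IsIntegral w.ring x := by
      refine ⟨f.map φ, hf.map φ, ?_⟩
      rw [Polynomial.eval₂_map]
      exact hf0
    obtain ⟨y, hy⟩ := (IsIntegrallyClosed.isIntegral_iff (R := w.ring) (K := L)).1 hint
    rw [← hy]
    exact y.2

lemma down_eq_iff (L : IntermediateField F E) [Algebra.IsAlgebraic F L] (w : Place k L) (v : Place k F) :
    down L w = v ↔ Above w v := by
  constructor
  · rintro rfl
    rfl
  · intro h
    exact Place.ext_ring h

variable (Φ : (E ≃ₐ[F] E) ≃* Multiplicative ℤ_[p])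
  (hF : IsCurveFunctionField k F) (hE : ∀ a : E, IsAlgebraic k a → a ∈ (algebraMap k E).range)
  (L : ℕ → IntermediateField F E) (hL : ∀ n, Module.finrank F (L n) = p ^ n)

include Φ hL in
/-- The places of a layer above a given place form a finite set. -/
lemma finite_fiber [IsGalois F E] (n : ℕ) (v : Place k F) : Finite {w : Place k (L n) // Above w v} := by
  obtain ⟨W₀, hW₀⟩ := exists_extension v.ring E
  let f : (E ≃ₐ[F] E) → {w : Place k (L n) // Above w v} := fun σ =>
    ⟨restrictPlace (L n) (W₀.comap (σ : E →+* E)) (comap_sigma hW₀ σ), restrictPlace_above _ _ _⟩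
  have hf : ∀ σ σ', σ⁻¹ * σ' ∈ levelSubgroup Φ n → f σ = f σ' := by
    intro σ σ' h
    rw [mem_levelSubgroup, ← mem_fixing_iff Φ (L n) n (hL n)] at h
    apply Subtype.ext
    apply Place.ext_ring
    show (W₀.comap (σ : E →+* E)).comap (algebraMap (L n) E) =
        (W₀.comap (σ' : E →+* E)).comap (algebraMap (L n) E)
    ext x
    show σ (x : E) ∈ W₀ ↔ σ' (x : E) ∈ W₀
    have h1 : (σ⁻¹ * σ') (x : E) = x := (IntermediateField.mem_fixingSubgroup_iff _ _).1 h x x.2
    have h2 : σ' (x : E) = σ ((σ⁻¹ * σ') (x : E)) := by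
      show _ = (σ * (σ⁻¹ * σ')) (x : E)
      rw [← mul_assoc, mul_inv_cancel, one_mul]
    rw [h2, h1]
  have hsurj : Function.Surjective f := by
    rintro ⟨w, hw⟩
    obtain ⟨W, hW, rfl⟩ := exists_restrictPlace_eq w hw
    obtain ⟨σ, hσ⟩ := exists_algEquiv_of_comap_eq hW hW₀
    refine ⟨σ, Subtype.ext (Place.ext_ring ?_)⟩
    show (W₀.comap (σ : E →+* E)).comap (algebraMap (L n) E) = W.comap (algebraMap (L n) E)
    ext x
    show σ (x : E) ∈ W₀ ↔ (x : E) ∈ W
    exact (hσ _).symm
  let g : (E ≃ₐ[F] E) ⧸ levelSubgroup Φ n → {w : Place k (L n) // Above w v} :=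
    Quotient.lift f (by
      intro a b hab
      exact hf a b (QuotientGroup.leftRel_apply.1 hab))
  have hg : Function.Surjective g := by
    intro w
    obtain ⟨σ, rfl⟩ := hsurj w
    exact ⟨Quotient.mk _ σ, rfl⟩
  have : Finite ((E ≃ₐ[F] E) ⧸ levelSubgroup Φ n) := by
    apply Nat.finite_of_card_ne_zero
    have := index_levelSubgroup Φ n
    unfold Subgroup.index at this
    rw [this]
    exact pow_ne_zero _ (Fact.out : p.Prime).ne_zero
  exact Finite.of_surjective g hg

open Classical in
/-- The product of the Euler factors of a layer above a place of the base field. -/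
noncomputable def localZeta (p : ℕ) [Fact p.Prime] (L : IntermediateField F E) (v : Place k F) : PowerSeries ℂ_[p] :=
  ∏ᶠ w : {w : Place k L // Above w v}, geom (1 : ℂ_[p]) w.1.deg

include Φ hF hE hL in
lemma hasProd_localZeta [IsGalois F E] (n : ℕ) :
    HasProd (fun v : Place k F => localZeta p (L n) v) (zetaFun p k (L n)) := by
  classical
  haveI := finiteDimensional_layer L hL n
  have hcurve := curve_L (k := k) hF hE L hL n
  rw [zetaFun_eq k (L n) (fun w => deg_ne_zero hcurve w)]
  have h1 := hasProd_geom (p := p) (fun _ : Place k (L n) => 1) (fun w => w.deg)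
    (fun m => finite_deg_le hcurve m)
  have h2 : HasProd ((fun w : Place k (L n) => geom (1 : ℂ_[p]) w.deg) ∘
      (Equiv.sigmaFiberEquiv (down (k := k) (L n)))) (∏' w : Place k (L n), geom (1 : ℂ_[p]) w.deg) :=
    (Equiv.hasProd_iff _).2 h1
  refine h2.sigma fun v => ?_
  have hfin := finite_fiber Φ L hL n v
  let e : {w : Place k (L n) // down (L n) w = v} ≃ {w : Place k (L n) // Above w v} :=
    Equiv.subtypeEquivRight fun w => down_eq_iff (L n) w v
  have hfin2 : Finite {w : Place k (L n) // down (L n) w = v} := Finite.of_equiv _ e.symm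
  have : Fintype {w : Place k (L n) // down (L n) w = v} := Fintype.ofFinite _
  have : Fintype {w : Place k (L n) // Above w v} := Fintype.ofFinite _
  have h3 : localZeta p (L n) v = ∏ w : {w : Place k (L n) // down (L n) w = v}, geom (1 : ℂ_[p]) w.1.deg := by
    unfold localZeta
    rw [finprod_eq_prod_of_fintype]
    exact (Fintype.prod_equiv e _ _ fun w => rfl).symm
  rw [h3]
  exact hasProd_fintype _

include Φ hF hE hL in
lemma localZeta_unram [IsGalois F E] (v : Place k F) (hv : v.IsUnramified E) (n : ℕ) {ζ : ℂ_[p]}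
    (hζ : IsPrimitiveRoot ζ (p ^ n)) :
    localZeta p (L n) v * ∏ i ∈ Finset.range (p ^ n),
      (1 - C (ζ ^ (i * res n (coord Φ (v.frob E)))) * X ^ v.deg) = 1 := by
  classical
  have hp : p.Prime := Fact.out
  haveI := finiteDimensional_layer L hL n
  obtain ⟨c, hcn, hc1, hc2, hc3⟩ := exists_level (coord Φ (v.frob E)) n
  have hcard := card_layer_unram Φ hF L hL v hv n c hcn hc2 hc3
  have hdeg := deg_layer_unram Φ hF hE L hL v hv n c hc1
  have hfin := finite_fiber Φ L hL n v
  have : Fintype {w : Place k (L n) // Above w v} := Fintype.ofFinite _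
  rw [prod_all_chars hcn hζ (fun j => by rw [dvd_res_iff, hc1])]
  unfold localZeta
  rw [finprod_eq_prod_of_fintype]
  have h1 : ∀ w : {w : Place k (L n) // Above w v}, geom (1 : ℂ_[p]) w.1.deg =
      geom (1 : ℂ_[p]) (v.deg * p ^ (n - c)) := fun w => by rw [hdeg w.1 w.2]
  rw [Finset.prod_congr rfl (fun w _ => h1 w), Finset.prod_const, Finset.card_univ,
    ← Nat.card_eq_fintype_card, hcard, ← mul_pow]
  have hne : v.deg * p ^ (n - c) ≠ 0 := mul_ne_zero (deg_ne_zero hF v) (pow_ne_zero _ hp.ne_zero)
  have h2 := geom_pow_mul (p := p) (x := 1) hne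
  rw [map_one, one_mul] at h2
  rw [h2, one_pow]

include Φ hF hE hL in
lemma localZeta_ram [IsGalois F E] (v : Place k F) (hv : ¬ v.IsUnramified E) :
    ∃ m, ∀ n, m ≤ n → localZeta p (L (n + 1)) v = localZeta p (L n) v := by
  obtain ⟨m, hm⟩ := ramified_layer Φ hF hE L hL v hv
  refine ⟨m, fun n hn => ?_⟩
  obtain ⟨e, he⟩ := hm n hn
  unfold localZeta
  exact finprod_eq_of_bijective e e.bijective fun w => by rw [he]

lemma res_succ_mul (n : ℕ) (b : ℤ_[p]) {z : ℂ_[p]} (hz : z ^ p ^ (n + 1) = 1) (i : ℕ) :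
    (z ^ p) ^ (i * res n b) = z ^ ((p * i) * res (n + 1) b) := by
  have h1 := res_mod (Nat.le_succ n) b
  obtain ⟨t, ht⟩ : ∃ t, res (n + 1) b = res n b + p ^ n * t := by
    refine ⟨res (n + 1) b / p ^ n, ?_⟩
    rw [← h1]
    exact (Nat.mod_add_div _ _).symm
  rw [ht, ← pow_mul]
  have e : p * i * (res n b + p ^ n * t) = p * (i * res n b) + p ^ (n + 1) * (i * t) := by
    rw [pow_succ]; ring
  rw [e, pow_add, pow_mul z (p ^ (n + 1)), hz, one_pow, mul_one]

/-- The indices of the primitive characters. -/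
def primIdx (p n : ℕ) : Finset ℕ := (Finset.range (p ^ (n + 1))).filter fun i => ¬ p ∣ i

lemma prod_range_split {M : Type*} [CommMonoid M] (f : ℕ → M) (n : ℕ) :
    ∏ i ∈ Finset.range (p ^ (n + 1)), f i =
      (∏ i ∈ Finset.range (p ^ n), f (p * i)) * ∏ i ∈ primIdx p n, f i := by
  classical
  have hp : p.Prime := Fact.out
  rw [← Finset.prod_filter_mul_prod_filter_not (Finset.range (p ^ (n + 1))) (fun i => p ∣ i)]
  congr 1
  symm
  apply Finset.prod_nbij (fun i => p * i)
  · intro i hi
    rw [Finset.mem_range] at hi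
    rw [Finset.mem_filter, Finset.mem_range, pow_succ']
    exact ⟨Nat.mul_lt_mul_of_pos_left hi hp.pos, dvd_mul_right _ _⟩
  · intro i _ j _ hij
    exact Nat.eq_of_mul_eq_mul_left hp.pos hij
  · intro i hi
    rw [Finset.mem_coe, Finset.mem_filter, Finset.mem_range] at hi
    obtain ⟨h1, j, rfl⟩ := hi
    rw [pow_succ'] at h1
    exact ⟨j, by simpa using Nat.lt_of_mul_lt_mul_left h1, rfl⟩
  · intro i _; rfl

include hF hE hL in
/-- **Artin's factorisation** in a `ℤ_p`-tower: for all large `n`, the zeta function of the layer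
`n + 1` is the zeta function of the layer `n` times the product of the `L`-functions of the characters
of order `p ^ (n + 1)`. -/
theorem artin_step [IsGalois F E] (hS : {v : Place k F | ¬ v.IsUnramified E}.Finite) :
    ∃ N, ∀ n, N ≤ n → ∀ z : ℂ_[p], IsPrimitiveRoot z (p ^ (n + 1)) →
      zetaFun p k (L (n + 1)) = zetaFun p k (L n) *
        ∏ i ∈ primIdx p n, eulerL (fun v : {v : Place k F // v.IsUnramified E} => coord Φ (v.1.frob E))
          (fun v => v.1.deg) (n + 1) (z ^ i) := by
  classical
  have hp : p.Prime := Fact.out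
  have hex : ∀ v : Place k F, ∃ m, ¬ v.IsUnramified E → ∀ n, m ≤ n →
      localZeta p (L (n + 1)) v = localZeta p (L n) v := by
    intro v
    by_cases hv : v.IsUnramified E
    · exact ⟨0, fun h => absurd hv h⟩
    · obtain ⟨m, hm⟩ := localZeta_ram Φ hF hE L hL v hv
      exact ⟨m, fun _ => hm⟩
  choose m hm using hex
  refine ⟨hS.toFinset.sup m, fun n hn z hz => ?_⟩
  have hz1 : z ^ p ^ (n + 1) = 1 := hz.pow_eq_one
  have hzp : IsPrimitiveRoot (z ^ p) (p ^ n) := by
    apply hz.pow (pow_pos hp.pos _)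
    rw [pow_succ']
  let f : ℕ → Place k F → PowerSeries ℂ_[p] := fun i =>
    Set.mulIndicator {v : Place k F | v.IsUnramified E} fun v =>
      geom (z ^ (i * res (n + 1) (coord Φ (v.frob E)))) v.deg
  have hf : ∀ i, HasProd (f i) (eulerL (fun v : {v : Place k F // v.IsUnramified E} => coord Φ (v.1.frob E))
          (fun v => v.1.deg) (n + 1) (z ^ i)) := by
    intro i
    rw [← hasProd_subtype_iff_mulIndicator]
    have h1 := hasProd_geom (p := p) (fun v : {v : Place k F // v.IsUnramified E} =>
      z ^ (i * res (n + 1) (coord Φ (v.1.frob E)))) (fun v => v.1.deg) (fun j =>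
        (finite_deg_le hF j).preimage Subtype.val_injective.injOn)
    have h2 : eulerL (fun v : {v : Place k F // v.IsUnramified E} => coord Φ (v.1.frob E))
          (fun v => v.1.deg) (n + 1) (z ^ i) = ∏' v : {v : Place k F // v.IsUnramified E},
            geom (z ^ (i * res (n + 1) (coord Φ (v.1.frob E)))) v.1.deg := by
      unfold eulerL
      congr 1
      funext v
      rw [inv_eq_geom _ (deg_ne_zero hF v.1), ← pow_mul]
    rw [h2]
    exact h1
  have h1 := (hasProd_localZeta Φ hF hE L hL n).mul (hasProd_prod (s := primIdx p n) fun i _ => hf i)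
  have h2 := hasProd_localZeta Φ hF hE L hL (n + 1)
  have h3 : (fun v : Place k F => localZeta p (L n) v * ∏ i ∈ primIdx p n, f i v) =
      fun v => localZeta p (L (n + 1)) v := by
    funext v
    by_cases hv : v.IsUnramified E
    · have a1 := localZeta_unram Φ hF hE L hL v hv (n + 1) hz
      have a2 := localZeta_unram Φ hF hE L hL v hv n hzp
      rw [prod_range_split] at a1
      have a3 : ∀ i, (1 - C ((z ^ p) ^ (i * res n (coord Φ (v.frob E)))) * X ^ v.deg : PowerSeries ℂ_[p]) =
          (1 - C (z ^ ((p * i) * res (n + 1) (coord Φ (v.frob E)))) * X ^ v.deg) := by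
        intro i
        rw [res_succ_mul n _ hz1]
      simp only [a3] at a2
      set G := ∏ i ∈ Finset.range (p ^ n),
        (1 - C (z ^ ((p * i) * res (n + 1) (coord Φ (v.frob E)))) * X ^ v.deg : PowerSeries ℂ_[p]) with hG
      set H := ∏ i ∈ primIdx p n, (1 - C (z ^ (i * res (n + 1) (coord Φ (v.frob E)))) * X ^ v.deg : PowerSeries ℂ_[p])
        with hH
      have a4 : (∏ i ∈ primIdx p n, f i v) * H = 1 := by
        rw [hH, ← Finset.prod_mul_distrib]
        apply Finset.prod_eq_one
        intro i _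
        have : f i v = geom (z ^ (i * res (n + 1) (coord Φ (v.frob E)))) v.deg :=
          Set.mulIndicator_of_mem (s := {v : Place k F | v.IsUnramified E}) hv _
        rw [this]
        exact geom_pow_mul (deg_ne_zero hF v)
      calc localZeta p (L n) v * ∏ i ∈ primIdx p n, f i v
          = localZeta p (L n) v * (∏ i ∈ primIdx p n, f i v) * (localZeta p (L (n + 1)) v * (G * H)) := by
            rw [a1, mul_one]
        _ = localZeta p (L (n + 1)) v * (localZeta p (L n) v * G) * ((∏ i ∈ primIdx p n, f i v) * H) := by ring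
        _ = localZeta p (L (n + 1)) v := by rw [a2, a4, mul_one, mul_one]
    · have b1 : ∀ i, f i v = 1 := fun i =>
        Set.mulIndicator_of_notMem (s := {v : Place k F | v.IsUnramified E}) hv _
      rw [Finset.prod_congr rfl (fun i _ => b1 i), Finset.prod_const_one, mul_one]
      refine (hm v hv n ?_).symm
      refine le_trans ?_ hn
      exact Finset.le_sup (f := m) (by simpa using hv)
  rw [h3] at h1
  have : T2Space (PowerSeries ℂ_[p]) := WithPiTopology.instT2Space ℂ_[p]
  exact h2.unique h1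

end artin

end Pool.Agent.H707R3
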