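import Mathlib
import Pool.Agent.H707R3.Artin

set_option linter.all false

open PowerSeries
open scoped PowerSeries.WithPiTopology

namespace Pool.Agent.H707R3

variable {p : ℕ} [Fact p.Prime]

lemma exists_recip (P : Polynomial ℂ_[p]) (h : P.coeff 0 = 1) :
    ∃ B : Multiset ℂ_[p], (P : PowerSeries ℂ_[p]) = recipProd B := by
  have hP0 : P ≠ 0 := by rintro rfl; simp at h
  have hsplit := IsAlgClosed.splits P
  have h1 := hsplit.eq_prod_roots
  have hr : ∀ r ∈ P.roots, r ≠ 0 := by
    rintro r hr rfl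
    have h2 := (Polynomial.mem_roots hP0).1 hr
    rw [Polynomial.IsRoot.def, ← Polynomial.coeff_zero_eq_eval_zero, h] at h2
    exact one_ne_zero h2
  have h2 : ∀ s : Multiset ℂ_[p], (∀ r ∈ s, r ≠ 0) →
      (s.map fun a => Polynomial.X - Polynomial.C a).prod =
        Polynomial.C ((s.map fun a => -a).prod) * recipPoly (s.map fun a => a⁻¹) := by
    intro s
    induction s using Multiset.induction with
    | empty => intro _; simp [recipPoly]
    | cons a s ih =>
      intro hs
      have ha : a ≠ 0 := hs a (Multiset.mem_cons_self _ _)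
      have ih' := ih fun r hr => hs r (Multiset.mem_cons_of_mem hr)
      simp only [recipPoly, Multiset.map_cons, Multiset.prod_cons] at ih' ⊢
      rw [ih', map_mul]
      have e : Polynomial.X - Polynomial.C a = Polynomial.C (-a) * (1 - Polynomial.C a⁻¹ * Polynomial.X) := by
        rw [mul_sub, mul_one, ← mul_assoc, ← map_mul, neg_mul, mul_inv_cancel₀ ha]
        simp only [map_neg, map_one]
        ring
      rw [e]; ring
  have h3 := h2 P.roots hr
  rw [h3, ← mul_assoc, ← map_mul] at h1
  refine ⟨P.roots.map fun a => a⁻¹, ?_⟩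
  set κ := P.leadingCoeff * (P.roots.map fun a => -a).prod with hκ
  have h4 : (P : PowerSeries ℂ_[p]) = C κ * recipProd (P.roots.map fun a => a⁻¹) := by
    conv_lhs => rw [h1]
    rw [Polynomial.coe_mul, coe_recipPoly, Polynomial.coe_C]
  have h5 : κ = 1 := by
    have h6 := congrArg (coeff 0) h4
    rw [Polynomial.coeff_coe, h, coeff_C_mul, coeff_zero_recipProd, mul_one] at h6
    exact h6.symm
  rw [h4, h5, map_one, one_mul]

lemma recipProd_add (A B : Multiset ℂ_[p]) : recipProd (A + B) = recipProd A * recipProd B := by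
  simp [recipProd]

/-- A nonzero reciprocal root of a factor is a reciprocal root. -/
lemma mem_of_recipProd_eq {A B C' : Multiset ℂ_[p]} (h : recipProd A = recipProd B * recipProd C')
    {β : ℂ_[p]} (hβ : β ∈ B) (h0 : β ≠ 0) : β ∈ A := by
  have h1 : recipPoly A = recipPoly B * recipPoly C' := by
    apply Polynomial.coe_injective
    rw [Polynomial.coe_mul, coe_recipPoly, coe_recipPoly, coe_recipPoly, h]
  have h2 : Polynomial.eval β⁻¹ (recipPoly B) = 0 := by
    obtain ⟨D, rfl⟩ := Multiset.exists_cons_of_mem hβ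
    simp only [recipPoly, Multiset.map_cons, Multiset.prod_cons, Polynomial.eval_mul]
    simp [mul_inv_cancel₀ h0]
  have h3 : Polynomial.eval β⁻¹ (recipPoly A) = 0 := by
    rw [h1, Polynomial.eval_mul, h2, zero_mul]
  unfold recipPoly at h3
  rw [Polynomial.eval_multiset_prod, Multiset.map_map] at h3
  rw [Multiset.prod_eq_zero_iff, Multiset.mem_map] at h3
  obtain ⟨α, hα, h4⟩ := h3
  simp only [Function.comp_apply, Polynomial.eval_sub, Polynomial.eval_one, Polynomial.eval_mul,
    Polynomial.eval_C, Polynomial.eval_X] at h4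
  have : α = β := by
    field_simp at h4
    linear_combination -h4
  rwa [← this]

lemma genField_le_of_recipProd {A B C' : Multiset ℂ_[p]} (h : recipProd A = recipProd B * recipProd C') :
    genField B ≤ genField A := by
  unfold genField
  rw [IntermediateField.adjoin_le_iff]
  intro β hβ
  by_cases h0 : β = 0
  · rw [h0]; exact (IntermediateField.adjoin ℚ_[p] {α | α ∈ A}).zero_mem
  · exact IntermediateField.subset_adjoin _ _ (mem_of_recipProd_eq h hβ h0)

lemma ramIdx_mono {K M : IntermediateField ℚ_[p] ℂ_[p]} (h : K ≤ M) (hM : ramIdx M ≠ 0) :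
    ramIdx K ≤ ramIdx M :=
  Subgroup.relIndex_le_of_le_right (valGroup_mono h) hM

lemma algebraic_coeff_mul {f g : PowerSeries ℂ_[p]} (hf : ∀ n, IsAlgebraic ℚ_[p] (coeff n f))
    (hg : ∀ n, IsAlgebraic ℚ_[p] (coeff n g)) (n : ℕ) : IsAlgebraic ℚ_[p] (coeff n (f * g)) := by
  rw [coeff_mul]
  refine (IsIntegral.sum _ fun q _ => ?_).isAlgebraic
  exact (hf q.1).isIntegral.mul (hg q.2).isIntegral

lemma algebraic_natCast (m : ℕ) : IsAlgebraic ℚ_[p] ((m : ℕ) : ℂ_[p]) := by
  have : ((m : ℕ) : ℂ_[p]) = algebraMap ℚ_[p] ℂ_[p] m := by simp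
  rw [this]
  exact isAlgebraic_algebraMap _

lemma algebraic_zeta {k K : Type*} [Field k] [Finite k] [Field K] [Algebra k K]
    (hK : IsCurveFunctionField k K) (n : ℕ) : IsAlgebraic ℚ_[p] (coeff n (zetaFun p k K)) := by
  classical
  rw [zetaFun_eq k K (fun w => deg_ne_zero hK w), coeff_tprod_geom _ _ (fun m => finite_deg_le hK m)]
  have hmap : (∏ v ∈ (finite_deg_le hK n).toFinset, geom (1 : ℂ_[p]) v.deg) =
      PowerSeries.map (Nat.castRingHom ℂ_[p]) (∏ v ∈ (finite_deg_le hK n).toFinset, geom (1 : ℕ) v.deg) := by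
    rw [map_prod (PowerSeries.map (Nat.castRingHom ℂ_[p]))]
    refine Finset.prod_congr rfl fun v _ => ?_
    rw [map_geom, map_one]
  rw [hmap, coeff_map]
  exact algebraic_natCast _

variable {k F E : Type*} [Field k] [Finite k] [Field F] [Algebra k F]
  [Field E] [Algebra F E] [Algebra k E] [IsScalarTower k F E]

/-- The ramification bound for zeta functions, given that the `L`-functions are polynomials. -/
theorem zeta_bound_of_poly (h : IsZpTower k F E p)
    (L : ℕ → IntermediateField F E) (hL : ∀ n, Module.finrank F (L n) = p ^ n)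
    (Φ : (E ≃ₐ[F] E) ≃* Multiplicative ℤ_[p])
    (hpoly : ∃ N, ∀ n, N ≤ n → ∀ z : ℂ_[p], IsPrimitiveRoot z (p ^ n) → ∃ P : Polynomial ℂ_[p],
      eulerL (fun v : {v : Place k F // v.IsUnramified E} => coord Φ (v.1.frob E))
          (fun v => v.1.deg) n z = P)
    (A : ℕ → Multiset ℂ_[p])
    (hA : ∀ n, zetaFun p k (L n) * ((1 - X) * (1 - C (Nat.card k : ℂ_[p]) * X)) = recipProd (A n)) :
    ∃ c : ℝ, 0 < c ∧ ∃ N : ℕ, ∀ n, N ≤ n → c * (p : ℝ) ^ n ≤ ramIdx (genField (A n)) := by
  classical
  have hp : p.Prime := Fact.out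
  haveI := h.galois
  obtain ⟨N₁, hN₁⟩ := hpoly
  obtain ⟨N₂, hN₂⟩ := artin_step Φ h.base h.algClosed L hL h.finite_ramified
  have hne : Nonempty {v : Place k F // v.IsUnramified E} := by
    have h1 : Infinite (Place k F) := infinite_place h.base
    have h2 : ({v : Place k F | ¬ v.IsUnramified E}ᶜ).Nonempty :=
      (Set.Finite.infinite_compl h.finite_ramified).nonempty
    obtain ⟨v, hv⟩ := h2
    exact ⟨⟨v, not_not.1 hv⟩⟩
  set ρ : {v : Place k F // v.IsUnramified E} → ℤ_[p] := fun v => coord Φ (v.1.frob E) with hρ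
  set d : {v : Place k F // v.IsUnramified E} → ℕ := fun v => v.1.deg with hd
  have hd0 : ∀ v, d v ≠ 0 := fun v => deg_ne_zero h.base v.1
  have hfin : ∀ m, {v | d v ≤ m}.Finite := fun m =>
    (finite_deg_le h.base m).preimage Subtype.val_injective.injOn
  obtain ⟨c, hc, N₃, hN₃⟩ := core ρ d hd0 hfin
  refine ⟨c, hc, max (max N₁ (N₂ + 1)) (max N₃ 1), fun n hn => ?_⟩
  have hn1 : N₁ ≤ n := le_trans (le_max_left _ _) (le_trans (le_max_left _ _) hn)
  have hn2 : N₂ + 1 ≤ n := le_trans (le_max_right _ _) (le_trans (le_max_left _ _) hn)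
  have hn3 : N₃ ≤ n := le_trans (le_max_left _ _) (le_trans (le_max_right _ _) hn)
  obtain ⟨m, rfl⟩ : ∃ m, n = m + 1 := ⟨n - 1, by omega⟩
  have hNe : NeZero ((p ^ (m + 1) : ℕ) : ℂ_[p]) := ⟨by
    exact_mod_cast pow_ne_zero _ hp.ne_zero⟩
  obtain ⟨z, hz⟩ := HasEnoughRootsOfUnity.exists_primitiveRoot ℂ_[p] (p ^ (m + 1))
  have hex : ∀ i ∈ primIdx p m, ∃ B : Multiset ℂ_[p], eulerL ρ d (m + 1) (z ^ i) = recipProd B := by
    intro i hi
    have hcop : i.Coprime (p ^ (m + 1)) := by
      apply Nat.Coprime.pow_right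
      rw [Nat.coprime_comm, hp.coprime_iff_not_dvd]
      exact (Finset.mem_filter.1 hi).2
    have hzi : IsPrimitiveRoot (z ^ i) (p ^ (m + 1)) := hz.pow_of_coprime i hcop
    obtain ⟨P, hP⟩ := hN₁ (m + 1) hn1 (z ^ i) hzi
    have hcoef : P.coeff 0 = 1 := by
      rw [← Polynomial.coeff_coe, ← hP, eulerL]
      have e : (fun v => (1 - C ((z ^ i) ^ res (m + 1) (ρ v)) * X ^ d v : PowerSeries ℂ_[p])⁻¹) =
          fun v => geom ((z ^ i) ^ res (m + 1) (ρ v)) (d v) := by
        funext v
        exact inv_eq_geom _ (hd0 v)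
      rw [e, coeff_tprod_geom _ _ hfin]
      exact coeff_zero_prod _ _ fun v _ => coeff_zero_geom _ _
    obtain ⟨B, hB⟩ := exists_recip P hcoef
    exact ⟨B, hP.trans hB⟩
  choose! B hB using hex
  have hstep := hN₂ m (by omega) z hz
  have hprod : ∏ i ∈ primIdx p m, eulerL ρ d (m + 1) (z ^ i) = recipProd (∑ i ∈ primIdx p m, B i) := by
    rw [Finset.prod_congr rfl hB]
    induction (primIdx p m) using Finset.induction with
    | empty => simp [recipProd]
    | insert a s has ih => rw [Finset.prod_insert has, Finset.sum_insert has, recipProd_add, ih]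
  have h1i : 1 ∈ primIdx p m := by
    unfold primIdx
    rw [Finset.mem_filter, Finset.mem_range]
    exact ⟨Nat.one_lt_pow (Nat.succ_ne_zero m) hp.one_lt, fun h => hp.one_lt.ne' (Nat.dvd_one.1 h)⟩
  have hfac : recipProd (A (m + 1)) = recipProd (B 1) *
      recipProd (A m + ∑ i ∈ (primIdx p m).erase 1, B i) := by
    rw [← hA (m + 1), hstep, hprod, ← Finset.add_sum_erase _ _ h1i, recipProd_add, recipProd_add, ← hA m]
    ring
  have hle := genField_le_of_recipProd hfac
  have hcurve := curve_L (k := k) h.base h.algClosed L hL (m + 1)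
  have halg : ∀ α ∈ A (m + 1), IsIntegral ℚ_[p] α := by
    apply isIntegral_of_coeff
    intro j
    rw [← hA (m + 1)]
    refine algebraic_coeff_mul (algebraic_zeta hcurve) (fun j => ?_) j
    refine algebraic_coeff_mul (fun j => ?_) (fun j => ?_) j
    · rw [map_sub, coeff_one, coeff_X]
      refine IsAlgebraic.sub ?_ ?_
      · split_ifs
        · exact isAlgebraic_one
        · exact isAlgebraic_zero
      · split_ifs
        · exact isAlgebraic_one
        · exact isAlgebraic_zero
    · rw [map_sub, coeff_one, coeff_C_mul, coeff_X]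
      refine IsAlgebraic.sub ?_ (IsAlgebraic.mul (algebraic_natCast _) ?_)
      · split_ifs
        · exact isAlgebraic_one
        · exact isAlgebraic_zero
      · split_ifs
        · exact isAlgebraic_one
        · exact isAlgebraic_zero
  have hK0 := ramIdx_ne_zero (A (m + 1)) halg
  have hB1 := hB 1 h1i
  rw [pow_one] at hB1
  have hbound := hN₃ (m + 1) hn3 z hz (B 1) hB1
  refine hbound.trans ?_
  exact_mod_cast ramIdx_mono hle hK0

end Pool.Agent.H707R3
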