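import Pool.Agent.H707R3.Recip

/-!
Vanishing of the sums of a nontrivial character of a ray class group over the effective divisors of
large degree.
-/

set_option linter.all false
set_option linter.overlappingInstances false

open FF FFP

namespace Pool.Agent.H707R3

section approx

variable {k K : Type*} [Field k] [Field K] [Algebra k K] [PerfectField k] [IsFF k K]
  {γ N : ℤ} (hR : ∀ D : Place k K →₀ ℤ, N ≤ ddeg D → ell D = ddeg D - γ)

include hR in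
lemma exists_lead' {A B : Place k K →₀ ℤ} (P : Place k K) (hB : B = A + Finsupp.single P 1)
    (hA : N ≤ ddeg A) {t : K} (ht0 : t ≠ 0) (ht : P.ord t = 1) :
    ∃ ℓ : K →ₗ[k] P.RF, (∀ x, P.Reg (x * t ^ (B P)) → ℓ x = P.red (x * t ^ (B P))) ∧
      ∀ y, ∃ x ∈ LL B, ℓ x = y := by
  classical
  have hs1 : (0 : Place k K →₀ ℤ) ≤ Finsupp.single P 1 := by
    intro Q
    by_cases hQ : Q = P
    · subst hQ; simp
    · rw [Finsupp.single_eq_of_ne hQ]; simp
  have hA0 : A ≤ B := by rw [hB]; exact le_add_of_nonneg_right hs1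
  have hBP : B P = A P + 1 := by rw [hB]; simp
  have hBQ : ∀ Q, Q ≠ P → B Q = A Q := by intro Q hQ; rw [hB]; simp [Finsupp.single_eq_of_ne hQ]
  obtain ⟨ℓ, hℓ⟩ := exists_lead P t (B P)
  refine ⟨ℓ, hℓ, ?_⟩
  have hreg : ∀ f ∈ LL B, P.Reg (f * t ^ (B P)) := by
    intro f hf
    by_cases hf0 : f = 0
    · left; simp [hf0]
    · right
      have h5 := (hf.resolve_left hf0) P
      rw [P.ord_mul hf0 (zpow_ne_zero _ ht0), P.ord_zpow, ht]
      linarith
  have hker : ∀ x ∈ LL B, ℓ x = 0 ↔ x ∈ LL A := by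
    intro f hf
    rw [hℓ f (hreg f hf), P.red_eq_zero_iff (hreg f hf)]
    by_cases hf0 : f = 0
    · simp [hf0]
    · rw [P.ord_mul hf0 (zpow_ne_zero _ ht0), P.ord_zpow, ht]
      have h5 : f * t ^ (B P) ≠ 0 := mul_ne_zero hf0 (zpow_ne_zero _ ht0)
      simp only [h5, false_or]
      rw [mem_LL]
      simp only [hf0, false_or]
      constructor
      · intro h6 Q
        have h7 := (hf.resolve_left hf0) Q
        by_cases hQ : Q = P
        · subst hQ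
          omega
        · rw [hBQ Q hQ] at h7
          linarith
      · intro h6
        have h7 := h6 P
        omega
  let φ : LL B →ₗ[k] P.RF := ℓ.comp (Submodule.subtype _)
  have hle : LL A ≤ LL B := LL_mono hA0
  have hk : LinearMap.ker φ = (LL A).comap (LL B).subtype := by
    ext f
    rw [LinearMap.mem_ker, Submodule.mem_comap]
    exact hker f f.2
  let e : LinearMap.ker φ ≃ₗ[k] LL A :=
    (LinearEquiv.ofEq _ _ hk).trans (Submodule.comapSubtypeEquivOfLe hle)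
  have h5 := LinearMap.finrank_range_add_finrank_ker φ
  rw [e.finrank_eq] at h5
  have hd : ddeg B = ddeg A + P.deg := by
    rw [hB, ddeg_add, ddeg_single, one_mul]
  have e1 := finrank_LL hR hA
  have e2 := finrank_LL hR (A := B) (by rw [hd]; exact hA.trans (le_add_of_nonneg_right (Int.natCast_nonneg _)))
  rw [hd] at e2
  have h6 : Module.finrank k (LinearMap.range φ) = Module.finrank k P.RF := by
    have h7 : (P.deg : ℤ) = (Module.finrank k P.RF : ℤ) := rfl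
    omega
  have h7 : LinearMap.range φ = ⊤ := Submodule.eq_top_of_finrank_eq h6
  intro y
  obtain ⟨x, hx⟩ := LinearMap.range_eq_top.1 h7 y
  exact ⟨x, x.2, hx⟩

/-- `ord_P (f) ≥ n` or `f = 0`. -/
def OGe (P : Place k K) (n : ℤ) (f : K) : Prop := f = 0 ∨ n ≤ P.ord f

omit [PerfectField k] [IsFF k K] in
lemma OGe.add {P : Place k K} {n : ℤ} {f g : K} (hf : OGe P n f) (hg : OGe P n g) : OGe P n (f + g) := by
  rcases hf with rfl | hf
  · simpa using hg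
  rcases hg with rfl | hg
  · right; simpa using hf
  by_cases hf0 : f = 0
  · subst hf0; right; simpa using hg
  by_cases hg0 : g = 0
  · subst hg0; right; simpa using hf
  by_cases h : f + g = 0
  · left; exact h
  · right; exact le_trans (le_min hf hg) (P.ord_add hf0 hg0 h)

lemma mem_LL_iff_OGe {D : Place k K →₀ ℤ} {f : K} : f ∈ LL D ↔ ∀ P, OGe P (- D P) f := by
  rw [mem_LL]
  constructor
  · rintro (h | h) P
    · exact Or.inl h
    · exact Or.inr (h P)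
  · intro h
    by_cases hf : f = 0
    · exact Or.inl hf
    · exact Or.inr fun P => (h P).resolve_left hf

include hR in
/-- Approximation of `1`. -/
lemma approx_one {A : Place k K →₀ ℤ} {M : Place k K →₀ ℕ} (hAM : ∀ P, M P ≠ 0 → A P = 0)
    (hdeg : N ≤ ddeg (A - nd M)) (n : ℕ) : ∀ M' : Place k K →₀ ℕ, M'.degree = n → M' ≤ M →
      ∃ g ∈ LL A, ∀ P, M P ≠ 0 → OGe P (M' P) (g - 1) := by
  classical
  induction n with
  | zero =>
    intro M' h1 h2
    have h5 : M' = 0 := (Finsupp.degree_eq_zero_iff _).1 h1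
    subst h5
    refine ⟨0, Submodule.zero_mem _, fun P hP => ?_⟩
    right
    rw [zero_sub, P.ord_neg, P.ord_one]; simp
  | succ n ih =>
    intro D₁ h1 h2
    have h5 : D₁ ≠ 0 := by rintro rfl; simp at h1
    obtain ⟨P, hP⟩ := Finsupp.support_nonempty_iff.2 h5
    rw [Finsupp.mem_support_iff] at hP
    obtain ⟨D₂, rfl⟩ : ∃ D₂, D₁ = D₂ + Finsupp.single P 1 := by
      refine ⟨D₁ - Finsupp.single P 1, (tsub_add_cancel_of_le ?_).symm⟩
      rw [Finsupp.single_le_iff]; omega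
    have hD₂deg : D₂.degree = n := by
      rw [map_add, Finsupp.degree_single] at h1; omega
    have hD₂le : D₂ ≤ D₂ + Finsupp.single P 1 := by
      intro Q; simp
    obtain ⟨g, hg, hg1⟩ := ih D₂ hD₂deg (hD₂le.trans h2)
    have hMP : M P ≠ 0 := by
      have := h2 P
      simp only [Finsupp.add_apply, Finsupp.single_eq_same] at this
      omega
    have hndle : ∀ {X Y : Place k K →₀ ℕ}, X ≤ Y → nd X ≤ nd Y := by
      intro X Y h Q
      simp only [nd, Finsupp.mapRange.addMonoidHom_apply, Finsupp.mapRange_apply]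
      simpa using h Q
    have hnd : nd (D₂ + Finsupp.single P 1) = nd D₂ + Finsupp.single P (1 : ℤ) := by
      rw [map_add, nd_single]; simp
    obtain ⟨t, ht0, ht⟩ := P.surj
    have hAd : N ≤ ddeg (A - nd (D₂ + Finsupp.single P 1)) := by
      refine hdeg.trans (ddeg_mono ?_)
      exact sub_le_sub_left (hndle h2) _
    obtain ⟨ℓ, hℓ, hsurj⟩ := exists_lead' hR (A := A - nd (D₂ + Finsupp.single P 1)) (B := A - nd D₂) P
      (by rw [hnd]; abel) hAd ht0 ht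
    have hBP : (A - nd D₂) P = - (D₂ P : ℤ) := by
      rw [Finsupp.sub_apply, hAM P hMP]; simp [nd]
    rw [hBP] at hℓ
    obtain ⟨h, hh, hh1⟩ := hsurj (-ℓ (g - 1))
    refine ⟨g + h, Submodule.add_mem _ hg (LL_mono ?_ hh), ?_⟩
    · rw [sub_le_self_iff]; intro Q; simp [nd]
    intro Q hQ
    have hhQ : OGe Q (D₂ Q) h := by
      have := (mem_LL_iff_OGe.1 hh) Q
      rwa [Finsupp.sub_apply, hAM Q hQ, zero_sub, neg_neg, show nd D₂ Q = (D₂ Q : ℤ) by simp [nd]] at this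
    have hsum : OGe Q (D₂ Q) (g + h - 1) := by
      have := (hg1 Q hQ).add hhQ
      rwa [show g - 1 + h = g + h - 1 by ring] at this
    by_cases hQP : Q = P
    · subst hQP
      have hreg : ∀ f : K, OGe Q (D₂ Q) f → Q.Reg (f * t ^ (-(D₂ Q : ℤ))) := by
        intro f hf
        by_cases hf0 : f = 0
        · left; simp [hf0]
        · right
          have := hf.resolve_left hf0
          rw [Q.ord_mul hf0 (zpow_ne_zero _ ht0), Q.ord_zpow, ht]
          linarith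
      have h6 : ℓ (g + h - 1) = 0 := by
        rw [show g + h - 1 = (g - 1) + h by ring, map_add, hh1, add_neg_cancel]
      rw [hℓ _ (hreg _ hsum), Q.red_eq_zero_iff (hreg _ hsum)] at h6
      by_cases hf0 : g + h - 1 = 0
      · exact Or.inl hf0
      · right
        rw [Q.ord_mul hf0 (zpow_ne_zero _ ht0), Q.ord_zpow, ht] at h6
        have h7 := h6.resolve_left (mul_ne_zero hf0 (zpow_ne_zero _ ht0))
        simp only [Finsupp.add_apply, Finsupp.single_eq_same]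
        push_cast
        linarith
    · simp only [Finsupp.add_apply, Finsupp.single_eq_of_ne hQP]
      simpa using hsum

end approx

section count

variable {k K : Type*} [Field k] [Finite k] [Field K] [Algebra k K] [PerfectField k] [IsFF k K]

/-- The set of admissible functions. -/
def GG (E : Place k K →₀ ℤ) (c : ℤ) (A₁ A₂ : Place k K →₀ ℤ) : Set K :=
  {g | g ∈ LL (A₁ - A₂) ∧ g - 1 ∈ LL (A₁ - c • E)}

omit [Finite k] in
lemma ne_zero_of_mem_GG {E : Place k K →₀ ℤ} {c : ℤ} {A₁ A₂ : Place k K →₀ ℤ} (hc : 0 < c)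
    {P : Place k K} (hP : 0 < E P) (hA : A₁ P = 0) {g : K} (hg : g ∈ GG E c A₁ A₂) : g ≠ 0 := by
  rintro rfl
  have h1 := (mem_LL_iff_OGe.1 hg.2) P
  rcases h1 with h1 | h1
  · simp at h1
  · rw [zero_sub, P.ord_neg, P.ord_one, Finsupp.sub_apply, hA] at h1
    simp only [Finsupp.smul_apply, smul_eq_mul] at h1
    nlinarith

lemma card_GG {γ N : ℤ} (hR : ∀ D : Place k K →₀ ℤ, N ≤ ddeg D → ell D = ddeg D - γ)
    {E : Place k K →₀ ℤ} (hE : 0 ≤ E) {c : ℤ} (hc : 0 ≤ c) {A₁ A₂ : Place k K →₀ ℕ}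
    (h1 : ∀ P, E P ≠ 0 → A₁ P = 0) (h2 : ∀ P, E P ≠ 0 → A₂ P = 0)
    (hdeg : N ≤ ddeg (nd A₁ - nd A₂ - c • E)) :
    (GG E c (nd A₁) (nd A₂)).Finite ∧ ((GG E c (nd A₁) (nd A₂)).ncard : ℤ) =
      (Nat.card k : ℤ) ^ (ddeg (nd A₁ - nd A₂ - c • E) - γ).toNat := by
  classical
  have hcE : 0 ≤ c • E := by
    intro P
    simp only [Finsupp.smul_apply, Finsupp.coe_zero, Pi.zero_apply, smul_eq_mul]
    exact mul_nonneg hc (hE P)
  -- the natural-valued modulus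
  obtain ⟨M, hM⟩ : ∃ M : Place k K →₀ ℕ, c • E = nd M := by
    obtain ⟨M, hM⟩ := exists_nd hcE
    exact ⟨M, by rwa [zero_add] at hM⟩
  have hME : ∀ P, M P ≠ 0 → E P ≠ 0 := by
    intro P hP hE0
    have h3 := DFunLike.congr_fun hM P
    simp only [Finsupp.smul_apply, hE0, smul_zero] at h3
    have h4 : nd M P = (M P : ℤ) := by simp [nd]
    rw [h4] at h3
    exact hP (by exact_mod_cast h3.symm)
  have hndA : ∀ (X : Place k K →₀ ℕ) P, nd X P = (X P : ℤ) := fun X P => by simp [nd]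
  obtain ⟨g₀, hg₀, hg₀1⟩ := approx_one hR (A := nd A₁ - nd A₂) (M := M)
    (fun P hP => by rw [Finsupp.sub_apply, hndA, hndA, h1 P (hME P hP), h2 P (hME P hP)]; simp)
    (by rw [← hM]; exact hdeg) _ M rfl le_rfl
  have hg₀G : g₀ ∈ GG E c (nd A₁) (nd A₂) := by
    refine ⟨hg₀, mem_LL_iff_OGe.2 fun P => ?_⟩
    by_cases hP : M P = 0
    · have h3 : (nd A₁ - c • E) P = A₁ P := by
        rw [hM, Finsupp.sub_apply, hndA, hndA, hP]; simp
      rw [h3]
      have h4 := (mem_LL_iff_OGe.1 hg₀) P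
      rw [Finsupp.sub_apply, hndA, hndA] at h4
      have h5 : OGe P (-(A₁ P : ℤ)) g₀ := by
        rcases h4 with h4 | h4
        · exact Or.inl h4
        · right; linarith [Int.natCast_nonneg (A₂ P)]
      have h6 : OGe P (-(A₁ P : ℤ)) (-1 : K) := by
        right; rw [P.ord_neg, P.ord_one]; simp
      have := h5.add h6
      rwa [← sub_eq_add_neg] at this
    · have h3 := hg₀1 P hP
      rw [hM, Finsupp.sub_apply, hndA, hndA, h1 P (hME P hP)]
      simpa using h3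
  have himg : GG E c (nd A₁) (nd A₂) = (fun h => g₀ + h) '' (LL (nd A₁ - nd A₂ - c • E) : Set K) := by
    ext g
    constructor
    · intro hg
      refine ⟨g - g₀, ?_, by simp⟩
      have h3 : g - g₀ ∈ LL (nd A₁ - nd A₂) := Submodule.sub_mem _ hg.1 hg₀
      have h4 : g - g₀ ∈ LL (nd A₁ - c • E) := by
        have := Submodule.sub_mem _ hg.2 hg₀G.2
        rwa [show g - 1 - (g₀ - 1) = g - g₀ by ring] at this
      rw [SetLike.mem_coe, mem_LL_iff_OGe]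
      intro P
      have h5 := (mem_LL_iff_OGe.1 h3) P
      have h6 := (mem_LL_iff_OGe.1 h4) P
      rw [Finsupp.sub_apply] at h5 h6 ⊢
      rw [Finsupp.sub_apply]
      by_cases hP : E P = 0
      · rw [Finsupp.smul_apply, hP, smul_zero, sub_zero]; exact h5
      · rw [hndA A₂, h2 P hP]; simpa using h6
    · rintro ⟨h, hh, rfl⟩
      rw [SetLike.mem_coe] at hh
      refine ⟨Submodule.add_mem _ hg₀ (LL_mono ?_ hh), ?_⟩
      · rw [sub_le_self_iff]; exact hcE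
      · rw [show g₀ + h - 1 = (g₀ - 1) + h by ring]
        refine Submodule.add_mem _ hg₀G.2 (LL_mono ?_ hh)
        rw [sub_right_comm, sub_le_self_iff]
        intro Q; rw [hndA]; simp
  have hfin : Finite (LL (nd A₁ - nd A₂ - c • E)) := Module.finite_of_finite k
  rw [himg]
  refine ⟨Set.Finite.image _ (Set.toFinite _), ?_⟩
  rw [Set.ncard_image_of_injective _ (add_right_injective g₀)]
  have h3 : ((LL (nd A₁ - nd A₂ - c • E) : Submodule k K) : Set K).ncard =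
      Nat.card k ^ Module.finrank k (LL (nd A₁ - nd A₂ - c • E)) :=
    Module.natCard_eq_pow_finrank (K := k) (V := LL (nd A₁ - nd A₂ - c • E))
  rw [h3]
  have h4 := finrank_LL hR hdeg
  push_cast
  congr 1
  omega

/-- The number of functions relating two divisors. -/
noncomputable def MM (E : Place k K →₀ ℤ) (c : ℤ) (B₁ B₂ D₁ D₂ : Place k K →₀ ℕ) : ℕ :=
  Set.ncard {g : K | g ≠ 0 ∧ divisor k g = nd (D₂ + B₂) - nd (D₁ + B₁) ∧ g - 1 ∈ LL (nd (D₁ + B₁) - c • E)}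

omit [Finite k] in
lemma MM_symm (E : Place k K →₀ ℤ) (c : ℤ) (B₁ B₂ D₁ D₂ : Place k K →₀ ℕ) :
    MM E c B₁ B₂ D₁ D₂ = MM E c B₂ B₁ D₂ D₁ := by
  have key : ∀ (B₁ B₂ D₁ D₂ : Place k K →₀ ℕ) (g : K),
      (g ≠ 0 ∧ divisor k g = nd (D₂ + B₂) - nd (D₁ + B₁) ∧ g - 1 ∈ LL (nd (D₁ + B₁) - c • E)) →
      (g⁻¹ ≠ 0 ∧ divisor k g⁻¹ = nd (D₁ + B₁) - nd (D₂ + B₂) ∧ g⁻¹ - 1 ∈ LL (nd (D₂ + B₂) - c • E)) := by
    rintro B₁ B₂ D₁ D₂ g ⟨h1, h2, h3⟩
    refine ⟨inv_ne_zero h1, by rw [divisor_inv, h2]; abel, ?_⟩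
    have h4 : g⁻¹ - 1 = - (g⁻¹ * (g - 1)) := by field_simp; ring
    rw [h4]
    apply Submodule.neg_mem
    rw [mul_mem_iff (inv_ne_zero h1), divisor_inv, h2]
    convert h3 using 2
    abel
  unfold MM
  refine Set.ncard_congr (fun g _ => g⁻¹) ?_ ?_ ?_
  · intro g hg; exact key _ _ _ _ _ hg
  · intro g g' _ _ h; exact inv_injective h
  · intro g hg
    refine ⟨g⁻¹, ?_, inv_inv g⟩
    exact key _ _ _ _ _ hg

lemma MM_row {γ N : ℤ} (hR : ∀ D : Place k K →₀ ℤ, N ≤ ddeg D → ell D = ddeg D - γ)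
    {E : Place k K →₀ ℤ} (hE : 0 ≤ E) {c : ℤ} (hc : 0 < c) {P₀ : Place k K} (hP₀ : 0 < E P₀)
    {m : ℤ} (𝒟 : Finset (Place k K →₀ ℕ)) (h𝒟 : ∀ D, D ∈ 𝒟 ↔ (∀ P, E P ≠ 0 → D P = 0) ∧ ddeg (nd D) = m)
    {B₁ B₂ : Place k K →₀ ℕ} (h1 : ∀ P, E P ≠ 0 → B₁ P = 0) (h2 : ∀ P, E P ≠ 0 → B₂ P = 0)
    (hB : ddeg (nd B₁) = ddeg (nd B₂)) (hm : N ≤ m - ddeg (c • E)) {D₁ : Place k K →₀ ℕ} (hD₁ : D₁ ∈ 𝒟) :
    ∑ D₂ ∈ 𝒟, (MM E c B₁ B₂ D₁ D₂ : ℤ) = (Nat.card k : ℤ) ^ (m - ddeg (c • E) - γ).toNat := by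
  classical
  obtain ⟨hD₁E, hD₁m⟩ := (h𝒟 D₁).1 hD₁
  have hndA : ∀ (X : Place k K →₀ ℕ) P, nd X P = (X P : ℤ) := fun X P => by simp [nd]
  have hA : ∀ P, E P ≠ 0 → (D₁ + B₁) P = 0 := fun P hP => by simp [hD₁E P hP, h1 P hP]
  have hdeg : ddeg (nd (D₁ + B₁) - nd B₂ - c • E) = m - ddeg (c • E) := by
    rw [ddeg_sub, ddeg_sub, map_add, ddeg_add, hD₁m, hB]; ring
  obtain ⟨hfin, hcard⟩ := card_GG hR hE hc.le (A₁ := D₁ + B₁) (A₂ := B₂) hA h2 (by rw [hdeg]; exact hm)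
  rw [hdeg] at hcard
  rw [← hcard]
  -- the target of a function
  let f : K → (Place k K →₀ ℕ) := fun g => (nd (D₁ + B₁) - nd B₂ + divisor k g).mapRange Int.toNat rfl
  have hne : ∀ g ∈ GG E c (nd (D₁ + B₁)) (nd B₂), g ≠ 0 := fun g hg =>
    ne_zero_of_mem_GG hc hP₀ (by rw [hndA, hA P₀ hP₀.ne']; simp) hg
  have hf : ∀ g ∈ GG E c (nd (D₁ + B₁)) (nd B₂), nd (f g) = nd (D₁ + B₁) - nd B₂ + divisor k g := by
    intro g hg
    have h3 := (mem_LL' (hne g hg)).1 hg.1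
    ext P
    rw [hndA]
    have h4 := h3 P
    simp only [f, Finsupp.mapRange_apply]
    rw [Int.toNat_of_nonneg]
    rw [add_comm]; exact h4
  have hmaps : ∀ g ∈ hfin.toFinset, f g ∈ 𝒟 := by
    intro g hg
    rw [Set.Finite.mem_toFinset] at hg
    rw [h𝒟]
    have h3 := hf g hg
    constructor
    · intro P hP
      have h4 := DFunLike.congr_fun h3 P
      rw [hndA, Finsupp.add_apply, Finsupp.sub_apply, hndA, hndA, hA P hP, h2 P hP] at h4
      -- `g` is a unit at `P`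
      have h5 := (mem_LL_iff_OGe.1 hg.2) P
      have h6 : P.ord g = 0 := by
        rw [Finsupp.sub_apply, hndA, hA P hP] at h5
        have hEP : 0 < E P := lt_of_le_of_ne (hE P) (Ne.symm hP)
        have h7 : (1 : ℤ) ≤ c * E P := by
          have : (0 : ℤ) < c * E P := mul_pos hc hEP
          omega
        simp only [Finsupp.smul_apply, smul_eq_mul] at h5
        rcases h5 with h5 | h5
        · rw [sub_eq_zero.1 h5, P.ord_one]
        · by_cases h8 : g - 1 = 0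
          · rw [sub_eq_zero.1 h8, P.ord_one]
          · have h9 := P.ord_add_eq one_ne_zero h8 (by rw [P.ord_one]; push_cast at h5; linarith)
            rw [add_sub_cancel, P.ord_one] at h9
            exact h9.2
      rw [divisor_apply, h6] at h4
      have : (f g P : ℤ) = 0 := by simpa using h4
      exact_mod_cast this
    · rw [h3, ddeg_add, ddeg_sub, map_add, ddeg_add, ddeg_divisor, hD₁m, hB]; ring
  rw [Set.ncard_eq_toFinset_card _ hfin, Finset.card_eq_sum_card_fiberwise hmaps]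
  push_cast
  refine Finset.sum_congr rfl fun D₂ hD₂ => ?_
  congr 1
  unfold MM
  rw [← Set.ncard_coe_finset]
  congr 1
  ext g
  simp only [Set.mem_setOf_eq, Finset.coe_filter, Set.Finite.mem_toFinset]
  constructor
  · rintro ⟨h3, h4, h5⟩
    have h6 : g ∈ GG E c (nd (D₁ + B₁)) (nd B₂) := by
      refine ⟨(mem_LL' h3).2 ?_, h5⟩
      rw [h4, map_add (nd : (Place k K →₀ ℕ) →+ (Place k K →₀ ℤ)) D₂ B₂]
      have : nd D₂ + nd B₂ - nd (D₁ + B₁) + (nd (D₁ + B₁) - nd B₂) = nd D₂ := by abel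
      rw [this]
      intro P; rw [hndA]; simp
    refine ⟨h6, ?_⟩
    have h7 := hf g h6
    rw [h4, map_add (nd : (Place k K →₀ ℕ) →+ (Place k K →₀ ℤ)) D₂ B₂] at h7
    have h8 : nd (f g) = nd D₂ := by rw [h7]; abel
    ext P
    have h9 := DFunLike.congr_fun h8 P
    rw [hndA, hndA] at h9
    exact_mod_cast h9
  · rintro ⟨h3, rfl⟩
    refine ⟨hne g h3, ?_, h3.2⟩
    rw [map_add (nd : (Place k K →₀ ℕ) →+ (Place k K →₀ ℤ)) (f g) B₂, hf g h3]
    abel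

/-- **Vanishing of character sums.** -/
theorem charsum_eq_zero {γ N : ℤ} (hR : ∀ D : Place k K →₀ ℤ, N ≤ ddeg D → ell D = ddeg D - γ)
    {E : Place k K →₀ ℤ} (hE : 0 ≤ E) {c : ℤ} (hc : 0 < c) {P₀ : Place k K} (hP₀ : 0 < E P₀)
    {R : Type*} [Field R] [CharZero R] (χ : Place k K → R)
    (hrec : ∀ D D' : Place k K →₀ ℕ, (∀ P, E P ≠ 0 → D P = 0) → (∀ P, E P ≠ 0 → D' P = 0) →
      ∀ g : K, g ≠ 0 → divisor k g = nd D' - nd D → g - 1 ∈ LL (nd D - c • E) → chiD χ D = chiD χ D')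
    {B₁ B₂ : Place k K →₀ ℕ} (h1 : ∀ P, E P ≠ 0 → B₁ P = 0) (h2 : ∀ P, E P ≠ 0 → B₂ P = 0)
    (hB : ddeg (nd B₁) = ddeg (nd B₂)) (hχ : chiD χ B₁ ≠ chiD χ B₂)
    {m : ℤ} (𝒟 : Finset (Place k K →₀ ℕ)) (h𝒟 : ∀ D, D ∈ 𝒟 ↔ (∀ P, E P ≠ 0 → D P = 0) ∧ ddeg (nd D) = m)
    (hm : N ≤ m - ddeg (c • E)) : ∑ D ∈ 𝒟, chiD χ D = 0 := by
  classical
  have hadd : ∀ D D' : Place k K →₀ ℕ, chiD χ (D + D') = chiD χ D * chiD χ D' := by
    intro D D'
    unfold chiD
    exact Finsupp.prod_add_index' (fun _ => pow_zero _) (fun _ _ _ => pow_add _ _ _)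
  set ν : ℤ := (Nat.card k : ℤ) ^ (m - ddeg (c • E) - γ).toNat with hν
  have hν0 : (ν : R) ≠ 0 := by
    rw [Int.cast_ne_zero]
    exact pow_ne_zero _ (by exact_mod_cast Nat.card_pos.ne')
  have hrow : ∀ D₁ ∈ 𝒟, ∑ D₂ ∈ 𝒟, (MM E c B₁ B₂ D₁ D₂ : R) = ν := by
    intro D₁ hD₁
    have := MM_row hR hE hc hP₀ 𝒟 h𝒟 h1 h2 hB hm hD₁
    rw [← hν] at this
    rw [← this, Int.cast_sum]
    simp only [Int.cast_natCast]
  have hcol : ∀ D₂ ∈ 𝒟, ∑ D₁ ∈ 𝒟, (MM E c B₁ B₂ D₁ D₂ : R) = ν := by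
    intro D₂ hD₂
    have := MM_row hR hE hc hP₀ 𝒟 h𝒟 h2 h1 hB.symm hm hD₂
    rw [← hν] at this
    rw [← this, Int.cast_sum]
    simp only [Int.cast_natCast]
    exact Finset.sum_congr rfl fun D₁ _ => by rw [MM_symm]
  have hrel : ∀ D₁ ∈ 𝒟, ∀ D₂ ∈ 𝒟, (MM E c B₁ B₂ D₁ D₂ : R) * (chiD χ D₁ * chiD χ B₁) =
      (MM E c B₁ B₂ D₁ D₂ : R) * (chiD χ D₂ * chiD χ B₂) := by
    intro D₁ hD₁ D₂ hD₂
    by_cases h0 : MM E c B₁ B₂ D₁ D₂ = 0
    · rw [h0]; simp
    · obtain ⟨g, hg⟩ := Set.nonempty_of_ncard_ne_zero h0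
      rw [← hadd, ← hadd]
      rw [hrec (D₁ + B₁) (D₂ + B₂) (fun P hP => by simp [((h𝒟 D₁).1 hD₁).1 P hP, h1 P hP])
        (fun P hP => by simp [((h𝒟 D₂).1 hD₂).1 P hP, h2 P hP]) g hg.1 hg.2.1 hg.2.2]
  have h3 : (ν : R) * chiD χ B₁ * ∑ D ∈ 𝒟, chiD χ D = ν * chiD χ B₂ * ∑ D ∈ 𝒟, chiD χ D := by
    calc (ν : R) * chiD χ B₁ * ∑ D ∈ 𝒟, chiD χ D
        = ∑ D₁ ∈ 𝒟, ∑ D₂ ∈ 𝒟, (MM E c B₁ B₂ D₁ D₂ : R) * (chiD χ D₁ * chiD χ B₁) := by
          rw [Finset.mul_sum]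
          refine Finset.sum_congr rfl fun D₁ hD₁ => ?_
          rw [← Finset.sum_mul, hrow D₁ hD₁]; ring
      _ = ∑ D₁ ∈ 𝒟, ∑ D₂ ∈ 𝒟, (MM E c B₁ B₂ D₁ D₂ : R) * (chiD χ D₂ * chiD χ B₂) :=
          Finset.sum_congr rfl fun D₁ hD₁ => Finset.sum_congr rfl fun D₂ hD₂ => hrel D₁ hD₁ D₂ hD₂
      _ = ∑ D₂ ∈ 𝒟, ∑ D₁ ∈ 𝒟, (MM E c B₁ B₂ D₁ D₂ : R) * (chiD χ D₂ * chiD χ B₂) := Finset.sum_comm
      _ = ν * chiD χ B₂ * ∑ D ∈ 𝒟, chiD χ D := by
          rw [Finset.mul_sum]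
          refine Finset.sum_congr rfl fun D₂ hD₂ => ?_
          rw [← Finset.sum_mul, hcol D₂ hD₂]; ring
  have h4 : (ν : R) * (chiD χ B₁ - chiD χ B₂) * ∑ D ∈ 𝒟, chiD χ D = 0 := by
    rw [mul_sub, sub_mul, h3, sub_self]
  rcases mul_eq_zero.1 h4 with h5 | h5
  · exact absurd h5 (mul_ne_zero hν0 (sub_ne_zero.2 hχ))
  · exact h5

end count

end Pool.Agent.H707R3
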