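import Pool.Agent.H707R3.Artin

/-!
Coefficients of Euler products as sums over effective divisors, and consequences of the rationality of
the zeta function.
-/

set_option linter.all false

open PowerSeries
open scoped PowerSeries.WithPiTopology

namespace Pool.Agent.H707R3

variable {p : ℕ} [Fact p.Prime]

lemma coeff_euler_divisors {ι : Type*} [DecidableEq ι] (d : ι → ℕ) (hd : ∀ v, d v ≠ 0)
    (hfin : ∀ k, {v | d v ≤ k}.Finite) (m : ℕ) :
    ∃ 𝒟 : Finset (ι →₀ ℕ), (∀ D, D ∈ 𝒟 ↔ (D.sum fun v n => n * d v) = m) ∧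
      ∀ a : ι → ℂ_[p], coeff m (∏' v, geom (a v) (d v)) = ∑ D ∈ 𝒟, D.prod fun v n => a v ^ n := by
  classical
  set T := (hfin m).toFinset with hT
  have hmemT : ∀ v, v ∈ T ↔ d v ≤ m := fun v => by rw [hT, Set.Finite.mem_toFinset]; rfl
  let Ψ : (ι →₀ ℕ) → (ι →₀ ℕ) := fun l =>
    Finsupp.onFinset T (fun v => if v ∈ T then l v / d v else 0) (fun v hv => by
      by_contra h; simp [h] at hv)
  have hΨ : ∀ l v, Ψ l v = if v ∈ T then l v / d v else 0 := fun l v => rfl
  let G := (Finset.finsuppAntidiag T m).filter fun l => ∀ v ∈ T, d v ∣ l v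
  have hG : ∀ l, l ∈ G ↔ (T.sum l = m ∧ l.support ⊆ T) ∧ ∀ v ∈ T, d v ∣ l v := by
    intro l
    simp only [G, Finset.mem_filter, Finset.mem_finsuppAntidiag]
  have hinj : Set.InjOn Ψ G := by
    intro l hl l' hl' h
    have h1 := (hG l).1 hl
    have h2 := (hG l').1 hl'
    ext v
    by_cases hv : v ∈ T
    · have h3 := DFunLike.congr_fun h v
      rw [hΨ, hΨ, if_pos hv, if_pos hv] at h3
      rw [← Nat.div_mul_cancel (h1.2 v hv), h3, Nat.div_mul_cancel (h2.2 v hv)]
    · rw [Finsupp.notMem_support_iff.1 fun h => hv (h1.1.2 h), Finsupp.notMem_support_iff.1 fun h => hv (h2.1.2 h)]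
  refine ⟨G.image Ψ, fun D => ?_, fun a => ?_⟩
  · rw [Finset.mem_image]
    constructor
    · rintro ⟨l, hl, rfl⟩
      have h1 := (hG l).1 hl
      rw [Finsupp.sum_of_support_subset (s := T)]
      · rw [← h1.1.1]
        refine Finset.sum_congr rfl fun v hv => ?_
        rw [hΨ, if_pos hv, Nat.div_mul_cancel (h1.2 v hv)]
      · intro v hv
        rw [Finsupp.mem_support_iff, hΨ] at hv
        by_contra h; simp [h] at hv
      · intro v _; simp
    · intro hD
      have hle : ∀ v, D v * d v ≤ m := by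
        intro v
        by_cases hv : v ∈ D.support
        · rw [← hD]
          exact Finset.single_le_sum (f := fun v => D v * d v) (fun _ _ => Nat.zero_le _) hv
        · rw [Finsupp.notMem_support_iff.1 hv]; simp
      have hsupp : D.support ⊆ T := by
        intro v hv
        rw [hmemT]
        rw [Finsupp.mem_support_iff] at hv
        exact le_trans (Nat.le_mul_of_pos_left _ (Nat.pos_of_ne_zero hv)) (hle v)
      let l : ι →₀ ℕ := Finsupp.onFinset T (fun v => D v * d v) (fun v hv => by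
        apply hsupp
        rw [Finsupp.mem_support_iff]
        intro h; simp [h] at hv)
      have hl : ∀ v, l v = D v * d v := fun v => rfl
      refine ⟨l, (hG l).2 ⟨⟨?_, ?_⟩, ?_⟩, ?_⟩
      · rw [← hD, Finsupp.sum_of_support_subset (s := T) _ hsupp _ (by simp)]
        rfl
      · intro v hv
        rw [Finsupp.mem_support_iff, hl] at hv
        apply hsupp
        rw [Finsupp.mem_support_iff]
        intro h; simp [h] at hv
      · intro v _
        rw [hl]; exact dvd_mul_left _ _
      · ext v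
        rw [hΨ, hl]
        by_cases hv : v ∈ T
        · rw [if_pos hv, Nat.mul_div_cancel _ (Nat.pos_of_ne_zero (hd v))]
        · rw [if_neg hv]
          exact (Finsupp.notMem_support_iff.1 fun h => hv (hsupp h)).symm
  · rw [coeff_tprod_geom _ _ hfin, coeff_prod, Finset.sum_image hinj]
    rw [← Finset.sum_filter_add_sum_filter_not (Finset.finsuppAntidiag T m) (fun l => ∀ v ∈ T, d v ∣ l v)]
    have h0 : ∑ l ∈ (Finset.finsuppAntidiag T m).filter (fun l => ¬ ∀ v ∈ T, d v ∣ l v),
        ∏ i ∈ T, coeff (l i) (geom (a i) (d i)) = 0 := by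
      refine Finset.sum_eq_zero fun l hl => ?_
      have h1 := (Finset.mem_filter.1 hl).2
      push Not at h1
      obtain ⟨v, hv, hv2⟩ := h1
      apply Finset.prod_eq_zero hv
      rw [coeff_geom, if_neg hv2]
    have hTT : (hfin m).toFinset = T := rfl
    rw [hTT, h0, add_zero]
    refine Finset.sum_congr rfl fun l hl => ?_
    have h1 := (hG l).1 hl
    rw [Finsupp.prod_of_support_subset (s := T)]
    · refine Finset.prod_congr rfl fun v hv => ?_
      rw [coeff_geom, if_pos (h1.2 v hv), hΨ, if_pos hv]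
    · intro v hv
      rw [Finsupp.mem_support_iff, hΨ] at hv
      by_contra h; simp [h] at hv
    · intro v _; exact pow_zero _

lemma coeff_euler_one {ι : Type*} [DecidableEq ι] (d : ι → ℕ) (hd : ∀ v, d v ≠ 0)
    (hfin : ∀ k, {v | d v ≤ k}.Finite) (m : ℕ) :
    ∃ 𝒟 : Finset (ι →₀ ℕ), (∀ D, D ∈ 𝒟 ↔ (D.sum fun v n => n * d v) = m) ∧
      coeff m (∏' v, geom (1 : ℂ_[p]) (d v)) = 𝒟.card := by
  obtain ⟨𝒟, h1, h2⟩ := coeff_euler_divisors (p := p) d hd hfin m
  refine ⟨𝒟, h1, ?_⟩
  rw [h2 fun _ => 1]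
  rw [Finset.card_eq_sum_ones, Nat.cast_sum]
  refine Finset.sum_congr rfl fun D _ => ?_
  simp [Finsupp.prod]

section G1

variable {k K : Type*} [Field k] [Finite k] [Field K] [Algebra k K]

/-- Splitting off finitely many Euler factors. -/
lemma zeta_split (hK : IsCurveFunctionField k K) (T : Finset (Place k K)) :
    zetaFun p k K = (∏' w : {w : Place k K // w ∉ T}, geom (1 : ℂ_[p]) w.1.deg) *
      ∏ w ∈ T, geom (1 : ℂ_[p]) w.deg := by
  classical
  have : T2Space (PowerSeries ℂ_[p]) := WithPiTopology.instT2Space ℂ_[p]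
  rw [zetaFun_eq k K (fun w => deg_ne_zero hK w)]
  have h1 := hasProd_geom (p := p) (fun _ : Place k K => 1) (fun w => w.deg) (fun m => finite_deg_le hK m)
  have h2 := hasProd_geom (p := p) (fun _ : {w : Place k K // w ∉ T} => 1) (fun w => w.1.deg) (fun m =>
    (finite_deg_le hK m).preimage Subtype.val_injective.injOn)
  have h3 : HasProd (Set.mulIndicator {w : Place k K | w ∉ T} fun w => geom (1 : ℂ_[p]) w.deg)
      (∏' w : {w : Place k K // w ∉ T}, geom (1 : ℂ_[p]) w.1.deg) := by
    rw [← hasProd_subtype_iff_mulIndicator]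
    exact h2
  have h4 : HasProd (Set.mulIndicator (T : Set (Place k K)) fun w => geom (1 : ℂ_[p]) w.deg)
      (∏ w ∈ T, geom (1 : ℂ_[p]) w.deg) := by
    have h5 := hasProd_prod_of_ne_finset_one (L := SummationFilter.unconditional _) (s := T)
      (f := Set.mulIndicator (T : Set (Place k K)) fun w => geom (1 : ℂ_[p]) w.deg) (fun w hw =>
        Set.mulIndicator_of_notMem (by simpa using hw) _)
    have h6 : ∏ w ∈ T, Set.mulIndicator (T : Set (Place k K)) (fun w => geom (1 : ℂ_[p]) w.deg) w =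
        ∏ w ∈ T, geom (1 : ℂ_[p]) w.deg :=
      Finset.prod_congr rfl fun w hw => Set.mulIndicator_of_mem (by simpa using hw) _
    rwa [h6] at h5
  have h7 := h3.mul h4
  refine h1.unique ?_
  convert h7 using 1
  funext w
  by_cases hw : w ∈ T
  · rw [Set.mulIndicator_of_notMem (s := {w : Place k K | w ∉ T}) (by simpa using hw),
      Set.mulIndicator_of_mem (s := (T : Set (Place k K))) (by simpa using hw), one_mul]
  · rw [Set.mulIndicator_of_mem (s := {w : Place k K | w ∉ T}) (by simpa using hw),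
      Set.mulIndicator_of_notMem (s := (T : Set (Place k K))) (by simpa using hw), mul_one]

lemma exists_poly_inv (T : Finset (Place k K)) (hT : ∀ w ∈ T, w.deg ≠ 0) :
    (∏ w ∈ T, geom (1 : ℂ_[p]) w.deg) *
      ((∏ w ∈ T, (1 - Polynomial.X ^ w.deg) : Polynomial ℂ_[p]) : PowerSeries ℂ_[p]) = 1 := by
  classical
  induction T using Finset.induction with
  | empty => simp
  | insert a s ha ih =>
    rw [Finset.prod_insert ha, Finset.prod_insert ha, Polynomial.coe_mul]
    have h1 := geom_pow_mul (p := p) (x := 1) (hT a (Finset.mem_insert_self _ _))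
    rw [map_one, one_mul] at h1
    have h2 : ((1 - Polynomial.X ^ a.deg : Polynomial ℂ_[p]) : PowerSeries ℂ_[p]) = 1 - X ^ a.deg := by
      simp
    rw [h2]
    calc geom 1 a.deg * (∏ w ∈ s, geom (1 : ℂ_[p]) w.deg) * ((1 - X ^ a.deg) *
          ((∏ w ∈ s, (1 - Polynomial.X ^ w.deg) : Polynomial ℂ_[p]) : PowerSeries ℂ_[p]))
        = (geom 1 a.deg * (1 - X ^ a.deg)) * ((∏ w ∈ s, geom (1 : ℂ_[p]) w.deg) *
          ((∏ w ∈ s, (1 - Polynomial.X ^ w.deg) : Polynomial ℂ_[p]) : PowerSeries ℂ_[p])) := by ring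
      _ = 1 := by rw [h1, ih fun w hw => hT w (Finset.mem_insert_of_mem hw), one_mul]

/-- There are places of degree prime to `p` outside every finite set. -/
theorem exists_deg_not_dvd (hK : IsCurveFunctionField k K) (T : Finset (Place k K))
    (A : Multiset ℂ_[p])
    (hA : zetaFun p k K * ((1 - X) * (1 - C (Nat.card k : ℂ_[p]) * X)) = recipProd A) :
    ∃ w : Place k K, w ∉ T ∧ ¬ p ∣ w.deg := by
  classical
  have hp : p.Prime := Fact.out
  by_contra hcon
  push Not at hcon
  set q : ℂ_[p] := (Nat.card k : ℂ_[p]) with hq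
  set f : PowerSeries ℂ_[p] := ∏' w : {w : Place k K // w ∉ T}, geom (1 : ℂ_[p]) w.1.deg with hf
  have h1 := zeta_split (p := p) hK T
  have h2 := exists_poly_inv (p := p) T (fun w _ => deg_ne_zero hK w)
  set Q : Polynomial ℂ_[p] := recipPoly A * ∏ w ∈ T, (1 - Polynomial.X ^ w.deg) with hQ
  have h3 : f * ((1 - X) * (1 - C q * X)) = (Q : PowerSeries ℂ_[p]) := by
    rw [hQ, Polynomial.coe_mul, coe_recipPoly, ← hA, h1]
    calc f * ((1 - X) * (1 - C q * X)) = f * ((1 - X) * (1 - C q * X)) * ((∏ w ∈ T, geom (1 : ℂ_[p]) w.deg) *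
      ((∏ w ∈ T, (1 - Polynomial.X ^ w.deg) : Polynomial ℂ_[p]) : PowerSeries ℂ_[p])) := by rw [h2, mul_one]
      _ = _ := by ring
  have hrec : ∀ m, Q.natDegree < m + 2 → coeff (m + 2) f - (1 + q) * coeff (m + 1) f + q * coeff m f = 0 := by
    intro m hm
    have h4 := congrArg (coeff (m + 2)) h3
    rw [Polynomial.coeff_coe, Polynomial.coeff_eq_zero_of_natDegree_lt hm] at h4
    rw [← h4]
    have h5 : f * ((1 - X) * (1 - C q * X)) = f - C (1 + q) * (f * X) + C q * (f * X * X) := by
      rw [map_add, map_one]; ring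
    rw [h5, map_add, map_sub, coeff_C_mul, coeff_C_mul, coeff_succ_mul_X, coeff_succ_mul_X, coeff_succ_mul_X]
  have hfin : ∀ j, {w : {w : Place k K // w ∉ T} | w.1.deg ≤ j}.Finite := fun j =>
    (finite_deg_le hK j).preimage Subtype.val_injective.injOn
  have hzero : ∀ m, ¬ p ∣ m → coeff m f = 0 := by
    intro m hm
    obtain ⟨𝒟, h4, h5⟩ := coeff_euler_one (p := p) (fun w : {w : Place k K // w ∉ T} => w.1.deg)
      (fun w => deg_ne_zero hK w.1) hfin m
    rw [hf, h5]
    have : 𝒟 = ∅ := by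
      rw [Finset.eq_empty_iff_forall_notMem]
      intro D hD
      apply hm
      rw [← (h4 D).1 hD]
      exact Finset.dvd_sum fun w _ => Dvd.dvd.mul_left (hcon w.1 w.2) _
    rw [this]; simp
  -- all coefficients vanish eventually
  have hlarge : ∀ m, Q.natDegree < m → p ∣ m → coeff m f = 0 := by
    intro m hm hpm
    have hm0 : 0 < m := by omega
    obtain ⟨m', rfl⟩ : ∃ m', m = m' + 1 := ⟨m - 1, by omega⟩
    have h4 := hrec m' (by omega)
    have h5 : ¬ p ∣ m' + 2 := by
      intro h
      have : p ∣ (m' + 2) - (m' + 1) := Nat.dvd_sub h hpm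
      rw [show (m' + 2) - (m' + 1) = 1 by omega] at this
      exact hp.one_lt.ne' (Nat.dvd_one.1 this)
    have h6 : ¬ p ∣ m' := by
      intro h
      have : p ∣ (m' + 1) - m' := Nat.dvd_sub hpm h
      rw [show (m' + 1) - m' = 1 by omega] at this
      exact hp.one_lt.ne' (Nat.dvd_one.1 this)
    rw [hzero _ h5, hzero _ h6, mul_zero, add_zero, zero_sub, neg_eq_zero] at h4
    have h7 : (1 + q) ≠ 0 := by
      rw [hq]
      have : (1 : ℂ_[p]) + (Nat.card k : ℂ_[p]) = ((1 + Nat.card k : ℕ) : ℂ_[p]) := by push_cast; ring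
      rw [this, Nat.cast_ne_zero]; omega
    exact (mul_eq_zero.1 h4).resolve_left h7
  -- contradiction
  haveI := infinite_place hK
  obtain ⟨w₀, hw₀⟩ : ∃ w : Place k K, w ∉ T := Infinite.exists_notMem_finset T
  set d₀ := w₀.deg with hd₀
  have hd₀0 : 0 < d₀ := Nat.pos_of_ne_zero (deg_ne_zero hK w₀)
  set m := (Q.natDegree + 1) * d₀ with hm
  have hmlt : Q.natDegree < m := by
    rw [hm]; nlinarith
  have h8 := hlarge m hmlt (Dvd.dvd.mul_left (hcon w₀ hw₀) _)
  obtain ⟨𝒟, h4, h5⟩ := coeff_euler_one (p := p) (fun w : {w : Place k K // w ∉ T} => w.1.deg)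
      (fun w => deg_ne_zero hK w.1) hfin m
  rw [hf, h5, Nat.cast_eq_zero, Finset.card_eq_zero] at h8
  have h9 : Finsupp.single (⟨w₀, hw₀⟩ : {w : Place k K // w ∉ T}) (Q.natDegree + 1) ∈ 𝒟 := by
    rw [h4, Finsupp.sum_single_index (by simp)]
  rw [h8] at h9
  simp at h9

/-- The zeta function has a pole at `1 / q`. -/
theorem eval_recipPoly_ne_zero (hK : IsCurveFunctionField k K) (A : Multiset ℂ_[p])
    (hA : zetaFun p k K * ((1 - X) * (1 - C (Nat.card k : ℂ_[p]) * X)) = recipProd A) :
    (recipPoly A).eval (Nat.card k : ℂ_[p])⁻¹ ≠ 0 := by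
  classical
  intro h0
  set q : ℂ_[p] := (Nat.card k : ℂ_[p]) with hq
  have hq0 : q ≠ 0 := by rw [hq, Nat.cast_ne_zero]; exact Nat.card_pos.ne'
  obtain ⟨R, hR⟩ := Polynomial.dvd_iff_isRoot.2 h0
  have hR' : recipPoly A = (1 - Polynomial.C q * Polynomial.X) * (Polynomial.C (-q⁻¹) * R) := by
    rw [hR]
    have : (Polynomial.X - Polynomial.C q⁻¹ : Polynomial ℂ_[p]) =
        (1 - Polynomial.C q * Polynomial.X) * Polynomial.C (-q⁻¹) := by
      have h1 : Polynomial.C q * Polynomial.C q⁻¹ = (1 : Polynomial ℂ_[p]) := by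
        rw [← map_mul, mul_inv_cancel₀ hq0, map_one]
      rw [map_neg]
      linear_combination (-Polynomial.X) * h1
    rw [this]; ring
  set R' := Polynomial.C (-q⁻¹) * R with hR'def
  have h1 : zetaFun p k K * (1 - X) = (R' : PowerSeries ℂ_[p]) := by
    have h2 : (zetaFun p k K * (1 - X)) * (1 - C q * X) = (R' : PowerSeries ℂ_[p]) * (1 - C q * X) := by
      rw [mul_assoc, hA, ← coe_recipPoly, hR', Polynomial.coe_mul]
      simp only [Polynomial.coe_sub, Polynomial.coe_one, Polynomial.coe_mul, Polynomial.coe_C, Polynomial.coe_X]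
      ring
    have h3 : (1 - C q * X : PowerSeries ℂ_[p]) ≠ 0 := by
      intro h4
      have := congrArg (coeff 0) h4
      simp at this
    exact mul_right_cancel₀ h3 h2
  have hstep : ∀ m, R'.natDegree < m + 1 → coeff (m + 1) (zetaFun p k K) = coeff m (zetaFun p k K) := by
    intro m hm
    have h4 := congrArg (coeff (m + 1)) h1
    rw [Polynomial.coeff_coe, Polynomial.coeff_eq_zero_of_natDegree_lt hm, mul_sub, mul_one, map_sub,
      coeff_succ_mul_X, sub_eq_zero] at h4
    exact h4
  have hconst : ∀ m, coeff (R'.natDegree + m) (zetaFun p k K) = coeff R'.natDegree (zetaFun p k K) := by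
    intro m
    induction m with
    | zero => rfl
    | succ m ih => rw [← add_assoc, hstep _ (by omega), ih]
  rw [zetaFun_eq k K (fun w => deg_ne_zero hK w)] at hconst
  have hcount := fun m => coeff_euler_one (p := p) (fun w : Place k K => w.deg)
      (fun w => deg_ne_zero hK w) (fun j => finite_deg_le hK j) m
  obtain ⟨𝒟₀, h4, h5⟩ := hcount R'.natDegree
  -- two places
  haveI := infinite_place hK
  obtain ⟨w₁⟩ : Nonempty (Place k K) := inferInstance
  obtain ⟨w₂, hw₂⟩ := exists_ne w₁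
  have hd₁ := Nat.pos_of_ne_zero (deg_ne_zero hK w₁)
  have hd₂ := Nat.pos_of_ne_zero (deg_ne_zero hK w₂)
  set t := R'.natDegree + 𝒟₀.card with ht
  set m := t * (w₁.deg * w₂.deg) with hm
  have hmge : R'.natDegree ≤ m := by
    have : 1 ≤ w₁.deg * w₂.deg := Nat.mul_pos hd₁ hd₂
    nlinarith
  obtain ⟨𝒟, h6, h7⟩ := hcount m
  have h8 : 𝒟.card = 𝒟₀.card := by
    have h9 := hconst (m - R'.natDegree)
    rw [Nat.add_sub_cancel' hmge, h7, h5] at h9
    exact_mod_cast h9
  have h10 : t + 1 ≤ 𝒟.card := by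
    let g : ℕ → (Place k K →₀ ℕ) := fun i =>
      Finsupp.single w₁ (i * w₂.deg) + Finsupp.single w₂ ((t - i) * w₁.deg)
    have hg : ∀ i ∈ Finset.range (t + 1), g i ∈ 𝒟 := by
      intro i hi
      rw [h6, Finsupp.sum_add_index' (by simp) (by intros; ring), Finsupp.sum_single_index (by simp),
        Finsupp.sum_single_index (by simp)]
      have hi' : i ≤ t := by have := Finset.mem_range.1 hi; omega
      obtain ⟨s, hs⟩ := Nat.exists_eq_add_of_le hi'
      rw [hm, hs, Nat.add_sub_cancel_left]; ring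
    have hinj : Set.InjOn g (Finset.range (t + 1)) := by
      intro i _ i' _ h
      have h11 := DFunLike.congr_fun h w₁
      simp only [g, Finsupp.add_apply, Finsupp.single_eq_same, Finsupp.single_eq_of_ne hw₂.symm, add_zero] at h11
      exact Nat.eq_of_mul_eq_mul_right hd₂ h11
    have := Finset.card_le_card_of_injOn g hg hinj
    rwa [Finset.card_range] at this
  omega

end G1

end Pool.Agent.H707R3
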