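import Mathlib
import Pool.Agent.Helper386.D5V.Helper386_FF_Div

/-! Zeros and poles in function fields of one variable over a perfect field (separating elements). -/

set_option autoImplicit false
set_option linter.all false

open Module IsDedekindDomain IntermediateField FF

namespace FFP

variable {k K : Type*} [Field k] [Field K] [Algebra k K]

theorem zeros_sep [h : IsFF k K] {f : K} (hf : Transcendental k f) (hsep : Algebra.IsSeparable k⟮f⟯ K) :
    ∃ S : Finset (Place k K), (∀ w, w ∈ S ↔ 0 < w.ord f) ∧ (∀ w ∈ S, 0 < w.deg) ∧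
      ∑ w ∈ S, (w.ord f).toNat * w.deg = finrank k⟮f⟯ K := by
  open scoped algebraAdjoinAdjoin in
  let A := Algebra.adjoin k {f}
  let e := Polynomial.algEquivOfTranscendental k f hf
  have hpid : IsPrincipalIdealRing A := IsPrincipalIdealRing.of_surjective e.toRingEquiv e.surjective
  have hded : IsDedekindDomain A := inferInstance
  have hfin := IsFF.finite hf
  let π : A := ⟨f, Algebra.self_mem_adjoin_singleton k f⟩
  have hf0 : f ≠ 0 := by
    rintro rfl
    exact hf (isAlgebraic_zero)
  have hπ : π ≠ 0 := by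
    intro h; exact hf0 (congrArg Subtype.val h)
  have heπ : e Polynomial.X = π := Polynomial.algEquivOfTranscendental_apply_X k f hf
  have hmax : (Ideal.span {π}).IsMaximal := by
    have h1 : (Ideal.span {(Polynomial.X : Polynomial k)}).IsMaximal := by
      have := PrincipalIdealRing.isMaximal_of_irreducible (Polynomial.irreducible_X (R := k))
      exact this
    have h2 : Ideal.span {π} = Ideal.map e.toRingEquiv.toRingHom (Ideal.span {(Polynomial.X : Polynomial k)}) := by
      rw [Ideal.map_span, Set.image_singleton]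
      congr 2
      exact heπ.symm
    rw [h2]
    exact Ideal.map_isMaximal_of_equiv e.toRingEquiv
  obtain ⟨S, hS1, hS2, hS3⟩ := fundamental (k := k) (A := A) (L := K) k⟮f⟯ π hπ hmax
  have hreg : ∀ w : Place k K, 0 < w.ord f → ∀ a : A, w.Reg (algebraMap A K a) := by
    rintro w hw ⟨a, ha⟩
    change w.Reg a
    induction ha using Algebra.adjoin_induction with
    | mem x hx =>
      rw [Set.mem_singleton_iff] at hx
      subst hx
      exact Or.inr hw.le
    | algebraMap r => exact w.reg_const r
    | add x y _ _ hx hy => exact w.reg_add hx hy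
    | mul x y _ _ hx hy => exact w.reg_mul hx hy
  have hS1' : ∀ w, w ∈ S ↔ 0 < w.ord f := by
    intro w
    rw [hS1]
    exact ⟨fun h => h.2, fun h => ⟨hreg w h, h⟩⟩
  have hdeg : ∀ w ∈ S, w.relf A = w.deg := by
    intro w hw
    have hw0 := (hS1' w).1 hw
    have h1 : ∀ a : A, ∃ c : k, w.red (algebraMap A K a) = algebraMap k w.RF c := by
      rintro ⟨a, ha⟩
      change ∃ c : k, w.red a = algebraMap k w.RF c
      suffices hh : w.Reg a ∧ ∃ c : k, w.red a = algebraMap k w.RF c from hh.2
      induction ha using Algebra.adjoin_induction with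
      | mem x hx =>
        rw [Set.mem_singleton_iff] at hx
        subst hx
        have hr : w.Reg x := Or.inr hw0.le
        exact ⟨hr, 0, by rw [map_zero, w.red_eq_zero_iff hr]; exact Or.inr hw0⟩
      | algebraMap r => exact ⟨w.reg_const r, r, rfl⟩
      | add x y _ _ hx hy =>
        obtain ⟨hx, c, hc⟩ := hx
        obtain ⟨hy, d, hd⟩ := hy
        exact ⟨w.reg_add hx hy, c + d, by rw [w.red_add hx hy, hc, hd, map_add]⟩
      | mul x y _ _ hx hy =>
        obtain ⟨hx, c, hc⟩ := hx
        obtain ⟨hy, d, hd⟩ := hy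
        exact ⟨w.reg_mul hx hy, c * d, by rw [w.red_mul hx hy, hc, hd, map_mul]⟩
    have h2 : Subfield.closure (Set.range fun a : A => w.red (algebraMap A K a)) = (algebraMap k w.RF).fieldRange := by
      apply le_antisymm
      · rw [Subfield.closure_le]
        rintro _ ⟨a, rfl⟩
        obtain ⟨c, hc⟩ := h1 a
        exact ⟨c, hc.symm⟩
      · rintro _ ⟨c, rfl⟩
        apply Subfield.subset_closure
        exact ⟨algebraMap k A c, rfl⟩
    unfold Place.relf Place.deg
    rw [h2]
    let i : k ≃+* (algebraMap k w.RF).fieldRange :=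
      RingEquiv.ofBijective (algebraMap k w.RF).rangeRestrictField
        ⟨(algebraMap k w.RF).rangeRestrictField.injective, by
          rintro ⟨_, ⟨c, rfl⟩⟩
          exact ⟨c, rfl⟩⟩
    exact (Algebra.finrank_eq_of_equiv_equiv i (RingEquiv.refl _) (by ext; rfl)).symm
  refine ⟨S, hS1', ?_, ?_⟩
  · intro w hw
    rw [← hdeg w hw]
    exact hS2 w hw
  · rw [← hS3]
    refine Finset.sum_congr rfl fun w hw => ?_
    rw [hdeg w hw]
    rfl

theorem poles_sep [h : IsFF k K] {f : K} (hf : Transcendental k f) (hsep : Algebra.IsSeparable k⟮f⟯ K) :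
    ∃ S : Finset (Place k K), (∀ w, w ∈ S ↔ w.ord f < 0) ∧
      ∑ w ∈ S, (- w.ord f).toNat * w.deg = finrank k⟮f⟯ K := by
  obtain ⟨S, hS, -, hS3⟩ := zeros_sep (k := k) (K := K) (f := f⁻¹) (by
    intro h; apply hf; simpa using h.inv) (by rw [FF.adjoin_inv]; exact hsep)
  refine ⟨S, ?_, ?_⟩
  · intro w
    rw [hS, w.ord_inv]; omega
  · rw [FF.adjoin_inv] at hS3
    rw [← hS3]
    refine Finset.sum_congr rfl fun w _ => ?_
    rw [w.ord_inv]

/-- `f` is a separating element. -/
def Sep (k : Type*) {K : Type*} [Field k] [Field K] [Algebra k K] (f : K) : Prop :=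
  Transcendental k f ∧ Algebra.IsSeparable k⟮f⟯ K

theorem exists_sep [PerfectField k] [h : IsFF k K] : ∃ t : K, Sep k t := by
  have := h.ess
  obtain ⟨s, hs, hsep⟩ := exists_isTranscendenceBasis_and_isSeparable_of_perfectField k K
  have hcard : s.card = 1 := by
    have h1 := hs.cardinalMk_eq_trdeg
    rw [h.trdeg, Cardinal.mk_coe_finset] at h1
    exact_mod_cast h1
  obtain ⟨t, rfl⟩ := Finset.card_eq_one.1 hcard
  have ht : Transcendental k t := hs.1.transcendental ⟨t, by simp⟩
  rw [Finset.coe_singleton] at hsep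
  exact ⟨t, ht, hsep⟩

/-- The differentials are spanned by `dx`, for a separating `x`. -/
theorem span_dx [h : IsFF k K] {x : K} (hx : Sep k x) (ω : Ω[K⁄k]) :
    ω ∈ Submodule.span K {KaehlerDifferential.D k K x} := by
  have hess := h.ess
  have h1 : Algebra.EssFiniteType k⟮x⟯ K := Algebra.EssFiniteType.of_comp k k⟮x⟯ K
  have h2 : Algebra.FormallyUnramified k⟮x⟯ K :=
    (Algebra.FormallyUnramified.iff_isSeparable k⟮x⟯ K).2 hx.2
  have h3 : Subsingleton (Ω[K⁄k⟮x⟯]) := h2.subsingleton_kaehlerDifferential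
  set S := Submodule.span K {KaehlerDifferential.D k K x} with hS
  have hadj : ∀ a ∈ k⟮x⟯, KaehlerDifferential.D k K a ∈ S := by
    intro a ha
    induction ha using IntermediateField.adjoin_induction with
    | mem y hy =>
      rw [Set.mem_singleton_iff] at hy
      subst hy
      exact Submodule.subset_span rfl
    | algebraMap r => rw [Derivation.map_algebraMap]; exact S.zero_mem
    | add a b _ _ ha hb => rw [map_add]; exact S.add_mem ha hb
    | mul a b _ _ ha hb =>
      rw [Derivation.leibniz]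
      exact S.add_mem (S.smul_mem _ hb) (S.smul_mem _ ha)
    | inv a _ ha =>
      rw [Derivation.leibniz_inv]
      exact S.smul_mem _ ha
  -- the derivation to the quotient is `k⟮x⟯`-linear
  let d0 : Derivation k K (Ω[K⁄k] ⧸ S) := (S.mkQ).compDer (KaehlerDifferential.D k K)
  have hd0 : ∀ a ∈ k⟮x⟯, d0 a = 0 := by
    intro a ha
    show S.mkQ (KaehlerDifferential.D k K a) = 0
    rw [Submodule.mkQ_apply, Submodule.Quotient.mk_eq_zero]
    exact hadj a ha
  let d1 : Derivation k⟮x⟯ K (Ω[K⁄k] ⧸ S) :=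
    { toFun := d0
      map_add' := fun a b => d0.map_add a b
      map_smul' := by
        intro c a
        rw [RingHom.id_apply, Algebra.smul_def, Derivation.leibniz]
        have : d0 (algebraMap k⟮x⟯ K c) = 0 := hd0 _ c.2
        rw [this, smul_zero, add_zero, algebraMap_smul]
      map_one_eq_zero' := d0.map_one_eq_zero
      leibniz' := fun a b => d0.leibniz a b }
  have hd1 : ∀ a : K, d1 a = 0 := by
    intro a
    have h4 : d1 a = d1.liftKaehlerDifferential (KaehlerDifferential.D k⟮x⟯ K a) :=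
      (d1.liftKaehlerDifferential_comp_D a).symm
    rw [h4, Subsingleton.elim (KaehlerDifferential.D k⟮x⟯ K a) 0, map_zero]
  have htop : (⊤ : Submodule K (Ω[K⁄k])) ≤ S := by
    rw [← KaehlerDifferential.span_range_derivation, Submodule.span_le]
    rintro _ ⟨a, rfl⟩
    have := hd1 a
    change S.mkQ (KaehlerDifferential.D k K a) = 0 at this
    rw [Submodule.mkQ_apply, Submodule.Quotient.mk_eq_zero] at this
    exact this
  exact htop (Submodule.mem_top)

theorem not_isAlgebraic [h : IsFF k K] : ¬ Algebra.IsAlgebraic k K := by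
  intro h2
  have h3 := h.trdeg
  rw [_root_.trdeg_eq_zero_iff.2 h2] at h3
  exact zero_ne_one h3

/-- An element with nonzero differential is separating. -/
theorem sep_of_D_ne_zero [PerfectField k] [h : IsFF k K] {f : K} (hf : KaehlerDifferential.D k K f ≠ 0) :
    Sep k f := by
  obtain ⟨x, hx⟩ := exists_sep (k := k) (K := K)
  have hess := h.ess
  have h1 : Algebra.EssFiniteType k⟮f⟯ K := Algebra.EssFiniteType.of_comp k k⟮f⟯ K
  obtain ⟨c, hc⟩ := Submodule.mem_span_singleton.1 (span_dx hx (KaehlerDifferential.D k K f))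
  have hc0 : c ≠ 0 := by
    rintro rfl
    rw [zero_smul] at hc
    exact hf hc.symm
  let d' : Derivation k K (Ω[K⁄k⟮f⟯]) := (KaehlerDifferential.D k⟮f⟯ K).restrictScalars k
  have hd' : ∀ a, d' a = KaehlerDifferential.D k⟮f⟯ K a := fun a => rfl
  have hl : ∀ a, d'.liftKaehlerDifferential (KaehlerDifferential.D k K a) = KaehlerDifferential.D k⟮f⟯ K a := by
    intro a
    rw [d'.liftKaehlerDifferential_comp_D a]
    rfl
  have hfz : KaehlerDifferential.D k⟮f⟯ K f = 0 := by
    exact Derivation.map_algebraMap _ (AdjoinSimple.gen k f)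
  have hxz : KaehlerDifferential.D k⟮f⟯ K x = 0 := by
    have h5 : c • KaehlerDifferential.D k⟮f⟯ K x = 0 := by
      rw [← hl, ← map_smul, hc, hl, hfz]
    exact (smul_eq_zero.1 h5).resolve_left hc0
  have hall : ∀ a, KaehlerDifferential.D k⟮f⟯ K a = 0 := by
    intro a
    obtain ⟨b, hb⟩ := Submodule.mem_span_singleton.1 (span_dx hx (KaehlerDifferential.D k K a))
    rw [← hl, ← hb, map_smul, hl, hxz, smul_zero]
  have hsub : Subsingleton (Ω[K⁄k⟮f⟯]) := by
    refine subsingleton_of_forall_eq 0 fun ω => ?_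
    have hω : ω ∈ Submodule.span K (Set.range (KaehlerDifferential.D k⟮f⟯ K)) := by
      rw [KaehlerDifferential.span_range_derivation]; trivial
    have : Submodule.span K (Set.range (KaehlerDifferential.D k⟮f⟯ K)) ≤ ⊥ := by
      rw [Submodule.span_le]
      rintro _ ⟨a, rfl⟩
      exact hall a
    exact this hω
  have hun : Algebra.FormallyUnramified k⟮f⟯ K :=
    ⟨hsub⟩
  have hsep : Algebra.IsSeparable k⟮f⟯ K := (Algebra.FormallyUnramified.iff_isSeparable k⟮f⟯ K).1 hun
  refine ⟨?_, hsep⟩
  intro halg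
  apply not_isAlgebraic (k := k) (K := K)
  have h7 : Algebra.IsAlgebraic k k⟮f⟯ := IntermediateField.isAlgebraic_adjoin_simple halg.isIntegral
  have h8 : Algebra.IsAlgebraic k⟮f⟯ K := inferInstance
  exact Algebra.IsAlgebraic.trans k k⟮f⟯ K

theorem D_ne_zero_of_sep [PerfectField k] [h : IsFF k K] {x : K} (hx : Sep k x) :
    KaehlerDifferential.D k K x ≠ 0 := by
  intro h0
  have hess := h.ess
  have hsub : Subsingleton (Ω[K⁄k]) := by
    refine subsingleton_of_forall_eq 0 fun ω => ?_
    obtain ⟨b, hb⟩ := Submodule.mem_span_singleton.1 (span_dx hx ω)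
    rw [← hb, h0, smul_zero]
  have hun : Algebra.FormallyUnramified k K :=
    ⟨hsub⟩
  have hess := h.ess
  apply not_isAlgebraic (k := k) (K := K)
  -- `K/k` is finite
  have hfin : FiniteDimensional k K := Algebra.FormallyUnramified.finite_of_free k K
  infer_instance

theorem sep_mul [PerfectField k] [h : IsFF k K] {x f : K} (hx : Sep k x) (hf0 : f ≠ 0) (hf : ¬ Sep k f) :
    Sep k (f * x) := by
  apply sep_of_D_ne_zero
  have h1 : KaehlerDifferential.D k K f = 0 := by
    by_contra hc
    exact hf (sep_of_D_ne_zero hc)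
  rw [Derivation.leibniz, h1, smul_zero, add_zero]
  exact smul_ne_zero hf0 (D_ne_zero_of_sep hx)

theorem Sep.ne_zero {x : K} (hx : Sep k x) : x ≠ 0 := by
  rintro rfl
  exact hx.1 isAlgebraic_zero

theorem exists_sep_ord_ne [PerfectField k] [h : IsFF k K] (P : Place k K) : ∃ f : K, Sep k f ∧ P.ord f ≠ 0 := by
  obtain ⟨t, ht0, ht⟩ := P.surj
  obtain ⟨x, hx⟩ := exists_sep (k := k) (K := K)
  by_cases hs : Sep k t
  · exact ⟨t, hs, by omega⟩
  · by_cases h0 : P.ord x = 0
    · refine ⟨t * x, sep_mul hx ht0 hs, ?_⟩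
      rw [P.ord_mul ht0 hx.ne_zero]; omega
    · exact ⟨x, hx, h0⟩

theorem deg_pos [PerfectField k] [IsFF k K] (P : Place k K) : 0 < P.deg := by
  obtain ⟨f, hf, hne⟩ := exists_sep_ord_ne P
  rcases lt_or_gt_of_ne hne with h | h
  · have h1 : Sep k f⁻¹ := ⟨fun hh => hf.1 (by simpa using hh.inv), by rw [FF.adjoin_inv]; exact hf.2⟩
    obtain ⟨S, hS, hS2, -⟩ := zeros_sep h1.1 h1.2
    exact hS2 P ((hS P).2 (by rw [P.ord_inv]; omega))
  · obtain ⟨S, hS, hS2, -⟩ := zeros_sep hf.1 hf.2
    exact hS2 P ((hS P).2 h)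

instance [PerfectField k] [IsFF k K] (P : Place k K) : FiniteDimensional k P.RF :=
  FiniteDimensional.of_finrank_pos (deg_pos P)

end FFP
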