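import Mathlib

/-!
The free nilpotent group of class two on three generators with coefficients in a commutative
ring `R`, in coordinates `(a, b, c; p, q, r)`.
-/

universe u

namespace Pool.Agent.H707R3

/-- Points of the free class two nilpotent group on three generators over `R`. -/
@[ext] structure FN (R : Type u) where
  a : R
  b : R
  c : R
  p : R
  q : R
  r : R

namespace FN

variable {R : Type u} [CommRing R]

instance : Mul (FN R) :=
  ⟨fun x y => ⟨x.a + y.a, x.b + y.b, x.c + y.c, x.p + y.p + x.a * y.b, x.q + y.q + x.a * y.c,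
    x.r + y.r + x.b * y.c⟩⟩

instance : One (FN R) := ⟨⟨0, 0, 0, 0, 0, 0⟩⟩

instance : Inv (FN R) :=
  ⟨fun x => ⟨-x.a, -x.b, -x.c, -x.p + x.a * x.b, -x.q + x.a * x.c, -x.r + x.b * x.c⟩⟩

@[simp] lemma mul_a (x y : FN R) : (x * y).a = x.a + y.a := rfl
@[simp] lemma mul_b (x y : FN R) : (x * y).b = x.b + y.b := rfl
@[simp] lemma mul_c (x y : FN R) : (x * y).c = x.c + y.c := rfl
@[simp] lemma mul_p (x y : FN R) : (x * y).p = x.p + y.p + x.a * y.b := rfl
@[simp] lemma mul_q (x y : FN R) : (x * y).q = x.q + y.q + x.a * y.c := rfl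
@[simp] lemma mul_r (x y : FN R) : (x * y).r = x.r + y.r + x.b * y.c := rfl
@[simp] lemma one_a : (1 : FN R).a = 0 := rfl
@[simp] lemma one_b : (1 : FN R).b = 0 := rfl
@[simp] lemma one_c : (1 : FN R).c = 0 := rfl
@[simp] lemma one_p : (1 : FN R).p = 0 := rfl
@[simp] lemma one_q : (1 : FN R).q = 0 := rfl
@[simp] lemma one_r : (1 : FN R).r = 0 := rfl
@[simp] lemma inv_a (x : FN R) : (x⁻¹).a = -x.a := rfl
@[simp] lemma inv_b (x : FN R) : (x⁻¹).b = -x.b := rfl
@[simp] lemma inv_c (x : FN R) : (x⁻¹).c = -x.c := rfl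
@[simp] lemma inv_p (x : FN R) : (x⁻¹).p = -x.p + x.a * x.b := rfl
@[simp] lemma inv_q (x : FN R) : (x⁻¹).q = -x.q + x.a * x.c := rfl
@[simp] lemma inv_r (x : FN R) : (x⁻¹).r = -x.r + x.b * x.c := rfl

instance : Group (FN R) where
  mul_assoc x y z := by ext <;> simp <;> ring
  one_mul x := by ext <;> simp
  mul_one x := by ext <;> simp
  inv_mul_cancel x := by ext <;> simp

/-- Functoriality in the coefficient ring. -/
@[simps] def map {S : Type u} [CommRing S] (f : R →+* S) : FN R →* FN S where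
  toFun x := ⟨f x.a, f x.b, f x.c, f x.p, f x.q, f x.r⟩
  map_one' := by ext <;> simp
  map_mul' x y := by ext <;> simp

/-- The subgroup `b = c = 0`. -/
def sub (R : Type u) [CommRing R] : Subgroup (FN R) where
  carrier := {x | x.b = 0 ∧ x.c = 0}
  mul_mem' := by
    rintro x y ⟨h1, h2⟩ ⟨h3, h4⟩
    exact ⟨by simp [h1, h3], by simp [h2, h4]⟩
  one_mem' := ⟨rfl, rfl⟩
  inv_mem' := by
    rintro x ⟨h1, h2⟩
    exact ⟨by simp [h1], by simp [h2]⟩

lemma mem_sub {x : FN R} : x ∈ sub R ↔ x.b = 0 ∧ x.c = 0 := Iff.rfl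

lemma sub_comm {x y : FN R} (hx : x ∈ sub R) (hy : y ∈ sub R) : x * y = y * x := by
  obtain ⟨h1, h2⟩ := hx
  obtain ⟨h3, h4⟩ := hy
  ext <;> simp [h1, h2, h3, h4] <;> ring

/-- The first generator. -/
def e₁ : FN R := ⟨1, 0, 0, 0, 0, 0⟩

lemma e₁_mem : (e₁ : FN R) ∈ sub R := ⟨rfl, rfl⟩

/-- An element commuting with the first generator lies in `sub`. -/
lemma mem_sub_of_comm {x : FN R} (h : e₁ * x = x * e₁) : x ∈ sub R := by
  have h1 := congrArg FN.p h
  have h2 := congrArg FN.q h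
  simp [e₁] at h1 h2
  exact ⟨h1, h2⟩

lemma sub_normal {x h : FN R} (hh : h ∈ sub R) : x * h * x⁻¹ ∈ sub R := by
  obtain ⟨h1, h2⟩ := hh
  exact ⟨by simp [h1], by simp [h2]⟩

/-- The subgroup `sub` has no complement. -/
lemma no_complement [Nontrivial R] (L : Subgroup (FN R))
    (h1 : ∀ g : FN R, ∃ h ∈ sub R, ∃ k ∈ L, g = h * k)
    (h2 : ∀ k ∈ L, k ∈ sub R → k = 1) : False := by
  obtain ⟨x, hx, k, hk, e⟩ := h1 ⟨0, 1, 0, 0, 0, 0⟩
  obtain ⟨y, hy, l, hl, e'⟩ := h1 ⟨0, 0, 1, 0, 0, 0⟩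
  have hkb : k.b = 1 := by
    have := congrArg FN.b e
    simp [hx.1] at this
    exact this.symm
  have hkc : k.c = 0 := by
    have := congrArg FN.c e
    simp [hx.2] at this
    exact this.symm
  have hlb : l.b = 0 := by
    have := congrArg FN.b e'
    simp [hy.1] at this
    exact this.symm
  have hlc : l.c = 1 := by
    have := congrArg FN.c e'
    simp [hy.2] at this
    exact this.symm
  have hc : k * l * k⁻¹ * l⁻¹ ∈ L :=
    L.mul_mem (L.mul_mem (L.mul_mem hk hl) (L.inv_mem hk)) (L.inv_mem hl)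
  have := h2 _ hc ⟨by simp, by simp⟩
  have := congrArg FN.r this
  simp [hkb, hkc, hlb, hlc] at this
  exact one_ne_zero (α := R) (by linear_combination this)

end FN

end Pool.Agent.H707R3
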