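import Mathlib
import Pool.Agent.H707R3.FreeNil

/-!
The free class two nilpotent group on three generators as a group scheme, with underlying scheme
affine six-space.
-/

universe u

open CategoryTheory AlgebraicGeometry MonoidalCategory CartesianMonoidalCategory MonObj Opposite

namespace Pool.Agent.H707R3

open FN

/-- The functor of points. -/
def fnFunctor (S : Scheme.{u}) : (Over S)ᵒᵖ ⥤ GrpCat.{u} where
  obj T := GrpCat.of (FN Γ(T.unop.left, ⊤))
  map φ := GrpCat.ofHom (FN.map φ.unop.left.appTop.hom)
  map_id T := by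
    ext x <;> simp
  map_comp f g := by
    ext x <;> simp <;> rfl

/-- Index type of the six coordinates. -/
abbrev Six : Type u := ULift.{u} (Fin 6)

/-- Affine six-space over `S`. -/
noncomputable def A6 (S : Scheme.{u}) : Over S := Over.mk (𝔸(Six.{u}; S) ↘ S)

open AffineSpace

/-- Coordinates vector of an element of `FN`. -/
def toVec {R : Type u} (x : FN R) : Six.{u} → R := fun i => ![x.a, x.b, x.c, x.p, x.q, x.r] i.down

/-- The point with coordinates the pullbacks of the coordinate functions. -/
noncomputable def ofHom' {S : Scheme.{u}} {T : Over S} (f : T ⟶ A6 S) : FN Γ(T.left, ⊤) :=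
  ⟨f.left.appTop (coord S ⟨0⟩), f.left.appTop (coord S ⟨1⟩),
        f.left.appTop (coord S ⟨2⟩), f.left.appTop (coord S ⟨3⟩),
        f.left.appTop (coord S ⟨4⟩), f.left.appTop (coord S ⟨5⟩)⟩

/-- The morphism with given coordinates. -/
noncomputable def toHom' {S : Scheme.{u}} {T : Over S} (x : FN Γ(T.left, ⊤)) : T ⟶ A6 S :=
  Over.homMk (homOfVector T.hom (toVec x)) (homOfVector_over _ _)

lemma toHom'_ofHom' {S : Scheme.{u}} {T : Over S} (f : T ⟶ A6 S) : toHom' (ofHom' f) = f := by
  ext1
  apply AffineSpace.hom_ext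
  · exact (homOfVector_over _ _).trans (Over.w f).symm
  · rintro ⟨i⟩
    refine (homOfVector_appTop_coord _ _ _).trans ?_
    fin_cases i <;> rfl

lemma ofHom'_toHom' {S : Scheme.{u}} {T : Over S} (x : FN Γ(T.left, ⊤)) :
    ofHom' (toHom' (S := S) x) = x := by
  apply FN.ext <;> exact (homOfVector_appTop_coord _ _ _)

/-- The affine space represents the functor of points. -/
noncomputable def fnRep (S : Scheme.{u}) :
    (fnFunctor S ⋙ forget _).RepresentableBy (A6 S) where
  homEquiv {T} :=
    { toFun := fun f => ofHom' f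
      invFun := fun x => toHom' x
      left_inv := toHom'_ofHom'
      right_inv := ofHom'_toHom' }
  homEquiv_comp f g := by
    apply FN.ext <;> rfl

/-- The group scheme structure on affine six-space. -/
noncomputable instance fnGrp (S : Scheme.{u}) : GrpObj (A6 S) :=
  GrpObj.ofRepresentableBy (A6 S) (fnFunctor S) (fnRep S)

lemma ofHom'_mul {S : Scheme.{u}} {T : Over S} (f g : T ⟶ A6 S) :
    ofHom' (f * g) = ofHom' f * ofHom' g :=
  ((yonedaGrpObjIsoOfRepresentableBy (A6 S) (fnFunctor S) (fnRep S)).hom.app (op T)).hom.map_mul f g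

lemma ofHom'_inj {S : Scheme.{u}} {T : Over S} {f g : T ⟶ A6 S} (h : ofHom' f = ofHom' g) :
    f = g := by
  rw [← toHom'_ofHom' f, ← toHom'_ofHom' g, h]

/-- The group of `T`-points. -/
noncomputable def ptEquiv {S : Scheme.{u}} (T : Over S) : (T ⟶ A6 S) ≃* FN Γ(T.left, ⊤) where
  toFun := ofHom'
  invFun := toHom'
  left_inv := toHom'_ofHom'
  right_inv := ofHom'_toHom'
  map_mul' := ofHom'_mul

end Pool.Agent.H707R3
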