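import Mathlib

/-!
The elements killed by a power of `φ - 1`, for an endomorphism `φ` of a commutative ring, form a
subring.
-/

namespace Pool.Agent.H707R3

variable {A : Type*} [CommRing A] (φ : A →+* A)

/-- The operator `φ - 1`. -/
def dOp : A →+ A := (φ : A →+ A) - AddMonoidHom.id A

lemma dOp_apply (f : A) : dOp φ f = φ f - f := rfl

lemma dOp_iter_zero (n : ℕ) : (dOp φ)^[n] 0 = 0 := by
  induction n with
  | zero => rfl
  | succ n ih => rw [Function.iterate_succ_apply, map_zero, ih]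

lemma dOp_iter_of_le {m n : ℕ} (h : m ≤ n) {f : A} (hf : (dOp φ)^[m] f = 0) :
    (dOp φ)^[n] f = 0 := by
  obtain ⟨k, rfl⟩ := Nat.exists_eq_add_of_le h
  rw [add_comm, Function.iterate_add_apply, hf, dOp_iter_zero]

lemma dOp_iter_mul (s : ℕ) : ∀ (a b : ℕ) (f g : A), a + b = s → (dOp φ)^[a] f = 0 →
    (dOp φ)^[b] g = 0 → (dOp φ)^[a + b] (f * g) = 0 := by
  induction s using Nat.strong_induction_on with
  | _ s ih =>
    intro a b f g hs hf hg
    rcases Nat.eq_zero_or_pos a with rfl | ha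
    · simp only [Function.iterate_zero, id_eq] at hf
      rw [hf, zero_mul, dOp_iter_zero]
    rcases Nat.eq_zero_or_pos b with rfl | hb
    · simp only [Function.iterate_zero, id_eq] at hg
      rw [hg, mul_zero, dOp_iter_zero]
    obtain ⟨a, rfl⟩ : ∃ a', a = a' + 1 := ⟨a - 1, by omega⟩
    obtain ⟨b, rfl⟩ : ∃ b', b = b' + 1 := ⟨b - 1, by omega⟩
    have e : dOp φ (f * g) = dOp φ f * g + f * dOp φ g + dOp φ f * dOp φ g := by
      simp only [dOp_apply, map_mul]
      ring
    have e2 : a + 1 + (b + 1) = (a + b + 1) + 1 := by ring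
    have hf' : (dOp φ)^[a] (dOp φ f) = 0 := by rwa [← Function.iterate_succ_apply]
    have hg' : (dOp φ)^[b] (dOp φ g) = 0 := by rwa [← Function.iterate_succ_apply]
    rw [e2, Function.iterate_succ_apply, e, iterate_map_add, iterate_map_add]
    have h1 : (dOp φ)^[a + b + 1] (dOp φ f * g) = 0 := by
      have := ih (a + (b + 1)) (by omega) a (b + 1) (dOp φ f) g rfl hf' hg
      exact this
    have h2 : (dOp φ)^[a + b + 1] (f * dOp φ g) = 0 := by
      have := ih (a + 1 + b) (by omega) (a + 1) b f (dOp φ g) rfl hf hg'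
      have e3 : a + b + 1 = a + 1 + b := by ring
      rw [e3]
      exact this
    have h3 : (dOp φ)^[a + b + 1] (dOp φ f * dOp φ g) = 0 := by
      have := ih (a + b) (by omega) a b (dOp φ f) (dOp φ g) rfl hf' hg'
      exact dOp_iter_of_le φ (by omega) this
    rw [h1, h2, h3]
    simp

/-- The subring of locally unipotent elements. -/
def locUnip : Subring A where
  carrier := {f | ∃ n, (dOp φ)^[n] f = 0}
  mul_mem' := by
    rintro f g ⟨a, hf⟩ ⟨b, hg⟩
    exact ⟨a + b, dOp_iter_mul φ _ a b f g rfl hf hg⟩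
  one_mem' := ⟨1, by simp [dOp_apply]⟩
  add_mem' := by
    rintro f g ⟨a, hf⟩ ⟨b, hg⟩
    refine ⟨a + b, ?_⟩
    rw [iterate_map_add, dOp_iter_of_le φ (by omega) hf, dOp_iter_of_le φ (by omega) hg, add_zero]
  zero_mem' := ⟨0, rfl⟩
  neg_mem' := by
    rintro f ⟨a, hf⟩
    exact ⟨a, by rw [iterate_map_neg, hf, neg_zero]⟩

lemma mem_locUnip {f : A} : f ∈ locUnip φ ↔ ∃ n, (dOp φ)^[n] f = 0 := Iff.rfl

lemma mem_locUnip_of_fix {f : A} (h : φ f = f) : f ∈ locUnip φ :=
  ⟨1, by simp [dOp_apply, h]⟩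

lemma mem_locUnip_of_d {f : A} (h : φ f - f ∈ locUnip φ) : f ∈ locUnip φ := by
  obtain ⟨n, hn⟩ := h
  exact ⟨n + 1, by rw [Function.iterate_succ_apply]; exact hn⟩

end Pool.Agent.H707R3
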