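import Mathlib

/-!
Definitions for actions of linear algebraic groups on varieties over a field `K`.
-/

universe u

open CategoryTheory AlgebraicGeometry MonoidalCategory CartesianMonoidalCategory MonObj

namespace Pool.Agent.H707R3

variable {K : Type u} [Field K]

/-- `K`-rational points of a `K`-scheme. -/
abbrev Pt (X : Over (Spec (.of K))) : Type u := 𝟙_ (Over (Spec (.of K))) ⟶ X

/-- The underlying point of the topological space of a `K`-rational point. -/
noncomputable def Pt.point {X : Over (Spec (.of K))} (x : Pt X) : X.left :=
  x.left (IsLocalRing.closedPoint K)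

/-- A linear algebraic group over `K`: a group scheme which is affine, reduced and of finite type
over `K`. -/
structure IsLinearAlgebraicGroup (G : Over (Spec (.of K))) [GrpObj G] : Prop where
  affine : IsAffine G.left
  finiteType : LocallyOfFiniteType G.hom
  reduced : IsReduced G.left

/-- An irreducible algebraic variety over `K`: an integral separated scheme of finite type. -/
structure IsIrreducibleVariety (X : Over (Spec (.of K))) : Prop where
  integral : IsIntegral X.left
  separated : IsSeparated X.hom
  locallyOfFiniteType : LocallyOfFiniteType X.hom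
  quasiCompact : QuasiCompact X.hom

/-- The action of a `K`-point of `G` on the `K`-points of a `G`-scheme `X`. -/
noncomputable def act {G X : Over (Spec (.of K))} [GrpObj G] [ModObj G X] (g : Pt G) (x : Pt X) :
    Pt X :=
  lift g x ≫ γ[G, X]

/-- The action is effective: only the identity of `G` acts trivially. -/
def IsEffective (G X : Over (Spec (.of K))) [GrpObj G] [ModObj G X] : Prop :=
  ∀ g : Pt G, (∀ x : Pt X, act g x = x) → g = 1

/-- The subgroup `H` of `G(K)` has an open orbit on `X`: for some point `x` the orbit `H x` is the
set of `K`-points of an open subset of `X`. -/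
def HasOpenOrbit {G : Over (Spec (.of K))} [GrpObj G] (H : Subgroup (Pt G))
    (X : Over (Spec (.of K))) [ModObj G X] : Prop :=
  ∃ x : Pt X, ∃ U : X.left.Opens, ∀ y : Pt X, y.point ∈ U ↔ ∃ h ∈ H, act h x = y

/-- The subgroup `H` of `G(K)` is maximal among the commutative subgroups of `G(K)`. -/
def IsMaximalCommutative {G : Type u} [Group G] (H : Subgroup G) : Prop :=
  (∀ a ∈ H, ∀ b ∈ H, a * b = b * a) ∧
    ∀ H' : Subgroup G, (∀ a ∈ H', ∀ b ∈ H', a * b = b * a) → H ≤ H' → H' = H

/-- The endomorphism of the coordinate ring of `G` given by right translation by `g`. -/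
noncomputable def translate {G : Over (Spec (.of K))} [GrpObj G] (g : Pt G) :
    Γ(G.left, ⊤) →+* Γ(G.left, ⊤) :=
  (GrpObj.mulRight g).hom.left.appTop.hom

/-- A point `g` of `G(K)` is unipotent: right translation by `g` is locally unipotent on the
coordinate ring, that is, every regular function is killed by a power of `translate g - 1`. -/
def IsUnipotentPt {G : Over (Spec (.of K))} [GrpObj G] (g : Pt G) : Prop :=
  ∀ f : Γ(G.left, ⊤), ∃ n : ℕ, (fun f => translate g f - f)^[n] f = 0

end Pool.Agent.H707R3
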