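import Mathlib
import Pool.Agent.H707R3.GrpScheme
import Pool.Agent.H707R3.OpenOrbitDefs
import Pool.Agent.H707R3.LocUnip

/-!
All points of the free class two nilpotent group scheme are unipotent.
-/

universe u

open CategoryTheory AlgebraicGeometry MonoidalCategory CartesianMonoidalCategory MonObj Opposite
open AlgebraicGeometry.AffineSpace

namespace Pool.Agent.H707R3

variable {K : Type u} [Field K]

/-- The group scheme. -/
noncomputable abbrev GK (K : Type u) [Field K] : Over (Spec (.of K)) := A6 (Spec (.of K))

/-- Constants. -/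
noncomputable def cst (K : Type u) [Field K] : Γ(Spec (.of K), ⊤) →+* Γ((GK K).left, ⊤) :=
  ((GK K).hom.appTop).hom

lemma translate_cst (g : Pt (GK K)) (r : Γ(Spec (.of K), ⊤)) :
    translate g (cst K r) = cst K r := by
  have h := Over.w (GrpObj.mulRight g).hom
  have h2 := congrArg (fun f : (GK K).left ⟶ Spec (.of K) => f.appTop.hom r) h
  exact h2

/-- The coordinates of the universal point. -/
noncomputable def uni (K : Type u) [Field K] : FN Γ((GK K).left, ⊤) := ofHom' (𝟙 (GK K))

lemma ofHom'_mulRight (g : Pt (GK K)) :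
    ofHom' (GrpObj.mulRight g).hom = uni K * FN.map (cst K) (ofHom' g) := by
  have h : (GrpObj.mulRight g).hom = 𝟙 (GK K) * (toUnit (GK K) ≫ g) := by
    rw [GrpObj.mulRight_hom, Hom.mul_def]
  rw [h, ofHom'_mul]
  rfl

lemma map_translate_uni (g : Pt (GK K)) :
    FN.map (translate g) (uni K) = uni K * FN.map (cst K) (ofHom' g) := by
  rw [← ofHom'_mulRight]
  rfl

lemma cst_mem (g : Pt (GK K)) (r : Γ(Spec (.of K), ⊤)) : cst K r ∈ locUnip (translate g) :=
  mem_locUnip_of_fix _ (translate_cst g r)

lemma a_mem (g : Pt (GK K)) : (uni K).a ∈ locUnip (translate g) := by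
  have h := congrArg FN.a (map_translate_uni g)
  refine mem_locUnip_of_d _ ?_
  have e : translate g (uni K).a - (uni K).a = cst K (ofHom' g).a := by
    have : translate g (uni K).a = (uni K).a + cst K (ofHom' g).a := h
    rw [this]; ring
  rw [e]
  exact cst_mem g _

lemma b_mem (g : Pt (GK K)) : (uni K).b ∈ locUnip (translate g) := by
  have h := congrArg FN.b (map_translate_uni g)
  refine mem_locUnip_of_d _ ?_
  have e : translate g (uni K).b - (uni K).b = cst K (ofHom' g).b := by
    have : translate g (uni K).b = (uni K).b + cst K (ofHom' g).b := h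
    rw [this]; ring
  rw [e]
  exact cst_mem g _

lemma c_mem (g : Pt (GK K)) : (uni K).c ∈ locUnip (translate g) := by
  have h := congrArg FN.c (map_translate_uni g)
  refine mem_locUnip_of_d _ ?_
  have e : translate g (uni K).c - (uni K).c = cst K (ofHom' g).c := by
    have : translate g (uni K).c = (uni K).c + cst K (ofHom' g).c := h
    rw [this]; ring
  rw [e]
  exact cst_mem g _

lemma p_mem (g : Pt (GK K)) : (uni K).p ∈ locUnip (translate g) := by
  have h := congrArg FN.p (map_translate_uni g)
  refine mem_locUnip_of_d _ ?_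
  have e : translate g (uni K).p - (uni K).p =
      cst K (ofHom' g).p + (uni K).a * cst K (ofHom' g).b := by
    have : translate g (uni K).p = (uni K).p + cst K (ofHom' g).p +
      (uni K).a * cst K (ofHom' g).b := h
    rw [this]; ring
  rw [e]
  exact add_mem (cst_mem g _) (mul_mem (a_mem g) (cst_mem g _))

lemma q_mem (g : Pt (GK K)) : (uni K).q ∈ locUnip (translate g) := by
  have h := congrArg FN.q (map_translate_uni g)
  refine mem_locUnip_of_d _ ?_
  have e : translate g (uni K).q - (uni K).q =
      cst K (ofHom' g).q + (uni K).a * cst K (ofHom' g).c := by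
    have : translate g (uni K).q = (uni K).q + cst K (ofHom' g).q +
      (uni K).a * cst K (ofHom' g).c := h
    rw [this]; ring
  rw [e]
  exact add_mem (cst_mem g _) (mul_mem (a_mem g) (cst_mem g _))

lemma r_mem (g : Pt (GK K)) : (uni K).r ∈ locUnip (translate g) := by
  have h := congrArg FN.r (map_translate_uni g)
  refine mem_locUnip_of_d _ ?_
  have e : translate g (uni K).r - (uni K).r =
      cst K (ofHom' g).r + (uni K).b * cst K (ofHom' g).c := by
    have : translate g (uni K).r = (uni K).r + cst K (ofHom' g).r +
      (uni K).b * cst K (ofHom' g).c := h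
    rw [this]; ring
  rw [e]
  exact add_mem (cst_mem g _) (mul_mem (b_mem g) (cst_mem g _))

lemma coord_mem (g : Pt (GK K)) (i : Six.{u}) :
    (coord (Spec (.of K)) i : Γ((GK K).left, ⊤)) ∈ locUnip (translate g) := by
  obtain ⟨i⟩ := i
  fin_cases i
  · exact a_mem g
  · exact b_mem g
  · exact c_mem g
  · exact p_mem g
  · exact q_mem g
  · exact r_mem g

/-- The coordinate functions. -/
noncomputable def crd (K : Type u) [Field K] (i : Six.{u}) : Γ((GK K).left, ⊤) :=
  coord (Spec (.of K)) i

/-- Evaluation of polynomials at the coordinate functions. -/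
noncomputable def evl (K : Type u) [Field K] :
    MvPolynomial Six.{u} Γ(Spec (.of K), ⊤) →+* Γ((GK K).left, ⊤) :=
  MvPolynomial.eval₂Hom (cst K) (crd K)

lemma evl_C (r : Γ(Spec (.of K), ⊤)) : evl K (MvPolynomial.C r) = cst K r :=
  MvPolynomial.eval₂_C _ _ _

lemma evl_X (i : Six.{u}) : evl K (MvPolynomial.X i) = crd K i :=
  MvPolynomial.eval₂_X _ _ _

lemma isIso_appTop {X Y : Scheme.{u}} (f : X ≅ Y) : IsIso f.hom.appTop :=
  (inferInstance : IsIso (f.hom.app ⊤))

/-- Every regular function is a polynomial in the coordinates. -/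
lemma evl_surjective : Function.Surjective (evl K) := by
  have h := isoOfIsAffine_hom_appTop (n := Six.{u}) (S := Spec (.of K))
  have hi : IsIso (isoOfIsAffine Six.{u} (Spec (.of K))).hom.appTop := isIso_appTop _
  have hb : Function.Bijective (isoOfIsAffine Six.{u} (Spec (.of K))).hom.appTop.hom :=
    (ConcreteCategory.isIso_iff_bijective
      (isoOfIsAffine Six.{u} (Spec (.of K))).hom.appTop).1 hi
  intro y
  obtain ⟨z, hz⟩ := hb.2 y
  rw [h] at hz
  exact ⟨_, hz⟩

theorem isUnipotentPt (g : Pt (GK K)) : IsUnipotentPt g := by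
  intro f
  obtain ⟨P, rfl⟩ := evl_surjective (K := K) f
  have : evl K P ∈ locUnip (translate g) := by
    induction P using MvPolynomial.induction_on with
    | C r =>
      rw [evl_C]
      exact cst_mem g r
    | add p q hp hq =>
      rw [map_add]
      exact add_mem hp hq
    | mul_X p i hp =>
      rw [map_mul]
      refine mul_mem hp ?_
      rw [evl_X]
      exact coord_mem g i
  exact this

end Pool.Agent.H707R3
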