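import Mathlib

/-!
Determinants on base changes of finite-dimensional subspaces.
-/

set_option linter.all false

open scoped TensorProduct

namespace Pool.Agent.H707R3

section exact

variable {R M' M M'' : Type*} [CommRing R] [AddCommGroup M'] [Module R M'] [AddCommGroup M] [Module R M]
  [AddCommGroup M''] [Module R M''] [Module.Free R M'] [Module.Finite R M'] [Module.Free R M'']
  [Module.Finite R M'']

theorem det_of_exact (i : M' →ₗ[R] M) (hi : Function.Injective i) (π : M →ₗ[R] M'')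
    (hπ : Function.Surjective π) (hex : ∀ x, π x = 0 ↔ ∃ y, i y = x)
    (f' : M' →ₗ[R] M') (f : M →ₗ[R] M) (f'' : M'' →ₗ[R] M'')
    (h1 : ∀ y, f (i y) = i (f' y)) (h2 : ∀ x, π (f x) = f'' (π x)) :
    LinearMap.det f = LinearMap.det f' * LinearMap.det f'' := by
  classical
  let N := LinearMap.range i
  have hN : N ≤ N.comap f := by rintro _ ⟨y, rfl⟩; exact ⟨f' y, (h1 y).symm⟩
  let e₁ : M' ≃ₗ[R] N := LinearEquiv.ofInjective i hi
  have hker : LinearMap.ker π = N := by ext x; simp [N, hex]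
  let e₂ : (M ⧸ N) ≃ₗ[R] M'' :=
    (Submodule.quotEquivOfEq _ _ hker.symm).trans (π.quotKerEquivOfSurjective hπ)
  haveI : Module.Free R N := Module.Free.of_equiv e₁
  haveI : Module.Finite R N := Module.Finite.equiv e₁
  haveI : Module.Free R (M ⧸ N) := Module.Free.of_equiv e₂.symm
  haveI : Module.Finite R (M ⧸ N) := Module.Finite.equiv e₂.symm
  haveI : Module.Finite R M := Module.Finite.of_submodule_quotient N
  haveI : Module.Free R M := by
    let m := Module.Free.ChooseBasisIndex R N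
    exact Module.Free.of_basis (Module.Basis.sumQuot (Module.Free.chooseBasis R N) (Module.Free.chooseBasis R (M ⧸ N)))
  rw [LinearMap.det_eq_det_mul_det N f hN]
  congr 1
  · rw [← LinearMap.det_conj f' e₁]
    congr 1
    apply LinearMap.ext
    intro x
    obtain ⟨y, rfl⟩ := e₁.surjective x
    apply Subtype.ext
    simp only [LinearMap.comp_apply, LinearEquiv.coe_coe, LinearEquiv.symm_apply_apply,
      LinearMap.restrict_coe_apply]
    exact h1 y
  · rw [← LinearMap.det_conj (N.mapQ N f hN) e₂]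
    congr 1
    apply LinearMap.ext
    intro x
    obtain ⟨y, rfl⟩ := hπ x
    have he : ∀ y, e₂ (Submodule.Quotient.mk y) = π y := fun y => rfl
    rw [← he, LinearMap.comp_apply, LinearMap.comp_apply, LinearEquiv.coe_coe, LinearEquiv.coe_coe,
      LinearEquiv.symm_apply_apply, Submodule.mapQ_apply, he, he, h2]

end exact

section coords

variable {k Λ F : Type*} [Field k] [CommRing Λ] [Algebra k Λ] [AddCommGroup F] [Module k F]
  {ι : Type*} [Fintype ι] (b : Module.Basis ι k Λ)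

lemma exists_coords (x : Λ ⊗[k] F) : ∃ v : ι → F, x = ∑ i, b i ⊗ₜ[k] v i := by
  classical
  obtain ⟨c, hc⟩ := TensorProduct.eq_repr_basis_left b x
  refine ⟨c, ?_⟩
  rw [← hc, Finsupp.sum_fintype _ _ (by simp)]

lemma coords_zero {v : ι → F} (h : ∑ i, b i ⊗ₜ[k] v i = 0) : ∀ i, v i = 0 := by
  classical
  have := TensorProduct.sum_tmul_basis_left_eq_zero b (Finsupp.equivFunOnFinite.symm v)
    (by rw [Finsupp.sum_fintype _ _ (by simp)]; simpa using h)
  intro i
  exact DFunLike.congr_fun this i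

lemma coords_inj {v w : ι → F} (h : ∑ i, b i ⊗ₜ[k] v i = ∑ i, b i ⊗ₜ[k] w i) : ∀ i, v i = w i := by
  intro i
  refine sub_eq_zero.1 (coords_zero b (v := fun i => v i - w i) ?_ i)
  simp only [TensorProduct.tmul_sub, Finset.sum_sub_distrib, h, sub_self]

lemma mem_bc {V : Submodule k F} {x : Λ ⊗[k] F} :
    x ∈ V.baseChange Λ ↔ ∃ v : ι → F, (∀ i, v i ∈ V) ∧ x = ∑ i, b i ⊗ₜ[k] v i := by
  constructor
  · intro hx
    obtain ⟨y, rfl⟩ := Submodule.toBaseChange_surjective' Λ V hx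
    obtain ⟨v, rfl⟩ := exists_coords b y
    exact ⟨fun i => v i, fun i => (v i).2, by simp⟩
  · rintro ⟨v, hv, rfl⟩
    exact Submodule.sum_mem _ fun i _ => Submodule.tmul_mem_baseChange_of_mem _ (hv i)

lemma mem_bc' {V : Submodule k F} {v : ι → F} :
    ∑ i, b i ⊗ₜ[k] v i ∈ V.baseChange Λ ↔ ∀ i, v i ∈ V := by
  rw [mem_bc b]
  constructor
  · rintro ⟨w, hw, h⟩ i
    rw [coords_inj b h i]; exact hw i
  · intro h; exact ⟨v, h, rfl⟩

variable {κ : Type*} [AddCommGroup κ] [Module k κ]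

lemma bc_map (Λ : Type*) [CommRing Λ] [Algebra k Λ] {V : Submodule k F} {V' : Submodule k κ}
    (f : F →ₗ[k] κ) (hf : ∀ x ∈ V, f x ∈ V') {x : Λ ⊗[k] F} (hx : x ∈ V.baseChange Λ) :
    f.baseChange Λ x ∈ V'.baseChange Λ := by
  obtain ⟨y, rfl⟩ := Submodule.toBaseChange_surjective' Λ V hx
  clear hx
  induction y using TensorProduct.induction_on with
  | zero => simp
  | tmul a y =>
    simp only [Submodule.coe_toBaseChange_tmul, LinearMap.baseChange_tmul]
    exact Submodule.tmul_mem_baseChange_of_mem _ (hf _ y.2)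
  | add x y hx hy =>
    simp only [map_add, Submodule.coe_add]
    exact Submodule.add_mem _ hx hy

lemma bc_congr (Λ : Type*) [CommRing Λ] [Algebra k Λ] {V : Submodule k F}
    (f g : F →ₗ[k] κ) (hf : ∀ x ∈ V, f x = g x) {x : Λ ⊗[k] F} (hx : x ∈ V.baseChange Λ) :
    f.baseChange Λ x = g.baseChange Λ x := by
  obtain ⟨y, rfl⟩ := Submodule.toBaseChange_surjective' Λ V hx
  clear hx
  induction y using TensorProduct.induction_on with
  | zero => simp
  | tmul a y => simp [hf _ y.2]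
  | add x y hx hy => simp only [map_add, Submodule.coe_add, hx, hy]

/-- The base change of a subspace is the tensor product. -/
noncomputable def bcEquiv (Λ : Type*) [CommRing Λ] [Algebra k Λ] (V : Submodule k F) :
    (Λ ⊗[k] V) ≃ₗ[Λ] V.baseChange Λ :=
  LinearEquiv.ofInjective (V.subtype.baseChange Λ) (by
    rw [LinearMap.baseChange_eq_ltensor]
    exact Module.Flat.lTensor_preserves_injective_linearMap _ V.injective_subtype)

instance (V : Submodule k F) : Module.Free Λ (V.baseChange Λ) := Module.Free.of_equiv (bcEquiv Λ V)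
instance (V : Submodule k F) [FiniteDimensional k V] : Module.Finite Λ (V.baseChange Λ) :=
  Module.Finite.equiv (bcEquiv Λ V)

/-- The determinant of an endomorphism on the base change of a subspace. -/
noncomputable def dt (V : Submodule k F) (X : (Λ ⊗[k] F) →ₗ[Λ] (Λ ⊗[k] F))
    (h : ∀ x ∈ V.baseChange Λ, X x ∈ V.baseChange Λ) : Λ :=
  LinearMap.det (M := V.baseChange Λ) (A := Λ) (X.restrict h)

lemma dt_congr {V : Submodule k F} {X Y : (Λ ⊗[k] F) →ₗ[Λ] (Λ ⊗[k] F)}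
    (h : ∀ x ∈ V.baseChange Λ, X x ∈ V.baseChange Λ) (h' : ∀ x ∈ V.baseChange Λ, Y x ∈ V.baseChange Λ)
    (he : ∀ x ∈ V.baseChange Λ, X x = Y x) : dt V X h = dt V Y h' := by
  unfold dt
  congr 1
  apply LinearMap.ext
  intro x
  exact Subtype.ext (he x x.2)

lemma dt_mul {V : Submodule k F} {X Y : (Λ ⊗[k] F) →ₗ[Λ] (Λ ⊗[k] F)}
    (h : ∀ x ∈ V.baseChange Λ, X x ∈ V.baseChange Λ) (h' : ∀ x ∈ V.baseChange Λ, Y x ∈ V.baseChange Λ) :
    dt V (X ∘ₗ Y) (fun x hx => h _ (h' _ hx)) = dt V X h * dt V Y h' := by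
  unfold dt
  rw [← LinearMap.det_comp]
  rfl

lemma dt_id {V : Submodule k F} :
    dt V (LinearMap.id : (Λ ⊗[k] F) →ₗ[Λ] (Λ ⊗[k] F)) (fun x hx => hx) = 1 := by
  unfold dt
  rw [← LinearMap.det_id (M := V.baseChange Λ)]
  rfl

include b in
/-- Multiplicativity in exact sequences. -/
theorem dt_exact {V' V : Submodule k F} [FiniteDimensional k V'] [FiniteDimensional k κ]
    (X : (Λ ⊗[k] F) →ₗ[Λ] (Λ ⊗[k] F))
    (h : ∀ x ∈ V.baseChange Λ, X x ∈ V.baseChange Λ) (h' : ∀ x ∈ V'.baseChange Λ, X x ∈ V'.baseChange Λ)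
    (hle : V' ≤ V) (ℓ : F →ₗ[k] κ) (hℓ : ∀ y, ∃ x ∈ V, ℓ x = y) (hker : ∀ x ∈ V, ℓ x = 0 ↔ x ∈ V')
    (f : (Λ ⊗[k] κ) →ₗ[Λ] (Λ ⊗[k] κ))
    (hf : ∀ x ∈ V.baseChange Λ, ℓ.baseChange Λ (X x) = f (ℓ.baseChange Λ x)) :
    dt V X h = dt V' X h' * LinearMap.det f := by
  classical
  unfold dt
  refine det_of_exact (Submodule.inclusion (Submodule.baseChange_mono Λ hle))
    (Submodule.inclusion_injective _) ((ℓ.baseChange Λ).comp (V.baseChange Λ).subtype :
      V.baseChange Λ →ₗ[Λ] (Λ ⊗[k] κ)) ?_ ?_ _ _ _ ?_ ?_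
  · intro y
    obtain ⟨y, rfl⟩ := exists_coords b y
    choose x hx hxy using fun i => hℓ (y i)
    refine ⟨⟨∑ i, b i ⊗ₜ[k] x i, (mem_bc' b).2 hx⟩, ?_⟩
    simp [hxy]
  · rintro ⟨x, hx⟩
    obtain ⟨v, hv, rfl⟩ := (mem_bc b).1 hx
    simp only [LinearMap.comp_apply, Submodule.subtype_apply, map_sum, LinearMap.baseChange_tmul]
    constructor
    · intro h0
      have := coords_zero b h0
      refine ⟨⟨∑ i, b i ⊗ₜ[k] v i, (mem_bc' b).2 fun i => (hker _ (hv i)).1 (this i)⟩, ?_⟩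
      rfl
    · rintro ⟨⟨y, hy⟩, h0⟩
      have h1 : y = ∑ i, b i ⊗ₜ[k] v i := congrArg Subtype.val h0
      rw [h1] at hy
      have := (mem_bc' b).1 hy
      refine Finset.sum_eq_zero fun i _ => ?_
      rw [(hker _ (hv i)).2 (this i), TensorProduct.tmul_zero]
  · intro y; rfl
  · intro x
    exact hf x x.2

include b in
/-- Unipotent perturbations do not change the determinant. -/
theorem dt_unip {V' V : Submodule k F} [FiniteDimensional k V]
    (Z : (Λ ⊗[k] F) →ₗ[Λ] (Λ ⊗[k] F)) (hle : V' ≤ V)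
    (h1 : ∀ x ∈ V.baseChange Λ, Z x ∈ V'.baseChange Λ) (h2 : ∀ x ∈ V'.baseChange Λ, Z x = 0)
    (h : ∀ x ∈ V.baseChange Λ, (LinearMap.id + Z : (Λ ⊗[k] F) →ₗ[Λ] (Λ ⊗[k] F)) x ∈ V.baseChange Λ) :
    dt V (LinearMap.id + Z) h = 1 := by
  classical
  haveI : FiniteDimensional k V' := Submodule.finiteDimensional_of_le hle
  haveI : FiniteDimensional k (V ⧸ V'.comap V.subtype) := inferInstance
  obtain ⟨ℓ, hℓ⟩ := LinearMap.exists_extend (V'.comap V.subtype).mkQ
  have hℓ' : ∀ x (hx : x ∈ V), ℓ x = (V'.comap V.subtype).mkQ ⟨x, hx⟩ := fun x hx =>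
    LinearMap.congr_fun hℓ ⟨x, hx⟩
  have hk : ∀ x ∈ V, ℓ x = 0 ↔ x ∈ V' := by
    intro x hx
    rw [hℓ' x hx, Submodule.mkQ_apply, Submodule.Quotient.mk_eq_zero]
    rfl
  have h3 : ∀ x ∈ V'.baseChange Λ, (LinearMap.id + Z : (Λ ⊗[k] F) →ₗ[Λ] (Λ ⊗[k] F)) x ∈ V'.baseChange Λ := by
    intro x hx
    rw [LinearMap.add_apply, h2 x hx, add_zero]; exact hx
  rw [dt_exact b (LinearMap.id + Z) h h3 hle ℓ ?_ hk LinearMap.id ?_, LinearMap.det_id, mul_one]
  · rw [← dt_id (k := k) (Λ := Λ) (V := V')]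
    apply dt_congr
    intro x hx
    rw [LinearMap.add_apply, h2 x hx, add_zero]
  · intro y
    obtain ⟨⟨x, hx⟩, rfl⟩ := Submodule.mkQ_surjective _ y
    exact ⟨x, hx, hℓ' x hx⟩
  · intro x hx
    rw [LinearMap.add_apply, map_add, LinearMap.id_apply, LinearMap.id_apply]
    obtain ⟨v, hv, h4⟩ := (mem_bc b).1 (h1 x hx)
    rw [h4]
    simp only [map_sum, LinearMap.baseChange_tmul]
    rw [Finset.sum_eq_zero (s := Finset.univ) (f := fun i => b i ⊗ₜ[k] ℓ (v i)), add_zero]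
    intro i _
    rw [(hk _ (hle (hv i))).2 (hv i), TensorProduct.tmul_zero]

/-- Transport of determinants. -/
theorem dt_transport {V V' : Submodule k F} (m : F ≃ₗ[k] F) (hm : ∀ x, x ∈ V ↔ m x ∈ V')
    (X X' : (Λ ⊗[k] F) →ₗ[Λ] (Λ ⊗[k] F))
    (h : ∀ x ∈ V.baseChange Λ, X x ∈ V.baseChange Λ)
    (h' : ∀ x ∈ V'.baseChange Λ, X' x ∈ V'.baseChange Λ)
    (he : ∀ x ∈ V.baseChange Λ, X' (m.toLinearMap.baseChange Λ x) = m.toLinearMap.baseChange Λ (X x)) :
    dt V' X' h' = dt V X h := by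
  classical
  unfold dt
  have hmap : V.map m.toLinearMap = V' := by
    ext y
    constructor
    · rintro ⟨x, hx, rfl⟩; exact (hm x).1 hx
    · intro hy
      refine ⟨m.symm y, ?_, by simp⟩
      exact (hm _).2 (by simpa using hy)
  let mΛ : (Λ ⊗[k] F) ≃ₗ[Λ] (Λ ⊗[k] F) := m.baseChange k Λ F F
  have hmΛ : ∀ x, mΛ x = m.toLinearMap.baseChange Λ x := fun x => rfl
  have hmapΛ : (V.baseChange Λ).map mΛ.toLinearMap = V'.baseChange Λ := by
    apply le_antisymm
    · rintro _ ⟨x, hx, rfl⟩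
      exact bc_map Λ m.toLinearMap (fun x hx => (hm x).1 hx) hx
    · intro y hy
      refine ⟨mΛ.symm y, ?_, by simp⟩
      have : mΛ.symm y = m.symm.toLinearMap.baseChange Λ y := by
        rw [LinearEquiv.symm_apply_eq, hmΛ, ← LinearMap.comp_apply, ← LinearMap.baseChange_comp]
        simp
      rw [this]
      exact bc_map Λ m.symm.toLinearMap (fun x hx => (hm _).2 (by simpa using hx)) hy
  let e : V.baseChange Λ ≃ₗ[Λ] V'.baseChange Λ :=
    (mΛ.submoduleMap (V.baseChange Λ)).trans (LinearEquiv.ofEq _ _ hmapΛ)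
  have he' : ∀ x : V.baseChange Λ, ((e x : V'.baseChange Λ) : Λ ⊗[k] F) = m.toLinearMap.baseChange Λ x :=
    fun x => rfl
  refine Eq.trans ?_ (LinearMap.det_conj (M := V.baseChange Λ) (N := V'.baseChange Λ) (A := Λ) (X.restrict h) e)
  congr 1
  apply LinearMap.ext
  intro x
  obtain ⟨y, rfl⟩ := e.surjective x
  apply Subtype.ext
  rw [LinearMap.comp_apply, LinearMap.comp_apply, LinearEquiv.coe_coe, LinearEquiv.coe_coe,
    LinearEquiv.symm_apply_apply, he', LinearMap.restrict_coe_apply, LinearMap.restrict_coe_apply,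
    he', he _ y.2]

lemma isUnit_det_aux {M : Type*} [AddCommGroup M] [Module Λ M] {ν : Λ} (hν : IsNilpotent ν)
    (Y : M →ₗ[Λ] M) : IsUnit (LinearMap.det (LinearMap.id + ν • Y)) := by
  apply LinearMap.isUnit_det
  have h2 : IsNilpotent (ν • (Y : Module.End Λ M)) := by
    obtain ⟨n, hn⟩ := hν
    exact ⟨n, by rw [smul_pow, hn, zero_smul]⟩
  exact h2.isUnit_one_add

/-- Unipotent-scalar endomorphisms have unit determinant. -/
theorem dt_isUnit {V : Submodule k F} {ν : Λ} (hν : IsNilpotent ν)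
    (X Y : (Λ ⊗[k] F) →ₗ[Λ] (Λ ⊗[k] F))
    (h : ∀ x ∈ V.baseChange Λ, X x ∈ V.baseChange Λ)
    (hY : ∀ x ∈ V.baseChange Λ, Y x ∈ V.baseChange Λ)
    (he : ∀ x ∈ V.baseChange Λ, X x = x + ν • Y x) : IsUnit (dt V X h) := by
  unfold dt
  have h1 : X.restrict h = LinearMap.id + ν • Y.restrict hY := by
    apply LinearMap.ext
    intro x
    apply Subtype.ext
    simp [he x x.2]
  rw [h1]
  exact isUnit_det_aux hν _

end coords

end Pool.Agent.H707R3
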