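import Pool.Agent.H707R3.EulerDiv

/-!
The Frobenius elements of a `ℤ_p`-tower are not proportional to the degrees.
-/

set_option linter.all false

open PowerSeries
open scoped PowerSeries.WithPiTopology

namespace Pool.Agent.H707R3

variable {p : ℕ} [Fact p.Prime]

lemma eval_one_sub_ne {q : ℕ} (hq : 2 ≤ q) {d : ℕ} (hd : d ≠ 0) :
    ((1 - Polynomial.X ^ d : Polynomial ℂ_[p])).eval (q : ℂ_[p])⁻¹ ≠ 0 := by
  have hq0 : (q : ℂ_[p]) ≠ 0 := by rw [Nat.cast_ne_zero]; omega
  rw [Polynomial.eval_sub, Polynomial.eval_one, Polynomial.eval_pow, Polynomial.eval_X, sub_ne_zero]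
  intro h
  have h1 : (q : ℂ_[p]) ^ d = 1 := by
    rw [inv_pow] at h
    exact inv_eq_one.1 h.symm
  have h2 : ((q ^ d : ℕ) : ℂ_[p]) = ((1 : ℕ) : ℂ_[p]) := by push_cast; exact h1
  have h3 := Nat.cast_injective h2
  have h4 : 1 < q ^ d := Nat.one_lt_pow hd (by omega)
  omega

section

variable {k F E : Type*} [Field k] [Finite k] [Field F] [Algebra k F]
  [Field E] [Algebra F E] [Algebra k E] [IsScalarTower k F E]
  (Φ : (E ≃ₐ[F] E) ≃* Multiplicative ℤ_[p])
  (hF : IsCurveFunctionField k F) (hE : ∀ a : E, IsAlgebraic k a → a ∈ (algebraMap k E).range)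
  (L : ℕ → IntermediateField F E) (hL : ∀ n, Module.finrank F (L n) = p ^ n)

include Φ hF hE hL in
lemma local_pol [IsGalois F E] (n : ℕ) (v : Place k F) : ∃ P : Polynomial ℂ_[p],
    localZeta p (L n) v * (P : PowerSeries ℂ_[p]) = 1 ∧ P.eval (Nat.card k : ℂ_[p])⁻¹ ≠ 0 := by
  classical
  haveI := finiteDimensional_layer L hL n
  have hcurve := curve_L (k := k) hF hE L hL n
  have hfin := finite_fiber Φ L hL n v
  have : Fintype {w : Place k (L n) // Above w v} := Fintype.ofFinite _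
  have hq : 2 ≤ Nat.card k := Finite.one_lt_card
  refine ⟨∏ w : {w : Place k (L n) // Above w v}, (1 - Polynomial.X ^ w.1.deg), ?_, ?_⟩
  · unfold localZeta
    rw [finprod_eq_prod_of_fintype]
    have h1 : ((∏ w : {w : Place k (L n) // Above w v}, (1 - Polynomial.X ^ w.1.deg) : Polynomial ℂ_[p]) :
        PowerSeries ℂ_[p]) = ∏ w : {w : Place k (L n) // Above w v}, (1 - X ^ w.1.deg) := by
      have h2 := map_prod (Polynomial.coeToPowerSeries.ringHom (R := ℂ_[p]))
        (fun w : {w : Place k (L n) // Above w v} => (1 - Polynomial.X ^ w.1.deg)) Finset.univ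
      simp only [Polynomial.coeToPowerSeries.ringHom_apply] at h2
      rw [h2]
      refine Finset.prod_congr rfl fun w _ => ?_
      simp
    rw [h1, ← Finset.prod_mul_distrib]
    refine Finset.prod_eq_one fun w _ => ?_
    have h3 := geom_pow_mul (p := p) (x := 1) (deg_ne_zero hcurve w.1)
    rwa [map_one, one_mul] at h3
  · rw [Polynomial.eval_prod, Finset.prod_ne_zero_iff]
    intro w _
    exact eval_one_sub_ne hq (deg_ne_zero hcurve w.1)

lemma res_eq_zero_of_dvd {b : ℤ_[p]} {n : ℕ} (h : (p : ℤ_[p]) ^ n ∣ b) : res n b = 0 := by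
  have h1 := (dvd_res_iff n b 1).2 (by simpa using h)
  rw [mul_one] at h1
  exact Nat.eq_zero_of_dvd_of_lt h1 (res_lt n b)

include hF hE hL in
theorem not_all_split [IsGalois F E] (hS : {v : Place k F | ¬ v.IsUnramified E}.Finite)
    (A : ℕ → Multiset ℂ_[p])
    (hA : ∀ n, zetaFun p k (L n) * ((1 - X) * (1 - C (Nat.card k : ℂ_[p]) * X)) = recipProd (A n)) :
    ∃ v : Place k F, v.IsUnramified E ∧ ¬ (p : ℤ_[p]) ∣ coord Φ (v.frob E) := by
  classical
  have hp : p.Prime := Fact.out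
  by_contra hcon
  push Not at hcon
  have : T2Space (PowerSeries ℂ_[p]) := WithPiTopology.instT2Space ℂ_[p]
  have hNe : NeZero ((p ^ 1 : ℕ) : ℂ_[p]) := ⟨by exact_mod_cast pow_ne_zero _ hp.ne_zero⟩
  obtain ⟨z, hz⟩ := HasEnoughRootsOfUnity.exists_primitiveRoot ℂ_[p] (p ^ 1)
  have h0 : ∀ v : Place k F, v.IsUnramified E → localZeta p (L 0) v * (1 - X ^ v.deg) = 1 := by
    intro v hv
    have h1 := localZeta_unram Φ hF hE L hL v hv 0 (ζ := 1) (by rw [pow_zero]; exact IsPrimitiveRoot.one)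
    simpa using h1
  have h1 : ∀ v : Place k F, v.IsUnramified E → localZeta p (L 1) v * (1 - X ^ v.deg) ^ p = 1 := by
    intro v hv
    have h2 := localZeta_unram Φ hF hE L hL v hv 1 hz
    have h3 : res 1 (coord Φ (v.frob E)) = 0 := res_eq_zero_of_dvd (by simpa using hcon v hv)
    simpa [h3] using h2
  have h2 : ∀ v : Place k F, v.IsUnramified E → localZeta p (L 1) v = localZeta p (L 0) v ^ p := by
    intro v hv
    calc localZeta p (L 1) v = localZeta p (L 1) v * (localZeta p (L 0) v * (1 - X ^ v.deg)) ^ p := by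
          rw [h0 v hv, one_pow, mul_one]
      _ = (localZeta p (L 1) v * (1 - X ^ v.deg) ^ p) * localZeta p (L 0) v ^ p := by rw [mul_pow]; ring
      _ = _ := by rw [h1 v hv, one_mul]
  have a0 := hasProd_localZeta (k := k) Φ hF hE L hL 0
  have a1 := hasProd_localZeta (k := k) Φ hF hE L hL 1
  have a0p : HasProd (fun v : Place k F => localZeta p (L 0) v ^ p) (zetaFun p k (L 0) ^ p) := by
    have := hasProd_prod (s := Finset.range p) (f := fun (_ : ℕ) (v : Place k F) => localZeta p (L 0) v)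
      (a := fun _ => zetaFun p k (L 0)) (fun i _ => a0)
    simpa using this
  have hfinprod : ∀ f : Place k F → PowerSeries ℂ_[p],
      HasProd (Set.mulIndicator (hS.toFinset : Set (Place k F)) f) (∏ v ∈ hS.toFinset, f v) := by
    intro f
    have h5 := hasProd_prod_of_ne_finset_one (L := SummationFilter.unconditional _) (s := hS.toFinset)
      (f := Set.mulIndicator (hS.toFinset : Set (Place k F)) f) (fun w hw =>
        Set.mulIndicator_of_notMem (by simpa using hw) _)
    have h6 : ∏ w ∈ hS.toFinset, Set.mulIndicator (hS.toFinset : Set (Place k F)) f w =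
        ∏ w ∈ hS.toFinset, f w :=
      Finset.prod_congr rfl fun w hw => Set.mulIndicator_of_mem (by simpa using hw) _
    rwa [h6] at h5
  have b1 := a0p.mul (hfinprod fun v => localZeta p (L 1) v)
  have b2 := a1.mul (hfinprod fun v => localZeta p (L 0) v ^ p)
  have b3 : zetaFun p k (L 0) ^ p * ∏ v ∈ hS.toFinset, localZeta p (L 1) v =
      zetaFun p k (L 1) * ∏ v ∈ hS.toFinset, localZeta p (L 0) v ^ p := by
    refine b1.unique ?_
    convert b2 using 1
    funext v
    by_cases hv : v.IsUnramified E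
    · have hv' : v ∉ (hS.toFinset : Set (Place k F)) := by simpa using hv
      rw [Set.mulIndicator_of_notMem hv', Set.mulIndicator_of_notMem hv', mul_one, mul_one, h2 v hv]
    · have hv' : v ∈ (hS.toFinset : Set (Place k F)) := by simpa using hv
      rw [Set.mulIndicator_of_mem hv', Set.mulIndicator_of_mem hv', mul_comm]
  choose P0 hP0 hP0' using local_pol (k := k) Φ hF hE L hL 0
  choose P1 hP1 hP1' using local_pol (k := k) Φ hF hE L hL 1
  set q : ℂ_[p] := (Nat.card k : ℂ_[p]) with hq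
  have hq0 : q ≠ 0 := by rw [hq, Nat.cast_ne_zero]; exact Nat.card_pos.ne'
  have hcoe : ∀ f : Place k F → Polynomial ℂ_[p], ((∏ v ∈ hS.toFinset, f v : Polynomial ℂ_[p]) : PowerSeries ℂ_[p]) =
      ∏ v ∈ hS.toFinset, (f v : PowerSeries ℂ_[p]) := by
    intro f
    have h2 := map_prod (Polynomial.coeToPowerSeries.ringHom (R := ℂ_[p])) f hS.toFinset
    simpa only [Polynomial.coeToPowerSeries.ringHom_apply] using h2
  have c1 : (∏ v ∈ hS.toFinset, localZeta p (L 1) v) *
      ((∏ v ∈ hS.toFinset, P1 v : Polynomial ℂ_[p]) : PowerSeries ℂ_[p]) = 1 := by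
    rw [hcoe, ← Finset.prod_mul_distrib]
    exact Finset.prod_eq_one fun v _ => hP1 v
  have c0 : (∏ v ∈ hS.toFinset, localZeta p (L 0) v ^ p) *
      ((∏ v ∈ hS.toFinset, P0 v ^ p : Polynomial ℂ_[p]) : PowerSeries ℂ_[p]) = 1 := by
    rw [hcoe, ← Finset.prod_mul_distrib]
    refine Finset.prod_eq_one fun v _ => ?_
    rw [Polynomial.coe_pow, ← mul_pow, hP0 v, one_pow]
  set Pol1 : Polynomial ℂ_[p] := ∏ v ∈ hS.toFinset, P1 v with hPol1
  set Pol0 : Polynomial ℂ_[p] := ∏ v ∈ hS.toFinset, P0 v ^ p with hPol0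
  set g : Polynomial ℂ_[p] := (1 - Polynomial.X) * (1 - Polynomial.C q * Polynomial.X) with hg
  have hgc : (g : PowerSeries ℂ_[p]) = (1 - X) * (1 - C q * X) := by
    rw [hg]
    simp only [Polynomial.coe_sub, Polynomial.coe_one, Polynomial.coe_mul, Polynomial.coe_C, Polynomial.coe_X]
  have hgp : (g : PowerSeries ℂ_[p]) ^ p = (g : PowerSeries ℂ_[p]) * (g : PowerSeries ℂ_[p]) ^ (p - 1) := by
    rw [← pow_succ', Nat.sub_add_cancel hp.one_le]
  have key : (recipPoly (A 0) ^ p * Pol0 : Polynomial ℂ_[p]) = recipPoly (A 1) * g ^ (p - 1) * Pol1 := by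
    apply Polynomial.coe_injective
    rw [Polynomial.coe_mul, Polynomial.coe_mul, Polynomial.coe_mul, Polynomial.coe_pow, Polynomial.coe_pow,
      coe_recipPoly, coe_recipPoly, ← hA 0, ← hA 1, ← hgc]
    calc (zetaFun p k (L 0) * (g : PowerSeries ℂ_[p])) ^ p * (Pol0 : PowerSeries ℂ_[p])
        = (zetaFun p k (L 0) ^ p * ((∏ v ∈ hS.toFinset, localZeta p (L 1) v) * (Pol1 : PowerSeries ℂ_[p]))) *
            (g : PowerSeries ℂ_[p]) ^ p * (Pol0 : PowerSeries ℂ_[p]) := by rw [c1, mul_pow]; ring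
      _ = (zetaFun p k (L 0) ^ p * (∏ v ∈ hS.toFinset, localZeta p (L 1) v)) * (Pol1 : PowerSeries ℂ_[p]) *
            (g : PowerSeries ℂ_[p]) ^ p * (Pol0 : PowerSeries ℂ_[p]) := by ring
      _ = zetaFun p k (L 1) * ((∏ v ∈ hS.toFinset, localZeta p (L 0) v ^ p) * (Pol0 : PowerSeries ℂ_[p])) *
            (g : PowerSeries ℂ_[p]) ^ p * (Pol1 : PowerSeries ℂ_[p]) := by rw [b3]; ring
      _ = zetaFun p k (L 1) * (g : PowerSeries ℂ_[p]) ^ p * (Pol1 : PowerSeries ℂ_[p]) := by rw [c0, mul_one]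
      _ = zetaFun p k (L 1) * (g : PowerSeries ℂ_[p]) * (g : PowerSeries ℂ_[p]) ^ (p - 1) *
            (Pol1 : PowerSeries ℂ_[p]) := by
          rw [hgp]
          ring
  have hev := congrArg (Polynomial.eval q⁻¹) key
  rw [Polynomial.eval_mul, Polynomial.eval_mul, Polynomial.eval_mul, Polynomial.eval_pow, Polynomial.eval_pow] at hev
  have hg0 : Polynomial.eval q⁻¹ g = 0 := by
    rw [hg]
    simp [hq0]
  rw [hg0, zero_pow (by have := hp.two_le; omega), mul_zero, zero_mul] at hev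
  haveI := finiteDimensional_layer L hL 0
  have hne := eval_recipPoly_ne_zero (curve_L (k := k) hF hE L hL 0) (A 0) (hA 0)
  have hne2 : Polynomial.eval q⁻¹ Pol0 ≠ 0 := by
    rw [hPol0, Polynomial.eval_prod, Finset.prod_ne_zero_iff]
    intro v _
    rw [Polynomial.eval_pow]
    exact pow_ne_zero _ (hP0' v)
  exact mul_ne_zero (pow_ne_zero _ hne) hne2 hev

include hF hE hL in
/-- Two unramified places whose Frobenius elements are not proportional to their degrees. -/
theorem exists_incongruent [IsGalois F E] (hS : {v : Place k F | ¬ v.IsUnramified E}.Finite)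
    (A : ℕ → Multiset ℂ_[p])
    (hA : ∀ n, zetaFun p k (L n) * ((1 - X) * (1 - C (Nat.card k : ℂ_[p]) * X)) = recipProd (A n)) :
    ∃ v v' : Place k F, v.IsUnramified E ∧ v'.IsUnramified E ∧
      (v'.deg : ℤ_[p]) * coord Φ (v.frob E) ≠ v.deg * coord Φ (v'.frob E) := by
  classical
  have hp : p.Prime := Fact.out
  by_contra hcon
  push Not at hcon
  have hprime : Prime (p : ℤ_[p]) := PadicInt.prime_p
  have hdvd : ∀ a : ℕ, (p : ℤ_[p]) ∣ (a : ℤ_[p]) ↔ p ∣ a := by
    intro a
    have := PadicInt.pow_p_dvd_int_iff (p := p) 1 (a : ℤ)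
    rw [pow_one, pow_one] at this
    rw [← Int.natCast_dvd_natCast, ← this]
    simp
  -- places above the ramification locus
  have hT : ∀ n, ∃ T : Finset (Place k (L n)), ∀ w, w ∉ T → ∀ v : Place k F, Above w v → v.IsUnramified E := by
    intro n
    haveI := finiteDimensional_layer L hL n
    have hfin : {w : Place k (L n) | ¬ (down (L n) w).IsUnramified E}.Finite := by
      have : {w : Place k (L n) | ¬ (down (L n) w).IsUnramified E} ⊆
          ⋃ v ∈ {v : Place k F | ¬ v.IsUnramified E}, {w : Place k (L n) | Above w v} := by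
        intro w hw
        simp only [Set.mem_iUnion]
        exact ⟨down (L n) w, hw, (down_eq_iff (L n) w _).1 rfl⟩
      refine (Set.Finite.biUnion hS fun v _ => ?_).subset this
      exact Set.finite_coe_iff.1 (finite_fiber Φ L hL n v)
    refine ⟨hfin.toFinset, fun w hw v hv => ?_⟩
    have h1 : down (L n) w = v := (down_eq_iff (L n) w v).2 hv
    by_contra h2
    apply hw
    rw [Set.Finite.mem_toFinset]
    show ¬ (down (L n) w).IsUnramified E
    rw [h1]; exact h2
  have hex : ∀ n, ∃ (w : Place k (L n)) (v : Place k F), v.IsUnramified E ∧ Above w v ∧ ¬ p ∣ w.deg := by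
    intro n
    haveI := finiteDimensional_layer L hL n
    obtain ⟨T, hT⟩ := hT n
    obtain ⟨w, hw, hw2⟩ := exists_deg_not_dvd (curve_L (k := k) hF hE L hL n) T (A n) (hA n)
    have ha : Above w (down (L n) w) := (down_eq_iff (L n) w _).1 rfl
    exact ⟨w, down (L n) w, hT w hw _ ha, ha, hw2⟩
  obtain ⟨w₀, v₀, hv₀, hw₀, hd₀⟩ := hex 0
  have hdeg₀ : w₀.deg = v₀.deg := by
    obtain ⟨c, hcn, hc1, hc2, hc3⟩ := exists_level (coord Φ (v₀.frob E)) 0
    have := deg_layer_unram Φ hF hE L hL v₀ hv₀ 0 c hc1 w₀ hw₀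
    rw [this]; simp
  rw [hdeg₀] at hd₀
  have hd₀' : ¬ (p : ℤ_[p]) ∣ (v₀.deg : ℤ_[p]) := fun h => hd₀ ((hdvd _).1 h)
  by_cases hr : (p : ℤ_[p]) ∣ coord Φ (v₀.frob E)
  · obtain ⟨v, hv, hv2⟩ := not_all_split Φ hF hE L hL hS A hA
    apply hv2
    have h1 := hcon v v₀ hv hv₀
    have h2 : (p : ℤ_[p]) ∣ (v₀.deg : ℤ_[p]) * coord Φ (v.frob E) := by
      rw [h1]; exact Dvd.dvd.mul_left hr _
    exact (hprime.dvd_or_dvd h2).resolve_left hd₀'
  · obtain ⟨w₁, v₁, hv₁, hw₁, hd₁⟩ := hex 1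
    obtain ⟨c, hcn, hc1, hc2, hc3⟩ := exists_level (coord Φ (v₁.frob E)) 1
    have hdeg₁ := deg_layer_unram Φ hF hE L hL v₁ hv₁ 1 c hc1 w₁ hw₁
    have hc : c = 1 := by
      by_contra hc
      have hc0 : c = 0 := by omega
      apply hd₁
      rw [hdeg₁, hc0]
      exact Dvd.dvd.mul_left (by simp) _
    rw [hc] at hc2 hdeg₁
    rw [hdeg₁] at hd₁
    have h1 := hcon v₁ v₀ hv₁ hv₀
    have h2 : (p : ℤ_[p]) ∣ (v₁.deg : ℤ_[p]) * coord Φ (v₀.frob E) := by
      rw [← h1]; exact Dvd.dvd.mul_left (by simpa using hc2) _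
    rcases hprime.dvd_or_dvd h2 with h3 | h3
    · apply hd₁
      exact Dvd.dvd.mul_right ((hdvd _).1 h3) _
    · exact hr h3

end

end Pool.Agent.H707R3
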