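import Mathlib

/-!
The norm of the base change of a finite field as a product over the powers of the Frobenius.
-/

set_option linter.all false

open scoped TensorProduct

namespace Pool.Agent.H707R3

section

variable {k κ Ω Λ : Type*} [Field k] [Finite k] [Field κ] [Algebra k κ] [FiniteDimensional k κ]
  [Field Ω] [Algebra k Ω] [CommRing Λ] [Algebra k Λ] (j : κ →ₐ[k] Ω)

/-- The power of the Frobenius. -/
lemma exists_frobPow (k : Type*) [Field k] [Finite k] (Ω : Type*) [CommRing Ω] [Algebra k Ω] :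
    ∃ Fr : Ω →ₐ[k] Ω, ∀ x, Fr x = x ^ Nat.card k := by
  classical
  haveI : Fintype k := Fintype.ofFinite k
  refine ⟨FiniteField.frobeniusAlgHom k Ω, fun x => ?_⟩
  rw [Nat.card_eq_fintype_card]; rfl

omit [FiniteDimensional k κ] [Finite k] in
lemma pow_iter (Fr : Ω →ₐ[k] Ω) (hFr : ∀ x, Fr x = x ^ Nat.card k) (i : ℕ) (x : Ω) :
    (Fr ^ i) x = x ^ Nat.card k ^ i := by
  induction i generalizing x with
  | zero => simp
  | succ i ih =>
    rw [pow_succ, AlgHom.mul_apply, hFr, ih, ← pow_mul, pow_succ, mul_comm (Nat.card k ^ i)]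

lemma frob_matrix (Fr : Ω →ₐ[k] Ω) (hFr : ∀ x, Fr x = x ^ Nat.card k) {d : ℕ}
    (e : Module.Basis (Fin d) k κ) :
    (Matrix.of fun i l : Fin d => (Fr ^ (i : ℕ)) (j (e l))).det ≠ 0 := by
  classical
  have hd : Module.finrank k κ = d := by rw [Module.finrank_eq_card_basis e, Fintype.card_fin]
  have hfin : Finite κ := Module.finite_of_finite k
  haveI : Fintype κ := Fintype.ofFinite κ
  have hq : 1 < Nat.card k := Finite.one_lt_card
  have hcard : Nat.card κ = Nat.card k ^ d := by rw [← hd]; exact Module.natCard_eq_pow_finrank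
  let σ : Fin d → (κ →* Ω) := fun i => ((Fr ^ (i : ℕ)).comp j : κ →ₐ[k] Ω)
  have hσ : ∀ i x, σ i x = (Fr ^ (i : ℕ)) (j x) := fun i x => rfl
  have hinj : Function.Injective σ := by
    have key : ∀ a b : Fin d, a < b → σ a ≠ σ b := by
      intro a b hab h
      have h1 : ∀ x : κ, x ^ Nat.card k ^ (b - a : ℕ) = x := by
        intro x
        have h2 := DFunLike.congr_fun h x
        rw [hσ, hσ, pow_iter Fr hFr, pow_iter Fr hFr] at h2
        have h3 : (j x) ^ Nat.card k ^ (a : ℕ) = ((j x) ^ Nat.card k ^ (b - a : ℕ)) ^ Nat.card k ^ (a : ℕ) := by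
          rw [h2, ← pow_mul, ← pow_add]
          congr 2
          have : (a : ℕ) < b := hab
          omega
        have h4 : j x = (j x) ^ Nat.card k ^ (b - a : ℕ) := by
          have h5 : Function.Injective (Fr ^ (a : ℕ)) := (Fr ^ (a : ℕ)).toRingHom.injective
          apply h5
          rw [pow_iter Fr hFr, pow_iter Fr hFr]; exact h3
        apply j.toRingHom.injective
        show j (x ^ Nat.card k ^ (b - a : ℕ)) = j x
        rw [map_pow, ← h4]
      have h2 : (Polynomial.X ^ Nat.card k ^ (b - a : ℕ) - Polynomial.X : Polynomial κ) ≠ 0 := by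
        apply FiniteField.X_pow_card_sub_X_ne_zero
        apply Nat.one_lt_pow _ hq
        have : (a : ℕ) < b := hab
        omega
      have h3 := Polynomial.card_roots' (Polynomial.X ^ Nat.card k ^ (b - a : ℕ) - Polynomial.X : Polynomial κ)
      rw [FiniteField.X_pow_card_sub_X_natDegree_eq] at h3
      · have h4 : (Finset.univ : Finset κ).card ≤ Multiset.card
            (Polynomial.X ^ Nat.card k ^ (b - a : ℕ) - Polynomial.X : Polynomial κ).roots := by
          apply Multiset.card_le_card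
          rw [Multiset.le_iff_subset (Finset.nodup _)]
          intro x _
          rw [Polynomial.mem_roots h2]
          simp [h1 x]
        rw [Finset.card_univ, ← Nat.card_eq_fintype_card, hcard] at h4
        have h5 := (Nat.pow_le_pow_iff_right hq).1 (h4.trans h3)
        have := b.2
        have : (a : ℕ) < b := hab
        omega
      · apply Nat.one_lt_pow _ hq
        have : (a : ℕ) < b := hab
        omega
    intro a b h
    rcases lt_trichotomy a b with h' | h' | h'
    · exact absurd h (key _ _ h')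
    · exact h'
    · exact absurd h.symm (key _ _ h')
  have hli := (linearIndependent_monoidHom κ Ω).comp σ hinj
  intro h0
  obtain ⟨c, hc, hc0⟩ := Matrix.exists_vecMul_eq_zero_iff.2 h0
  apply hc
  have h1 : ∀ x : κ, ∑ i, c i * σ i x = 0 := by
    intro x
    rw [← e.sum_repr x]
    have : ∀ i : Fin d, c i * σ i (∑ l, e.repr x l • e l) =
        ∑ l, algebraMap k Ω (e.repr x l) * (c i * σ i (e l)) := by
      intro i
      rw [hσ, map_sum, map_sum, Finset.mul_sum]
      refine Finset.sum_congr rfl fun l _ => ?_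
      rw [map_smul, map_smul, Algebra.smul_def, hσ]; ring
    rw [Finset.sum_congr rfl fun i _ => this i, Finset.sum_comm]
    refine Finset.sum_eq_zero fun l _ => ?_
    rw [← Finset.mul_sum]
    have h2 := congrFun hc0 l
    simp only [Matrix.vecMul, dotProduct, Matrix.of_apply, Pi.zero_apply] at h2
    rw [show (∑ i, c i * σ i (e l)) = 0 from h2, mul_zero]
  have h3 := Fintype.linearIndependent_iff.1 hli c (by
    ext x
    have := h1 x
    simpa [Finset.sum_apply] using this)
  ext i
  exact h3 i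

/-- The endomorphism of `Λ ⊗ Ω` induced by a power map. -/
noncomputable def bcHom {k Ω : Type*} (Λ : Type*) [Field k] [CommRing Ω] [Algebra k Ω] [CommRing Λ] [Algebra k Λ]
    {Ω' : Type*} [CommRing Ω'] [Algebra k Ω'] (f : Ω →ₐ[k] Ω') : (Λ ⊗[k] Ω) →ₐ[Λ] (Λ ⊗[k] Ω') :=
  Algebra.TensorProduct.map (AlgHom.id Λ Λ) f

omit [Finite k] [FiniteDimensional k κ] in
lemma bcHom_tmul (f : κ →ₐ[k] Ω) (a : Λ) (x : κ) : bcHom Λ f (a ⊗ₜ x) = a ⊗ₜ f x := by
  simp [bcHom]

theorem det_eq_prod_frob (Fr : Ω →ₐ[k] Ω) (hFr : ∀ x, Fr x = x ^ Nat.card k) (W : Λ ⊗[k] κ) :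
    algebraMap Λ (Λ ⊗[k] Ω) (LinearMap.det (LinearMap.mulLeft Λ W)) =
      ∏ i : Fin (Module.finrank k κ), bcHom Λ ((Fr ^ (i : ℕ)).comp j) W := by
  classical
  let e := Module.finBasis k κ
  let b : Module.Basis _ Λ (Λ ⊗[k] κ) := Algebra.TensorProduct.basis Λ e
  have hb : ∀ i, b i = 1 ⊗ₜ e i := fun i => by simp [b]
  let M' : Matrix (Fin (Module.finrank k κ)) (Fin (Module.finrank k κ)) Ω :=
    Matrix.of fun i l => (Fr ^ (i : ℕ)) (j (e l))
  have hM' : M'.det ≠ 0 := frob_matrix j Fr hFr e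
  let A := LinearMap.toMatrix b b (LinearMap.mulLeft Λ W)
  have hA : ∀ i l, A i l = b.repr (W * b l) i := fun i l => by
    show LinearMap.toMatrix b b _ i l = _
    rw [LinearMap.toMatrix_apply]
    rfl
  let incR : Ω →ₐ[k] (Λ ⊗[k] Ω) := Algebra.TensorProduct.includeRight
  let D : Fin (Module.finrank k κ) → Λ ⊗[k] Ω := fun i => bcHom Λ ((Fr ^ (i : ℕ)).comp j) W
  have hkey : Matrix.diagonal D * incR.toRingHom.mapMatrix M' =
      incR.toRingHom.mapMatrix M' * (algebraMap Λ (Λ ⊗[k] Ω)).mapMatrix A := by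
    ext i l
    rw [Matrix.diagonal_mul, Matrix.mul_apply]
    have h1 : W * b l = ∑ m, A m l • b m := by
      conv_lhs => rw [← b.sum_repr (W * b l)]
      exact Finset.sum_congr rfl fun m _ => by rw [hA]
    have h2 := congrArg (bcHom Λ ((Fr ^ (i : ℕ)).comp j)) h1
    rw [map_mul, map_sum, hb, bcHom_tmul] at h2
    have h3 : incR.toRingHom.mapMatrix M' i l = 1 ⊗ₜ ((Fr ^ (i : ℕ)).comp j) (e l) := rfl
    rw [h3]
    refine h2.trans (Finset.sum_congr rfl fun m _ => ?_)
    rw [map_smul, hb, bcHom_tmul, Algebra.smul_def, mul_comm]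
    rfl
  have hdet := congrArg Matrix.det hkey
  rw [Matrix.det_mul, Matrix.det_mul, Matrix.det_diagonal, mul_comm] at hdet
  have hu : IsUnit (incR.toRingHom.mapMatrix M').det := by
    rw [← RingHom.map_det]
    exact (isUnit_iff_ne_zero.2 hM').map _
  have h4 := hu.mul_left_cancel hdet
  rw [← LinearMap.det_toMatrix b, RingHom.map_det]
  exact h4.symm

theorem det_eq_of_frob (Fr : Ω →ₐ[k] Ω) (hFr : ∀ x, Fr x = x ^ Nat.card k) (W : Λ ⊗[k] κ)
    {Y : Λ ⊗[k] Ω} (hY : IsUnit Y) (h1 : bcHom Λ Fr Y = bcHom Λ j W * Y) {c : Λ}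
    (h2 : bcHom Λ (Fr ^ (Module.finrank k κ)) Y = algebraMap Λ (Λ ⊗[k] Ω) c * Y) :
    LinearMap.det (LinearMap.mulLeft Λ W) = c := by
  classical
  have hcomp : ∀ (f g : Ω →ₐ[k] Ω) (y : Λ ⊗[k] Ω), bcHom Λ (f * g) y = bcHom Λ f (bcHom Λ g y) := by
    intro f g y
    induction y using TensorProduct.induction_on with
    | zero => simp
    | tmul a y => simp [bcHom_tmul]
    | add x y hx hy => rw [map_add, map_add, map_add, hx, hy]
  have hcomp' : ∀ (f : Ω →ₐ[k] Ω) (y : Λ ⊗[k] κ), bcHom Λ (f.comp j) y = bcHom Λ f (bcHom Λ j y) := by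
    intro f y
    induction y using TensorProduct.induction_on with
    | zero => simp
    | tmul a y => simp [bcHom_tmul]
    | add x y hx hy => rw [map_add, map_add, map_add, hx, hy]
  have h3 : ∀ n : ℕ, bcHom Λ (Fr ^ n) Y = (∏ i ∈ Finset.range n, bcHom Λ ((Fr ^ i).comp j) W) * Y := by
    intro n
    induction n with
    | zero =>
      have : bcHom Λ (1 : Ω →ₐ[k] Ω) Y = Y := by
        generalize Y = y
        induction y using TensorProduct.induction_on with
        | zero => simp
        | tmul a y => simp [bcHom_tmul]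
        | add x y hx hy => rw [map_add, hx, hy]
      simp [this]
    | succ n ih =>
      rw [pow_succ, hcomp, h1, map_mul, ih, Finset.prod_range_succ, hcomp']
      ring
  have h4 := det_eq_prod_frob (Λ := Λ) j Fr hFr W
  rw [Finset.prod_range (n := Module.finrank k κ) (f := fun i => bcHom Λ ((Fr ^ i).comp j) W) |>.symm] at h4
  have h5 : algebraMap Λ (Λ ⊗[k] Ω) (LinearMap.det (LinearMap.mulLeft Λ W)) = algebraMap Λ (Λ ⊗[k] Ω) c := by
    apply hY.mul_right_cancel
    rw [h4, ← h3, h2]
  have hinj : Function.Injective (algebraMap Λ (Λ ⊗[k] Ω)) := by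
    exact Algebra.TensorProduct.includeLeft_injective (S := Λ) (algebraMap k Ω).injective
  exact hinj h5

end

end Pool.Agent.H707R3
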