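import Mathlib
import Pool.Agent.H707R3.OpenOrbitDefs

/-!
An open orbit of a normal commutative subgroup yields a complement.
-/

universe u

open CategoryTheory AlgebraicGeometry MonoidalCategory CartesianMonoidalCategory MonObj

namespace Pool.Agent.H707R3

variable {K : Type u} [Field K]

section act

variable {G X : Over (Spec (.of K))} [GrpObj G] [ModObj G X]

lemma act_one (x : Pt X) : act (1 : Pt G) x = x := by
  have h : lift (1 : Pt G) x = lift (𝟙 _) x ≫ (η[G] ▷ X) := by
    ext1 <;> simp [one_eq_one]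
  rw [act, h, Category.assoc, ModObj.one_smul_self]
  simp

lemma act_mul (g h : Pt G) (x : Pt X) : act (g * h) x = act g (act h x) := by
  have e : lift (g * h) x = lift (lift g h) x ≫ (μ[G] ▷ X) := by
    ext1 <;> simp [Hom.mul_def]
  rw [act, e, Category.assoc, ModObj.mul_smul_self]
  simp only [act, ← Category.assoc]
  congr 1
  ext1 <;> simp

/-- The automorphism of `X` given by `g`. -/
noncomputable def actHom (g : Pt G) : X ⟶ X := lift (toUnit X ≫ g) (𝟙 X) ≫ γ[G, X]

lemma comp_actHom (g : Pt G) (x : Pt X) : x ≫ actHom g = act g x := by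
  rw [actHom, act, ← Category.assoc]
  congr 1
  ext1 <;> simp

lemma point_act (g : Pt G) (x : Pt X) : (act g x).point = (actHom (X := X) g).left x.point := by
  rw [← comp_actHom]
  rfl

end act

lemma exists_pt [IsAlgClosed K] {X : Over (Spec (.of K))} (hX : IsIrreducibleVariety X)
    (V : Set X.left) (hV : IsOpen V) (hne : V.Nonempty) : ∃ y : Pt X, y.point ∈ V := by
  have := hX.locallyOfFiniteType
  have : JacobsonSpace X.left := LocallyOfFiniteType.jacobsonSpace X.hom
  obtain ⟨p, hp, hc⟩ := nonempty_inter_closedPoints hne hV.isLocallyClosed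
  refine ⟨Over.homMk (pointOfClosedPoint X.hom p hc) (pointOfClosedPoint_comp _ _ _), ?_⟩
  have : (pointOfClosedPoint X.hom p hc) (IsLocalRing.closedPoint K) = p :=
    pointOfClosedPoint_apply _ _ _ _
  show (pointOfClosedPoint X.hom p hc) (IsLocalRing.closedPoint K) ∈ V
  rw [this]
  exact hp

lemma exists_pt_of_closed [IsAlgClosed K] {X : Over (Spec (.of K))} (hX : IsIrreducibleVariety X)
    (p : X.left) (hp : IsClosed {p}) : ∃ y : Pt X, y.point = p := by
  have := hX.locallyOfFiniteType
  refine ⟨Over.homMk (pointOfClosedPoint X.hom p hp) (pointOfClosedPoint_comp _ _ _), ?_⟩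
  exact pointOfClosedPoint_apply _ _ _ _

/-- An open orbit of a normal commutative subgroup on an effective variety yields a complement of
the subgroup. -/
theorem exists_complement [IsAlgClosed K] {G X : Over (Spec (.of K))} [GrpObj G] [ModObj G X]
    (hX : IsIrreducibleVariety X) (heff : IsEffective G X) (H : Subgroup (Pt G))
    (hcomm : ∀ a ∈ H, ∀ b ∈ H, a * b = b * a) (hnorm : ∀ g, ∀ h ∈ H, g * h * g⁻¹ ∈ H)
    (ho : HasOpenOrbit H X) :
    ∃ L : Subgroup (Pt G), (∀ g, ∃ h ∈ H, ∃ k ∈ L, g = h * k) ∧ ∀ k ∈ L, k ∈ H → k = 1 := by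
  obtain ⟨x, U, hU⟩ := ho
  have := hX.locallyOfFiniteType
  have := hX.separated
  have := hX.integral
  have hxU : x.point ∈ U := (hU x).2 ⟨1, H.one_mem, act_one x⟩
  let L : Subgroup (Pt G) :=
    { carrier := {k | act k x = x}
      mul_mem' := by
        intro a b ha hb
        simp only [Set.mem_ofPred_eq] at ha hb ⊢
        rw [act_mul, hb, ha]
      one_mem' := act_one x
      inv_mem' := by
        intro a ha
        simp only [Set.mem_ofPred_eq] at ha ⊢
        conv_lhs => rw [← ha]
        rw [← act_mul, inv_mul_cancel, act_one] }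
  have hL : ∀ k, k ∈ L ↔ act k x = x := fun k => Iff.rfl
  refine ⟨L, fun g => ?_, fun k hk hkH => ?_⟩
  · -- two nonempty open subsets meet
    have hopen : IsOpen ((actHom (X := X) g).left ⁻¹' (U : Set X.left)) :=
      U.isOpen.preimage (actHom (X := X) g).left.continuous
    have hne : ((actHom (X := X) g).left ⁻¹' (U : Set X.left)).Nonempty := by
      refine ⟨(act g⁻¹ x).point, ?_⟩
      show (actHom (X := X) g).left (act g⁻¹ x).point ∈ U
      rw [← point_act, ← act_mul, mul_inv_cancel, act_one]
      exact hxU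
    obtain ⟨y, hy⟩ := exists_pt hX _ (U.isOpen.inter hopen)
      (nonempty_preirreducible_inter U.isOpen hopen ⟨_, hxU⟩ hne)
    obtain ⟨hy1, hy2⟩ := hy
    have hy2' : (act g y).point ∈ U := by
      rw [point_act]
      exact hy2
    obtain ⟨h, hh, e⟩ := (hU y).1 hy1
    obtain ⟨h', hh', e'⟩ := (hU _).1 hy2'
    -- `g h x = h' x`
    have hk : h'⁻¹ * (g * h) ∈ L := by
      rw [hL, act_mul, act_mul, e, ← e', ← act_mul, inv_mul_cancel, act_one]
    set k := h'⁻¹ * (g * h) with hkdef
    refine ⟨h' * (k * h⁻¹ * k⁻¹), H.mul_mem hh' (hnorm k _ (H.inv_mem hh)), k, hk, ?_⟩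
    rw [hkdef]
    group
  · have hfix : ∀ y : Pt X, y.point ∈ U → act k y = y := by
      intro y hy
      obtain ⟨h, hh, e⟩ := (hU y).1 hy
      rw [← e, ← act_mul, hcomm k hkH h hh, act_mul, (hL k).1 hk]
    have hid : (actHom (X := X) k).left = 𝟙 X.left := by
      have hlft : LocallyOfFiniteType ((actHom (X := X) k).left ≫ X.hom) := by
        rw [Over.w]
        infer_instance
      refine ext_of_apply_eq X.hom (U : Set X.left) U.isOpen.isLocallyClosed
        (U.isOpen.dense ⟨_, hxU⟩) ?_ (by simp)
      intro p hp hc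
      obtain ⟨y, rfl⟩ := exists_pt_of_closed hX p hc
      rw [← point_act, hfix y hp]
      rfl
    apply heff
    intro y
    rw [← comp_actHom]
    have : actHom (X := X) k = 𝟙 X := by
      ext1
      exact hid
    rw [this, Category.comp_id]

end Pool.Agent.H707R3
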