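import Pool.Agent.H707R3.TraceOne
import Pool.Agent.H707R3.NormFrob

/-!
The units `Y` and `W = φ(Y) / Y` attached to a layer of a `ℤ_p`-tower.
-/

set_option linter.all false
set_option linter.overlappingInstances false

open FFP
open scoped TensorProduct

namespace Pool.Agent.H707R3

section bc

variable {k Λ A B C : Type*} [Field k] [CommRing Λ] [Algebra k Λ] [CommRing A] [Algebra k A]
  [CommRing B] [Algebra k B] [CommRing C] [Algebra k C]

lemma bcHom_tmul' (f : A →ₐ[k] B) (a : Λ) (x : A) : bcHom Λ f (a ⊗ₜ x) = a ⊗ₜ f x := by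
  simp [bcHom]

lemma bcHom_comp (f : B →ₐ[k] C) (g : A →ₐ[k] B) (y : Λ ⊗[k] A) :
    bcHom Λ (f.comp g) y = bcHom Λ f (bcHom Λ g y) := by
  induction y using TensorProduct.induction_on with
  | zero => simp
  | tmul a y => simp [bcHom_tmul']
  | add x y hx hy => rw [map_add, map_add, map_add, hx, hy]

lemma bcHom_congr {f g : A →ₐ[k] B} (h : ∀ x, f x = g x) (y : Λ ⊗[k] A) : bcHom Λ f y = bcHom Λ g y := by
  have : f = g := AlgHom.ext h
  rw [this]

lemma bcHom_one (y : Λ ⊗[k] A) : bcHom Λ (1 : A →ₐ[k] A) y = y := by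
  induction y using TensorProduct.induction_on with
  | zero => simp
  | tmul a y => simp [bcHom_tmul']
  | add x y hx hy => rw [map_add, hx, hy]

lemma bcHom_injective {f : A →ₐ[k] B} (h : Function.Injective f) : Function.Injective (bcHom Λ f) := by
  have : (bcHom Λ f : Λ ⊗[k] A → Λ ⊗[k] B) = (f.toLinearMap.lTensor Λ) := by
    ext y
    induction y using TensorProduct.induction_on with
    | zero => simp
    | tmul a y => simp [bcHom_tmul']
    | add x y hx hy => rw [map_add, map_add, hx, hy]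
  rw [this]
  exact Module.Flat.lTensor_preserves_injective_linearMap _ h

end bc

universe u₁

/-- The truncated polynomial ring. -/
theorem exists_Lam (k : Type u₁) [Field k] {p : ℕ} [Fact p.Prime] [CharP k p] (n : ℕ) :
    ∃ (Λ : Type u₁) (_ : CommRing Λ) (_ : Algebra k Λ) (b : Module.Basis (Fin (p ^ (n + 1))) k Λ) (ε : Λ)
      (aug : Λ →ₐ[k] k), (∀ i, b i = ε ^ (i : ℕ)) ∧ ε ^ p ^ (n + 1) = 0 ∧ aug ε = 0 ∧
        orderOf (1 + ε) = p ^ (n + 1) := by
  classical
  have hp : p.Prime := Fact.out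
  have hN : 0 < p ^ (n + 1) := pow_pos hp.pos _
  have hf : (Polynomial.X ^ p ^ (n + 1) : Polynomial k) ≠ 0 := pow_ne_zero _ Polynomial.X_ne_zero
  let Λ := AdjoinRoot (Polynomial.X ^ p ^ (n + 1) : Polynomial k)
  let pb := AdjoinRoot.powerBasis hf
  have hdim : pb.dim = p ^ (n + 1) := by
    show (Polynomial.X ^ p ^ (n + 1) : Polynomial k).natDegree = _
    exact Polynomial.natDegree_X_pow _
  let b : Module.Basis (Fin (p ^ (n + 1))) k Λ := pb.basis.reindex (finCongr hdim)
  let ε : Λ := AdjoinRoot.root _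
  have hb : ∀ i, b i = ε ^ (i : ℕ) := by
    intro i
    simp only [b, Module.Basis.reindex_apply]
    rw [pb.basis_eq_pow]
    rfl
  have hε : ε ^ p ^ (n + 1) = 0 := by
    have := AdjoinRoot.eval₂_root (Polynomial.X ^ p ^ (n + 1) : Polynomial k)
    simpa using this
  have h0 : Polynomial.eval₂ (Algebra.ofId k k).toRingHom 0 (Polynomial.X ^ p ^ (n + 1) : Polynomial k) = 0 := by
    simp [hp.ne_zero]
  let aug : Λ →ₐ[k] k := AdjoinRoot.liftAlgHom _ (Algebra.ofId k k) 0 h0
  have haug : aug ε = 0 := by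
    exact AdjoinRoot.lift_root h0
  haveI : Nontrivial Λ := by
    refine ⟨⟨b ⟨0, hN⟩, 0, ?_⟩⟩
    exact b.ne_zero _
  haveI : CharP Λ p := charP_of_injective_algebraMap (algebraMap k Λ).injective p
  refine ⟨Λ, inferInstance, inferInstance, b, ε, aug, hb, hε, haug, ?_⟩
  apply orderOf_eq_prime_pow
  · intro h
    rw [add_pow_char_pow, one_pow] at h
    have h1 : ε ^ p ^ n = 0 := by
      have h2 : (1 : Λ) + ε ^ p ^ n = 1 + 0 := by rw [h, add_zero]
      exact add_left_cancel h2
    have h2 : p ^ n < p ^ (n + 1) := Nat.pow_lt_pow_right hp.one_lt (Nat.lt_succ_self _)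
    have h3 := hb ⟨p ^ n, h2⟩
    rw [h1] at h3
    exact b.ne_zero _ h3
  · rw [add_pow_char_pow, one_pow, hε, add_zero]

section main

variable {p : ℕ} [Fact p.Prime] {k F E : Type*} [Field k] [Finite k] [CharP k p] [Field F] [Algebra k F]
  [Field E] [Algebra F E] [Algebra k E] [IsScalarTower k F E]
  (Φ : (E ≃ₐ[F] E) ≃* Multiplicative ℤ_[p])
  (hF : IsCurveFunctionField k F)

variable (k) in
/-- The elements of `L` which are integral at all unramified places. -/
def BB (L : IntermediateField F E) : Subalgebra k E where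
  carrier := {x | x ∈ L ∧ ∀ v : Place k F, v.IsUnramified E → IsIntegral v.ring x}
  mul_mem' := fun hx hy => ⟨mul_mem hx.1 hy.1, fun v hv => (hx.2 v hv).mul (hy.2 v hv)⟩
  add_mem' := fun hx hy => ⟨add_mem hx.1 hy.1, fun v hv => (hx.2 v hv).add (hy.2 v hv)⟩
  algebraMap_mem' := by
    intro c
    rw [IsScalarTower.algebraMap_apply k F E]
    refine ⟨L.algebraMap_mem _, fun v hv => ?_⟩
    exact isIntegral_algebraMap (R := v.ring) (A := E) (x := ⟨algebraMap k F c, v.const_mem c⟩)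

include Φ in
lemma stab [IsGalois F E] (L : IntermediateField F E) (τ : E ≃ₐ[F] E) {x : E} (hx : x ∈ L) : τ x ∈ L := by
  rw [← InfiniteGalois.fixedField_fixingSubgroup L, IntermediateField.mem_fixedField_iff]
  intro ρ hρ
  show ρ (τ x) = τ x
  have : ρ (τ x) = τ (ρ x) := by
    show (ρ * τ) x = (τ * ρ) x
    rw [gal_comm Φ]
  rw [this, (IntermediateField.mem_fixingSubgroup_iff _ _).1 hρ x hx]

/-- The action of an automorphism on `BB`. -/
def actB [IsGalois F E] (L : IntermediateField F E) (τ : E ≃ₐ[F] E) : BB k L →ₐ[k] BB k L :=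
  AlgHom.codRestrict (((τ : E →ₐ[F] E).restrictScalars k).comp (BB k L).val) (BB k L)
    (fun x => ⟨stab Φ L τ x.2.1, fun v hv => isIntegral_conj (x.2.2 v hv) τ⟩)

lemma actB_coe [IsGalois F E] (L : IntermediateField F E) (τ : E ≃ₐ[F] E) (x : BB k L) :
    ((actB Φ L τ x : BB k L) : E) = τ x := rfl

include hF in
/-- The unit `W` of a layer. -/
theorem exists_W [IsGalois F E] (hS : {v : Place k F | ¬ v.IsUnramified E}.Finite)
    (hS0 : ∃ v : Place k F, ¬ v.IsUnramified E)
    (L : IntermediateField F E) {n N : ℕ} (hNdef : N = p ^ (n + 1))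
    (hL : Module.finrank F L = p ^ (n + 1)) {Λ : Type*} [CommRing Λ] [Algebra k Λ]
    (b : Module.Basis (Fin N) k Λ) (ε : Λ) (aug : Λ →ₐ[k] k)
    (hb : ∀ i, b i = ε ^ (i : ℕ)) (hε : ε ^ N = 0) (haug : aug ε = 0) :
    haveI : FF.IsFF k F := hF.isFF
    ∃ w w' : Fin N → F, (∀ v : Place k F, v.IsUnramified E → ∀ i, w i ∈ v.ring ∧ w' i ∈ v.ring) ∧
      (∀ i : Fin N, (i : ℕ) = 0 → w i = 1) ∧
      (∑ i, b i ⊗ₜ[k] w i) * (∑ i, b i ⊗ₜ[k] w' i) = 1 ∧
      ∀ v : Place k F, v.IsUnramified E →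
        LinearMap.det (LinearMap.mulLeft Λ (∑ i, b i ⊗ₜ[k] (toFF v).red (w i) : Λ ⊗[k] (toFF v).RF)) =
          (1 + ε) ^ res (n + 1) (coord Φ (v.frob E)) := by
  classical
  haveI : FF.IsFF k F := hF.isFF
  have hp : p.Prime := Fact.out
  have hN : 0 < N := by rw [hNdef]; exact pow_pos hp.pos _
  obtain ⟨σ, hσ⟩ := coord_surjective Φ 1
  obtain ⟨θ₀, hθL, hθi, hθ1⟩ := exists_theta Φ hF hS hS0 L hL σ hσ
  haveI : Nontrivial Λ := by
    refine ⟨⟨b ⟨0, hN⟩, 0, ?_⟩⟩
    exact b.ne_zero _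
  haveI : CharP Λ p := charP_of_injective_algebraMap (algebraMap k Λ).injective p
  let θ : BB k L := ⟨θ₀, hθL, hθi⟩
  let u : Λ := 1 + ε
  have huN : u ^ N = 1 := by
    show (1 + ε) ^ N = 1
    rw [hNdef, add_pow_char_pow, one_pow, ← hNdef, hε, add_zero]
  have huu : IsUnit u := IsUnit.of_pow_eq_one huN hN.ne'
  let σB : BB k L →ₐ[k] BB k L := actB Φ L σ
  have hσBpow : ∀ (i : ℕ) (x : BB k L), (((σB ^ i) x : BB k L) : E) = (σ ^ i) x := by
    intro i
    induction i with
    | zero => intro x; rfl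
    | succ i ih =>
      intro x
      rw [pow_succ, AlgHom.mul_apply, ih, pow_succ]
      rfl
  have hfix : ∀ (x : E), x ∈ L → (σ ^ N) x = x := by
    intro x hx
    have h1 : σ ^ N ∈ L.fixingSubgroup := by
      rw [mem_fixing_iff Φ L (n + 1) hL, coord_pow, hσ, mul_one, hNdef, Nat.cast_pow]
    exact (IntermediateField.mem_fixingSubgroup_iff _ _).1 h1 x hx
  have hσBN : ∀ x : BB k L, (σB ^ N) x = x := fun x => Subtype.ext (by rw [hσBpow]; exact hfix _ x.2.1)
  have hθsum : ∑ i ∈ Finset.range N, (σB ^ i) θ = 1 := by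
    apply Subtype.ext
    rw [AddSubmonoidClass.coe_finset_sum]
    rw [show ((1 : BB k L) : E) = 1 from rfl, ← hθ1, ← hNdef]
    exact Finset.sum_congr rfl fun i _ => hσBpow i θ
  obtain ⟨FrB, hFrB⟩ := exists_frobPow k (BB k L)
  let Y : Λ ⊗[k] BB k L := ∑ i ∈ Finset.range N, (u ^ (N - i)) ⊗ₜ[k] (σB ^ i) θ
  have hσY : bcHom Λ σB Y = u • Y := by
    let f : ℕ → Λ ⊗[k] BB k L := fun i => (u ^ (N - i)) ⊗ₜ[k] (σB ^ i) θ
    have h1 : bcHom Λ σB Y = u • ∑ i ∈ Finset.range N, f (i + 1) := by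
      rw [map_sum, Finset.smul_sum]
      refine Finset.sum_congr rfl fun i hi => ?_
      have hi' := Finset.mem_range.1 hi
      have e1 : (σB ^ (i + 1)) θ = σB ((σB ^ i) θ) := by rw [pow_succ', AlgHom.mul_apply]
      have e2 : u ^ (N - i) = u * u ^ (N - (i + 1)) := by
        rw [← pow_succ']; congr 1; omega
      rw [bcHom_tmul', TensorProduct.smul_tmul', smul_eq_mul, e1, e2]
    have h2 : ∑ i ∈ Finset.range N, f (i + 1) = ∑ i ∈ Finset.range N, f i := by
      have e1 := Finset.sum_range_succ f N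
      have e2 := Finset.sum_range_succ' f N
      have e3 : f N = f 0 := by
        simp only [f, Nat.sub_self, pow_zero, Nat.sub_zero, huN, AlgHom.one_apply, hσBN]
      rw [e1, e3] at e2
      exact (add_right_cancel e2).symm
    rw [h1, h2]
  have hYu : IsUnit Y := by
    have h1 : Y = 1 + ∑ i ∈ Finset.range N, (u ^ (N - i) - 1) ⊗ₜ[k] (σB ^ i) θ := by
      have h2 : (1 : Λ ⊗[k] BB k L) = ∑ i ∈ Finset.range N, (1 : Λ) ⊗ₜ[k] (σB ^ i) θ := by
        rw [← TensorProduct.tmul_sum, hθsum]; rfl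
      rw [h2, ← Finset.sum_add_distrib]
      refine Finset.sum_congr rfl fun i _ => ?_
      rw [← TensorProduct.add_tmul]; congr 1; ring
    rw [h1]
    apply IsNilpotent.isUnit_one_add
    refine isNilpotent_sum fun i _ => ⟨N, ?_⟩
    rw [Algebra.TensorProduct.tmul_pow]
    have h3 : (u ^ (N - i) - 1) ^ N = 0 := by
      rw [hNdef, sub_pow_char_pow, one_pow, ← hNdef, ← pow_mul, mul_comm, pow_mul, huN, one_pow, sub_self]
    rw [h3, TensorProduct.zero_tmul]
  let φY := bcHom Λ FrB Y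
  have hφYu : IsUnit φY := hYu.map _
  obtain ⟨Yi, hYi⟩ := hYu.exists_right_inv
  obtain ⟨φYi, hφYi⟩ := hφYu.exists_right_inv
  let W := φY * Yi
  let W' := Y * φYi
  have hWY : W * Y = φY := by
    show φY * Yi * Y = φY
    rw [mul_assoc, mul_comm Yi, hYi, mul_one]
  have hWW' : W * W' = 1 := by
    show φY * Yi * (Y * φYi) = 1
    calc φY * Yi * (Y * φYi) = (φY * φYi) * (Y * Yi) := by ring
      _ = 1 := by rw [hYi, hφYi, one_mul]
  have hcommB : ∀ x, σB (FrB x) = FrB (σB x) := by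
    intro x; rw [hFrB, hFrB, map_pow]
  have hσφY : bcHom Λ σB φY = u • φY := by
    show bcHom Λ σB (bcHom Λ FrB Y) = u • bcHom Λ FrB Y
    rw [← bcHom_comp, bcHom_congr (g := FrB.comp σB) (fun x => hcommB x), bcHom_comp, hσY, map_smul]
  have hσW : bcHom Λ σB W = W := by
    have h1 : bcHom Λ σB W * (u • Y) = W * (u • Y) := by
      rw [← hσY, ← map_mul, hWY, hσφY, hσY, mul_smul_comm, hWY]
    have h2 : IsUnit (u • Y) := by
      obtain ⟨ui, hui⟩ := huu.exists_right_inv
      exact IsUnit.of_mul_eq_one (ui • Yi) (by rw [smul_mul_smul_comm, hui, hYi, one_smul])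
    exact h2.mul_right_cancel h1
  have hσW' : bcHom Λ σB W' = W' := by
    have h1 : bcHom Λ σB W' * W = W' * W := by
      conv_lhs => rw [← hσW]
      rw [← map_mul, mul_comm W' W, hWW', map_one]
    exact (IsUnit.of_mul_eq_one _ hWW').mul_right_cancel h1
  -- coordinates
  obtain ⟨w₀, hw₀⟩ := exists_coords b W
  obtain ⟨w₀', hw₀'⟩ := exists_coords b W'
  have hdesc : ∀ (v₀ : Fin N → BB k L), bcHom Λ σB (∑ i, b i ⊗ₜ[k] v₀ i) = ∑ i, b i ⊗ₜ[k] v₀ i →
      ∀ i, ∃ a : F, algebraMap F E a = v₀ i := by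
    intro v₀ h i
    rw [map_sum] at h
    simp only [bcHom_tmul'] at h
    have h1 := coords_inj b h i
    exact mem_base_of_fixed Φ L hL σ hσ (v₀ i).2.1 (congrArg Subtype.val h1)
  choose w hw using hdesc w₀ (by rw [← hw₀]; exact hσW)
  choose w' hw' using hdesc w₀' (by rw [← hw₀']; exact hσW')
  have hreg : ∀ (v : Place k F), v.IsUnramified E → ∀ (a : F) (x : BB k L), algebraMap F E a = x →
      a ∈ v.ring := by
    intro v hv a x hax
    obtain ⟨V, hV⟩ := exists_extension v.ring E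
    rw [← mem_of_comap_eq hV, hax]
    exact isIntegral_mem (comap_le hV) (x.2.2 v hv)
  let augB : (Λ ⊗[k] BB k L) →ₐ[k] BB k L :=
    (Algebra.TensorProduct.lid k (BB k L)).toAlgHom.comp
      (Algebra.TensorProduct.map aug (AlgHom.id k (BB k L)))
  have haugB : ∀ (a : Λ) (x : BB k L), augB (a ⊗ₜ x) = aug a • x := by
    intro a x
    simp [augB]
  have haugu : aug u = 1 := by
    show aug (1 + ε) = 1
    rw [map_add, map_one, haug, add_zero]
  have hYaug : augB Y = 1 := by
    rw [map_sum, ← hθsum]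
    refine Finset.sum_congr rfl fun i _ => ?_
    rw [haugB, map_pow, haugu, one_pow, one_smul]
  have hφYaug : augB φY = 1 := by
    show augB (bcHom Λ FrB (∑ i ∈ Finset.range N, (u ^ (N - i)) ⊗ₜ[k] (σB ^ i) θ)) = 1
    rw [map_sum, map_sum]
    have : ∀ i ∈ Finset.range N, augB (bcHom Λ FrB ((u ^ (N - i)) ⊗ₜ[k] (σB ^ i) θ)) = FrB ((σB ^ i) θ) := by
      intro i _
      rw [bcHom_tmul', haugB, map_pow, haugu, one_pow, one_smul]
    rw [Finset.sum_congr rfl this, ← map_sum, hθsum, map_one]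
  have hWaug : augB W = 1 := by
    have := congrArg augB hWY
    rwa [map_mul, hYaug, mul_one, hφYaug] at this
  have hw1 : ∀ i : Fin N, (i : ℕ) = 0 → w i = 1 := by
    intro i hi
    have h1 : augB (∑ i, b i ⊗ₜ[k] w₀ i) = w₀ i := by
      rw [map_sum, Finset.sum_eq_single i]
      · rw [haugB, hb, hi, pow_zero, map_one, one_smul]
      · intro j _ hj
        have hj0 : (j : ℕ) ≠ 0 := fun h => hj (Fin.ext (by rw [h, hi]))
        rw [haugB, hb, map_pow, haug, zero_pow hj0, zero_smul]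
      · intro h; exact absurd (Finset.mem_univ _) h
    rw [← hw₀, hWaug] at h1
    apply (algebraMap F E).injective
    rw [hw, ← h1, map_one]; rfl
  let ιF : F →ₐ[k] E := IsScalarTower.toAlgHom k F E
  have hιW : bcHom Λ ιF (∑ i, b i ⊗ₜ[k] w i) = bcHom Λ (BB k L).val W := by
    rw [hw₀, map_sum, map_sum]
    refine Finset.sum_congr rfl fun i _ => ?_
    rw [bcHom_tmul', bcHom_tmul']
    congr 1
    exact hw i
  have hιW' : bcHom Λ ιF (∑ i, b i ⊗ₜ[k] w' i) = bcHom Λ (BB k L).val W' := by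
    rw [hw₀', map_sum, map_sum]
    refine Finset.sum_congr rfl fun i _ => ?_
    rw [bcHom_tmul', bcHom_tmul']
    congr 1
    exact hw' i
  refine ⟨w, w', fun v hv i => ⟨hreg v hv _ _ (hw i), hreg v hv _ _ (hw' i)⟩, hw1, ?_, ?_⟩
  · apply bcHom_injective (Λ := Λ) (f := ιF) (algebraMap F E).injective
    rw [map_mul, hιW, hιW', ← map_mul, hWW', map_one, map_one]
  -- the determinants
  intro v hv
  obtain ⟨V, hV⟩ := exists_extension v.ring E
  have hPO : (toFF v).O = v.ring := toFF_O v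
  have hVmem : ∀ a : F, (toFF v).Reg a → algebraMap F E a ∈ V := fun a ha =>
    (mem_of_comap_eq hV a).2 (by rw [← hPO]; exact ha)
  have hVmem' : ∀ a : F, algebraMap F E a ∈ V → (toFF v).Reg a := fun a ha => by
    have := (mem_of_comap_eq hV a).1 ha
    rw [← hPO] at this; exact this
  have hconst : ∀ c : k, algebraMap k E c ∈ V.toSubring := by
    intro c
    rw [IsScalarTower.algebraMap_apply k F E]
    exact hVmem _ ((toFF v).reg_const c)
  letI algΩ : Algebra k (IsLocalRing.ResidueField V) :=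
    ((IsLocalRing.residue V).comp ((algebraMap k E).codRestrict V.toSubring hconst)).toAlgebra
  have hBV : ∀ x : BB k L, (x : E) ∈ V := fun x => isIntegral_mem (comap_le hV) (x.2.2 v hv)
  let rB : BB k L →ₐ[k] IsLocalRing.ResidueField V :=
    { toFun := fun x => IsLocalRing.residue V ⟨x, hBV x⟩
      map_one' := map_one (IsLocalRing.residue V)
      map_mul' := fun x y => map_mul (IsLocalRing.residue V) ⟨x, hBV x⟩ ⟨y, hBV y⟩
      map_zero' := map_zero (IsLocalRing.residue V)
      map_add' := fun x y => map_add (IsLocalRing.residue V) ⟨x, hBV x⟩ ⟨y, hBV y⟩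
      commutes' := fun c => rfl }
  have hrB : ∀ x, rB x = IsLocalRing.residue V ⟨x, hBV x⟩ := fun x => rfl
  let g : (toFF v).O →+* V :=
    ((algebraMap F E).comp ((toFF v).O.subtype)).codRestrict V.toSubring (fun x => hVmem x x.2)
  have hg : ∀ x : (toFF v).O, ((g x : V) : E) = algebraMap F E x := fun x => rfl
  haveI hloc : IsLocalHom g := by
    constructor
    intro x hx
    obtain ⟨y, hy⟩ := hx.exists_right_inv
    have h1 : algebraMap F E (x : F) * (y : E) = 1 := congrArg Subtype.val hy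
    have hx0 : (x : F) ≠ 0 := by
      intro h0
      rw [h0, map_zero, zero_mul] at h1
      exact zero_ne_one h1
    have h2 : (y : E) = algebraMap F E ((x : F)⁻¹) := by
      rw [map_inv₀]
      exact eq_inv_of_mul_eq_one_right h1
    have h3 : (x : F)⁻¹ ∈ (toFF v).O := hVmem' _ (by rw [← h2]; exact y.2)
    exact IsUnit.of_mul_eq_one ⟨_, h3⟩ (Subtype.ext (mul_inv_cancel₀ hx0))
  let j : (toFF v).RF →ₐ[k] IsLocalRing.ResidueField V :=
    { (IsLocalRing.ResidueField.map g : IsLocalRing.ResidueField (toFF v).O →+* IsLocalRing.ResidueField V) with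
      commutes' := by
        intro c
        show IsLocalRing.ResidueField.map g (algebraMap k (toFF v).RF c) = _
        rw [FF.Place.algebraMap_RF, (toFF v).red_of_reg ((toFF v).reg_const c)]
        show IsLocalRing.residue V _ = IsLocalRing.residue V _
        congr 1
        apply Subtype.ext
        show algebraMap F E (algebraMap k F c) = algebraMap k E c
        rw [← IsScalarTower.algebraMap_apply] }
  have hj : ∀ (f : F) (hf : (toFF v).Reg f), j ((toFF v).red f) = IsLocalRing.residue V ⟨algebraMap F E f, hVmem f hf⟩ := by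
    intro f hf
    show IsLocalRing.ResidueField.map g ((toFF v).red f) = _
    rw [(toFF v).red_of_reg hf]
    rfl
  obtain ⟨Fr, hFr⟩ := exists_frobPow k (IsLocalRing.ResidueField V)
  have hwreg : ∀ i, (toFF v).Reg (w i) := fun i => by
    have := hreg v hv _ _ (hw i)
    rw [← hPO] at this; exact this
  have hWbar : bcHom Λ rB W = bcHom Λ j (∑ i, b i ⊗ₜ[k] (toFF v).red (w i)) := by
    rw [hw₀, map_sum, map_sum]
    refine Finset.sum_congr rfl fun i _ => ?_
    rw [bcHom_tmul', bcHom_tmul', hj _ (hwreg i), hrB]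
    congr 2
    exact Subtype.ext (hw i).symm
  have k1 : bcHom Λ Fr (bcHom Λ rB Y) = bcHom Λ j (∑ i, b i ⊗ₜ[k] (toFF v).red (w i)) * bcHom Λ rB Y := by
    rw [← hWbar, ← map_mul, hWY]
    show _ = bcHom Λ rB (bcHom Λ FrB Y)
    rw [← bcHom_comp, ← bcHom_comp]
    refine bcHom_congr (fun x => ?_) Y
    rw [AlgHom.comp_apply, AlgHom.comp_apply, hFr, hFrB, map_pow]
  obtain ⟨hfin, hcard, hdeg⟩ := card_residue' hF v
  have hd : Module.finrank k (toFF v).RF = v.deg := toFF_deg v
  -- the Frobenius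
  set τ := v.frob E with hτ
  set a := res (n + 1) (coord Φ τ) with ha
  have hσa : ∀ m : ℕ, bcHom Λ (σB ^ m) Y = u ^ m • Y := by
    intro m
    induction m with
    | zero => rw [pow_zero, pow_zero, one_smul, bcHom_one]
    | succ m ih =>
      have h1 : bcHom Λ (σB ^ (m + 1)) Y = bcHom Λ (σB ^ m) (bcHom Λ σB Y) := by
        rw [← bcHom_comp]; rw [pow_succ]; rfl
      rw [h1, hσY, map_smul, ih, smul_smul, pow_succ']
  have hτa : ∀ x ∈ L, τ x = (σ ^ a) x := by
    intro x hx
    have h2 : (σ ^ a)⁻¹ * τ ∈ L.fixingSubgroup := by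
      rw [mem_fixing_iff Φ L (n + 1) hL, coord_mul, coord_inv, coord_pow, hσ, mul_one]
      obtain ⟨c, hc⟩ := exists_mul_pow (n + 1) (coord Φ τ)
      refine ⟨c, ?_⟩
      rw [ha]
      linear_combination hc
    have h3 := (IntermediateField.mem_fixingSubgroup_iff _ _).1 h2 x hx
    conv_rhs => rw [← h3]
    show τ x = (σ ^ a * ((σ ^ a)⁻¹ * τ)) x
    rw [mul_inv_cancel_left]
  have hspec := frob_spec Φ v V hV
  have k2 : bcHom Λ (Fr ^ (Module.finrank k (toFF v).RF)) (bcHom Λ rB Y) =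
      algebraMap Λ _ (u ^ a) * bcHom Λ rB Y := by
    rw [← Algebra.smul_def, ← map_smul, ← hσa a, ← bcHom_comp, ← bcHom_comp]
    refine bcHom_congr (fun x => ?_) Y
    rw [AlgHom.comp_apply, AlgHom.comp_apply, pow_iter Fr hFr, hd, hrB, hrB, ← map_pow]
    have h1 := hspec x (hBV x)
    rw [hcard] at h1
    have h2 : τ (x : E) = (((σB ^ a) x : BB k L) : E) := by rw [hσBpow, hτa _ x.2.1]
    rw [h2] at h1
    have h3 := (residue_eq_iff (W := V) (hBV ((σB ^ a) x)) (pow_mem (hBV x) (Nat.card k ^ v.deg))).2 h1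
    rw [h3]
    rfl
  exact det_eq_of_frob j Fr hFr _ (hYu.map _) k1 k2

end main

end Pool.Agent.H707R3
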