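import Pool.Agent.H707R3.Nontriv
import Pool.Agent.H707R3.WUnit
import Pool.Agent.H707R3.Assemble

/-!
The `L`-functions of the characters of a `ℤ_p`-tower are polynomials.
-/

set_option linter.all false
set_option linter.overlappingInstances false

open FFP
open scoped TensorProduct
open scoped PowerSeries.WithPiTopology

namespace Pool.Agent.H707R3

variable {p : ℕ} [Fact p.Prime]

section aux

variable {k F : Type*} [Field k] [Field F] [Algebra k F]

lemma chiD_pow {M : Type*} [CommMonoid M] (x : M) (a : FF.Place k F → ℕ) (D : FF.Place k F →₀ ℕ) :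
    chiD (fun P => x ^ a P) D = x ^ (D.sum fun P n => a P * n) := by
  unfold chiD Finsupp.prod Finsupp.sum
  rw [← Finset.prod_pow_eq_pow_sum]
  exact Finset.prod_congr rfl fun P _ => (pow_mul _ _ _).symm

lemma chiD_single {M : Type*} [CommMonoid M] (χ : FF.Place k F → M) (P : FF.Place k F) (n : ℕ) :
    chiD χ (Finsupp.single P n) = χ P ^ n := by
  unfold chiD
  rw [Finsupp.prod_single_index]
  exact pow_zero _

variable [PerfectField k] [FF.IsFF k F]

lemma ddeg_nd (D : FF.Place k F →₀ ℕ) : ddeg (nd D) = ((D.sum fun P n => n * P.deg : ℕ) : ℤ) := by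
  classical
  induction D using Finsupp.induction_linear with
  | zero => simp [ddeg_zero]
  | add f g hf hg =>
    rw [map_add, ddeg_add, hf, hg, Finsupp.sum_add_index' (by simp) (by intros; ring)]
    push_cast; ring
  | single P n =>
    rw [nd_single, ddeg_single, Finsupp.sum_single_index (by simp)]
    push_cast; ring

lemma mem_LL_of_bound {DE : FF.Place k F →₀ ℤ} {f : F} (h : ∀ P, DE P ≠ 1 → P.Reg f)
    (hDE : ∀ P, 0 ≤ DE P) :
    ∃ c₀ : ℕ, ∀ c : ℤ, (c₀ : ℤ) ≤ c → f ∈ LL (c • DE) := by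
  classical
  refine ⟨∑ P ∈ (divisor k f).support, (P.ord f).natAbs, fun c hc => ?_⟩
  rw [mem_LL_iff_OGe]
  intro P
  have hc0 : 0 ≤ c := le_trans (by positivity) hc
  by_cases hP : DE P = 1
  · right
    rw [Finsupp.smul_apply, hP, smul_eq_mul, mul_one]
    by_cases h0 : P ∈ (divisor k f).support
    · have h1 := Finset.single_le_sum (f := fun P : FF.Place k F => (P.ord f).natAbs)
        (fun _ _ => Nat.zero_le _) h0
      have h2 : ((P.ord f).natAbs : ℤ) ≤ c := le_trans (by exact_mod_cast h1) hc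
      have h3 := neg_abs_le (P.ord f)
      rw [Int.natCast_natAbs] at h2
      linarith
    · rw [Finsupp.notMem_support_iff, divisor_apply] at h0
      rw [h0]; linarith
  · rcases h P hP with h1 | h1
    · exact Or.inl h1
    · right
      rw [Finsupp.smul_apply, smul_eq_mul]
      have := mul_nonneg hc0 (hDE P)
      linarith

end aux

section main

variable {k F E : Type*} [Field k] [Finite k] [CharP k p] [Field F] [Algebra k F]
  [Field E] [Algebra F E] [Algebra k E] [IsScalarTower k F E]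
  (Φ : (E ≃ₐ[F] E) ≃* Multiplicative ℤ_[p])
  (hF : IsCurveFunctionField k F)

include hF in
theorem eulerL_poly [IsGalois F E] (hS : {v : Place k F | ¬ v.IsUnramified E}.Finite)
    (hS0 : ∃ v : Place k F, ¬ v.IsUnramified E)
    (L : IntermediateField F E) {m : ℕ}
    (hL : Module.finrank F L = p ^ (m + 1)) {v v' : Place k F} (hv : v.IsUnramified E)
    (hv' : v'.IsUnramified E)
    (hne : ¬ (p : ℤ_[p]) ^ (m + 1) ∣ (v'.deg : ℤ_[p]) * coord Φ (v.frob E) - v.deg * coord Φ (v'.frob E))
    {z : ℂ_[p]} (hz : IsPrimitiveRoot z (p ^ (m + 1))) :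
    ∃ P : Polynomial ℂ_[p],
      eulerL (fun v : {v : Place k F // v.IsUnramified E} => coord Φ (v.1.frob E))
          (fun v => v.1.deg) (m + 1) z = P := by
  classical
  haveI : FF.IsFF k F := hF.isFF
  have hp : p.Prime := Fact.out
  obtain ⟨γ, N, -, hR⟩ := riemann k F
  obtain ⟨Λ, i1, i2, b, ε, aug, hb, hε, haug, hord⟩ := exists_Lam k (p := p) m
  obtain ⟨w, w', hreg, hw1, hinv, hdet⟩ := exists_W Φ hF hS hS0 L (n := m) rfl hL b ε aug hb hε haug
  -- divisor supported on the ramification locus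
  obtain ⟨DE, hDE⟩ : ∃ DE : FF.Place k F →₀ ℤ, ∀ P, DE P = if (ofFF P).IsUnramified E then 0 else 1 := by
    refine ⟨∑ v ∈ hS.toFinset, Finsupp.single (toFF v) 1, fun P => ?_⟩
    simp only [Finsupp.finset_sum_apply]
    by_cases hP : (ofFF P).IsUnramified E
    · rw [if_pos hP]
      refine Finset.sum_eq_zero fun v hv => ?_
      rw [Finsupp.single_eq_of_ne]
      rintro rfl
      rw [ofFF_toFF] at hP
      rw [Set.Finite.mem_toFinset] at hv
      exact hv hP
    · rw [if_neg hP, Finset.sum_eq_single (ofFF P)]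
      · rw [toFF_ofFF, Finsupp.single_eq_same]
      · intro v hv hne
        rw [Finsupp.single_eq_of_ne]
        rintro rfl
        exact hne (ofFF_toFF v).symm
      · intro h
        exact absurd ((Set.Finite.mem_toFinset hS).2 hP) h
  have hDEnn : ∀ P, 0 ≤ DE P := by
    intro P
    rw [hDE]
    split_ifs <;> simp
  have hDE0 : 0 ≤ DE := hDEnn
  obtain ⟨v₁, hv₁⟩ := hS0
  have hDEv₁ : DE (toFF v₁) = 1 := by rw [hDE, ofFF_toFF, if_neg hv₁]
  have hDEdeg : 0 < ddeg DE := by
    have h1 : Finsupp.single (toFF v₁) 1 ≤ DE := by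
      intro P
      by_cases hP : P = toFF v₁
      · subst hP
        rw [Finsupp.single_eq_same, hDEv₁]
      · rw [Finsupp.single_eq_of_ne hP]; exact hDE0 P
    have h2 := ddeg_mono h1
    rw [ddeg_single] at h2
    have := deg_pos (toFF v₁)
    omega
  have hunr : ∀ P, DE P ≠ 1 → (ofFF P).IsUnramified E := by
    intro P hP
    by_contra h
    exact hP (by rw [hDE, if_neg h])
  have hregP : ∀ (P : FF.Place k F) (f : F), f ∈ (ofFF P).ring → P.Reg f := fun P f h => h
  -- the bound for the poles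
  choose c₁ hc₁ using fun i => mem_LL_of_bound (DE := DE) (f := w i)
    (fun P hP => hregP P _ (hreg _ (hunr P hP) i).1) hDEnn
  choose c₂ hc₂ using fun i => mem_LL_of_bound (DE := DE) (f := w' i)
    (fun P hP => hregP P _ (hreg _ (hunr P hP) i).2) hDEnn
  let c : ℤ := 1 + ∑ i, ((c₁ i : ℤ) + c₂ i)
  have hcge : ∀ i, (c₁ i : ℤ) + c₂ i ≤ c := by
    intro i
    have := Finset.single_le_sum (f := fun i => ((c₁ i : ℤ) + c₂ i)) (fun _ _ => by positivity)
      (Finset.mem_univ i)
    show _ ≤ 1 + ∑ i, ((c₁ i : ℤ) + c₂ i)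
    linarith
  have hc0 : 0 < c := by
    have : (0 : ℤ) ≤ ∑ i, ((c₁ i : ℤ) + c₂ i) := Finset.sum_nonneg fun _ _ => by positivity
    show (0 : ℤ) < 1 + ∑ i, ((c₁ i : ℤ) + c₂ i)
    linarith
  have hwLL : ∀ i, w i ∈ LL (c • DE) := fun i => hc₁ i c (by have := hcge i; have : (0:ℤ) ≤ c₂ i := by positivity
                                                             linarith [hcge i])
  have hwLL' : ∀ i, w' i ∈ LL (c • DE) := fun i => hc₂ i c (by have : (0:ℤ) ≤ c₁ i := by positivity
                                                               linarith [hcge i])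
  let Wf : ℕ → F := fun i => if h : i < p ^ (m + 1) then w ⟨i, h⟩ else 0
  let w'' : Fin (p ^ (m + 1)) → F := fun i => Wf (i + 1)
  have hw''LL : ∀ i, w'' i ∈ LL (c • DE) := by
    intro i
    show Wf (i + 1) ∈ _
    by_cases h : (i : ℕ) + 1 < p ^ (m + 1)
    · have : Wf (i + 1) = w ⟨i + 1, h⟩ := dif_pos h
      rw [this]; exact hwLL _
    · have : Wf (i + 1) = 0 := dif_neg h
      rw [this]; exact Submodule.zero_mem _
  have hunip : (∑ i, b i ⊗ₜ[k] w i) = 1 + ε • (∑ i, b i ⊗ₜ[k] w'' i) := by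
    have e1 : (∑ i, b i ⊗ₜ[k] w i) = ∑ i ∈ Finset.range (p ^ (m + 1)), (ε ^ i) ⊗ₜ[k] Wf i := by
      rw [Finset.sum_range]
      refine Finset.sum_congr rfl fun i _ => ?_
      have : Wf i = w i := dif_pos i.2
      rw [hb, this]
    have e2 : ε • (∑ i, b i ⊗ₜ[k] w'' i) = ∑ i ∈ Finset.range (p ^ (m + 1)), (ε ^ (i + 1)) ⊗ₜ[k] Wf (i + 1) := by
      rw [Finset.sum_range, Finset.smul_sum]
      refine Finset.sum_congr rfl fun i _ => ?_
      rw [hb, TensorProduct.smul_tmul', smul_eq_mul, ← pow_succ']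
    have e3 := Finset.sum_range_succ (fun i => (ε ^ i) ⊗ₜ[k] Wf i) (p ^ (m + 1))
    have e4 := Finset.sum_range_succ' (fun i => (ε ^ i) ⊗ₜ[k] Wf i) (p ^ (m + 1))
    have e5 : (ε ^ p ^ (m + 1)) ⊗ₜ[k] Wf (p ^ (m + 1)) = (0 : Λ ⊗[k] F) := by
      rw [hε, TensorProduct.zero_tmul]
    have e6 : (ε ^ 0) ⊗ₜ[k] Wf 0 = (1 : Λ ⊗[k] F) := by
      have h0 : 0 < p ^ (m + 1) := pow_pos hp.pos _
      have : Wf 0 = 1 := by
        have : Wf 0 = w ⟨0, h0⟩ := dif_pos h0
        rw [this]; exact hw1 _ rfl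
      rw [pow_zero, this]; rfl
    rw [e1, e2]
    beta_reduce at e3 e4
    rw [e5, add_zero] at e3
    rw [e6] at e4
    rw [← e3, e4, add_comm]
  let a : FF.Place k F → ℕ := fun P => res (m + 1) (coord Φ ((ofFF P).frob E))
  have hs : Setup b DE c w w' w'' ε (fun P => (1 + ε) ^ a P) γ N :=
    { E_nonneg := hDE0
      c_nonneg := hc0.le
      riemann := hR
      hw := hwLL
      hw' := hwLL'
      hw'' := hw''LL
      inv := hinv
      nil := ⟨_, hε⟩
      unip := hunip
      det := by
        intro P hP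
        have h1 := hdet (ofFF P) (hunr P (by rw [hP]; exact zero_ne_one))
        rw [toFF_ofFF] at h1
        exact h1 }
  have hndA : ∀ (X : FF.Place k F →₀ ℕ) P, nd X P = (X P : ℤ) := fun X P => by simp [nd]
  have hfo1 : IsOfFinOrder (1 + ε) := by
    rw [← orderOf_pos_iff, hord]; exact pow_pos hp.pos _
  have hfo2 : IsOfFinOrder z := by
    rw [← orderOf_pos_iff, ← hz.eq_orderOf]; exact pow_pos hp.pos _
  have hrec : ∀ D D' : FF.Place k F →₀ ℕ, (∀ P, DE P ≠ 0 → D P = 0) → (∀ P, DE P ≠ 0 → D' P = 0) →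
      ∀ g : F, g ≠ 0 → divisor k g = nd D' - nd D → g - 1 ∈ LL (nd D - (3 * c) • DE) →
        chiD (fun P => z ^ a P) D = chiD (fun P => z ^ a P) D' := by
    intro D D' hD hD' g hg hdiv hg1
    have h1 := recip hs hDEdeg (fun P hP => by rw [hndA, hD P hP]; rfl)
      (fun P hP => by rw [hndA, hD' P hP]; rfl) hg hdiv hg1
    rw [chiD_pow, chiD_pow] at h1 ⊢
    rw [hfo1.pow_eq_pow_iff_modEq, hord] at h1
    rw [hfo2.pow_eq_pow_iff_modEq, ← hz.eq_orderOf]
    exact h1
  -- the two test divisors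
  have hdegv : ∀ v : Place k F, (toFF v).deg = v.deg := fun v => toFF_deg v
  have hsupp : ∀ (v : Place k F) (hv : v.IsUnramified E) (n : ℕ), ∀ P, DE P ≠ 0 → Finsupp.single (toFF v) n P = 0 := by
    intro v hv n P hP
    rw [Finsupp.single_eq_of_ne]
    rintro rfl
    apply hP
    rw [hDE, ofFF_toFF, if_pos hv]
  have hBdeg : ddeg (nd (Finsupp.single (toFF v) v'.deg)) = ddeg (nd (Finsupp.single (toFF v') v.deg)) := by
    rw [nd_single, nd_single, ddeg_single, ddeg_single, hdegv, hdegv]; ring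
  have hχ : chiD (fun P => z ^ a P) (Finsupp.single (toFF v) v'.deg) ≠
      chiD (fun P => z ^ a P) (Finsupp.single (toFF v') v.deg) := by
    rw [chiD_single, chiD_single, ← pow_mul, ← pow_mul]
    intro h
    rw [hfo2.pow_eq_pow_iff_modEq, ← hz.eq_orderOf] at h
    apply hne
    have ha : ∀ v : Place k F, a (toFF v) = res (m + 1) (coord Φ (v.frob E)) := by
      intro v
      show res (m + 1) (coord Φ ((ofFF (toFF v)).frob E)) = _
      rw [ofFF_toFF]
    rw [ha, ha] at h
    obtain ⟨x, hx⟩ := exists_mul_pow (m + 1) (coord Φ (v.frob E))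
    obtain ⟨y, hy⟩ := exists_mul_pow (m + 1) (coord Φ (v'.frob E))
    have h2 := (Nat.modEq_iff_dvd.1 h.symm)
    obtain ⟨t, ht⟩ := h2
    have ht' : ((res (m + 1) (coord Φ (v.frob E)) : ℤ_[p]) * v'.deg - res (m + 1) (coord Φ (v'.frob E)) * v.deg) =
        p ^ (m + 1) * (t : ℤ_[p]) := by
      have := congrArg (Int.cast : ℤ → ℤ_[p]) ht
      push_cast at this
      exact this
    refine ⟨t + v'.deg * x - v.deg * y, ?_⟩
    linear_combination (v'.deg : ℤ_[p]) * hx - (v.deg : ℤ_[p]) * hy + ht'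
  -- the vanishing of the coefficients
  have hd : ∀ v : {v : Place k F // v.IsUnramified E}, v.1.deg ≠ 0 := fun v => deg_ne_zero hF v.1
  have hfin : ∀ j, {v : {v : Place k F // v.IsUnramified E} | v.1.deg ≤ j}.Finite := fun j =>
    (finite_deg_le hF j).preimage Subtype.val_injective.injOn
  let e : {v : Place k F // v.IsUnramified E} → FF.Place k F := fun v => toFF v.1
  have he : Function.Injective e := by
    intro x y h
    apply Subtype.ext
    have := congrArg ofFF h
    rwa [ofFF_toFF, ofFF_toFF] at this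
  have hvan : ∀ M : ℕ, N ≤ (M : ℤ) - ddeg ((3 * c) • DE) → PowerSeries.coeff M
      (eulerL (fun v : {v : Place k F // v.IsUnramified E} => coord Φ (v.1.frob E))
          (fun v => v.1.deg) (m + 1) z) = 0 := by
    intro M hM
    have e1 : eulerL (fun v : {v : Place k F // v.IsUnramified E} => coord Φ (v.1.frob E))
          (fun v => v.1.deg) (m + 1) z = ∏' v : {v : Place k F // v.IsUnramified E},
            geom (z ^ (res (m + 1) (coord Φ (v.1.frob E)))) v.1.deg := by
      unfold eulerL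
      congr 1
      funext v
      rw [inv_eq_geom _ (hd v)]
    obtain ⟨𝒟, h𝒟, hcoef⟩ := coeff_euler_divisors (p := p)
      (fun v : {v : Place k F // v.IsUnramified E} => v.1.deg) hd hfin M
    rw [e1, hcoef]
    let 𝒟F := 𝒟.image (Finsupp.mapDomain e)
    have hsum : ∀ D : {v : Place k F // v.IsUnramified E} →₀ ℕ,
        ddeg (nd (Finsupp.mapDomain e D)) = ((D.sum fun v n => n * v.1.deg : ℕ) : ℤ) := by
      intro D
      rw [ddeg_nd, Finsupp.sum_mapDomain_index (by simp) (by intros; ring)]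
      simp only [e, hdegv]
    have hmem : ∀ D, D ∈ 𝒟F ↔ (∀ P, DE P ≠ 0 → D P = 0) ∧ ddeg (nd D) = (M : ℤ) := by
      intro D
      rw [Finset.mem_image]
      constructor
      · rintro ⟨D₀, hD₀, rfl⟩
        refine ⟨fun P hP => ?_, by rw [hsum, (h𝒟 D₀).1 hD₀]⟩
        apply Finsupp.mapDomain_notin_range
        rintro ⟨x, rfl⟩
        apply hP
        rw [hDE, ofFF_toFF, if_pos x.2]
      · rintro ⟨h1, h2⟩
        have hsub : (D.support : Set (FF.Place k F)) ⊆ Set.range e := by
          intro P hP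
          have hP' : D P ≠ 0 := Finsupp.mem_support_iff.1 hP
          have hPE : DE P = 0 := by
            by_contra h; exact hP' (h1 P h)
          refine ⟨⟨ofFF P, hunr P (by rw [hPE]; exact zero_ne_one)⟩, toFF_ofFF P⟩
        have h3 := Finsupp.mapDomain_comapDomain e he D hsub
        refine ⟨Finsupp.comapDomain e D he.injOn, ?_, h3⟩
        rw [h𝒟]
        have h4 := hsum (Finsupp.comapDomain e D he.injOn)
        rw [h3, h2] at h4
        exact_mod_cast h4.symm
    have h5 := charsum_eq_zero hR hDE0 (c := 3 * c) (by linarith) (P₀ := toFF v₁) (by rw [hDEv₁]; exact one_pos)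
      (fun P => z ^ a P) hrec (hsupp v hv _) (hsupp v' hv' _) hBdeg hχ 𝒟F hmem hM
    rw [← h5, Finset.sum_image (fun x _ y _ h => Finsupp.mapDomain_injective he h)]
    refine Finset.sum_congr rfl fun D _ => ?_
    unfold chiD
    rw [Finsupp.prod_mapDomain_index (fun _ => pow_zero _) (fun _ _ _ => pow_add _ _ _)]
    refine Finset.prod_congr rfl fun v _ => ?_
    simp only [a, e, ofFF_toFF]
  refine ⟨PowerSeries.trunc (N + ddeg ((3 * c) • DE)).toNat (eulerL (fun v : {v : Place k F // v.IsUnramified E} => coord Φ (v.1.frob E))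
          (fun v => v.1.deg) (m + 1) z), ?_⟩
  ext M
  rw [Polynomial.coeff_coe, PowerSeries.coeff_trunc]
  split_ifs with h
  · rfl
  · apply hvan
    have := Int.self_le_toNat (N + ddeg ((3 * c) • DE))
    push Not at h
    have h' : ((N + ddeg ((3 * c) • DE)).toNat : ℤ) ≤ M := by exact_mod_cast h
    linarith

end main

end Pool.Agent.H707R3
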