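import Pool.Agent.H707R3.LinDet
import Pool.Agent.H707R3.FFRiemann

/-!
A reciprocity law, proved by determinants on Riemann-Roch spaces.
-/

set_option linter.all false
set_option linter.overlappingInstances false

open scoped TensorProduct
open FF FFP

namespace Pool.Agent.H707R3

section general

variable {k K : Type*} [Field k] [Field K] [Algebra k K]

lemma exists_proj (P C : Submodule k K) (h : Disjoint P C) :
    ∃ p : K →ₗ[k] K, (∀ x ∈ P, p x = x) ∧ ∀ x ∈ C, p x = 0 := by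
  have hinj : LinearMap.ker (C.mkQ.comp P.subtype) = ⊥ := by
    rw [LinearMap.ker_eq_bot']
    intro x hx
    have h1 : (x : K) ∈ C := by
      rwa [LinearMap.comp_apply, Submodule.mkQ_apply, Submodule.Quotient.mk_eq_zero] at hx
    have h2 := (Submodule.disjoint_def.1 h) x x.2 h1
    exact Subtype.ext h2
  obtain ⟨s, hs⟩ := LinearMap.exists_leftInverse_of_injective _ hinj
  refine ⟨P.subtype.comp (s.comp C.mkQ), fun x hx => ?_, fun x hx => ?_⟩
  · have := LinearMap.congr_fun hs ⟨x, hx⟩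
    exact congrArg Subtype.val this
  · have : C.mkQ x = 0 := by rw [Submodule.mkQ_apply, Submodule.Quotient.mk_eq_zero]; exact hx
    simp [this]

lemma sup_eq_of_finrank {P₀ P₁ C : Submodule k K} [FiniteDimensional k P₁] (h0 : P₀ ≤ P₁) (hC : C ≤ P₁)
    (hd : Disjoint P₀ C) (hf : Module.finrank k C + Module.finrank k P₀ = Module.finrank k P₁) :
    P₀ ⊔ C = P₁ := by
  haveI : FiniteDimensional k P₀ := Submodule.finiteDimensional_of_le h0
  haveI : FiniteDimensional k C := Submodule.finiteDimensional_of_le hC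
  refine Submodule.eq_of_le_of_finrank_eq (sup_le h0 hC) ?_
  have := Submodule.finrank_sup_add_finrank_inf_eq P₀ C
  rw [hd.eq_bot, finrank_bot, add_zero] at this
  omega

lemma exists_lead (P : Place k K) (t : K) (n : ℤ) :
    ∃ ℓ : K →ₗ[k] P.RF, ∀ f, P.Reg (f * t ^ n) → ℓ f = P.red (f * t ^ n) := by
  let M : Submodule k K :=
    { carrier := {f | P.Reg (f * t ^ n)}
      zero_mem' := by simp [P.reg_zero]
      add_mem' := by
        intro a b ha hb
        simp only [Set.mem_setOf_eq, add_mul]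
        exact P.reg_add ha hb
      smul_mem' := by
        intro c a ha
        simp only [Set.mem_setOf_eq, Algebra.smul_def, mul_assoc]
        exact P.reg_mul (P.reg_const c) ha }
  let φ : M →ₗ[k] P.RF :=
    { toFun := fun f => P.red (f.1 * t ^ n)
      map_add' := by
        intro f g
        rw [← P.red_add f.2 g.2, ← add_mul]; rfl
      map_smul' := by
        intro c f
        rw [RingHom.id_apply, Algebra.smul_def c (P.red _), Place.algebraMap_RF,
          ← P.red_mul (P.reg_const c) f.2, ← mul_assoc, ← Algebra.smul_def]; rfl }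
  obtain ⟨ℓ, hℓ⟩ := LinearMap.exists_extend φ
  exact ⟨ℓ, fun f hf => LinearMap.congr_fun hℓ ⟨f, hf⟩⟩

variable {Λ : Type*} [CommRing Λ] [Algebra k Λ] {ι : Type*} [Fintype ι] (b : Module.Basis ι k Λ)

/-- Multiplication maps base changes of subspaces to base changes of subspaces. -/
lemma bc_mul {V V' : Submodule k K} {w : ι → K} (h : ∀ i, ∀ v ∈ V, w i * v ∈ V')
    {x : Λ ⊗[k] K} (hx : x ∈ V.baseChange Λ) : (∑ i, b i ⊗ₜ[k] w i) * x ∈ V'.baseChange Λ := by
  rw [Finset.sum_mul]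
  refine Submodule.sum_mem _ fun i _ => ?_
  have h1 : (b i ⊗ₜ[k] w i) * x = b i • ((LinearMap.mulLeft k (w i)).baseChange Λ x) := by
    induction x using TensorProduct.induction_on with
    | zero => simp
    | tmul a y => simp [TensorProduct.smul_tmul']
    | add x y hx' hy' =>
      rw [mul_add, map_add, smul_add]
      congr 1
      · clear hx hy'
        have : ∀ x : Λ ⊗[k] K, (b i ⊗ₜ[k] w i) * x = b i • ((LinearMap.mulLeft k (w i)).baseChange Λ x) := by
          intro x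
          induction x using TensorProduct.induction_on with
          | zero => simp
          | tmul a y => simp [TensorProduct.smul_tmul']
          | add x y hx hy => rw [mul_add, map_add, smul_add, hx, hy]
        exact this x
      · clear hx hx'
        have : ∀ x : Λ ⊗[k] K, (b i ⊗ₜ[k] w i) * x = b i • ((LinearMap.mulLeft k (w i)).baseChange Λ x) := by
          intro x
          induction x using TensorProduct.induction_on with
          | zero => simp
          | tmul a y => simp [TensorProduct.smul_tmul']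
          | add x y hx hy => rw [mul_add, map_add, smul_add, hx, hy]
        exact this y
  rw [h1]
  exact Submodule.smul_mem _ _ (bc_map Λ _ (fun v hv => h i v hv) hx)

end general

section recip

variable {k K : Type*} [Field k] [Field K] [Algebra k K] [PerfectField k] [IsFF k K]
  {Λ : Type*} [CommRing Λ] [Algebra k Λ] {ι : Type*} [Fintype ι] (b : Module.Basis ι k Λ)

lemma LL_mul {D D' : Place k K →₀ ℤ} {f g : K} (hf : f ∈ LL D) (hg : g ∈ LL D') : f * g ∈ LL (D + D') := by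
  rw [mem_LL] at hf hg ⊢
  rcases hf with rfl | hf
  · left; simp
  rcases hg with rfl | hg
  · left; simp
  by_cases hf0 : f = 0
  · left; simp [hf0]
  by_cases hg0 : g = 0
  · left; simp [hg0]
  right
  intro P
  rw [P.ord_mul hf0 hg0, Finsupp.add_apply]
  have := hf P; have := hg P; omega

lemma finrank_LL {γ N : ℤ} (hR : ∀ D : Place k K →₀ ℤ, N ≤ ddeg D → ell D = ddeg D - γ)
    {A : Place k K →₀ ℤ} (hA : N ≤ ddeg A) : (Module.finrank k (LL A) : ℤ) = ddeg A - γ := hR A hA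

omit [PerfectField k] [IsFF k K] in
lemma dt_eq {V V' : Submodule k K} (hV : V = V') {X : (Λ ⊗[k] K) →ₗ[Λ] (Λ ⊗[k] K)}
    (h : ∀ x ∈ V.baseChange Λ, X x ∈ V.baseChange Λ) (h' : ∀ x ∈ V'.baseChange Λ, X x ∈ V'.baseChange Λ) :
    dt V X h = dt V' X h' := by
  subst hV; rfl

/-- The product of the values of `χ` over an effective divisor. -/
noncomputable def chiD {Λ : Type*} [CommMonoid Λ] (χ : Place k K → Λ) (D : Place k K →₀ ℕ) : Λ :=
  D.prod fun P n => χ P ^ n

omit [PerfectField k] [IsFF k K] in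
lemma chiD_add_single {Λ : Type*} [CommMonoid Λ] (χ : Place k K → Λ) (D : Place k K →₀ ℕ) (P : Place k K) :
    chiD χ (D + Finsupp.single P 1) = chiD χ D * χ P := by
  classical
  unfold chiD
  have h1 : (Finsupp.single P 1).prod (fun P n => χ P ^ n) = χ P := by
    rw [Finsupp.prod_single_index]
    · exact pow_one _
    · exact pow_zero _
  rw [Finsupp.prod_add_index' (fun _ => pow_zero _) (fun _ _ _ => pow_add _ _ _), h1]

/-- The data for the determinants. -/
structure Setup (E : Place k K →₀ ℤ) (c : ℤ) (w w' w'' : ι → K) (ν : Λ) (χ : Place k K → Λ) (γ N : ℤ) : Prop where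
  E_nonneg : 0 ≤ E
  c_nonneg : 0 ≤ c
  riemann : ∀ D : Place k K →₀ ℤ, N ≤ ddeg D → ell D = ddeg D - γ
  hw : ∀ i, w i ∈ LL (c • E)
  hw' : ∀ i, w' i ∈ LL (c • E)
  hw'' : ∀ i, w'' i ∈ LL (c • E)
  inv : (∑ i, b i ⊗ₜ[k] w i) * (∑ i, b i ⊗ₜ[k] w' i) = 1
  nil : IsNilpotent ν
  unip : (∑ i, b i ⊗ₜ[k] w i) = 1 + ν • (∑ i, b i ⊗ₜ[k] w'' i)
  det : ∀ P, E P = 0 → LinearMap.det (LinearMap.mulLeft Λ (∑ i, b i ⊗ₜ[k] P.red (w i) : Λ ⊗[k] P.RF)) = χ P

variable {b} {E : Place k K →₀ ℤ} {c : ℤ} {w w' w'' : ι → K} {ν : Λ} {χ : Place k K → Λ} {γ N : ℤ}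

/-- The operator `p ∘ W`. -/
noncomputable def opX (b : Module.Basis ι k Λ) (w : ι → K) (p : K →ₗ[k] K) : (Λ ⊗[k] K) →ₗ[Λ] (Λ ⊗[k] K) :=
  (p.baseChange Λ).comp (LinearMap.mulLeft Λ (∑ i, b i ⊗ₜ[k] w i))

omit [PerfectField k] [IsFF k K] in
lemma opX_apply (p : K →ₗ[k] K) (x : Λ ⊗[k] K) :
    opX b w p x = p.baseChange Λ ((∑ i, b i ⊗ₜ[k] w i) * x) := rfl

/-- Conditions on a complement. -/
structure Comp (E : Place k K →₀ ℤ) (c j : ℤ) (D : Place k K →₀ ℤ) (C : Submodule k K) (p : K →ₗ[k] K) (N : ℤ) :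
    Prop where
  C_le : C ≤ LL (-D + (j + c) • E)
  disj : Disjoint (LL (-D + j • E)) C
  card : Module.finrank k C + Module.finrank k (LL (-D + j • E)) = Module.finrank k (LL (-D + (j + c) • E))
  p_id : ∀ x ∈ LL (j • E), p x = x
  p_C : ∀ x ∈ C, p x = 0
  deg : N ≤ ddeg (-D + j • E)

variable (hs : Setup b E c w w' w'' ν χ γ N)

omit [PerfectField k] [IsFF k K] in
lemma ddeg_le_aux : True := trivial

include hs in
lemma Comp.decomp {j : ℤ} {D : Place k K →₀ ℤ} {C : Submodule k K} {p : K →ₗ[k] K}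
    (hc : Comp E c j D C p N) (hD : ∀ P, E P ≠ 0 → D P = 0) {A : Place k K →₀ ℤ}
    (h1 : -D ≤ A) (h2 : A ≤ 0) : LL (A + j • E) ⊔ C = LL (A + (j + c) • E) := by
  have hcE : 0 ≤ c • E := by
    intro P
    simp only [Finsupp.smul_apply, Finsupp.coe_zero, Pi.zero_apply, smul_eq_mul]
    exact mul_nonneg hs.c_nonneg (hs.E_nonneg P)
  have hle : ∀ A : Place k K →₀ ℤ, A + j • E ≤ A + (j + c) • E := by
    intro A
    rw [add_smul, ← add_assoc]
    exact le_add_of_nonneg_right hcE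
  have hdeg : ∀ A : Place k K →₀ ℤ, ddeg (A + (j + c) • E) = ddeg (A + j • E) + ddeg (c • E) := by
    intro A
    rw [add_smul, ← add_assoc, ddeg_add]
  have hdcE : 0 ≤ ddeg (c • E) := ddeg_nonneg hcE
  have hN1 : N ≤ ddeg (A + j • E) := hc.deg.trans (ddeg_mono (add_le_add_left h1 _))
  refine sup_eq_of_finrank (LL_mono (hle A)) (hc.C_le.trans (LL_mono (add_le_add_left h1 _))) ?_ ?_
  · rw [Submodule.disjoint_def]
    intro x hx hxC
    refine (Submodule.disjoint_def.1 hc.disj) x ?_ hxC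
    have h3 := hc.C_le hxC
    rw [mem_LL] at hx h3 ⊢
    rcases hx with h0 | hx
    · exact Or.inl h0
    rcases h3 with h0 | h3
    · exact Or.inl h0
    right
    intro P
    have h4 := hx P
    have h5 := h3 P
    have h6 := h2 P
    simp only [Finsupp.add_apply, Finsupp.neg_apply, Finsupp.smul_apply, smul_eq_mul, Finsupp.coe_zero,
      Pi.zero_apply] at h4 h5 h6 ⊢
    by_cases hE : E P = 0
    · rw [hE] at h5 ⊢; simpa using h5
    · have := hD P hE
      rw [this]; linarith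
  · have e1 := finrank_LL hs.riemann hN1
    have e2 := finrank_LL hs.riemann (A := A + (j + c) • E) (by rw [hdeg]; linarith)
    have e3 := finrank_LL hs.riemann hc.deg
    have e4 := finrank_LL hs.riemann (A := -D + (j + c) • E) (by rw [hdeg]; linarith [hc.deg])
    have e5 := hc.card
    rw [hdeg] at e2 e4
    omega

include hs in
lemma Comp.map {j : ℤ} {D : Place k K →₀ ℤ} {C : Submodule k K} {p : K →ₗ[k] K}
    (hc : Comp E c j D C p N) (hD : ∀ P, E P ≠ 0 → D P = 0) {A : Place k K →₀ ℤ}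
    (h1 : -D ≤ A) (h2 : A ≤ 0) {x : K} (hx : x ∈ LL (A + (j + c) • E)) : p x ∈ LL (A + j • E) := by
  rw [← hc.decomp hs hD h1 h2] at hx
  obtain ⟨a, ha, y, hy, rfl⟩ := Submodule.mem_sup.1 hx
  rw [map_add, hc.p_C y hy, add_zero, hc.p_id a]
  · exact ha
  · refine LL_mono ?_ ha
    simpa using add_le_add_left h2 (j • E)

include hs in
lemma mulW {w₁ : ι → K} (hw₁ : ∀ i, w₁ i ∈ LL (c • E)) {A : Place k K →₀ ℤ} {j : ℤ} {x : Λ ⊗[k] K}
    (hx : x ∈ (LL (A + j • E)).baseChange Λ) :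
    (∑ i, b i ⊗ₜ[k] w₁ i) * x ∈ (LL (A + (j + c) • E)).baseChange Λ := by
  refine bc_mul b (fun i v hv => ?_) hx
  have := LL_mul (hw₁ i) hv
  rwa [show c • E + (A + j • E) = A + (j + c) • E by rw [add_smul]; abel] at this

include hs in
lemma Comp.opX_mem {j : ℤ} {D : Place k K →₀ ℤ} {C : Submodule k K} {p : K →ₗ[k] K}
    (hc : Comp E c j D C p N) (hD : ∀ P, E P ≠ 0 → D P = 0) {A : Place k K →₀ ℤ}
    (h1 : -D ≤ A) (h2 : A ≤ 0) {w₁ : ι → K} (hw₁ : ∀ i, w₁ i ∈ LL (c • E)) :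
    ∀ x ∈ (LL (A + j • E)).baseChange Λ, opX b w₁ p x ∈ (LL (A + j • E)).baseChange Λ := by
  intro x hx
  rw [opX_apply]
  exact bc_map Λ p (fun y hy => hc.map hs hD h1 h2 hy) (mulW hs hw₁ hx)

include hs in
/-- One step of the chain. -/
lemma Comp.step {j : ℤ} {D : Place k K →₀ ℤ} {C : Submodule k K} {p : K →ₗ[k] K}
    (hc : Comp E c j D C p N) (hD : ∀ P, E P ≠ 0 → D P = 0) {A B : Place k K →₀ ℤ} (P : Place k K)
    (hP : E P = 0) (hB : B = A + Finsupp.single P 1)
    (h1 : -D ≤ A) (h2 : B ≤ 0)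
    (h3 : ∀ x ∈ (LL (B + j • E)).baseChange Λ,
      opX b w p x ∈ (LL (B + j • E)).baseChange Λ)
    (h4 : ∀ x ∈ (LL (A + j • E)).baseChange Λ, opX b w p x ∈ (LL (A + j • E)).baseChange Λ) :
    dt (LL (B + j • E)) (opX b w p) h3 = dt (LL (A + j • E)) (opX b w p) h4 * χ P := by
  classical
  have hs1 : (0 : Place k K →₀ ℤ) ≤ Finsupp.single P 1 := by
    intro Q
    by_cases hQ : Q = P
    · subst hQ; simp
    · rw [Finsupp.single_eq_of_ne hQ]; simp
  have hA0 : A ≤ B := by rw [hB]; exact le_add_of_nonneg_right hs1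
  have hBP : B P = A P + 1 := by rw [hB]; simp
  have hBQ : ∀ Q, Q ≠ P → B Q = A Q := by intro Q hQ; rw [hB]; simp [Finsupp.single_eq_of_ne hQ]
  have hA : A ≤ 0 := hA0.trans h2
  have h1' : -D ≤ B := h1.trans hA0
  obtain ⟨t, ht0, ht⟩ := P.surj
  obtain ⟨ℓ, hℓ⟩ := exists_lead P t (A P + 1)
  have hreg : ∀ j' : ℤ, ∀ f ∈ LL (B + j' • E), P.Reg (f * t ^ (A P + 1)) := by
    intro j' f hf
    by_cases hf0 : f = 0
    · left; simp [hf0]
    · right
      have h5 := (hf.resolve_left hf0) P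
      rw [P.ord_mul hf0 (zpow_ne_zero _ ht0), P.ord_zpow, ht]
      simp only [Finsupp.add_apply, hBP, Finsupp.smul_apply, hP, smul_zero, add_zero] at h5
      linarith
  have hker : ∀ j' : ℤ, ∀ x ∈ LL (B + j' • E), ℓ x = 0 ↔ x ∈ LL (A + j' • E) := by
    intro j' f hf
    rw [hℓ f (hreg j' f hf), P.red_eq_zero_iff (hreg j' f hf)]
    by_cases hf0 : f = 0
    · simp [hf0]
    · rw [P.ord_mul hf0 (zpow_ne_zero _ ht0), P.ord_zpow, ht]
      have h5 : f * t ^ (A P + 1) ≠ 0 := mul_ne_zero hf0 (zpow_ne_zero _ ht0)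
      simp only [h5, false_or]
      rw [mem_LL]
      simp only [hf0, false_or]
      constructor
      · intro h6 Q
        have h7 := (hf.resolve_left hf0) Q
        by_cases hQ : Q = P
        · subst hQ
          simp only [Finsupp.add_apply, Finsupp.smul_apply, hP, smul_zero, add_zero]
          omega
        · simp only [Finsupp.add_apply, hBQ Q hQ] at h7 ⊢
          linarith
      · intro h6
        have h7 := h6 P
        simp only [Finsupp.add_apply, Finsupp.smul_apply, hP, smul_zero, add_zero] at h7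
        omega
  have hsurj : ∀ y, ∃ x ∈ LL (B + j • E), ℓ x = y := by
    let φ : LL (B + j • E) →ₗ[k] P.RF := ℓ.comp (Submodule.subtype _)
    have hle : LL (A + j • E) ≤ LL (B + j • E) := LL_mono (add_le_add_left hA0 _)
    have hk : LinearMap.ker φ = (LL (A + j • E)).comap (LL (B + j • E)).subtype := by
      ext f
      rw [LinearMap.mem_ker, Submodule.mem_comap]
      exact hker j f f.2
    let e : LinearMap.ker φ ≃ₗ[k] LL (A + j • E) :=
      (LinearEquiv.ofEq _ _ hk).trans (Submodule.comapSubtypeEquivOfLe hle)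
    have h5 := LinearMap.finrank_range_add_finrank_ker φ
    rw [e.finrank_eq] at h5
    have hN1 : N ≤ ddeg (A + j • E) := hc.deg.trans (ddeg_mono (add_le_add_left h1 _))
    have hd : ddeg (B + j • E) = ddeg (A + j • E) + P.deg := by
      rw [hB, add_right_comm, ddeg_add, ddeg_single, one_mul]
    have e1 := finrank_LL hs.riemann hN1
    have e2 := finrank_LL hs.riemann (A := B + j • E) (by rw [hd]; exact hN1.trans (le_add_of_nonneg_right (Int.natCast_nonneg _)))
    rw [hd] at e2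
    have h6 : Module.finrank k (LinearMap.range φ) = Module.finrank k P.RF := by
      have h7 : (P.deg : ℤ) = (Module.finrank k P.RF : ℤ) := rfl
      omega
    have h7 : LinearMap.range φ = ⊤ := Submodule.eq_top_of_finrank_eq h6
    intro y
    obtain ⟨x, hx⟩ := LinearMap.range_eq_top.1 h7 y
    exact ⟨x, x.2, hx⟩
  rw [dt_exact b (opX b w p) h3 h4 (LL_mono (add_le_add_left hA0 _)) ℓ hsurj (hker j)
    (LinearMap.mulLeft Λ (∑ i, b i ⊗ₜ[k] P.red (w i) : Λ ⊗[k] P.RF)) ?_, hs.det P hP]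
  intro x hx
  rw [opX_apply, ← LinearMap.comp_apply, ← LinearMap.baseChange_comp]
  have hWx := mulW (j := j) hs hs.hw hx
  rw [bc_congr Λ (ℓ.comp p) ℓ ?_ hWx]
  · obtain ⟨v, hv, rfl⟩ := (mem_bc b).1 hx
    rw [LinearMap.mulLeft_apply, Finset.sum_mul, map_sum, Finset.sum_mul]
    refine Finset.sum_congr rfl fun i _ => ?_
    rw [Finset.mul_sum, map_sum, map_sum, Finset.mul_sum]
    refine Finset.sum_congr rfl fun l _ => ?_
    rw [Algebra.TensorProduct.tmul_mul_tmul, LinearMap.baseChange_tmul, LinearMap.baseChange_tmul,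
      Algebra.TensorProduct.tmul_mul_tmul]
    congr 1
    have hwreg : P.Reg (w i) := by
      rcases (hs.hw i) with h0 | h0
      · exact Or.inl h0
      · right
        have := h0 P
        simpa [hP] using this
    rw [hℓ _ (hreg j _ (hv l)), ← P.red_mul hwreg (hreg j _ (hv l)), ← mul_assoc, hℓ]
    rw [mul_assoc]
    exact P.reg_mul hwreg (hreg j _ (hv l))
  · intro y hy
    rw [← hc.decomp hs hD h1' h2] at hy
    obtain ⟨a, ha, z, hz, rfl⟩ := Submodule.mem_sup.1 hy
    have h5 : p a = a := hc.p_id a (LL_mono (by simpa using add_le_add_left h2 (j • E)) ha)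
    have h6 : ℓ z = 0 := by
      rw [hker (j + c)]
      · exact LL_mono (add_le_add_left h1 _) (hc.C_le hz)
      · exact LL_mono (add_le_add_left h1' _) (hc.C_le hz)
    rw [LinearMap.comp_apply, map_add p, hc.p_C z hz, h5, add_zero, map_add, h6, add_zero]

include hs in
lemma Comp.chain {j : ℤ} {D : Place k K →₀ ℤ} {C : Submodule k K} {p : K →ₗ[k] K}
    (hc : Comp E c j D C p N) (hD : ∀ P, E P ≠ 0 → D P = 0) (n : ℕ) :
    ∀ D₁ : Place k K →₀ ℕ, D₁.degree = n → nd D₁ ≤ D →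
    ∀ (h3 : ∀ x ∈ (LL (-D + nd D₁ + j • E)).baseChange Λ,
      opX b w p x ∈ (LL (-D + nd D₁ + j • E)).baseChange Λ)
    (h4 : ∀ x ∈ (LL (-D + j • E)).baseChange Λ, opX b w p x ∈ (LL (-D + j • E)).baseChange Λ),
    dt (LL (-D + nd D₁ + j • E)) (opX b w p) h3 = dt (LL (-D + j • E)) (opX b w p) h4 * chiD χ D₁ := by
  classical
  induction n with
  | zero =>
    intro D₁ h1 h2 h3 h4
    have h5 : D₁ = 0 := (Finsupp.degree_eq_zero_iff _).1 h1
    subst h5
    simp only [chiD, Finsupp.prod_zero_index, mul_one]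
    exact dt_eq (by rw [map_zero, add_zero]) _ _
  | succ n ih =>
    intro D₁ h1 h2 h3 h4
    have h5 : D₁ ≠ 0 := by rintro rfl; simp at h1
    obtain ⟨P, hP⟩ := Finsupp.support_nonempty_iff.2 h5
    rw [Finsupp.mem_support_iff] at hP
    obtain ⟨D₂, rfl⟩ : ∃ D₂, D₁ = D₂ + Finsupp.single P 1 := by
      refine ⟨D₁ - Finsupp.single P 1, (tsub_add_cancel_of_le ?_).symm⟩
      rw [Finsupp.single_le_iff]; omega
    have hdeg : D₂.degree = n := by
      rw [map_add, Finsupp.degree_single] at h1; omega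
    have hnd : nd (D₂ + Finsupp.single P 1) = nd D₂ + Finsupp.single P (1 : ℤ) := by
      rw [map_add, nd_single]; simp
    have hD₂ : nd D₂ ≤ D := by
      refine le_trans ?_ h2
      rw [hnd]
      intro Q
      simp only [Finsupp.add_apply]
      by_cases hQ : Q = P
      · subst hQ; simp
      · rw [Finsupp.single_eq_of_ne hQ]; simp
    have hPE : E P = 0 := by
      by_contra hE
      have h6 := h2 P
      rw [hD P hE, hnd] at h6
      have h7 : (0 : ℤ) ≤ nd D₂ P := by simp [nd]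
      simp only [Finsupp.add_apply, Finsupp.single_eq_same] at h6
      linarith
    have hle1 : -D ≤ -D + nd D₂ := le_add_of_nonneg_right (by intro Q; simp [nd])
    have hle2 : -D + nd (D₂ + Finsupp.single P 1) ≤ 0 := by
      simpa using add_le_add_right h2 (-D)
    have hle3 : -D + nd D₂ ≤ 0 := by simpa using add_le_add_right hD₂ (-D)
    have h6 := hc.opX_mem (b := b) hs hD hle1 hle3 hs.hw
    have h7 := ih D₂ hdeg hD₂ h6 h4
    have h9 := hc.step hs hD P hPE (by rw [hnd, add_assoc]) hle1 hle2 h3 h6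
    rw [chiD_add_single, ← mul_assoc, ← h7, ← h9]

omit [PerfectField k] [IsFF k K] in
lemma exists_compl {Q₀ Q₁ : Submodule k K} [FiniteDimensional k Q₁] (h : Q₀ ≤ Q₁) :
    ∃ C ≤ Q₁, Disjoint Q₀ C ∧ Module.finrank k C + Module.finrank k Q₀ = Module.finrank k Q₁ := by
  obtain ⟨T, hT⟩ := Submodule.exists_isCompl Q₀
  haveI : FiniteDimensional k Q₀ := Submodule.finiteDimensional_of_le h
  haveI : FiniteDimensional k (T ⊓ Q₁ : Submodule k K) := Submodule.finiteDimensional_of_le inf_le_right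
  have hd : Disjoint Q₀ (T ⊓ Q₁) := hT.disjoint.mono_right inf_le_left
  refine ⟨T ⊓ Q₁, inf_le_right, hd, ?_⟩
  have h1 : Q₀ ⊔ T ⊓ Q₁ = Q₁ := by
    rw [← sup_inf_assoc_of_le T h, hT.sup_eq_top, top_inf_eq]
  have h2 := Submodule.finrank_sup_add_finrank_inf_eq Q₀ (T ⊓ Q₁)
  rw [h1, hd.eq_bot, finrank_bot, add_zero] at h2
  omega

lemma mul_mem_iff {g : K} (hg : g ≠ 0) (A : Place k K →₀ ℤ) (x : K) :
    g * x ∈ LL A ↔ x ∈ LL (A + divisor k g) := by
  rw [mem_LL, mem_LL]
  by_cases hx : x = 0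
  · simp [hx]
  have hgx : g * x ≠ 0 := mul_ne_zero hg hx
  simp only [hx, hgx, false_or]
  refine forall_congr' fun P => ?_
  rw [P.ord_mul hg hx, Finsupp.add_apply, divisor_apply]
  constructor <;> intro h <;> omega

lemma disj_aux {E : Place k K →₀ ℤ} {c j : ℤ} {D : Place k K →₀ ℤ} {C : Submodule k K}
    (hE : 0 ≤ E) (hc : 0 ≤ c) (hD0 : 0 ≤ D) (hD : ∀ P, E P ≠ 0 → D P = 0)
    (hC : C ≤ LL (-D + (j + c) • E)) (hdis : Disjoint (LL (-D + j • E)) C) : Disjoint (LL (j • E)) C := by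
  rw [Submodule.disjoint_def]
  intro x hx hxC
  refine (Submodule.disjoint_def.1 hdis) x ?_ hxC
  have h3 := hC hxC
  rw [mem_LL] at hx h3 ⊢
  rcases hx with h0 | hx
  · exact Or.inl h0
  rcases h3 with h0 | h3
  · exact Or.inl h0
  right
  intro P
  have h4 := hx P
  have h5 := h3 P
  simp only [Finsupp.add_apply, Finsupp.neg_apply, Finsupp.smul_apply, smul_eq_mul, Finsupp.coe_zero,
    Pi.zero_apply] at h4 h5 ⊢
  by_cases hE : E P = 0
  · rw [hE] at h5 ⊢; simpa using h5
  · have := hD P hE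
    rw [this]; linarith

/-- **Reciprocity.** -/
theorem recip (hs : Setup b E c w w' w'' ν χ γ N) (hE : 0 < ddeg E) {D D' : Place k K →₀ ℕ}
    (hD : ∀ P, E P ≠ 0 → nd D P = 0) (hD' : ∀ P, E P ≠ 0 → nd D' P = 0) {g : K} (hg : g ≠ 0)
    (hdiv : divisor k g = nd D' - nd D) (hg1 : g - 1 ∈ LL (nd D - (3 * c) • E)) :
    chiD χ D = chiD χ D' := by
  classical
  have hnd : ∀ D : Place k K →₀ ℕ, (0 : Place k K →₀ ℤ) ≤ nd D := fun D Q => by simp [nd]
  have hdeg : ddeg (nd D') = ddeg (nd D) := by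
    have := ddeg_divisor (k := k) g
    rw [hdiv, ddeg_sub] at this
    linarith
  -- the choice of `j`
  obtain ⟨j, hj⟩ : ∃ j : ℤ, N ≤ ddeg (-nd D + j • E) := by
    refine ⟨(N.toNat + (ddeg (nd D)).toNat : ℕ), ?_⟩
    rw [ddeg_add, ddeg_neg, natCast_zsmul, ddeg_nsmul]
    have h1 : ((N.toNat + (ddeg (nd D)).toNat : ℕ) : ℤ) * 1 ≤ (N.toNat + (ddeg (nd D)).toNat : ℕ) * ddeg E :=
      mul_le_mul_of_nonneg_left (by omega) (by positivity)
    push_cast at h1 ⊢
    have h2 := Int.self_le_toNat N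
    have h3 := Int.self_le_toNat (ddeg (nd D))
    linarith
  have hj' : N ≤ ddeg (-nd D' + j • E) := by
    rw [ddeg_add, ddeg_neg, hdeg, ← ddeg_neg, ← ddeg_add]; exact hj
  have hcE : 0 ≤ c • E := by
    intro P
    simp only [Finsupp.smul_apply, Finsupp.coe_zero, Pi.zero_apply, smul_eq_mul]
    exact mul_nonneg hs.c_nonneg (hs.E_nonneg P)
  have hle : ∀ A : Place k K →₀ ℤ, A + j • E ≤ A + (j + c) • E := by
    intro A
    rw [add_smul, ← add_assoc]
    exact le_add_of_nonneg_right hcE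
  obtain ⟨C, hC1, hC2, hC3⟩ := exists_compl (LL_mono (hle (-nd D)))
  have hCd := disj_aux hs.E_nonneg hs.c_nonneg (hnd D) hD hC1 hC2
  obtain ⟨p, hp1, hp2⟩ := exists_proj _ _ hCd
  have hcomp : Comp E c j (nd D) C p N := ⟨hC1, hC2, hC3, hp1, hp2, hj⟩
  -- the complement for `D'`
  have e1 : ∀ i : ℤ, -nd D' + i • E + divisor k g = -nd D + i • E := by intro i; rw [hdiv]; abel
  let m : K ≃ₗ[k] K := LinearEquiv.ofLinear (LinearMap.mulLeft k g) (LinearMap.mulLeft k g⁻¹)
    (by ext x; simp [hg]) (by ext x; simp [hg])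
  have hm : ∀ x, m x = g * x := fun x => rfl
  have hmem : ∀ (i : ℤ) x, x ∈ LL (-nd D + i • E) ↔ m x ∈ LL (-nd D' + i • E) := by
    intro i x
    rw [hm, mul_mem_iff hg, e1]
  let C' : Submodule k K := C.map m.toLinearMap
  have hC1' : C' ≤ LL (-nd D' + (j + c) • E) := by
    rintro _ ⟨x, hx, rfl⟩
    exact (hmem _ _).1 (hC1 hx)
  have hC2' : Disjoint (LL (-nd D' + j • E)) C' := by
    rw [Submodule.disjoint_def]
    rintro _ h1 ⟨x, hx, rfl⟩
    have h2 := (hmem _ _).2 h1
    have h3 := (Submodule.disjoint_def.1 hC2) x h2 hx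
    rw [h3, map_zero]
  have hfin : ∀ i : ℤ, Module.finrank k (LL (-nd D' + i • E)) = Module.finrank k (LL (-nd D + i • E)) := by
    intro i
    have h1 := ell_add_divisor (-nd D' + i • E) hg
    rw [e1] at h1
    unfold ell at h1
    exact_mod_cast h1.symm
  have hC3' : Module.finrank k C' + Module.finrank k (LL (-nd D' + j • E)) =
      Module.finrank k (LL (-nd D' + (j + c) • E)) := by
    rw [hfin, hfin, ← hC3, LinearEquiv.finrank_map_eq]
  have hCd' := disj_aux hs.E_nonneg hs.c_nonneg (hnd D') hD' hC1' hC2'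
  obtain ⟨p', hp1', hp2'⟩ := exists_proj _ _ hCd'
  have hcomp' : Comp E c j (nd D') C' p' N := ⟨hC1', hC2', hC3', hp1', hp2', hj'⟩
  -- preservation
  have hneg : ∀ D : Place k K →₀ ℕ, -nd D ≤ 0 := fun D => neg_nonpos.2 (hnd D)
  have hq : ∀ x ∈ (LL (-nd D + j • E)).baseChange Λ, opX b w p x ∈ (LL (-nd D + j • E)).baseChange Λ :=
    hcomp.opX_mem hs hD le_rfl (hneg D) hs.hw
  have hq' : ∀ x ∈ (LL (-nd D' + j • E)).baseChange Λ, opX b w p' x ∈ (LL (-nd D' + j • E)).baseChange Λ :=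
    hcomp'.opX_mem hs hD' le_rfl (hneg D') hs.hw
  have hz : ∀ D : Place k K →₀ ℕ, -nd D + nd D + j • E = j • E := fun D => by rw [neg_add_cancel, zero_add]
  have hr : ∀ x ∈ (LL (-nd D + nd D + j • E)).baseChange Λ,
      opX b w p x ∈ (LL (-nd D + nd D + j • E)).baseChange Λ :=
    hcomp.opX_mem hs hD (by rw [neg_add_cancel]; exact hneg D) (by rw [neg_add_cancel]) hs.hw
  have hr' : ∀ x ∈ (LL (-nd D' + nd D' + j • E)).baseChange Λ,
      opX b w p' x ∈ (LL (-nd D' + nd D' + j • E)).baseChange Λ :=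
    hcomp'.opX_mem hs hD' (by rw [neg_add_cancel]; exact hneg D') (by rw [neg_add_cancel]) hs.hw
  have hr0 : ∀ x ∈ (LL (j • E)).baseChange Λ, opX b w p x ∈ (LL (j • E)).baseChange Λ := by
    rw [← hz D]; exact hr
  have hr0' : ∀ x ∈ (LL (j • E)).baseChange Λ, opX b w p' x ∈ (LL (j • E)).baseChange Λ := by
    rw [← hz D']; exact hr'
  have k1 := hcomp.chain hs hD _ D rfl le_rfl hr hq
  have k2 := hcomp'.chain hs hD' _ D' rfl le_rfl hr' hq'
  have k3 : dt (LL (j • E)) (opX b w p) hr0 = dt (LL (-nd D + nd D + j • E)) (opX b w p) hr :=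
    dt_eq (by rw [hz]) _ _
  have k4 : dt (LL (j • E)) (opX b w p') hr0' = dt (LL (-nd D' + nd D' + j • E)) (opX b w p') hr' :=
    dt_eq (by rw [hz]) _ _
  -- transport
  have hpm : ∀ x ∈ LL (-nd D + (j + c) • E), p' (m x) = m (p x) := by
    intro x hx
    rw [← hcomp.decomp hs hD le_rfl (hneg D)] at hx
    obtain ⟨a, ha, z, hzC, rfl⟩ := Submodule.mem_sup.1 hx
    have ha1 : p a = a := hp1 a (LL_mono (by simpa using add_le_add_left (hneg D) (j • E)) ha)
    have ha2 : p' (m a) = m a := hp1' _ (LL_mono (by simpa using add_le_add_left (hneg D') (j • E))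
      ((hmem _ _).1 ha))
    have hz1 : p' (m z) = 0 := hp2' _ ⟨z, hzC, rfl⟩
    rw [map_add, map_add, map_add, ha1, ha2, hz1, hp2 z hzC, add_zero, add_zero]
  have k5 : dt (LL (-nd D' + j • E)) (opX b w p') hq' = dt (LL (-nd D + j • E)) (opX b w p) hq := by
    refine dt_transport m (hmem j) _ _ _ _ ?_
    intro x hx
    have hWx := mulW (j := j) hs hs.hw hx
    have hcomm : (∑ i, b i ⊗ₜ[k] w i) * m.toLinearMap.baseChange Λ x =
        m.toLinearMap.baseChange Λ ((∑ i, b i ⊗ₜ[k] w i) * x) := by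
      have : ∀ y : Λ ⊗[k] K, m.toLinearMap.baseChange Λ y = (1 ⊗ₜ[k] g) * y := by
        intro y
        induction y using TensorProduct.induction_on with
        | zero => simp
        | tmul a y => simp [hm]
        | add x y hx hy => rw [map_add, mul_add, hx, hy]
      rw [this, this]; ring
    rw [opX_apply, opX_apply, hcomm, ← LinearMap.comp_apply, ← LinearMap.comp_apply,
      ← LinearMap.baseChange_comp, ← LinearMap.baseChange_comp]
    exact bc_congr Λ _ _ hpm hWx
  -- perturbation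
  have hT : LL ((j + c) • E - (3 * c) • E) ≤ LL (j • E) := by
    apply LL_mono
    intro P
    have h1 := mul_nonneg hs.c_nonneg (hs.E_nonneg P)
    simp only [Finsupp.sub_apply, Finsupp.smul_apply, smul_eq_mul] at h1 ⊢
    nlinarith
  have hδ0 : ∀ x ∈ LL (j • E), (p' - p) x = 0 := by
    intro x hx
    rw [LinearMap.sub_apply, hp1 x hx, hp1' x hx, sub_self]
  have hδ1 : ∀ x ∈ LL (0 + (j + c) • E), (p' - p) x ∈ LL ((j + c) • E - (3 * c) • E) := by
    intro x hx
    rw [← hcomp'.decomp hs hD' (hneg D') le_rfl, zero_add] at hx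
    obtain ⟨a, ha, _, ⟨z, hzC, rfl⟩, rfl⟩ := Submodule.mem_sup.1 hx
    have h1 : (g - 1) * z ∈ LL ((j + c) • E - (3 * c) • E) := by
      have := LL_mul hg1 (hC1 hzC)
      rwa [show nd D - (3 * c) • E + (-nd D + (j + c) • E) = (j + c) • E - (3 * c) • E by abel] at this
    have h2 : m.toLinearMap z = z + (g - 1) * z := by
      show g * z = _; ring
    rw [map_add, hδ0 a ha, zero_add, LinearMap.sub_apply, hp2' _ ⟨z, hzC, rfl⟩, h2, map_add, hp2 z hzC,
      hp1 _ (hT h1), zero_add, zero_sub]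
    exact Submodule.neg_mem _ h1
  let δ := (p' - p).baseChange Λ
  let Z : (Λ ⊗[k] K) →ₗ[Λ] (Λ ⊗[k] K) :=
    (LinearMap.mulLeft Λ (∑ i, b i ⊗ₜ[k] w' i)).comp (δ.comp (LinearMap.mulLeft Λ (∑ i, b i ⊗ₜ[k] w i)))
  have hZ : ∀ x, Z x = (∑ i, b i ⊗ₜ[k] w' i) * δ ((∑ i, b i ⊗ₜ[k] w i) * x) := fun x => rfl
  have hZ1 : ∀ x ∈ (LL (j • E)).baseChange Λ, Z x ∈ (LL ((j - c) • E)).baseChange Λ := by
    intro x hx
    rw [hZ]
    have h1 : (∑ i, b i ⊗ₜ[k] w i) * x ∈ (LL (0 + (j + c) • E)).baseChange Λ :=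
      mulW hs hs.hw (by rwa [zero_add])
    have h2 : δ ((∑ i, b i ⊗ₜ[k] w i) * x) ∈ (LL ((j + c) • E - (3 * c) • E)).baseChange Λ :=
      bc_map Λ _ hδ1 h1
    refine bc_mul b (fun i v hv => ?_) h2
    have := LL_mul (hs.hw' i) hv
    rwa [show c • E + ((j + c) • E - (3 * c) • E) = (j - c) • E by rw [← sub_smul, ← add_smul]; congr 1; ring] at this
  have hZ2 : ∀ x ∈ (LL ((j - c) • E)).baseChange Λ, Z x = 0 := by
    intro x hx
    rw [hZ]
    have h1 : (∑ i, b i ⊗ₜ[k] w i) * x ∈ (LL (j • E)).baseChange Λ := by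
      have := mulW (b := b) (A := 0) (j := j - c) hs hs.hw (x := x) (by rwa [zero_add])
      rwa [zero_add, sub_add_cancel] at this
    have h2 : δ ((∑ i, b i ⊗ₜ[k] w i) * x) = (0 : K →ₗ[k] K).baseChange Λ ((∑ i, b i ⊗ₜ[k] w i) * x) :=
      bc_congr Λ _ _ (fun y hy => by rw [hδ0 y hy]; rfl) h1
    rw [h2, LinearMap.baseChange_zero, LinearMap.zero_apply, mul_zero]
  have hle2 : LL ((j - c) • E) ≤ LL (j • E) := by
    apply LL_mono
    intro P
    have h1 := mul_nonneg hs.c_nonneg (hs.E_nonneg P)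
    simp only [Finsupp.smul_apply, smul_eq_mul] at h1 ⊢
    nlinarith
  have hZ3 : ∀ x ∈ (LL (j • E)).baseChange Λ,
      (LinearMap.id + Z : (Λ ⊗[k] K) →ₗ[Λ] (Λ ⊗[k] K)) x ∈ (LL (j • E)).baseChange Λ := by
    intro x hx
    rw [LinearMap.add_apply, LinearMap.id_apply]
    exact Submodule.add_mem _ hx (Submodule.baseChange_mono Λ hle2 (hZ1 x hx))
  have k6 : dt (LL (j • E)) (opX b w p') hr0' = dt (LL (j • E)) (opX b w p) hr0 := by
    rw [← mul_one (dt (LL (j • E)) (opX b w p) hr0), ← dt_unip b Z hle2 hZ1 hZ2 hZ3, ← dt_mul]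
    apply dt_congr
    intro x hx
    rw [LinearMap.comp_apply, LinearMap.add_apply, LinearMap.id_apply, map_add]
    have h1 : (∑ i, b i ⊗ₜ[k] w i) * x ∈ (LL (0 + (j + c) • E)).baseChange Λ :=
      mulW hs hs.hw (by rwa [zero_add])
    have h2 : δ ((∑ i, b i ⊗ₜ[k] w i) * x) ∈ (LL ((j + c) • E - (3 * c) • E)).baseChange Λ :=
      bc_map Λ _ hδ1 h1
    have h3 : opX b w p (Z x) = δ ((∑ i, b i ⊗ₜ[k] w i) * x) := by
      rw [opX_apply, hZ, ← mul_assoc, hs.inv, one_mul]
      have := bc_congr Λ p LinearMap.id (fun y hy => hp1 y hy) (Submodule.baseChange_mono Λ hT h2)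
      rw [this, LinearMap.baseChange_id, LinearMap.id_apply]
    rw [h3, opX_apply, opX_apply]
    show _ = _ + (p' - p).baseChange Λ _
    rw [LinearMap.baseChange_sub, LinearMap.sub_apply]
    abel
  -- units
  have hu : IsUnit (dt (LL (-nd D + j • E)) (opX b w p) hq) := by
    refine dt_isUnit hs.nil (opX b w p) (opX b w'' p) hq (hcomp.opX_mem hs hD le_rfl (hneg D) hs.hw'') ?_
    intro x hx
    rw [opX_apply, opX_apply, hs.unip, add_mul, one_mul, map_add, smul_mul_assoc, map_smul]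
    congr 1
    have := bc_congr Λ p LinearMap.id (fun y hy => hp1 y hy) (Submodule.baseChange_mono Λ
      (LL_mono (by simpa using add_le_add_left (hneg D) (j • E))) hx)
    rw [this, LinearMap.baseChange_id, LinearMap.id_apply]
  apply hu.mul_left_cancel
  rw [← k1, ← k3, ← k6, k4, k2, k5]

end recip

end Pool.Agent.H707R3
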