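import Pool.Agent.H707R3.Layers3

/-!
Integral elements of trace one at unramified places.
-/

set_option linter.all false

namespace Pool.Agent.H707R3

section

variable {p : ℕ} [Fact p.Prime] {k F E : Type*} [Field k] [Field F] [Algebra k F]
  [Field E] [Algebra F E]
  (Φ : (E ≃ₐ[F] E) ≃* Multiplicative ℤ_[p]) [IsGalois F E]

omit [IsGalois F E] in
lemma isIntegral_conj {R : ValuationSubring F} {x : E} (hx : IsIntegral R x) (δ : E ≃ₐ[F] E) :
    IsIntegral R (δ x) := by
  have := hx.map ((δ : E →ₐ[F] E).restrictScalars R)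
  exact this

omit [IsGalois F E] in
lemma isIntegral_coe {R : ValuationSubring F} {L : IntermediateField F E} {x : L} :
    IsIntegral R (x : E) ↔ IsIntegral R x := by
  exact isIntegral_algHom_iff ((L.val).restrictScalars R) Subtype.val_injective

/-- If an automorphism acts trivially on the integral elements of `L` modulo the maximal ideal of `W`,
then it fixes `L`. -/
lemma mem_fixing_of_integral (v : Place k F) (hv : v.IsUnramified E) (W : ValuationSubring E)
    (hW : W.comap (algebraMap F E) = v.ring) (L : IntermediateField F E) (δ : E ≃ₐ[F] E)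
    (h : ∀ x ∈ L, IsIntegral v.ring x → W.valuation (δ x - x) < 1)
    (hcomm : ∀ σ τ : E ≃ₐ[F] E, σ * τ = τ * σ) : δ ∈ L.fixingSubgroup := by
  classical
  set W' : ValuationSubring E := W.comap (δ : E →+* E) with hW'
  have hW'R : W'.comap (algebraMap F E) = v.ring := comap_comap_algEquiv hW δ
  have hc1 : (W.comap (algebraMap L E)).comap (algebraMap F L) = v.ring := by
    rw [← hW]; rfl
  have hc2 : (W'.comap (algebraMap L E)).comap (algebraMap F L) = v.ring := by
    rw [← hW'R]; rfl
  have hval : ∀ x : E, IsIntegral v.ring x → x ∈ L → (W.valuation (δ x) < 1 ↔ W.valuation x < 1) := by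
    intro x hx hxL
    have h1 := h x hxL hx
    constructor
    · intro h2
      have : x = δ x - (δ x - x) := by ring
      rw [this]
      exact Valuation.map_sub_lt _ h2 h1
    · intro h2
      have : δ x = (δ x - x) + x := by ring
      rw [this]
      exact Valuation.map_add_lt _ h1 h2
  have heq : W.comap (algebraMap L E) = W'.comap (algebraMap L E) := by
    refine eq_of_center hc1 hc2 fun b hb => ?_
    rw [comap_val_lt, comap_val_lt, hW', val_comap_lt_one]
    exact hval b (isIntegral_coe.2 hb) b.2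
  obtain ⟨ρ, hρ⟩ := exists_algEquiv_of_comap_eq (F := L) (M := E) (W := W) (W' := W')
    (R := W.comap (algebraMap L E)) rfl heq.symm
  set δ' : E ≃ₐ[F] E := δ * toBase L ρ with hδ'
  have hδ'W : ∀ x, x ∈ W ↔ δ' x ∈ W := by
    intro x
    rw [hρ x]
    rfl
  have hδ'L : ∀ x ∈ L, δ' x = δ x := by
    intro x hx
    show δ (toBase L ρ x) = δ x
    rw [(IntermediateField.mem_fixingSubgroup_iff _ _).1 (toBase_mem L ρ) x hx]
  have hin : ∀ σ : E ≃ₐ[F] E, (∀ a ∈ W, W.valuation (σ a - a) < 1) → σ = 1 := hv W hW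
  have hfix := mem_fixing_of_trivial hin L δ' hδ'W ?_
  · have h1 : δ = δ' * (toBase L ρ)⁻¹ := by rw [hδ']; group
    rw [h1]
    exact mul_mem hfix (inv_mem (toBase_mem L ρ))
  intro x hx hxW
  rw [hδ'L x hx]
  obtain ⟨y, z, hy, hz, hyz, hvy⟩ := exists_frac (F := F) (M := L) (R := v.ring) (W := W.comap (algebraMap L E)) hc1
    (x := ⟨x, hx⟩) hxW
  have hvy' : W.valuation (y : E) = 1 := by
    apply le_antisymm
    · have : (y : E) ∈ W := by
        have h2 : y ∈ W.comap (algebraMap L E) := by
          rw [← ValuationSubring.valuation_le_one_iff]; exact hvy.le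
        exact h2
      exact (W.valuation_le_one_iff _).2 this
    · rw [← not_lt]
      intro h2
      rw [← comap_val_lt] at h2
      rw [hvy] at h2
      exact lt_irrefl _ h2
  have hyz' : x * (y : E) = z := congrArg Subtype.val hyz
  have h1 : δ x ∈ W := by rw [← hδ'L x hx]; exact (hδ'W x).1 hxW
  have h2 := h y y.2 (isIntegral_coe.2 hy)
  have h3 := h z z.2 (isIntegral_coe.2 hz)
  have h4 : (δ x - x) * (y : E) = (δ z - z) - δ x * (δ y - y) := by
    rw [← hyz', map_mul]; ring
  have h5 : W.valuation ((δ x - x) * (y : E)) < 1 := by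
    rw [h4]
    refine Valuation.map_sub_lt _ h3 ?_
    rw [map_mul]
    exact lt_of_le_of_lt (mul_le_mul' ((W.valuation_le_one_iff _).2 h1) le_rfl) (by rwa [one_mul])
  rwa [map_mul, hvy', mul_one] at h5

/-- A local element of unit trace. -/
lemma exists_trace_unit (v : Place k F) (hv : v.IsUnramified E) (W : ValuationSubring E)
    (hW : W.comap (algebraMap F E) = v.ring) (L : IntermediateField F E) {n : ℕ}
    (hL : Module.finrank F L = p ^ n) (σ : E ≃ₐ[F] E) (hσ : coord Φ σ = 1) :
    ∃ θ ∈ L, IsIntegral v.ring θ ∧ ¬ W.valuation (∑ i ∈ Finset.range (p ^ n), (σ ^ i) θ) < 1 := by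
  classical
  by_contra hcon
  push Not at hcon
  have hmem : ∀ (δ : E ≃ₐ[F] E) (x : integralClosure v.ring L), δ ((x : L) : E) ∈ W := fun δ x =>
    isIntegral_mem (fun a ha => (mem_of_comap_eq hW a).2 ha) (isIntegral_conj (isIntegral_coe.2 x.2) δ)
  let ψ : (E ≃ₐ[F] E) → (integralClosure v.ring L →* IsLocalRing.ResidueField W) := fun δ =>
    { toFun := fun x => IsLocalRing.residue W ⟨δ ((x : L) : E), hmem δ x⟩
      map_one' := by
        rw [← map_one (IsLocalRing.residue W)]
        congr 1
        apply Subtype.ext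
        simp
      map_mul' := by
        intro x y
        rw [← map_mul]
        congr 1
        apply Subtype.ext
        simp }
  have hψ : ∀ δ x, ψ δ x = IsLocalRing.residue W ⟨δ ((x : L) : E), hmem δ x⟩ := fun δ x => rfl
  have hcomm := gal_comm Φ
  let f : Fin (p ^ n) → (integralClosure v.ring L →* IsLocalRing.ResidueField W) := fun i => ψ (σ ^ (i : ℕ))
  have hinj : Function.Injective f := by
    have key : ∀ a b : Fin (p ^ n), a < b → f a ≠ f b := by
      intro a b hab hf
      have hab' : (a : ℕ) < b := hab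
      have h1 : σ ^ ((b : ℕ) - a) ∈ L.fixingSubgroup := by
        refine mem_fixing_of_integral v hv W hW L _ ?_ hcomm
        intro x hx hxi
        -- `x = σ ^ a y`
        set y : E := (σ ^ (a : ℕ))⁻¹ x with hy
        have hyL : y ∈ L := by
          have hfx := InfiniteGalois.fixedField_fixingSubgroup L
          rw [← hfx, IntermediateField.mem_fixedField_iff]
          intro τ hτ
          show τ ((σ ^ (a : ℕ))⁻¹ x) = _
          have : τ ((σ ^ (a : ℕ))⁻¹ x) = (σ ^ (a : ℕ))⁻¹ (τ x) := by
            show (τ * (σ ^ (a : ℕ))⁻¹) x = ((σ ^ (a : ℕ))⁻¹ * τ) x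
            rw [hcomm]
          rw [this, (IntermediateField.mem_fixingSubgroup_iff _ _).1 hτ x hx]
        have hyi : IsIntegral v.ring y := isIntegral_conj hxi _
        have h2 := DFunLike.congr_fun hf ⟨⟨y, hyL⟩, isIntegral_coe.1 hyi⟩
        rw [hψ, hψ, residue_eq_iff] at h2
        have h3 : (σ ^ (a : ℕ)) y = x := by
          show ((σ ^ (a : ℕ)) * (σ ^ (a : ℕ))⁻¹) x = x
          rw [mul_inv_cancel]; rfl
        have h4 : (σ ^ (b : ℕ)) y = (σ ^ ((b : ℕ) - a)) x := by
          rw [← h3]
          show _ = (σ ^ ((b : ℕ) - a) * σ ^ (a : ℕ)) y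
          rw [← pow_add, Nat.sub_add_cancel hab'.le]
        have h5 : W.valuation ((σ ^ (a : ℕ)) y - (σ ^ (b : ℕ)) y) < 1 := h2
        rw [h3, h4] at h5
        rwa [Valuation.map_sub_swap] at h5
      rw [mem_fixing_iff Φ L n hL, coord_pow, hσ, mul_one] at h1
      have h2 : p ^ n ∣ (b : ℕ) - a := by
        rw [← Nat.cast_pow] at h1
        have := (PadicInt.pow_p_dvd_int_iff n (((b : ℕ) - a : ℕ) : ℤ)).1 (by push_cast at h1 ⊢; exact h1)
        exact_mod_cast this
      have := Nat.le_of_dvd (by omega) h2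
      have := b.2
      omega
    intro a b h
    rcases lt_trichotomy a b with h' | h' | h'
    · exact absurd h (key _ _ h')
    · exact h'
    · exact absurd h.symm (key _ _ h')
  have hli := (linearIndependent_monoidHom (integralClosure v.ring L) (IsLocalRing.ResidueField W)).comp f hinj
  have h3 := Fintype.linearIndependent_iff.1 hli (fun _ => 1) (by
    ext x
    simp only [Finset.sum_apply, Pi.smul_apply, one_smul, Function.comp_apply, Pi.zero_apply]
    have h4 := hcon ((x : L) : E) (x : L).2 (isIntegral_coe.2 x.2)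
    have h5 : ∀ i, (σ ^ i) ((x : L) : E) ∈ W := fun i => hmem _ x
    have h6 : ∑ i ∈ Finset.range (p ^ n), (σ ^ i) ((x : L) : E) ∈ W := sum_mem fun i _ => h5 i
    have h7 : IsLocalRing.residue W ⟨_, h6⟩ = 0 := by
      rw [← map_zero (IsLocalRing.residue W)]
      have h8 := (residue_eq_iff (W := W) h6 (zero_mem W)).2 (by rwa [sub_zero])
      exact h8
    rw [← h7]
    have h8 : (⟨∑ i ∈ Finset.range (p ^ n), (σ ^ i) ((x : L) : E), h6⟩ : W) =
        ∑ i : Fin (p ^ n), ⟨(σ ^ (i : ℕ)) ((x : L) : E), h5 i⟩ := by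
      apply Subtype.ext
      rw [AddSubmonoidClass.coe_finset_sum]
      exact Finset.sum_range _
    rw [h8, map_sum]
    rfl)
  exact one_ne_zero (h3 ⟨0, pow_pos (Fact.out : p.Prime).pos _⟩)

end

end Pool.Agent.H707R3
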