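import Pool.Agent.H707R3.TraceLoc
import Pool.Agent.H707R3.Count
import Pool.Agent.H707R3.Bridge
import Pool.Agent.H707R3.TowerL
import Pool.Agent.H707R3.PlacesFin

/-!
Elements of trace one which are integral outside the ramification locus.
-/

set_option linter.all false
set_option linter.overlappingInstances false

open FFP

namespace Pool.Agent.H707R3

section ff

open FF

variable {k K : Type*} [Field k] [Field K] [Algebra k K] [PerfectField k] [IsFF k K]
  {γ N : ℤ} (hR : ∀ D : FF.Place k K →₀ ℤ, N ≤ ddeg D → ell D = ddeg D - γ)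

include hR in
lemma exists_unit_at {DE : FF.Place k K →₀ ℤ} (hE : 0 ≤ DE) (hdeg : 0 < ddeg DE) (P₀ : FF.Place k K)
    (hP₀ : DE P₀ = 0) (T : Finset K) (hT : ∀ a ∈ T, P₀.Reg a) :
    ∃ c : K, c ≠ 0 ∧ P₀.ord c = 0 ∧ ∀ P, DE P = 0 → P.Reg c ∧ ∀ a ∈ T, P.Reg (c * a) := by
  classical
  let D : FF.Place k K →₀ ℤ := ∑ a ∈ T, polar a
  have hDapp : ∀ P, D P = ∑ a ∈ T, polar a P := fun P => by simp [D, Finsupp.finset_sum_apply]
  have hD0 : D P₀ = 0 := by
    rw [hDapp]
    refine Finset.sum_eq_zero fun a ha => ?_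
    rw [polar_apply]
    rcases hT a ha with h | h
    · rw [h, P₀.ord_zero]; simp
    · exact max_eq_right (by omega)
  have hDge : ∀ P, ∀ a ∈ T, polar a P ≤ D P := by
    intro P a ha
    rw [hDapp]
    exact Finset.single_le_sum (f := fun a => polar a P) (fun b _ => by
      show (0 : ℤ) ≤ polar b P
      rw [polar_apply]; exact le_max_right _ _) ha
  have hDnn : ∀ P, 0 ≤ D P := by
    intro P
    rw [hDapp]
    exact Finset.sum_nonneg fun a _ => by rw [polar_apply]; exact le_max_right _ _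
  obtain ⟨r, hr⟩ : ∃ r : ℕ, N ≤ ddeg (r • DE - D - Finsupp.single P₀ 1) := by
    refine ⟨(N + ddeg D + P₀.deg).toNat, ?_⟩
    rw [ddeg_sub, ddeg_sub, ddeg_nsmul, ddeg_single]
    have h1 : ((N + ddeg D + P₀.deg).toNat : ℤ) * 1 ≤ (N + ddeg D + P₀.deg).toNat * ddeg DE :=
      mul_le_mul_of_nonneg_left (by omega) (by positivity)
    have h2 := Int.self_le_toNat (N + ddeg D + P₀.deg)
    linarith
  obtain ⟨t, ht0, ht⟩ := P₀.surj
  obtain ⟨ℓ, hℓ, hsurj⟩ := exists_lead' hR (A := r • DE - D - Finsupp.single P₀ 1) (B := r • DE - D) P₀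
    (by abel) hr ht0 ht
  have hB : (r • DE - D) P₀ = 0 := by
    rw [Finsupp.sub_apply, Finsupp.smul_apply, hP₀, hD0]; simp
  rw [hB] at hℓ
  simp only [zpow_zero, mul_one] at hℓ
  obtain ⟨x, hx, hx1⟩ := hsurj 1
  have hreg : P₀.Reg x := by
    rcases (mem_LL_iff_OGe.1 hx) P₀ with h | h
    · exact Or.inl h
    · right; rw [hB] at h; simpa using h
  rw [hℓ x hreg] at hx1
  have hx0 : x ≠ 0 := by
    rintro rfl
    rw [P₀.red_zero] at hx1
    exact zero_ne_one hx1
  have hord : P₀.ord x = 0 := by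
    have h1 : ¬ P₀.red x = 0 := by rw [hx1]; exact one_ne_zero
    rw [P₀.red_eq_zero_iff hreg] at h1
    push Not at h1
    have h2 := hreg.resolve_left hx0
    have h3 := h1.2
    omega
  refine ⟨x, hx0, hord, fun P hP => ?_⟩
  have h1 := ((mem_LL_iff_OGe.1 hx) P).resolve_left hx0
  rw [Finsupp.sub_apply, Finsupp.smul_apply, hP] at h1
  simp only [smul_zero, zero_sub, neg_neg] at h1
  refine ⟨Or.inr ((hDnn P).trans h1), fun a ha => ?_⟩
  by_cases ha0 : a = 0
  · left; simp [ha0]
  · right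
    rw [P.ord_mul hx0 ha0]
    have h2 := hDge P a ha
    rw [polar_apply] at h2
    have h3 := le_max_left (- P.ord a) 0
    linarith

include hR in
lemma exists_pole (P₁ : FF.Place k K) : ∃ f : K, (∀ P, P ≠ P₁ → P.Reg f) ∧ ¬ P₁.Reg f := by
  classical
  obtain ⟨r, hr⟩ : ∃ r : ℕ, N ≤ ddeg ((r : ℤ) • Finsupp.single P₁ 1 : FF.Place k K →₀ ℤ) := by
    refine ⟨N.toNat, ?_⟩
    rw [natCast_zsmul, ddeg_nsmul, ddeg_single]
    have h1 : (N.toNat : ℤ) * 1 ≤ N.toNat * (1 * P₁.deg) := by
      refine mul_le_mul_of_nonneg_left ?_ (by positivity)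
      have := deg_pos P₁
      omega
    have h2 := Int.self_le_toNat N
    linarith
  obtain ⟨t, ht0, ht⟩ := P₁.surj
  obtain ⟨ℓ, hℓ, hsurj⟩ := exists_lead' hR (A := (r : ℤ) • Finsupp.single P₁ 1) (B := ((r : ℤ) + 1) • Finsupp.single P₁ 1) P₁
    (by rw [add_smul, one_smul]) hr ht0 ht
  have hB : (((r : ℤ) + 1) • Finsupp.single P₁ 1 : FF.Place k K →₀ ℤ) P₁ = r + 1 := by simp
  rw [hB] at hℓ
  obtain ⟨x, hx, hx1⟩ := hsurj 1
  have hx0 : x ≠ 0 := by
    rintro rfl
    rw [map_zero] at hx1
    exact zero_ne_one hx1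
  have hx' := fun P => ((mem_LL_iff_OGe.1 hx) P).resolve_left hx0
  have hreg : P₁.Reg (x * t ^ ((r : ℤ) + 1)) := by
    right
    rw [P₁.ord_mul hx0 (zpow_ne_zero _ ht0), P₁.ord_zpow, ht]
    have := hx' P₁
    rw [hB] at this
    linarith
  rw [hℓ x hreg] at hx1
  refine ⟨x, fun P hP => ?_, ?_⟩
  · right
    have := hx' P
    simpa [Finsupp.single_eq_of_ne hP] using this
  · intro h
    have h1 := h.resolve_left hx0
    have h2 : P₁.red (x * t ^ ((r : ℤ) + 1)) = 0 := by
      rw [P₁.red_eq_zero_iff hreg]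
      right
      rw [P₁.ord_mul hx0 (zpow_ne_zero _ ht0), P₁.ord_zpow, ht]
      have : (0 : ℤ) ≤ r := by positivity
      linarith
    rw [h2] at hx1
    exact zero_ne_one hx1

end ff

section glob

variable {p : ℕ} [Fact p.Prime] {k F E : Type*} [Field k] [Finite k] [Field F] [Algebra k F]
  [Field E] [Algebra F E] [Algebra k E] [IsScalarTower k F E]
  (Φ : (E ≃ₐ[F] E) ≃* Multiplicative ℤ_[p])
  (hF : IsCurveFunctionField k F)

/-- Scaling an algebraic element to an integral one. -/
lemma isIntegral_scale {v : Place k F} {θ : E} {c : F} (hθ : IsAlgebraic F θ) (hc : c ∈ v.ring)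
    (h : ∀ i, c * (minpoly F θ).coeff i ∈ v.ring ∨ i = (minpoly F θ).natDegree) :
    IsIntegral v.ring (algebraMap F E c * θ) := by
  classical
  set P := minpoly F θ with hP
  have hmonic : P.Monic := minpoly.monic hθ.isIntegral
  let Q := P.scaleRoots c
  have hQmonic : Q.Monic := (Polynomial.monic_scaleRoots_iff c).2 hmonic
  have hQcoeff : (↑Q.coeffs : Set F) ⊆ v.ring.toSubring := by
    intro a ha
    obtain ⟨i, -, rfl⟩ := Polynomial.mem_coeffs_iff.1 ha
    rw [Polynomial.coeff_scaleRoots]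
    rcases h i with h1 | h1
    · rcases lt_trichotomy i P.natDegree with h2 | h2 | h2
      · have : P.coeff i * c ^ (P.natDegree - i) = (c * P.coeff i) * c ^ (P.natDegree - i - 1) := by
          obtain ⟨m, hm⟩ : ∃ m, P.natDegree - i = m + 1 := ⟨P.natDegree - i - 1, by omega⟩
          rw [hm, pow_succ, Nat.add_sub_cancel]; ring
        rw [this]
        exact v.ring.mul_mem _ _ h1 (pow_mem hc _)
      · subst h2
        rw [hmonic.coeff_natDegree]; simp
      · rw [Polynomial.coeff_eq_zero_of_natDegree_lt h2, zero_mul]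
        exact v.ring.zero_mem
    · subst h1
      rw [hmonic.coeff_natDegree]; simp
  have hroot : Polynomial.aeval (algebraMap F E c * θ) Q = 0 :=
    Polynomial.scaleRoots_aeval_eq_zero (minpoly.aeval F θ)
  refine ⟨Q.toSubring v.ring.toSubring hQcoeff, (Polynomial.monic_toSubring _ _ _).2 hQmonic, ?_⟩
  have h2 : (Q.toSubring v.ring.toSubring hQcoeff).map v.ring.toSubring.subtype = Q :=
    Polynomial.map_toSubring _ _ _
  rw [← h2, Polynomial.aeval_def, Polynomial.eval₂_map] at hroot
  exact hroot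

end glob

section glob2

variable {p : ℕ} [Fact p.Prime] {k F E : Type*} [Field k] [Finite k] [Field F] [Algebra k F]
  [Field E] [Algebra F E] [Algebra k E] [IsScalarTower k F E]
  (Φ : (E ≃ₐ[F] E) ≃* Multiplicative ℤ_[p])
  (hF : IsCurveFunctionField k F)

omit [Algebra k E] [IsScalarTower k F E] [Finite k] in
lemma alg_of_mem (L : IntermediateField F E) [FiniteDimensional F L] {x : E} (hx : x ∈ L) :
    IsAlgebraic F x := by
  have h1 : IsAlgebraic F (⟨x, hx⟩ : L) := Algebra.IsAlgebraic.isAlgebraic _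
  exact (isAlgebraic_algHom_iff L.val Subtype.val_injective).2 h1

/-- Elements of `L` fixed by `σ` lie in `F`. -/
lemma mem_base_of_fixed [IsGalois F E] (L : IntermediateField F E) {n : ℕ}
    (hL : Module.finrank F L = p ^ n) (σ : E ≃ₐ[F] E) (hσ : coord Φ σ = 1) {x : E} (hx : x ∈ L)
    (h : σ x = x) : ∃ a : F, algebraMap F E a = x := by
  have hpow : ∀ i : ℕ, (σ ^ i) x = x := by
    intro i
    induction i with
    | zero => rfl
    | succ i ih =>
      rw [pow_succ]
      show (σ ^ i) (σ x) = x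
      rw [h, ih]
  have h1 : ∀ τ : E ≃ₐ[F] E, τ x = x := by
    intro τ
    have h2 : (σ ^ (res n (coord Φ τ)))⁻¹ * τ ∈ L.fixingSubgroup := by
      rw [mem_fixing_iff Φ L n hL, coord_mul, coord_inv, coord_pow, hσ, mul_one]
      obtain ⟨c, hc⟩ := exists_mul_pow n (coord Φ τ)
      refine ⟨c, ?_⟩
      linear_combination hc
    have h3 := (IntermediateField.mem_fixingSubgroup_iff _ _).1 h2 x hx
    have h4 : τ x = (σ ^ (res n (coord Φ τ))) (((σ ^ (res n (coord Φ τ)))⁻¹ * τ) x) := by
      show τ x = (σ ^ (res n (coord Φ τ)) * ((σ ^ (res n (coord Φ τ)))⁻¹ * τ)) x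
      rw [mul_inv_cancel_left]
    rw [h4, h3, hpow]
  have h5 : x ∈ IntermediateField.fixedField (⊤ : Subgroup (E ≃ₐ[F] E)) := by
    rw [IntermediateField.mem_fixedField_iff]
    intro τ _
    exact h1 τ
  rw [InfiniteGalois.fixedField_bot] at h5
  exact h5

include hF Φ in
theorem exists_theta [IsGalois F E] (hS : {v : Place k F | ¬ v.IsUnramified E}.Finite)
    (hS0 : ∃ v : Place k F, ¬ v.IsUnramified E)
    (L : IntermediateField F E) {n : ℕ}
    (hL : Module.finrank F L = p ^ n) (σ : E ≃ₐ[F] E) (hσ : coord Φ σ = 1) :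
    ∃ θ ∈ L, (∀ v : Place k F, v.IsUnramified E → IsIntegral v.ring θ) ∧
      ∑ i ∈ Finset.range (p ^ n), (σ ^ i) θ = 1 := by
  classical
  haveI : FF.IsFF k F := hF.isFF
  obtain ⟨γ, N, -, hR⟩ := riemann k F
  haveI : FiniteDimensional F L := by
    apply Module.finite_of_finrank_pos
    rw [hL]; exact pow_pos (Fact.out : p.Prime).pos _
  have hcomm := gal_comm Φ
  -- stability of `L`
  have hstab : ∀ (τ : E ≃ₐ[F] E) x, x ∈ L → τ x ∈ L := by
    intro τ x hx
    rw [← InfiniteGalois.fixedField_fixingSubgroup L, IntermediateField.mem_fixedField_iff]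
    intro ρ hρ
    show ρ (τ x) = τ x
    have : ρ (τ x) = τ (ρ x) := by
      show (ρ * τ) x = (τ * ρ) x
      rw [hcomm]
    rw [this, (IntermediateField.mem_fixingSubgroup_iff _ _).1 hρ x hx]
  have hσN : ∀ x ∈ L, (σ ^ p ^ n) x = x := by
    intro x hx
    have h1 : σ ^ p ^ n ∈ L.fixingSubgroup := by
      rw [mem_fixing_iff Φ L n hL, coord_pow, hσ, mul_one, Nat.cast_pow]
    exact (IntermediateField.mem_fixingSubgroup_iff _ _).1 h1 x hx
  let Tr : E → E := fun θ => ∑ i ∈ Finset.range (p ^ n), (σ ^ i) θ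
  have hTr : ∀ θ, Tr θ = ∑ i ∈ Finset.range (p ^ n), (σ ^ i) θ := fun θ => rfl
  have hTrF : ∀ θ ∈ L, ∃ a : F, algebraMap F E a = Tr θ := by
    intro θ hθ
    apply mem_base_of_fixed Φ L hL σ hσ (sum_mem fun i _ => hstab _ _ hθ)
    rw [map_sum]
    have h1 : ∀ i, σ ((σ ^ i) θ) = (σ ^ (i + 1)) θ := fun i => by rw [pow_succ']; rfl
    simp only [h1]
    have h2 := Finset.sum_range_succ (fun i => (σ ^ i) θ) (p ^ n)
    have h3 := Finset.sum_range_succ' (fun i => (σ ^ i) θ) (p ^ n)
    rw [h2, hσN θ hθ] at h3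
    simpa using h3.symm
  have hTrs : ∀ (c : F) θ, Tr (algebraMap F E c * θ) = algebraMap F E c * Tr θ := by
    intro c θ
    simp only [hTr, map_mul, AlgEquiv.commutes, Finset.mul_sum]
  -- the ring of functions regular outside the ramification locus
  let A : Subring F :=
    { carrier := {a | ∀ v : Place k F, v.IsUnramified E → a ∈ v.ring}
      zero_mem' := fun v _ => v.ring.zero_mem
      one_mem' := fun v _ => v.ring.one_mem
      add_mem' := fun ha hb v hv => v.ring.add_mem _ _ (ha v hv) (hb v hv)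
      mul_mem' := fun ha hb v hv => v.ring.mul_mem _ _ (ha v hv) (hb v hv)
      neg_mem' := fun ha v hv => v.ring.neg_mem _ (ha v hv) }
  have hA : ∀ a, a ∈ A ↔ ∀ v : Place k F, v.IsUnramified E → a ∈ v.ring := fun a => Iff.rfl
  let Bset : Set E := {θ | θ ∈ L ∧ ∀ v : Place k F, v.IsUnramified E → IsIntegral v.ring θ}
  have hBadd : ∀ x ∈ Bset, ∀ y ∈ Bset, x + y ∈ Bset := fun x hx y hy =>
    ⟨add_mem hx.1 hy.1, fun v hv => (hx.2 v hv).add (hy.2 v hv)⟩
  have hBmul : ∀ a ∈ A, ∀ y ∈ Bset, algebraMap F E a * y ∈ Bset := fun a ha y hy =>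
    ⟨mul_mem (L.algebraMap_mem a) hy.1, fun v hv =>
      (isIntegral_algebraMap (R := v.ring) (A := E) (x := ⟨a, ha v hv⟩)).mul (hy.2 v hv)⟩
  let I : Ideal A :=
    { carrier := {a | ∃ θ ∈ Bset, algebraMap F E (a : F) = Tr θ}
      zero_mem' := ⟨0, ⟨zero_mem _, fun v hv => isIntegral_zero⟩, by simp [hTr]⟩
      add_mem' := by
        rintro a b ⟨x, hx, hxa⟩ ⟨y, hy, hyb⟩
        refine ⟨x + y, hBadd x hx y hy, ?_⟩
        simp only [hTr, map_add, Finset.sum_add_distrib, Subring.coe_add] at hxa hyb ⊢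
        rw [hxa, hyb]
      smul_mem' := by
        rintro a b ⟨x, hx, hxb⟩
        refine ⟨algebraMap F E a * x, hBmul a a.2 x hx, ?_⟩
        rw [hTrs, ← hxb, ← map_mul]; rfl }
  have hI : ∀ a : A, a ∈ I ↔ ∃ θ ∈ Bset, algebraMap F E (a : F) = Tr θ := fun a => Iff.rfl
  -- divisor supported on the ramification locus
  let DE : FF.Place k F →₀ ℤ := ∑ v ∈ hS.toFinset, Finsupp.single (toFF v) 1
  have hDE : ∀ P, DE P = if (ofFF P).IsUnramified E then 0 else 1 := by
    intro P
    simp only [DE, Finsupp.finset_sum_apply]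
    by_cases hP : (ofFF P).IsUnramified E
    · rw [if_pos hP]
      refine Finset.sum_eq_zero fun v hv => ?_
      rw [Finsupp.single_eq_of_ne]
      rintro rfl
      rw [ofFF_toFF] at hP
      rw [Set.Finite.mem_toFinset] at hv
      exact hv hP
    · rw [if_neg hP, Finset.sum_eq_single (ofFF P)]
      · rw [toFF_ofFF, Finsupp.single_eq_same]
      · intro v hv hne
        rw [Finsupp.single_eq_of_ne]
        rintro rfl
        exact hne (ofFF_toFF v).symm
      · intro h
        exact absurd ((Set.Finite.mem_toFinset hS).2 hP) h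
  have hDE0 : 0 ≤ DE := by
    intro P
    rw [hDE]
    split_ifs <;> simp
  have hDEdeg : 0 < ddeg DE := by
    obtain ⟨v₁, hv₁⟩ := hS0
    have h1 : Finsupp.single (toFF v₁) 1 ≤ DE := by
      intro P
      by_cases hP : P = toFF v₁
      · subst hP
        rw [Finsupp.single_eq_same, hDE, ofFF_toFF, if_neg hv₁]
      · rw [Finsupp.single_eq_of_ne hP]; exact hDE0 P
    have h2 := ddeg_mono h1
    rw [ddeg_single] at h2
    have := deg_pos (toFF v₁)
    omega
  have hunr : ∀ v : Place k F, v.IsUnramified E → DE (toFF v) = 0 := by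
    intro v hv
    rw [hDE, ofFF_toFF, if_pos hv]
  have hreg : ∀ (v : Place k F) (a : F), a ∈ v.ring ↔ (toFF v).Reg a := by
    intro v a
    rw [← toFF_O v]; rfl
  have hval : ∀ (v : Place k F) (a : F), a ≠ 0 → (toFF v).ord a = 0 → v.ring.valuation a = 1 := by
    intro v a ha h0
    apply le_antisymm
    · rw [ValuationSubring.valuation_le_one_iff, hreg]; exact Or.inr h0.ge
    · have h1 : a⁻¹ ∈ v.ring := by rw [hreg]; right; rw [(toFF v).ord_inv, h0]; simp
      have h2 := (v.ring.valuation_le_one_iff _).2 h1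
      rw [map_inv₀] at h2
      exact (inv_le_one₀ ((v.ring.valuation.pos_iff).2 ha)).1 h2
  -- elements of the ideal which are units at a given unramified place
  have key : ∀ v : Place k F, v.IsUnramified E → ∃ a : A, a ∈ I ∧ v.ring.valuation (a : F) = 1 := by
    intro v hv
    obtain ⟨W, hW⟩ := exists_extension v.ring E
    obtain ⟨θ, hθL, hθi, hθt⟩ := exists_trace_unit Φ v hv W hW L hL σ hσ
    have hθa : IsAlgebraic F θ := alg_of_mem L hθL
    have hcoef : ∀ i, (minpoly F θ).coeff i ∈ v.ring := by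
      intro i
      have h1 := minpoly.isIntegrallyClosed_eq_field_fractions' F hθi
      rw [h1, Polynomial.coeff_map]
      exact ((minpoly v.ring θ).coeff i).2
    obtain ⟨c, hc0, hcord, hc⟩ := exists_unit_at hR hDE0 hDEdeg (toFF v) (hunr v hv)
      ((Finset.range ((minpoly F θ).natDegree + 1)).image fun i => (minpoly F θ).coeff i)
      (by
        intro a ha
        obtain ⟨i, -, rfl⟩ := Finset.mem_image.1 ha
        exact (hreg v _).1 (hcoef i))
    have hcA : c ∈ A := fun v' hv' => (hreg v' c).2 (hc (toFF v') (hunr v' hv')).1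
    have hB : algebraMap F E c * θ ∈ Bset := by
      refine ⟨mul_mem (L.algebraMap_mem c) hθL, fun v' hv' => ?_⟩
      refine isIntegral_scale hθa ((hA c).1 hcA v' hv') fun i => ?_
      left
      by_cases hi : i ≤ (minpoly F θ).natDegree
      · exact (hreg v' _).2 ((hc (toFF v') (hunr v' hv')).2 _
          (Finset.mem_image.2 ⟨i, Finset.mem_range.2 (by omega), rfl⟩))
      · rw [Polynomial.coeff_eq_zero_of_natDegree_lt (by omega), mul_zero]
        exact v'.ring.zero_mem
    obtain ⟨a₀, ha₀⟩ := hTrF θ hθL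
    have ha₀v : a₀ ∈ v.ring := by
      rw [← mem_of_comap_eq hW a₀, ha₀]
      exact sum_mem fun i _ => isIntegral_mem (comap_le hW) (isIntegral_conj hθi _)
    have hca : c * a₀ ∈ A := by
      intro v' hv'
      obtain ⟨W', hW'⟩ := exists_extension v'.ring E
      rw [← mem_of_comap_eq hW', map_mul, ha₀, ← hTrs]
      exact sum_mem fun i _ => isIntegral_mem (comap_le hW') (isIntegral_conj (hB.2 v' hv') _)
    refine ⟨⟨c * a₀, hca⟩, ⟨_, hB, ?_⟩, ?_⟩
    · show algebraMap F E (c * a₀) = _
      rw [hTrs, map_mul, ha₀]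
    · show v.ring.valuation (c * a₀) = 1
      rw [map_mul, hval v c hc0 hcord, one_mul]
      apply le_antisymm
      · exact (v.ring.valuation_le_one_iff _).2 ha₀v
      · rw [← not_lt]
        intro h
        rw [← val_lt_one_iff hW, ha₀] at h
        exact hθt h
  -- the ideal is the unit ideal
  have htop : I = ⊤ := by
    by_contra hne
    obtain ⟨P, hPmax, hIP⟩ := Ideal.exists_le_maximal I hne
    haveI : P.IsPrime := hPmax.isPrime
    have hlift : ∀ y : P.primeCompl, IsUnit (A.subtype y) := by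
      intro y
      rw [isUnit_iff_ne_zero]
      intro h0
      have : (y : A) = 0 := Subtype.ext h0
      exact y.2 (by rw [this]; exact P.zero_mem)
    obtain ⟨V, hV, hloc⟩ := IsLocalRing.exists_factor_valuationRing
      (IsLocalization.lift (M := P.primeCompl) (S := Localization.AtPrime P) hlift)
    have hAV : ∀ a : A, (a : F) ∈ V := by
      intro a
      have := hV (algebraMap A _ a)
      rw [IsLocalization.lift_eq] at this
      exact this
    have hPV : ∀ a ∈ P, V.valuation (a : F) < 1 := by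
      intro a ha
      rw [val_lt_one_iff_of_field]
      rintro ⟨ha0, hinv⟩
      have hu : IsUnit ((IsLocalization.lift (M := P.primeCompl) (S := Localization.AtPrime P) hlift).codRestrict
          V.toSubring hV (algebraMap A _ a)) := by
        refine IsUnit.of_mul_eq_one (⟨(a : F)⁻¹, hinv⟩ : V.toSubring) (Subtype.ext ?_)
        show (IsLocalization.lift (M := P.primeCompl) (S := Localization.AtPrime P) hlift) (algebraMap A _ a) * (a : F)⁻¹ = 1
        rw [IsLocalization.lift_eq]
        exact mul_inv_cancel₀ ha0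
      have h1 := hloc.map_nonunit _ hu
      rw [IsLocalization.AtPrime.isUnit_to_map_iff (Localization.AtPrime P) P a] at h1
      exact h1 ha
    have hconst : ∀ c : k, algebraMap k F c ∈ V := fun c =>
      hAV ⟨algebraMap k F c, fun v _ => v.const_mem c⟩
    -- `V` is not trivial
    have hVtop : V ≠ ⊤ := by
      haveI := infinite_place hF
      obtain ⟨v, hv⟩ : ∃ v : Place k F, v.IsUnramified E := by
        by_contra hc
        push Not at hc
        exact Set.infinite_univ (hS.subset (fun v _ => hc v))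
      obtain ⟨a, haI, hav⟩ := key v hv
      intro htop
      have h1 := hPV a (hIP haI)
      rw [val_lt_one_iff_of_field] at h1
      apply h1
      refine ⟨?_, by rw [htop]; trivial⟩
      intro h0
      rw [h0, map_zero] at hav
      exact zero_ne_one hav
    let v : Place k F := ⟨V, hconst, hVtop⟩
    by_cases hv : v.IsUnramified E
    · obtain ⟨a, haI, hav⟩ := key v hv
      exact (hPV a (hIP haI)).ne hav
    · obtain ⟨f, hf1, hf2⟩ := exists_pole hR (toFF v)
      apply hf2
      rw [← hreg]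
      refine hAV ⟨f, fun v' hv' => ?_⟩
      rw [hreg]
      apply hf1
      intro h
      apply hv
      have : v' = v := by rw [← ofFF_toFF v', h, ofFF_toFF]
      rwa [← this]
  have h1 : (1 : A) ∈ I := by rw [htop]; trivial
  obtain ⟨θ, hθ, hθ1⟩ := h1
  refine ⟨θ, hθ.1, hθ.2, ?_⟩
  rw [← hTr, ← hθ1]
  simp

end glob2

end Pool.Agent.H707R3
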