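import Pool.Agent.H707R3.PolyL

/-!
Ramification of the splitting fields of the zeta functions of a `ℤ_p`-tower.
-/

set_option linter.all false

open PowerSeries

namespace Pool.Agent.H707R3

variable {p : ℕ} [Fact p.Prime]

lemma exists_not_dvd {x : ℤ_[p]} (hx : x ≠ 0) : ∃ N, ∀ n, N ≤ n → ¬ (p : ℤ_[p]) ^ n ∣ x := by
  obtain ⟨n, hn⟩ := FiniteMultiplicity.of_not_isUnit (PadicInt.prime_p (p := p)).not_unit hx
  exact ⟨n + 1, fun m hm h => hn ((pow_dvd_pow _ hm).trans h)⟩

/-- The ramification index is at most the degree. -/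
lemma ramIdx_le_finrank (A : Multiset ℂ_[p]) (h : ∀ α ∈ A, IsIntegral ℚ_[p] α) :
    ramIdx (genField A) ≤ Module.finrank ℚ_[p] (genField A) := by
  have hfin : Finite {α | α ∈ A} := by
    classical
    exact (A.toFinset.finite_toSet.subset (fun x hx => by simpa using hx)).to_subtype
  have hfd : FiniteDimensional ℚ_[p] (genField A) :=
    IntermediateField.finiteDimensional_adjoin (fun x hx => h x hx)
  have hdep : DepBound (⊥ : IntermediateField ℚ_[p] ℂ_[p]) (genField A)
      (Module.finrank ℚ_[p] (genField A)) := by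
    intro x hx
    let y : Fin (Module.finrank ℚ_[p] (genField A) + 1) → genField A := fun i => ⟨x i, hx i⟩
    have hdep : ¬ LinearIndependent ℚ_[p] y := by
      intro hli
      have := hli.fintype_card_le_finrank
      simp at this
    rw [Fintype.not_linearIndependent_iff] at hdep
    obtain ⟨g, hg, i, hi⟩ := hdep
    refine ⟨fun i => algebraMap ℚ_[p] ℂ_[p] (g i), fun i => IntermediateField.algebraMap_mem _ _,
      ⟨i, by simpa using hi⟩, ?_⟩
    have := congrArg (fun z : genField A => (z : ℂ_[p])) hg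
    simpa [y, Algebra.smul_def] using this
  exact (relIndex_le hdep).2

variable {k F E : Type*} [Field k] [Finite k] [CharP k p] [Field F] [Algebra k F]
  [Field E] [Algebra F E] [Algebra k E] [IsScalarTower k F E]

/-- The field generated by the reciprocal zeros of the zeta functions of the layers of a `ℤ_p`-tower
has ramification index at least `c p ^ n`. -/
theorem zeta_bound (h : IsZpTower k F E p) (hS0 : ∃ v : Place k F, ¬ v.IsUnramified E)
    (L : ℕ → IntermediateField F E) (hL : ∀ n, Module.finrank F (L n) = p ^ n)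
    (A : ℕ → Multiset ℂ_[p])
    (hA : ∀ n, zetaFun p k (L n) * ((1 - X) * (1 - C (Nat.card k : ℂ_[p]) * X)) = recipProd (A n)) :
    ∃ c : ℝ, 0 < c ∧ ∃ N : ℕ, ∀ n, N ≤ n → c * (p : ℝ) ^ n ≤ ramIdx (genField (A n)) := by
  haveI := h.galois
  obtain ⟨Φ₀⟩ := h.group
  let Φ : (E ≃ₐ[F] E) ≃* Multiplicative ℤ_[p] := Φ₀.toMulEquiv
  obtain ⟨v, v', hv, hv', hne⟩ := exists_incongruent Φ h.base h.algClosed L hL h.finite_ramified A hA
  obtain ⟨N, hN⟩ := exists_not_dvd (sub_ne_zero.2 hne)
  refine zeta_bound_of_poly h L hL Φ ⟨N + 1, fun n hn z hz => ?_⟩ A hA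
  obtain ⟨m, rfl⟩ : ∃ m, n = m + 1 := ⟨n - 1, by omega⟩
  exact eulerL_poly Φ h.base h.finite_ramified hS0 (L (m + 1)) (hL (m + 1)) hv hv' (hN (m + 1) (by omega)) hz

/-- The reciprocal zeros are algebraic. -/
theorem zeta_integral (h : IsZpTower k F E p)
    (L : ℕ → IntermediateField F E) (hL : ∀ n, Module.finrank F (L n) = p ^ n)
    (A : ℕ → Multiset ℂ_[p])
    (hA : ∀ n, zetaFun p k (L n) * ((1 - X) * (1 - C (Nat.card k : ℂ_[p]) * X)) = recipProd (A n)) (n : ℕ) :
    ∀ α ∈ A n, IsIntegral ℚ_[p] α := by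
  haveI := finiteDimensional_layer L hL n
  have hcurve := curve_L (k := k) h.base h.algClosed L hL n
  apply isIntegral_of_coeff
  intro j
  rw [← hA n]
  refine algebraic_coeff_mul (algebraic_zeta hcurve) (fun i => ?_) j
  have h1 : (1 - X) * (1 - C (Nat.card k : ℂ_[p]) * X) =
      ((1 - C (1 + Nat.card k : ℂ_[p]) * X + C (Nat.card k : ℂ_[p]) * X ^ 2 : PowerSeries ℂ_[p])) := by
    rw [map_add, map_one]; ring
  rw [h1, map_add, map_sub, coeff_C_mul, coeff_C_mul, coeff_X, coeff_X_pow, coeff_one]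
  have ha : IsAlgebraic ℚ_[p] (1 + (Nat.card k : ℂ_[p])) := by
    have := algebraic_natCast (p := p) (1 + Nat.card k)
    push_cast at this
    exact this
  have hb : IsAlgebraic ℚ_[p] (Nat.card k : ℂ_[p]) := algebraic_natCast _
  refine (IsAlgebraic.sub ?_ (ha.mul ?_)).add (hb.mul ?_) <;> split_ifs <;>
    first | exact isAlgebraic_one | exact isAlgebraic_zero

end Pool.Agent.H707R3
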